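import Pool.Agent.X159.SicPhase

set_option autoImplicit false

/-! The mixing lemma for the triple products of a maximal equiangular tight frame. -/

namespace Pool.Agent.X159.SicMix

open scoped InnerProductSpace ComplexConjugate
open Pool.Agent.X159.SicReal Pool.Agent.X159.SicPhase

variable {d : ℕ} {x : Fin (d ^ 2) → EuclideanSpace ℂ (Fin d)}

/-- the trilinear form -/
noncomputable def T (x : Fin (d ^ 2) → EuclideanSpace ℂ (Fin d)) (f g h : Fin (d ^ 2) → ℂ) : ℂ :=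
  ∑ i, ∑ j, ∑ k, f i * g j * h k * tp x i j k

lemma tp_rot (i j k : Fin (d ^ 2)) : tp x i j k = tp x j k i := by
  unfold tp
  ring

lemma T_rot (f g h : Fin (d ^ 2) → ℂ) : T x f g h = T x g h f := by
  unfold T
  rw [Finset.sum_comm]
  refine Finset.sum_congr rfl fun j _ => ?_
  rw [Finset.sum_comm]
  refine Finset.sum_congr rfl fun k _ => Finset.sum_congr rfl fun i _ => ?_
  rw [tp_rot i j k]
  ring

lemma T_add (f f' g h : Fin (d ^ 2) → ℂ) (a : ℂ) :
    T x (fun i => f i + a * f' i) g h = T x f g h + a * T x f' g h := by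
  unfold T
  simp only [Finset.mul_sum, ← Finset.sum_add_distrib]
  refine Finset.sum_congr rfl fun i _ => Finset.sum_congr rfl fun j _ =>
    Finset.sum_congr rfl fun k _ => ?_
  ring

lemma mul_ang (hx : IsETF d x) (j k : Fin (d ^ 2)) : ⟪x j, x k⟫_ℂ * ⟪x k, x j⟫_ℂ =
    1 / ((d : ℂ) + 1) + if j = k then (d : ℂ) / (d + 1) else 0 := by
  have hd1 : (d : ℂ) + 1 ≠ 0 := by exact_mod_cast Nat.succ_ne_zero d
  split_ifs with h
  · subst h
    rw [self_one hx]
    field_simp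
    ring
  · rw [← inner_conj_symm (x k) (x j), RCLike.mul_conj, add_zero]
    have h6 := ang_sq hx h
    have h7 : ((‖⟪x j, x k⟫_ℂ‖ ^ 2 : ℝ) : ℂ) = ((1 / ((d : ℝ) + 1) : ℝ) : ℂ) := by rw [h6]
    push_cast at h7
    exact h7

/-- the bilinear form of the squared moduli -/
lemma W_eq (hx : IsETF d x) (g h : Fin (d ^ 2) → ℂ) :
    ∑ j, ∑ k, g j * h k * (⟪x j, x k⟫_ℂ * ⟪x k, x j⟫_ℂ) =
      1 / ((d : ℂ) + 1) * ((∑ j, g j) * ∑ k, h k) + (d : ℂ) / (d + 1) * ∑ j, g j * h j := by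
  simp only [mul_ang hx, mul_add, Finset.sum_add_distrib]
  congr 1
  · rw [Finset.sum_mul_sum, Finset.mul_sum]
    refine Finset.sum_congr rfl fun j _ => ?_
    rw [Finset.mul_sum]
    refine Finset.sum_congr rfl fun k _ => ?_
    ring
  · rw [Finset.mul_sum]
    refine Finset.sum_congr rfl fun j _ => ?_
    simp only [mul_ite, mul_zero, Finset.sum_ite_eq, Finset.mem_univ, if_true]
    ring

lemma T_one (hd : 0 < d) (hx : IsETF d x) (g h : Fin (d ^ 2) → ℂ) :
    T x (fun _ => 1) g h = d * (1 / ((d : ℂ) + 1) * ((∑ j, g j) * ∑ k, h k) +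
      (d : ℂ) / (d + 1) * ∑ j, g j * h j) := by
  rw [← W_eq hx, T_rot]
  unfold T
  rw [Finset.mul_sum]
  refine Finset.sum_congr rfl fun j _ => ?_
  rw [Finset.mul_sum]
  refine Finset.sum_congr rfl fun k _ => ?_
  have h1 := Pool.Agent.H103R3.FrameCrit.sic_frame hd (by simp) x hx.nrm hx.ang (x k) (x j)
  have e : ∀ i, g j * h k * 1 * tp x j k i = g j * h k * ⟪x j, x k⟫_ℂ *
      (⟪x k, x i⟫_ℂ * ⟪x i, x j⟫_ℂ) := fun i => by
    unfold tp
    ring
  rw [Finset.sum_congr rfl fun i _ => e i, ← Finset.mul_sum, h1]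
  ring

/-- Cauchy-Schwarz for the trace of a product of three matrices -/
lemma cs_three (F G H : Fin d → Fin d → ℂ) :
    ‖∑ c, ∑ a, ∑ b, F c a * G a b * H b c‖ ^ 2 ≤
      (∑ c, ∑ a, ‖F c a‖ ^ 2) * ((∑ a, ∑ b, ‖G a b‖ ^ 2) * ∑ b, ∑ c, ‖H b c‖ ^ 2) := by
  have h1 : ∑ c, ∑ a, ∑ b, F c a * G a b * H b c = ∑ p : Fin d × Fin d, F p.1 p.2 *
      ∑ b, G p.2 b * H b p.1 := by
    rw [Fintype.sum_prod_type]
    refine Finset.sum_congr rfl fun c _ => Finset.sum_congr rfl fun a _ => ?_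
    rw [Finset.mul_sum]
    refine Finset.sum_congr rfl fun b _ => ?_
    ring
  rw [h1]
  have h2 : ‖∑ p : Fin d × Fin d, F p.1 p.2 * ∑ b, G p.2 b * H b p.1‖ ^ 2 ≤
      (∑ p : Fin d × Fin d, ‖F p.1 p.2‖ ^ 2) *
        ∑ p : Fin d × Fin d, ‖∑ b, G p.2 b * H b p.1‖ ^ 2 := by
    refine le_trans (pow_le_pow_left₀ (norm_nonneg _) (norm_sum_le _ _) 2) ?_
    refine le_trans (le_of_eq ?_) (Finset.sum_mul_sq_le_sq_mul_sq _ _ _)
    congr 1
    exact Finset.sum_congr rfl fun p _ => norm_mul _ _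
  refine h2.trans ?_
  rw [Fintype.sum_prod_type]
  refine mul_le_mul_of_nonneg_left ?_ (Finset.sum_nonneg fun _ _ => Finset.sum_nonneg
    fun _ _ => sq_nonneg _)
  have h3 : ∀ p : Fin d × Fin d, ‖∑ b, G p.2 b * H b p.1‖ ^ 2 ≤
      (∑ b, ‖G p.2 b‖ ^ 2) * ∑ b, ‖H b p.1‖ ^ 2 := by
    intro p
    refine le_trans (pow_le_pow_left₀ (norm_nonneg _) (norm_sum_le _ _) 2) ?_
    refine le_trans (le_of_eq ?_) (Finset.sum_mul_sq_le_sq_mul_sq _ _ _)
    congr 1
    exact Finset.sum_congr rfl fun p _ => norm_mul _ _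
  refine (Finset.sum_le_sum fun p _ => h3 p).trans (le_of_eq ?_)
  rw [Fintype.sum_prod_type, Finset.sum_comm, Finset.sum_comm (s := Finset.univ) (t := Finset.univ)
    (f := fun b c => ‖H b c‖ ^ 2), Finset.sum_mul_sum]

/-- the matrix `∑ f_i x_i x_i^*` -/
noncomputable def M (x : Fin (d ^ 2) → EuclideanSpace ℂ (Fin d)) (f : Fin (d ^ 2) → ℂ)
    (a b : Fin d) : ℂ := ∑ i, f i * (x i a * conj (x i b))

lemma T_eq (f g h : Fin (d ^ 2) → ℂ) :
    T x f g h = ∑ c, ∑ a, ∑ b, M x f c a * M x g a b * M x h b c := by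
  have h1 : ∀ i j k, f i * g j * h k * tp x i j k = ∑ c, ∑ a, ∑ b,
      (f i * (x i c * conj (x i a))) * (g j * (x j a * conj (x j b))) *
        (h k * (x k b * conj (x k c))) := by
    intro i j k
    unfold tp
    rw [SicEx.inner_eq_sum, SicEx.inner_eq_sum, SicEx.inner_eq_sum]
    have e : f i * g j * h k * ((∑ a, conj (x i a) * x j a) * (∑ b, conj (x j b) * x k b) *
        ∑ c, conj (x k c) * x i c) = ∑ c, ∑ a, ∑ b, (f i * g j * h k) *
          ((conj (x i a) * x j a) * (conj (x j b) * x k b) * (conj (x k c) * x i c)) := by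
      simp only [← Finset.mul_sum, ← Finset.sum_mul]
    rw [e]
    refine Finset.sum_congr rfl fun c _ => Finset.sum_congr rfl fun a _ =>
      Finset.sum_congr rfl fun b _ => ?_
    ring
  have h2 : ∀ c a b, M x f c a * M x g a b * M x h b c = ∑ i, ∑ j, ∑ k,
      (f i * (x i c * conj (x i a))) * (g j * (x j a * conj (x j b))) *
        (h k * (x k b * conj (x k c))) := by
    intro c a b
    unfold M
    simp only [← Finset.mul_sum, ← Finset.sum_mul]
  unfold T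
  simp only [h1, h2]
  have s1 : ∀ (F : Fin (d ^ 2) → Fin d → ℂ), ∑ i, ∑ c, F i c = ∑ c, ∑ i, F i c := fun F =>
    Finset.sum_comm
  calc ∑ i, ∑ j, ∑ k, ∑ c, ∑ a, ∑ b, (f i * (x i c * conj (x i a))) *
        (g j * (x j a * conj (x j b))) * (h k * (x k b * conj (x k c)))
      = ∑ i, ∑ j, ∑ c, ∑ a, ∑ b, ∑ k, (f i * (x i c * conj (x i a))) *
        (g j * (x j a * conj (x j b))) * (h k * (x k b * conj (x k c))) := by
        refine Finset.sum_congr rfl fun i _ => Finset.sum_congr rfl fun j _ => ?_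
        rw [s1]
        refine Finset.sum_congr rfl fun c _ => ?_
        rw [s1]
        refine Finset.sum_congr rfl fun a _ => ?_
        rw [s1]
    _ = ∑ i, ∑ c, ∑ a, ∑ b, ∑ j, ∑ k, (f i * (x i c * conj (x i a))) *
        (g j * (x j a * conj (x j b))) * (h k * (x k b * conj (x k c))) := by
        refine Finset.sum_congr rfl fun i _ => ?_
        rw [s1]
        refine Finset.sum_congr rfl fun c _ => ?_
        rw [s1]
        refine Finset.sum_congr rfl fun a _ => ?_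
        rw [s1]
    _ = ∑ c, ∑ a, ∑ b, ∑ i, ∑ j, ∑ k, (f i * (x i c * conj (x i a))) *
        (g j * (x j a * conj (x j b))) * (h k * (x k b * conj (x k c))) := by
        rw [s1]
        refine Finset.sum_congr rfl fun c _ => ?_
        rw [s1]
        refine Finset.sum_congr rfl fun a _ => ?_
        rw [s1]

/-- the Hilbert-Schmidt norm -/
lemma M_norm (hx : IsETF d x) (f : Fin (d ^ 2) → ℝ) :
    ∑ a, ∑ b, ‖M x (fun i => (f i : ℂ)) a b‖ ^ 2 =
      1 / ((d : ℝ) + 1) * (∑ j, f j) ^ 2 + (d : ℝ) / (d + 1) * ∑ j, f j ^ 2 := by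
  have h1 : ((∑ a, ∑ b, ‖M x (fun i => (f i : ℂ)) a b‖ ^ 2 : ℝ) : ℂ) =
      ∑ j, ∑ k, (f j : ℂ) * (f k : ℂ) * (⟪x j, x k⟫_ℂ * ⟪x k, x j⟫_ℂ) := by
    have h2 : ∀ a b, ((‖M x (fun i => (f i : ℂ)) a b‖ ^ 2 : ℝ) : ℂ) = ∑ j, ∑ k,
        (f j : ℂ) * (f k : ℂ) * ((conj (x j a) * x k a) * (conj (x k b) * x j b)) := by
      intro a b
      have h3 : ((‖M x (fun i => (f i : ℂ)) a b‖ ^ 2 : ℝ) : ℂ) =
          conj (M x (fun i => (f i : ℂ)) a b) * M x (fun i => (f i : ℂ)) a b := by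
        rw [RCLike.conj_mul]
        push_cast
        rfl
      rw [h3]
      unfold M
      rw [map_sum, Finset.sum_mul_sum]
      refine Finset.sum_congr rfl fun j _ => Finset.sum_congr rfl fun k _ => ?_
      simp only [map_mul, Complex.conj_ofReal, Complex.conj_conj]
      ring
    push_cast at h2 ⊢
    simp only [h2]
    have s1 : ∀ (F : Fin d → Fin (d ^ 2) → ℂ), ∑ i, ∑ c, F i c = ∑ c, ∑ i, F i c := fun F =>
      Finset.sum_comm
    calc ∑ a, ∑ b, ∑ j, ∑ k, (f j : ℂ) * (f k : ℂ) *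
          ((conj (x j a) * x k a) * (conj (x k b) * x j b))
        = ∑ a, ∑ j, ∑ k, ∑ b, (f j : ℂ) * (f k : ℂ) *
          ((conj (x j a) * x k a) * (conj (x k b) * x j b)) := by
          refine Finset.sum_congr rfl fun a _ => ?_
          rw [s1]
          refine Finset.sum_congr rfl fun j _ => ?_
          rw [s1]
      _ = ∑ j, ∑ k, ∑ a, ∑ b, (f j : ℂ) * (f k : ℂ) *
          ((conj (x j a) * x k a) * (conj (x k b) * x j b)) := by
          rw [s1]
          refine Finset.sum_congr rfl fun j _ => ?_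
          rw [s1]
      _ = ∑ j, ∑ k, (f j : ℂ) * (f k : ℂ) * (⟪x j, x k⟫_ℂ * ⟪x k, x j⟫_ℂ) := by
          refine Finset.sum_congr rfl fun j _ => Finset.sum_congr rfl fun k _ => ?_
          rw [SicEx.inner_eq_sum, SicEx.inner_eq_sum, Finset.sum_mul_sum, Finset.mul_sum]
          refine Finset.sum_congr rfl fun a _ => ?_
          rw [Finset.mul_sum]
  rw [W_eq hx] at h1
  apply Complex.ofReal_injective
  rw [h1]
  push_cast
  congr 1
  · ring
  · congr 1
    refine Finset.sum_congr rfl fun j _ => ?_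
    ring

/-- indicator functions -/
noncomputable def ind (S : Finset (Fin (d ^ 2))) (i : Fin (d ^ 2)) : ℝ := if i ∈ S then 1 else 0

/-- centred indicator functions -/
noncomputable def cen (S : Finset (Fin (d ^ 2))) (i : Fin (d ^ 2)) : ℝ :=
  ind S i - S.card / (d : ℝ) ^ 2

lemma sum_ind (S : Finset (Fin (d ^ 2))) : ∑ i, ind S i = S.card := by
  unfold ind
  simp

lemma sum_cen (hd : 0 < d) (S : Finset (Fin (d ^ 2))) : ∑ i, cen S i = 0 := by
  have hd0 : (d : ℝ) ≠ 0 := by exact_mod_cast hd.ne'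
  unfold cen
  rw [Finset.sum_sub_distrib, sum_ind, Finset.sum_const, Finset.card_univ, Fintype.card_fin,
    nsmul_eq_mul]
  push_cast
  field_simp
  ring

lemma sum_cen_mul (hd : 0 < d) (S U : Finset (Fin (d ^ 2))) :
    ∑ i, cen S i * cen U i = (∑ i, ind S i * ind U i) - S.card * U.card / (d : ℝ) ^ 2 := by
  have hd0 : (d : ℝ) ≠ 0 := by exact_mod_cast hd.ne'
  unfold cen
  have h : ∀ i, (ind S i - S.card / (d : ℝ) ^ 2) * (ind U i - U.card / (d : ℝ) ^ 2) =
      ind S i * ind U i - ind S i * (U.card / (d : ℝ) ^ 2) - (S.card / (d : ℝ) ^ 2) * ind U i +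
        (S.card / (d : ℝ) ^ 2) * (U.card / (d : ℝ) ^ 2) := fun i => by ring
  simp only [h]
  rw [Finset.sum_add_distrib, Finset.sum_sub_distrib, Finset.sum_sub_distrib, ← Finset.sum_mul,
    ← Finset.mul_sum, sum_ind, sum_ind, Finset.sum_const, Finset.card_univ, Fintype.card_fin,
    nsmul_eq_mul]
  push_cast
  field_simp
  ring

lemma cen_sq (hd : 0 < d) (S : Finset (Fin (d ^ 2))) : ∑ i, cen S i ^ 2 ≤ S.card := by
  have h := sum_cen_mul hd S S
  have h1 : ∑ i, ind S i * ind S i = S.card := by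
    rw [← sum_ind]
    refine Finset.sum_congr rfl fun i _ => ?_
    unfold ind
    split_ifs <;> simp
  rw [h1] at h
  have h2 : ∑ i, cen S i ^ 2 = ∑ i, cen S i * cen S i := by
    refine Finset.sum_congr rfl fun i _ => ?_
    ring
  rw [h2, h]
  have : 0 ≤ (S.card : ℝ) * S.card / (d : ℝ) ^ 2 := by positivity
  linarith

lemma cen_disj (hd : 0 < d) {S U : Finset (Fin (d ^ 2))} (h : Disjoint S U) :
    ∑ i, cen S i * cen U i = -(S.card * U.card / (d : ℝ) ^ 2) := by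
  rw [sum_cen_mul hd]
  have h1 : ∑ i, ind S i * ind U i = 0 := by
    refine Finset.sum_eq_zero fun i _ => ?_
    unfold ind
    by_cases hi : i ∈ S
    · have : i ∉ U := Finset.disjoint_left.1 h hi
      simp [this]
    · simp [hi]
  rw [h1]
  ring

/-- the expansion at functions with sum zero -/
lemma T_shift (hd : 0 < d) (hx : IsETF d x) (F G H : Fin (d ^ 2) → ℂ) (hF : ∑ i, F i = 0)
    (hG : ∑ i, G i = 0) (hH : ∑ i, H i = 0) (α β γ : ℂ) :
    T x (fun i => F i + α * (fun _ => (1 : ℂ)) i) (fun i => G i + β * (fun _ => (1 : ℂ)) i)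
      (fun i => H i + γ * (fun _ => (1 : ℂ)) i) =
    T x F G H + (d : ℂ) ^ 2 / (d + 1) * (α * (∑ i, G i * H i) + β * (∑ i, H i * F i) +
      γ * (∑ i, F i * G i)) + α * β * γ * (d : ℂ) ^ 4 := by
  have hd1 : (d : ℂ) + 1 ≠ 0 := by exact_mod_cast Nat.succ_ne_zero d
  have hone : ∑ _i : Fin (d ^ 2), (1 : ℂ) = (d : ℂ) ^ 2 := by simp
  rw [T_add, T_rot F, T_add, T_rot G, T_add, T_rot H, T_one hd hx, T_one hd hx, T_one hd hx]
  have s1 : ∑ j, (G j + β * 1) = β * (d : ℂ) ^ 2 := by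
    rw [Finset.sum_add_distrib, hG, ← Finset.mul_sum, hone, zero_add]
  have s2 : ∑ j, (H j + γ * 1) = γ * (d : ℂ) ^ 2 := by
    rw [Finset.sum_add_distrib, hH, ← Finset.mul_sum, hone, zero_add]
  have s3 : ∑ j, (G j + β * 1) * (H j + γ * 1) = (∑ i, G i * H i) + β * γ * (d : ℂ) ^ 2 := by
    have e : ∀ j, (G j + β * 1) * (H j + γ * 1) = G j * H j + γ * G j + β * H j + β * γ * 1 :=
      fun j => by ring
    simp only [e]
    rw [Finset.sum_add_distrib, Finset.sum_add_distrib, Finset.sum_add_distrib, ← Finset.mul_sum,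
      ← Finset.mul_sum, ← Finset.mul_sum, hG, hH, hone]
    ring
  have s4 : ∑ j, (H j + γ * 1) * F j = ∑ i, H i * F i := by
    have e : ∀ j, (H j + γ * 1) * F j = H j * F j + γ * F j := fun j => by ring
    simp only [e]
    rw [Finset.sum_add_distrib, ← Finset.mul_sum, hF]
    ring
  rw [s1, s2, s3, s4, hF]
  field_simp
  ring

/-- the main identity -/
lemma T_expand (hd : 0 < d) (hx : IsETF d x) {S U V : Finset (Fin (d ^ 2))}
    (h1 : Disjoint S U) (h2 : Disjoint U V) (h3 : Disjoint S V) :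
    T x (fun i => (ind S i : ℂ)) (fun i => (ind U i : ℂ)) (fun i => (ind V i : ℂ)) =
      T x (fun i => (cen S i : ℂ)) (fun i => (cen U i : ℂ)) (fun i => (cen V i : ℂ)) +
        ((((d : ℝ) - 2) / ((d : ℝ) ^ 2 * (d + 1)) * (S.card * U.card * V.card) : ℝ) : ℂ) := by
  have hd0 : (d : ℂ) ≠ 0 := by exact_mod_cast hd.ne'
  have hd1 : (d : ℂ) + 1 ≠ 0 := by exact_mod_cast Nat.succ_ne_zero d
  have hdec : ∀ S : Finset (Fin (d ^ 2)), (fun i => (ind S i : ℂ)) =
      fun i => (cen S i : ℂ) + (S.card / (d : ℂ) ^ 2) * (fun _ => (1 : ℂ)) i := by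
    intro S
    funext i
    unfold cen
    push_cast
    ring
  have c1 : ∀ S : Finset (Fin (d ^ 2)), ∑ i, (cen S i : ℂ) = 0 := by
    intro S
    have := sum_cen hd S
    exact_mod_cast this
  have c2 : ∀ S U : Finset (Fin (d ^ 2)), Disjoint S U → ∑ i, (cen S i : ℂ) * (cen U i : ℂ) =
      -(S.card * U.card / (d : ℂ) ^ 2) := by
    intro S U h
    have := cen_disj hd h
    have h' : ((∑ i, cen S i * cen U i : ℝ) : ℂ) = ((-(S.card * U.card / (d : ℝ) ^ 2) : ℝ) : ℂ) := by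
      rw [this]
    push_cast at h'
    exact h'
  rw [hdec S, hdec U, hdec V, T_shift hd hx _ _ _ (c1 S) (c1 U) (c1 V), c2 U V h2,
    c2 V S h3.symm, c2 S U h1]
  push_cast
  field_simp
  ring

/-- **Mixing lemma** for the triple products of a maximal ETF. -/
theorem mixing (hd : 0 < d) (hx : IsETF d x) {S U V : Finset (Fin (d ^ 2))}
    (h1 : Disjoint S U) (h2 : Disjoint U V) (h3 : Disjoint S V) :
    ‖∑ i ∈ S, ∑ j ∈ U, ∑ k ∈ V, ph x i j k -
      (((d : ℝ) - 2) * Real.sqrt ((d : ℝ) + 1) / (d : ℝ) ^ 2 * (S.card * U.card * V.card) : ℝ)‖ ≤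
      Real.sqrt ((d : ℝ) ^ 3 * (S.card * U.card * V.card)) := by
  classical
  have hd0 : (0 : ℝ) < d := by exact_mod_cast hd
  have hd1 : (0 : ℝ) < (d : ℝ) + 1 := by positivity
  set s := Real.sqrt ((d : ℝ) + 1) with hs
  have hs2 : s ^ 2 = (d : ℝ) + 1 := Real.sq_sqrt hd1.le
  have hs0 : 0 ≤ s := Real.sqrt_nonneg _
  have h0 : ∀ (U : Finset (Fin (d ^ 2))) (F : Fin (d ^ 2) → ℂ),
      ∑ j, (ind U j : ℂ) * F j = ∑ j ∈ U, F j := by
    intro U F
    have h : ∀ j, (ind U j : ℂ) * F j = if j ∈ U then F j else 0 := by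
      intro j
      unfold ind
      split_ifs <;> simp
    rw [Finset.sum_congr rfl fun j _ => h j, Finset.sum_ite_mem, Finset.univ_inter]
  have e1 : ∑ i ∈ S, ∑ j ∈ U, ∑ k ∈ V, ph x i j k = ((s ^ 3 : ℝ) : ℂ) *
      T x (fun i => (ind S i : ℂ)) (fun i => (ind U i : ℂ)) (fun i => (ind V i : ℂ)) := by
    unfold T
    rw [← h0 S, Finset.mul_sum]
    refine Finset.sum_congr rfl fun i _ => ?_
    rw [← h0 U, Finset.mul_sum, Finset.mul_sum]
    refine Finset.sum_congr rfl fun j _ => ?_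
    rw [← h0 V, Finset.mul_sum, Finset.mul_sum, Finset.mul_sum]
    refine Finset.sum_congr rfl fun k _ => ?_
    unfold ph
    rw [← hs]
    push_cast
    ring
  have e2 : ((((d : ℝ) - 2) * s / (d : ℝ) ^ 2 * (S.card * U.card * V.card) : ℝ) : ℂ) =
      ((s ^ 3 : ℝ) : ℂ) *
        ((((d : ℝ) - 2) / ((d : ℝ) ^ 2 * (d + 1)) * (S.card * U.card * V.card) : ℝ) : ℂ) := by
    rw [← Complex.ofReal_mul]
    congr 1
    have e : s ^ 3 = ((d : ℝ) + 1) * s := by rw [← hs2]; ring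
    rw [e]
    field_simp
  rw [e1, e2, T_expand hd hx h1 h2 h3, ← mul_sub, add_sub_cancel_right, norm_mul,
    Complex.norm_real, Real.norm_of_nonneg (by positivity)]
  apply Real.le_sqrt_of_sq_le
  rw [mul_pow]
  have k1 := cs_three (M x fun i => (cen S i : ℂ)) (M x fun i => (cen U i : ℂ))
    (M x fun i => (cen V i : ℂ))
  rw [← T_eq] at k1
  have k2 : ∀ S : Finset (Fin (d ^ 2)), ∑ a, ∑ b, ‖M x (fun i => (cen S i : ℂ)) a b‖ ^ 2 ≤
      (d : ℝ) / (d + 1) * S.card := by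
    intro S
    rw [M_norm hx, sum_cen hd]
    have := cen_sq hd S
    have h3 : (d : ℝ) / (d + 1) * ∑ j, cen S j ^ 2 ≤ (d : ℝ) / (d + 1) * S.card :=
      mul_le_mul_of_nonneg_left this (by positivity)
    linarith
  have k0 : ∀ S : Finset (Fin (d ^ 2)), 0 ≤ ∑ a, ∑ b, ‖M x (fun i => (cen S i : ℂ)) a b‖ ^ 2 :=
    fun S => Finset.sum_nonneg fun _ _ => Finset.sum_nonneg fun _ _ => sq_nonneg _
  have k3 : ‖T x (fun i => (cen S i : ℂ)) (fun i => (cen U i : ℂ)) (fun i => (cen V i : ℂ))‖ ^ 2 ≤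
      ((d : ℝ) / (d + 1) * S.card) * (((d : ℝ) / (d + 1) * U.card) *
        ((d : ℝ) / (d + 1) * V.card)) := by
    refine k1.trans ?_
    refine mul_le_mul (k2 S) (mul_le_mul (k2 U) (k2 V) (k0 V) (by positivity))
      (mul_nonneg (k0 U) (k0 V)) (by positivity)
  have k4 := mul_le_mul_of_nonneg_left k3 (by positivity : 0 ≤ (s ^ 3) ^ 2)
  refine k4.trans (le_of_eq ?_)
  have e3 : (s ^ 3) ^ 2 = ((d : ℝ) + 1) ^ 3 := by rw [← hs2]; ring
  rw [e3]
  field_simp

end Pool.Agent.X159.SicMix
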