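import Mathlib

set_option autoImplicit false

/-! Pairs of maximal equiangular tight frames in dimensions two and three with common lines. -/

namespace Pool.Agent.X159.SicEx

open scoped InnerProductSpace ComplexConjugate

/-- a primitive cube root of unity -/
noncomputable def om : ℂ := -1 / 2 + (Real.sqrt 3 / 2 : ℝ) * Complex.I

lemma sq3 : ((Real.sqrt 3 : ℝ) : ℂ) ^ 2 = 3 := by
  rw [← Complex.ofReal_pow, Real.sq_sqrt (by norm_num)]
  norm_num

lemma om_sq : om ^ 2 = -1 - om := by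
  unfold om
  push_cast
  linear_combination (1 / 4 : ℂ) * Complex.I ^ 2 * sq3 + (3 / 4 : ℂ) * Complex.I_sq

lemma om_cube : om ^ 3 = 1 := by
  have : om ^ 3 = om ^ 2 * om := by ring
  rw [this, om_sq]
  linear_combination -om_sq

lemma conj_om : conj om = om ^ 2 := by
  rw [om_sq]
  unfold om
  simp only [map_add, map_mul, Complex.conj_ofReal, Complex.conj_I, map_div₀, map_neg, map_one,
    map_ofNat]
  ring

lemma norm_om : ‖om‖ = 1 := by
  have h : ‖om‖ ^ 3 = 1 := by rw [← norm_pow, om_cube, norm_one]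
  exact (pow_eq_one_iff_of_nonneg (norm_nonneg _) (by norm_num)).1 h

lemma norm_om_pow (k : ℕ) : ‖om ^ k‖ = 1 := by rw [norm_pow, norm_om, one_pow]

lemma conj_om_pow (k : ℕ) : conj (om ^ k) = om ^ (2 * k) := by
  rw [map_pow, conj_om, pow_mul]

lemma om_pow_mod (k : ℕ) : om ^ k = om ^ (k % 3) := by
  conv_lhs => rw [← Nat.div_add_mod k 3, pow_add, pow_mul, om_cube, one_pow, one_mul]

/-- the products of different powers -/
lemma om_prod {k l : Fin 3} (h : k ≠ l) :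
    conj (om ^ (k : ℕ)) * om ^ (l : ℕ) = om ∨ conj (om ^ (k : ℕ)) * om ^ (l : ℕ) = om ^ 2 := by
  rw [conj_om_pow, ← pow_add, om_pow_mod]
  have h1 : (2 * (k : ℕ) + l) % 3 = 1 ∨ (2 * (k : ℕ) + l) % 3 = 2 := by
    revert h
    fin_cases k <;> fin_cases l <;> simp
  rcases h1 with h1 | h1
  · left; rw [h1, pow_one]
  · right; rw [h1]

lemma norm_one_add {k l : Fin 3} (h : k ≠ l) :
    ‖1 + conj (om ^ (k : ℕ)) * om ^ (l : ℕ)‖ = 1 := by
  rcases om_prod h with h1 | h1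
  · rw [h1]
    have : 1 + om = -om ^ 2 := by rw [om_sq]; ring
    rw [this, norm_neg, norm_om_pow]
  · rw [h1]
    have : 1 + om ^ 2 = -om := by rw [om_sq]; ring
    rw [this, norm_neg, norm_om]

lemma norm_sq_re (z : ℂ) : ‖z‖ ^ 2 = z.re ^ 2 + z.im ^ 2 := by
  rw [Complex.sq_norm, Complex.normSq_apply]; ring

lemma norm_one_add_two {k l : Fin 3} (h : k ≠ l) :
    ‖1 + 2 * (conj (om ^ (k : ℕ)) * om ^ (l : ℕ))‖ = Real.sqrt 3 := by
  have key : ∀ z : ℂ, (z = om ∨ z = om ^ 2) → ‖1 + 2 * z‖ = Real.sqrt 3 := by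
    intro z hz
    have h3 : (1 + 2 * z) ^ 2 = -3 := by
      rcases hz with rfl | rfl
      · linear_combination 4 * om_sq
      · rw [om_sq]
        linear_combination 4 * om_sq
    have h4 : ‖1 + 2 * z‖ ^ 2 = 3 := by
      rw [← norm_pow, h3, norm_neg]
      simp
    rw [eq_comm, Real.sqrt_eq_iff_mul_self_eq_of_pos]
    · rw [← h4]; ring
    · rw [norm_pos_iff]
      intro h0
      rw [h0] at h3
      norm_num at h3
  exact key _ (om_prod h)

lemma inner_eq_sum {d : ℕ} (u v : EuclideanSpace ℂ (Fin d)) :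
    ⟪u, v⟫_ℂ = ∑ a, conj (u a) * v a := by
  rw [PiLp.inner_apply]
  refine Finset.sum_congr rfl fun a _ => ?_
  simp [mul_comm]

/-! ### dimension three -/

/-- the vector with a zero at `a` -/
noncomputable def v3 (r : ℝ) (a : Fin 3) (z : ℂ) : EuclideanSpace ℂ (Fin 3) :=
  WithLp.toLp 2 (fun j => if j = a then 0 else if j = a + 1 then (r : ℂ) else (r : ℂ) * z)

lemma v3_inner_self {r : ℝ} (hr : (r : ℂ) * r = 1 / 2) (a : Fin 3) (z w : ℂ) :
    ⟪v3 r a z, v3 r a w⟫_ℂ = (1 + conj z * w) / 2 := by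
  rw [inner_eq_sum, Fin.sum_univ_three]
  fin_cases a <;> simp [v3] <;> linear_combination (1 + conj z * w) * hr

lemma v3_inner_ne {r : ℝ} (hr : (r : ℂ) * r = 1 / 2) {a b : Fin 3} (hab : a ≠ b) (z w : ℂ)
    (hz : ‖z‖ = 1) (hw : ‖w‖ = 1) : ‖⟪v3 r a z, v3 r b w⟫_ℂ‖ = 1 / 2 := by
  have h : ⟪v3 r a z, v3 r b w⟫_ℂ = w / 2 ∨ ⟪v3 r a z, v3 r b w⟫_ℂ = conj z / 2 := by
    rw [inner_eq_sum, Fin.sum_univ_three]
    revert hab
    fin_cases a <;> fin_cases b <;> simp [v3]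
    all_goals first
      | (left; linear_combination w * hr)
      | (right; linear_combination (conj z) * hr)
  rcases h with h | h
  · rw [h, norm_div, hw]; norm_num
  · rw [h, norm_div, RCLike.norm_conj, hz]; norm_num

/-- the square root of one half -/
noncomputable def rr : ℝ := (Real.sqrt 2)⁻¹

lemma rr_mul : (rr : ℂ) * rr = 1 / 2 := by
  rw [rr, ← Complex.ofReal_mul, ← mul_inv, Real.mul_self_sqrt (by norm_num)]
  norm_num

lemma rr_ne : (rr : ℂ) ≠ 0 := by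
  intro h
  have := rr_mul
  rw [h] at this
  norm_num at this

/-- maximal equiangular tight frames -/
def IsETF (d : ℕ) {ι : Type} (x : ι → EuclideanSpace ℂ (Fin d)) : Prop :=
  (∀ i, ‖x i‖ = 1) ∧ ∀ i j, i ≠ j → ‖⟪x i, x j⟫_ℂ‖ = 1 / Real.sqrt ((d : ℝ) + 1)

/-- the signs -/
def sg (s : ℤ) (a : Fin 3) : ℤ := if a = 0 then s else 1

noncomputable def x3 (s : ℤ) (p : Fin 3 × Fin 3) : EuclideanSpace ℂ (Fin 3) :=
  v3 rr p.1 (-(sg s p.1 : ℂ) * om ^ (p.2 : ℕ))

lemma sg_sq {s : ℤ} (hs : s * s = 1) (a : Fin 3) : ((sg s a : ℤ) : ℂ) * (sg s a : ℤ) = 1 := by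
  unfold sg
  split_ifs
  · exact_mod_cast hs
  · simp

lemma norm_sg {s : ℤ} (hs : s * s = 1) (a : Fin 3) (k : ℕ) :
    ‖-(sg s a : ℂ) * om ^ k‖ = 1 := by
  have h := sg_sq hs a
  have h2 : ‖((sg s a : ℤ) : ℂ)‖ ^ 2 = 1 := by
    rw [← norm_pow, sq, h, norm_one]
  have h3 : ‖((sg s a : ℤ) : ℂ)‖ = 1 :=
    (pow_eq_one_iff_of_nonneg (norm_nonneg _) (by norm_num)).1 h2
  rw [norm_mul, norm_neg, h3, norm_om_pow, one_mul]

lemma x3_etf {s : ℤ} (hs : s * s = 1) : IsETF 3 (x3 s) := by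
  have h4 : Real.sqrt (((3 : ℕ) : ℝ) + 1) = 2 := by
    rw [show (((3 : ℕ) : ℝ) + 1) = 2 ^ 2 by norm_num]
    exact Real.sqrt_sq (by norm_num)
  constructor
  · rintro ⟨a, k⟩
    have h : ⟪x3 s (a, k), x3 s (a, k)⟫_ℂ = 1 := by
      rw [x3, v3_inner_self rr_mul, RCLike.conj_mul, norm_sg hs]
      norm_num
    have h' : ‖x3 s (a, k)‖ ^ 2 = 1 := by
      rw [@norm_sq_eq_re_inner ℂ, h]
      simp
    exact (pow_eq_one_iff_of_nonneg (norm_nonneg _) (by norm_num)).1 h'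
  · rintro ⟨a, k⟩ ⟨b, l⟩ hne
    rw [h4]
    by_cases hab : a = b
    · subst hab
      have hkl : k ≠ l := fun h => hne (by rw [h])
      have h : ⟪x3 s (a, k), x3 s (a, l)⟫_ℂ =
          (1 + conj (om ^ (k : ℕ)) * om ^ (l : ℕ)) / 2 := by
        rw [x3, x3, v3_inner_self rr_mul]
        have := sg_sq hs a
        simp only [map_mul, map_neg, map_intCast]
        linear_combination (conj (om ^ (k : ℕ)) * om ^ (l : ℕ)) / 2 * this
      rw [h, norm_div, norm_one_add hkl]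
      norm_num
    · exact v3_inner_ne rr_mul hab _ _ (norm_sg hs _ _) (norm_sg hs _ _)

lemma v3_at0 (r : ℝ) (a : Fin 3) (z : ℂ) : v3 r a z a = 0 := by simp [v3]
lemma v3_at1 (r : ℝ) (a : Fin 3) (z : ℂ) : v3 r a z (a + 1) = r := by
  fin_cases a <;> simp [v3]
lemma v3_at2 (r : ℝ) (a : Fin 3) (z : ℂ) : v3 r a z (a + 2) = r * z := by
  fin_cases a <;> simp [v3]

lemma om_ne : om ≠ 0 := by
  intro h
  have := norm_om
  rw [h, norm_zero] at this
  exact zero_ne_one this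

lemma om_pow_ne {k l : ℕ} : om ^ k ≠ -om ^ l := by
  intro h4
  have h5 : (om ^ k) ^ 3 = (-om ^ l) ^ 3 := by rw [h4]
  rw [neg_pow, ← pow_mul, ← pow_mul, mul_comm k, mul_comm l, pow_mul, pow_mul,
    om_cube, one_pow, one_pow] at h5
  norm_num at h5

lemma x3_shared (p : Fin 3 × Fin 3) :
    (∃ i, ∃ c : ℂ, x3 (-1) p = c • x3 1 i) ↔ p.1 ≠ 0 := by
  obtain ⟨a, k⟩ := p
  constructor
  · rintro ⟨⟨b, l⟩, c, h⟩ ha
    simp only at ha
    subst ha
    have hj : ∀ j, x3 (-1) (0, k) j = c * x3 1 (b, l) j := by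
      intro j
      rw [h]
      rfl
    have k0 : x3 (-1) (0, k) 0 = 0 := v3_at0 _ _ _
    have k1 : x3 (-1) (0, k) 1 = rr := v3_at1 _ 0 _
    have k2 : x3 (-1) (0, k) 2 = rr * om ^ (k : ℕ) := by
      have := v3_at2 rr 0 (-(sg (-1) 0 : ℂ) * om ^ (k : ℕ))
      rw [zero_add] at this
      change v3 rr 0 (-(sg (-1) 0 : ℂ) * om ^ (k : ℕ)) 2 = _
      rw [this]
      simp [sg]
    by_cases hb : b = 0
    · subst hb
      have l1 : x3 1 (0, l) 1 = rr := v3_at1 _ 0 _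
      have l2 : x3 1 (0, l) 2 = rr * -om ^ (l : ℕ) := by
        have := v3_at2 rr 0 (-(sg 1 0 : ℂ) * om ^ (l : ℕ))
        rw [zero_add] at this
        change v3 rr 0 (-(sg 1 0 : ℂ) * om ^ (l : ℕ)) 2 = _
        rw [this]
        simp [sg]
      have h1 := hj 1
      have h2 := hj 2
      rw [k1, l1] at h1
      rw [k2, l2] at h2
      have hc : c = 1 := by
        have : (c - 1) * rr = 0 := by linear_combination -h1
        rcases mul_eq_zero.1 this with h | h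
        · linear_combination h
        · exact absurd h rr_ne
      rw [hc, one_mul] at h2
      exact om_pow_ne (mul_left_cancel₀ rr_ne h2)
    · have h0 := hj 0
      have h1 := hj 1
      rw [k0] at h0
      rw [k1] at h1
      have h3 : (x3 1 (b, l)) 0 ≠ 0 := by
        have hb' : b = 1 ∨ b = 2 := by
          revert hb
          fin_cases b <;> simp
        rcases hb' with rfl | rfl
        · have : x3 1 (1, l) 0 = rr * (-(sg 1 1 : ℂ) * om ^ (l : ℕ)) := v3_at2 rr 1 _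
          rw [this]
          refine mul_ne_zero rr_ne (mul_ne_zero ?_ (pow_ne_zero _ om_ne))
          simp [sg]
        · have : x3 1 (2, l) 0 = rr := v3_at1 rr 2 _
          rw [this]
          exact rr_ne
      have hc : c = 0 := (mul_eq_zero.1 h0.symm).resolve_right h3
      rw [hc, zero_mul] at h1
      exact rr_ne h1
  · intro ha
    refine ⟨(a, k), 1, ?_⟩
    rw [one_smul]
    simp only at ha
    simp [x3, sg, ha]

/-! ### dimension two -/

/-- the vectors of a tetrahedron -/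
noncomputable def w2 (r q : ℝ) (z : ℂ) : EuclideanSpace ℂ (Fin 2) :=
  WithLp.toLp 2 (fun j => if j = 0 then (r : ℂ) else (q : ℂ) * z)

noncomputable def x2 (s : ℤ) : Option (Fin 3) → EuclideanSpace ℂ (Fin 2)
  | none => w2 1 0 0
  | some k => w2 (Real.sqrt 3)⁻¹ ((Real.sqrt 3)⁻¹ * Real.sqrt 2) ((s : ℂ) * om ^ (k : ℕ))

lemma w2_inner (r q r' q' : ℝ) (z z' : ℂ) :
    ⟪w2 r q z, w2 r' q' z'⟫_ℂ = (r : ℂ) * r' + (q : ℂ) * q' * (conj z * z') := by
  rw [inner_eq_sum, Fin.sum_univ_two]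
  simp [w2]
  ring

lemma third : (((Real.sqrt 3)⁻¹ : ℝ) : ℂ) * (((Real.sqrt 3)⁻¹ : ℝ) : ℂ) = 1 / 3 := by
  rw [← Complex.ofReal_mul, ← mul_inv, Real.mul_self_sqrt (by norm_num)]
  norm_num

lemma two_third : (((Real.sqrt 3)⁻¹ * Real.sqrt 2 : ℝ) : ℂ) *
    (((Real.sqrt 3)⁻¹ * Real.sqrt 2 : ℝ) : ℂ) = 2 / 3 := by
  rw [← Complex.ofReal_mul]
  have h2 : Real.sqrt 2 * Real.sqrt 2 = 2 := Real.mul_self_sqrt (by norm_num)
  have h3 : Real.sqrt 3 * Real.sqrt 3 = 3 := Real.mul_self_sqrt (by norm_num)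
  have h4 : (Real.sqrt 3)⁻¹ * Real.sqrt 2 * ((Real.sqrt 3)⁻¹ * Real.sqrt 2) = 2 / 3 := by
    calc (Real.sqrt 3)⁻¹ * Real.sqrt 2 * ((Real.sqrt 3)⁻¹ * Real.sqrt 2)
        = (Real.sqrt 2 * Real.sqrt 2) * (Real.sqrt 3 * Real.sqrt 3)⁻¹ := by rw [mul_inv]; ring
      _ = 2 / 3 := by rw [h2, h3]; ring
  rw [h4]
  norm_num

lemma x2_etf {s : ℤ} (hs : s * s = 1) : IsETF 2 (x2 s) := by
  have h4 : 1 / Real.sqrt (((2 : ℕ) : ℝ) + 1) = (Real.sqrt 3)⁻¹ := by
    rw [one_div]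
    norm_num
  have hsC : ((s : ℤ) : ℂ) * (s : ℤ) = 1 := by exact_mod_cast hs
  have hsn : ‖((s : ℤ) : ℂ)‖ = 1 := by
    have h2 : ‖((s : ℤ) : ℂ)‖ ^ 2 = 1 := by
      rw [← norm_pow, sq, hsC, norm_one]
    exact (pow_eq_one_iff_of_nonneg (norm_nonneg _) (by norm_num)).1 h2
  have hpos : (0 : ℝ) ≤ (Real.sqrt 3)⁻¹ := by positivity
  constructor
  · rintro (_ | k)
    · have h : ⟪x2 s none, x2 s none⟫_ℂ = 1 := by
        rw [x2, w2_inner]
        simp
      have h' : ‖x2 s none‖ ^ 2 = 1 := by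
        rw [@norm_sq_eq_re_inner ℂ, h]
        simp
      exact (pow_eq_one_iff_of_nonneg (norm_nonneg _) (by norm_num)).1 h'
    · have h : ⟪x2 s (some k), x2 s (some k)⟫_ℂ = 1 := by
        rw [x2, w2_inner, RCLike.conj_mul, norm_mul, hsn, norm_om_pow, third, two_third]
        norm_num
      have h' : ‖x2 s (some k)‖ ^ 2 = 1 := by
        rw [@norm_sq_eq_re_inner ℂ, h]
        simp
      exact (pow_eq_one_iff_of_nonneg (norm_nonneg _) (by norm_num)).1 h'
  · rintro (_ | k) (_ | l) hne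
    · exact absurd rfl hne
    · rw [h4, x2, x2, w2_inner]
      simp
    · rw [h4, x2, x2, w2_inner]
      simp
    · have hkl : k ≠ l := fun h => hne (by rw [h])
      have h : ⟪x2 s (some k), x2 s (some l)⟫_ℂ =
          (1 + 2 * (conj (om ^ (k : ℕ)) * om ^ (l : ℕ))) / 3 := by
        rw [x2, x2, w2_inner, third, two_third]
        simp only [map_mul, map_intCast]
        linear_combination (2 / 3 : ℂ) * (conj (om ^ (k : ℕ)) * om ^ (l : ℕ)) * hsC
      rw [h4, h, norm_div, norm_one_add_two hkl]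
      have h3 : Real.sqrt 3 * Real.sqrt 3 = 3 := Real.mul_self_sqrt (by norm_num)
      have h5 : Real.sqrt 3 ≠ 0 := by positivity
      rw [eq_comm, inv_eq_iff_eq_inv, inv_div]
      simp only [RCLike.norm_ofNat]
      field_simp
      nlinarith

lemma x2_shared (p : Option (Fin 3)) :
    (∃ i, ∃ c : ℂ, x2 (-1) p = c • x2 1 i) ↔ p = none := by
  have r3 : (((Real.sqrt 3)⁻¹ : ℝ) : ℂ) ≠ 0 := by
    intro h
    have := third
    rw [h] at this
    norm_num at this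
  have q3 : (((Real.sqrt 3)⁻¹ * Real.sqrt 2 : ℝ) : ℂ) ≠ 0 := by
    intro h
    have := two_third
    rw [h] at this
    norm_num at this
  constructor
  · rintro ⟨i, c, h⟩
    by_contra hp
    obtain ⟨k, rfl⟩ := Option.ne_none_iff_exists'.1 hp
    have hj : ∀ j, x2 (-1) (some k) j = c * x2 1 i j := by
      intro j
      rw [h]
      rfl
    have k0 : x2 (-1) (some k) 0 = ((Real.sqrt 3)⁻¹ : ℝ) := rfl
    have k1 : x2 (-1) (some k) 1 = ((Real.sqrt 3)⁻¹ * Real.sqrt 2 : ℝ) *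
      (((-1 : ℤ) : ℂ) * om ^ (k : ℕ)) := rfl
    have h0 := hj 0
    have h1 := hj 1
    rcases i with _ | l
    · have l1 : x2 1 none 1 = ((0 : ℝ) : ℂ) * 0 := rfl
      rw [k1, l1, mul_zero, mul_zero] at h1
      rcases mul_eq_zero.1 h1 with h | h
      · exact q3 h
      · rcases mul_eq_zero.1 h with h | h
        · norm_num at h
        · exact pow_ne_zero _ om_ne h
    · have l0 : x2 1 (some l) 0 = ((Real.sqrt 3)⁻¹ : ℝ) := rfl
      have l1 : x2 1 (some l) 1 = ((Real.sqrt 3)⁻¹ * Real.sqrt 2 : ℝ) *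
        (((1 : ℤ) : ℂ) * om ^ (l : ℕ)) := rfl
      rw [k0, l0] at h0
      rw [k1, l1] at h1
      have hc : c = 1 := by
        have : (c - 1) * (((Real.sqrt 3)⁻¹ : ℝ) : ℂ) = 0 := by linear_combination -h0
        rcases mul_eq_zero.1 this with h | h
        · linear_combination h
        · exact absurd h r3
      rw [hc, one_mul] at h1
      have h2 := mul_left_cancel₀ q3 h1
      push_cast at h2
      exact om_pow_ne (k := l) (l := k) (by linear_combination -h2)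
  · rintro rfl
    exact ⟨none, 1, by rw [one_smul]; rfl⟩

end Pool.Agent.X159.SicEx
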