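import Mathlib

/-! Dimension of the poset of intersections of half-spaces of a central arrangement. -/

set_option autoImplicit false

namespace Pool.Agent.X159.CoxY

variable {V : Type*} [NormedAddCommGroup V] [InnerProductSpace ℝ V]

/-- The unit vectors `x` with `⟪v, x⟫ ≥ 0` for all `v ∈ A`. -/
def cut (A : Set V) : Set V := {x | ‖x‖ = 1 ∧ ∀ v ∈ A, 0 ≤ inner ℝ v x}

/-- The non-empty intersections of the unit sphere with closed half-spaces `⟪v, x⟫ ≥ 0`, `v ∈ R`
(all intersections of any set of such half-spaces, the empty intersection included), ordered by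
inclusion. -/
abbrev ConvexSub (R : Set V) : Type _ := {C : Set V // C.Nonempty ∧ ∃ A ⊆ R, C = cut A}

lemma cut_anti {A B : Set V} (h : A ⊆ B) : cut B ⊆ cut A := fun _ hx => ⟨hx.1, fun v hv => hx.2 v (h hv)⟩

/-- normalising a nonzero vector -/
lemma normalize_mem {A : Set V} {x : V} (hx : x ≠ 0) :
    (‖x‖⁻¹ • x ∈ cut A) ↔ ∀ v ∈ A, 0 ≤ inner ℝ v x := by
  have hpos : 0 < ‖x‖⁻¹ := inv_pos.2 (norm_pos_iff.2 hx)
  constructor
  · intro h v hv
    have := h.2 v hv
    rw [real_inner_smul_right] at this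
    exact nonneg_of_mul_nonneg_right this hpos
  · intro h
    refine ⟨by rw [norm_smul, norm_inv, norm_norm, inv_mul_cancel₀ (norm_ne_zero_iff.2 hx)],
      fun v hv => ?_⟩
    rw [real_inner_smul_right]
    exact mul_nonneg hpos.le (h v hv)

section general

variable {ι : Type*} [Fintype ι] (a : ι → V)

/-- all nonzero multiples of the vectors `a i` -/
def rts : Set V := {v | ∃ i, ∃ c : ℝ, c ≠ 0 ∧ v = c • a i}

open Classical in
/-- the indices of the hyperplanes that cut `C` properly -/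
noncomputable def cutset (C : Set V) : Finset ι :=
  Finset.univ.filter (fun i => (∃ x ∈ C, 0 < inner ℝ (a i) x) ∧ ∃ x ∈ C, inner ℝ (a i) x < 0)

/-- the intersection of the hyperplanes containing `C` -/
def flat (C : Set V) : Submodule ℝ V where
  carrier := {y | ∀ i, (∀ x ∈ C, inner ℝ (a i) x = 0) → inner ℝ (a i) y = 0}
  add_mem' := by
    intro x y hx hy i hi
    rw [inner_add_right, hx i hi, hy i hi, add_zero]
  zero_mem' := by
    intro i _
    exact inner_zero_right _
  smul_mem' := by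
    intro c x hx i hi
    rw [inner_smul_right, hx i hi, mul_zero]

variable {a}

lemma mem_cutset {C : Set V} {i : ι} : i ∈ cutset a C ↔
    (∃ x ∈ C, 0 < inner ℝ (a i) x) ∧ ∃ x ∈ C, inner ℝ (a i) x < 0 := by
  simp [cutset]

lemma cutset_mono {C D : Set V} (h : C ⊆ D) : cutset a C ⊆ cutset a D := by
  intro i hi
  rw [mem_cutset] at hi ⊢
  exact ⟨⟨_, h hi.1.choose_spec.1, hi.1.choose_spec.2⟩, ⟨_, h hi.2.choose_spec.1, hi.2.choose_spec.2⟩⟩

lemma flat_mono {C D : Set V} (h : C ⊆ D) : flat a C ≤ flat a D := fun _ hy i hi =>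
  hy i fun x hx => hi x (h hx)

lemma subset_flat (C : Set V) : C ⊆ flat a C := fun _ hx _ hi => hi _ hx

lemma eq_of_potential {A : Set V} (hA : A ⊆ rts a) {C : Set V} (h : cut A ⊆ C)
    (hC : ∀ x ∈ C, ‖x‖ = 1)
    (h1 : cutset a (cut A) = cutset a C) (h2 : flat a (cut A) = flat a C) : cut A = C := by
  refine Set.Subset.antisymm h fun x hx => ⟨hC x hx, fun v hv => ?_⟩
  obtain ⟨i, c, hc, rfl⟩ := hA hv
  have hv' : ∀ y ∈ cut A, 0 ≤ c * inner ℝ (a i) y := by
    intro y hy
    have := hy.2 _ hv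
    rwa [real_inner_smul_left] at this
  rw [real_inner_smul_left]
  by_contra hcon
  push Not at hcon
  -- `c * ⟪a i, ·⟫` is nonpositive on `C`
  have hneg : ∀ y ∈ C, c * inner ℝ (a i) y ≤ 0 := by
    intro y hy
    by_contra hy'
    push Not at hy'
    have hmem : i ∈ cutset a C := by
      rw [mem_cutset]
      rcases lt_or_gt_of_ne hc with hc' | hc'
      · exact ⟨⟨x, hx, by nlinarith⟩, ⟨y, hy, by nlinarith⟩⟩
      · exact ⟨⟨y, hy, by nlinarith⟩, ⟨x, hx, by nlinarith⟩⟩
    rw [← h1, mem_cutset] at hmem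
    obtain ⟨⟨z, hz, hz'⟩, ⟨w, hw, hw'⟩⟩ := hmem
    have e1 := hv' z hz
    have e2 := hv' w hw
    rcases lt_or_gt_of_ne hc with hc' | hc'
    · nlinarith
    · nlinarith
  have hzero : ∀ y ∈ cut A, inner ℝ (a i) y = 0 := by
    intro y hy
    have e1 := hv' y hy
    have e2 := hneg y (h hy)
    have : c * inner ℝ (a i) y = 0 := le_antisymm e2 e1
    exact (mul_eq_zero.1 this).resolve_left hc
  have hx' : x ∈ flat a (cut A) := h2 ▸ subset_flat C hx
  have := hx' i hzero
  rw [this, mul_zero] at hcon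
  exact lt_irrefl _ hcon

variable [FiniteDimensional ℝ V]

/-- the potential -/
noncomputable def pot (a : ι → V) (C : Set V) : ℕ := (cutset a C).card + Module.finrank ℝ (flat a C)

lemma pot_strict {R : Set V} (hR : R = rts a) {C D : ConvexSub R} (h : C < D) :
    pot a C.1 < pot a D.1 := by
  have hsub : C.1 ⊆ D.1 := h.le
  obtain ⟨A, hA, hCA⟩ := C.2.2
  obtain ⟨B, hB, hDB⟩ := D.2.2
  have h1 := Finset.card_le_card (cutset_mono (a := a) hsub)
  have h2 := Submodule.finrank_mono (flat_mono (a := a) hsub)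
  unfold pot
  by_contra hcon
  have e1 : (cutset a C.1).card = (cutset a D.1).card := by omega
  have e2 : Module.finrank ℝ (flat a C.1) = Module.finrank ℝ (flat a D.1) := by omega
  have f1 := Finset.eq_of_subset_of_card_le (cutset_mono (a := a) hsub) e1.ge
  have f2 := Submodule.eq_of_le_of_finrank_eq (flat_mono (a := a) hsub) e2
  have : C.1 = D.1 := by
    rw [hCA] at f1 f2 hsub ⊢
    exact eq_of_potential (hR ▸ hA) hsub (fun x hx => by rw [hDB] at hx; exact hx.1) f1 f2
  exact h.ne (Subtype.ext this)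

lemma pot_le (C : Set V) : pot a C ≤ Fintype.card ι + Module.finrank ℝ V := by
  unfold pot
  exact add_le_add (Finset.card_le_univ _) (Submodule.finrank_le _)

lemma one_le_pot {C : Set V} (hC : C.Nonempty) (hC' : ∀ x ∈ C, ‖x‖ = 1) : 1 ≤ pot a C := by
  obtain ⟨x, hx⟩ := hC
  have hx0 : x ≠ 0 := by
    rintro rfl
    have := hC' 0 hx
    rw [norm_zero] at this
    norm_num at this
  have : 0 < Module.finrank ℝ (flat a C) := by
    rw [Module.finrank_pos_iff]
    exact ⟨⟨⟨x, subset_flat C hx⟩, 0, fun h => hx0 (by simpa using congrArg Subtype.val h)⟩⟩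
  unfold pot
  omega

/-- the upper bound: lengths of chains -/
lemma length_le {R : Set V} (hR : R = rts a) (l : LTSeries (ConvexSub R)) :
    l.length + 1 ≤ Fintype.card ι + Module.finrank ℝ V := by
  have h0 : 1 ≤ pot a (l 0).1 := by
    refine one_le_pot (l 0).2.1 ?_
    obtain ⟨A, _, hA⟩ := (l 0).2.2
    rw [hA]
    exact fun x hx => hx.1
  have hstep : ∀ k : ℕ, ∀ hk : k < l.length + 1, k + 1 ≤ pot a (l ⟨k, hk⟩).1 := by
    intro k
    induction k with
    | zero => intro _; exact h0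
    | succ k ih =>
      intro hk
      have h1 := ih (by omega)
      have h2 := pot_strict (a := a) hR (l.strictMono (show (⟨k, by omega⟩ : Fin (l.length + 1)) < ⟨k + 1, hk⟩ by
        simp [Fin.lt_def]))
      omega
  have h1 := hstep l.length (by omega)
  have h2 := pot_le (a := a) (l ⟨l.length, by omega⟩).1
  omega

end general

section lower

variable {ι : Type*} [Fintype ι] {a : ι → V}

lemma exists_delta (a : ι → V) (q b : V) : ∃ δ : ℝ, 0 < δ ∧
    ∀ i, inner ℝ (a i) q ≠ 0 → 0 < inner ℝ (a i) q * inner ℝ (a i) (q + δ • b) := by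
  have h : ∀ i, ∀ᶠ δ in nhdsWithin (0 : ℝ) (Set.Ioi 0), inner ℝ (a i) q ≠ 0 →
      0 < inner ℝ (a i) q * inner ℝ (a i) (q + δ • b) := by
    intro i
    by_cases hq : inner ℝ (a i) q = 0
    · exact Filter.Eventually.of_forall fun δ h => absurd hq h
    · have hc : Continuous (fun δ : ℝ => inner ℝ (a i) q * inner ℝ (a i) (q + δ • b)) := by
        fun_prop
      have h0 : 0 < (fun δ : ℝ => inner ℝ (a i) q * inner ℝ (a i) (q + δ • b)) 0 := by
        simp only [zero_smul, add_zero]
        exact mul_self_pos.2 hq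
      have := hc.continuousAt.eventually (lt_mem_nhds h0)
      have h2 := this.filter_mono (nhdsWithin_le_nhds (s := Set.Ioi (0 : ℝ)))
      exact h2.mono fun δ hδ _ => hδ
  have hall := (Filter.eventually_all.2 h).and self_mem_nhdsWithin
  obtain ⟨δ, h1, h2⟩ := hall.exists
  exact ⟨δ, h2, h1⟩

variable [FiniteDimensional ℝ V]

/-- dual vectors to a basis consisting of vectors `a i` -/
lemma exists_dual_basis {n : ℕ} (hn : Module.finrank ℝ V = n)
    (hess : ∀ x, (∀ i, inner ℝ (a i) x = 0) → x = 0) :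
    ∃ (idx : Fin n → ι) (b : Fin n → V),
      (∀ l j, inner ℝ (a (idx l)) (b j) = if l = j then 1 else 0) ∧
      ∀ v, (∀ j, inner ℝ v (b j) = 0) → v = 0 := by
  subst hn
  have hs : ⊤ ≤ Submodule.span ℝ (Set.range a) := by
    rw [top_le_iff, ← Submodule.orthogonal_eq_bot_iff, Submodule.eq_bot_iff]
    intro x hx
    refine hess x fun i => ?_
    exact (Submodule.mem_orthogonal _ _).1 hx _ (Submodule.subset_span ⟨i, rfl⟩)
  let B := Module.Basis.ofSpan hs
  haveI : Fintype ((linearIndepOn_empty ℝ id).extend (Set.empty_subset (Set.range a))) :=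
    FiniteDimensional.fintypeBasisIndex B
  have hcard := Module.finrank_eq_card_basis B
  let e := Fintype.equivFinOfCardEq hcard.symm
  let B' := B.reindex e
  have hB' : ∀ l, ∃ i, a i = B' l := by
    intro l
    have h1 : B' l = B (e.symm l) := by simp [B']
    rw [h1]
    exact Module.Basis.ofSpan_subset hs ⟨_, rfl⟩
  choose idx hidx using hB'
  let L : V →ₗ[ℝ] (Fin (Module.finrank ℝ V) → ℝ) :=
    LinearMap.pi fun l => (innerₛₗ ℝ (B' l))
  have hL : ∀ x l, L x l = inner ℝ (B' l) x := fun x l => rfl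
  have hinj : Function.Injective L := by
    rw [injective_iff_map_eq_zero]
    intro x hx
    have h1 : ∀ l, inner ℝ (B' l) x = 0 := fun l => by rw [← hL, hx]; rfl
    have h2 : ∀ y, inner ℝ y x = 0 := by
      intro y
      rw [← B'.sum_repr y, sum_inner]
      refine Finset.sum_eq_zero fun l _ => ?_
      rw [real_inner_smul_left, h1, mul_zero]
    exact inner_self_eq_zero.1 (h2 x)
  have hdim : Module.finrank ℝ V = Module.finrank ℝ (Fin (Module.finrank ℝ V) → ℝ) := by simp
  let L' := LinearEquiv.ofInjectiveOfFinrankEq L hinj hdim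
  have hL' : ∀ x, L' x = L x := fun x => rfl
  refine ⟨idx, fun j => L'.symm (Pi.single j 1), fun l j => ?_, fun v hv => ?_⟩
  · rw [hidx, ← hL, ← hL', LinearEquiv.apply_symm_apply, Pi.single_apply]
  · have h1 : ∀ y, inner ℝ v y = 0 := by
      intro y
      have h2 : y = ∑ j, (L' y j) • L'.symm (Pi.single j 1) := by
        apply L'.injective
        rw [map_sum]
        simp_rw [map_smul, LinearEquiv.apply_symm_apply]
        ext k
        simp [Finset.sum_apply, Pi.single_apply]
      rw [h2, inner_sum]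
      refine Finset.sum_eq_zero fun j _ => ?_
      rw [real_inner_smul_right, hv, mul_zero]
    exact inner_self_eq_zero.1 (h1 v)

/-- the flag of points -/
lemma exists_flag {n : ℕ} (hn : Module.finrank ℝ V = n)
    (hne : ∀ i, a i ≠ 0) (hess : ∀ x, (∀ i, inner ℝ (a i) x = 0) → x = 0) :
    ∃ (idx : Fin n → ι) (q : ℕ → V),
      (∀ i j k, j ≤ k → inner ℝ (a i) (q j) ≠ 0 →
        0 < inner ℝ (a i) (q j) * inner ℝ (a i) (q k)) ∧
      (∀ (l : Fin n) (k : ℕ), k ≤ l → inner ℝ (a (idx l)) (q k) = 0) ∧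
      (∀ (l : Fin n) (k : ℕ), l < k → 0 < inner ℝ (a (idx l)) (q k)) ∧
      ∀ i, inner ℝ (a i) (q n) ≠ 0 := by
  obtain ⟨idx, b, hb, hspan⟩ := exists_dual_basis hn hess
  choose δ hδ hδ' using exists_delta a
  let bb : ℕ → V := fun j => if h : j < n then b ⟨j, h⟩ else 0
  let q : ℕ → V := fun k => Nat.rec 0 (fun j x => x + δ x (bb j) • bb j) k
  have hq0 : q 0 = 0 := rfl
  have hqs : ∀ j, q (j + 1) = q j + δ (q j) (bb j) • bb j := fun j => rfl
  have hbb : ∀ (l : Fin n) (j : ℕ), inner ℝ (a (idx l)) (bb j) = if (l : ℕ) = j then 1 else 0 := by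
    intro l j
    simp only [bb]
    by_cases h : j < n
    · rw [dif_pos h, hb]
      simp [Fin.ext_iff]
    · rw [dif_neg h, inner_zero_right, if_neg]
      omega
  have h1 : ∀ i j k, j ≤ k → inner ℝ (a i) (q j) ≠ 0 →
      0 < inner ℝ (a i) (q j) * inner ℝ (a i) (q k) := by
    intro i j k hjk h0
    induction k, hjk using Nat.le_induction with
    | base => exact mul_self_pos.2 h0
    | succ k _ ih =>
      have h2 : inner ℝ (a i) (q k) ≠ 0 := fun h => by rw [h, mul_zero] at ih; exact lt_irrefl _ ih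
      have h3 := hδ' (q k) (bb k) i h2
      rw [← hqs] at h3
      have h4 : 0 < (inner ℝ (a i) (q j) * inner ℝ (a i) (q (k + 1))) *
          (inner ℝ (a i) (q k) * inner ℝ (a i) (q k)) := by
        have := mul_pos ih h3
        have e : (inner ℝ (a i) (q j) * inner ℝ (a i) (q k)) *
          (inner ℝ (a i) (q k) * inner ℝ (a i) (q (k + 1))) =
          (inner ℝ (a i) (q j) * inner ℝ (a i) (q (k + 1))) *
          (inner ℝ (a i) (q k) * inner ℝ (a i) (q k)) := by ring
        rwa [e] at this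
      exact pos_of_mul_pos_left h4 (mul_self_nonneg _)
  have h2 : ∀ (l : Fin n) (k : ℕ), k ≤ l → inner ℝ (a (idx l)) (q k) = 0 := by
    intro l k
    induction k with
    | zero => intro _; rw [hq0, inner_zero_right]
    | succ k ih =>
      intro hk
      rw [hqs, inner_add_right, ih (by omega), real_inner_smul_right, hbb, if_neg (by omega),
        mul_zero, add_zero]
  have h3 : ∀ (l : Fin n) (k : ℕ), (l : ℕ) < k → 0 < inner ℝ (a (idx l)) (q k) := by
    intro l k hk
    have h4 : 0 < inner ℝ (a (idx l)) (q ((l : ℕ) + 1)) := by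
      rw [hqs, inner_add_right, h2 l l le_rfl, real_inner_smul_right, hbb, if_pos rfl, mul_one,
        zero_add]
      exact hδ _ _
    have h5 := h1 (idx l) (l + 1) k hk h4.ne'
    exact pos_of_mul_pos_right h5 h4.le
  refine ⟨idx, q, h1, h2, h3, fun i => ?_⟩
  -- some coordinate of `a i` is nonzero
  obtain ⟨j, hj⟩ : ∃ j, inner ℝ (a i) (b j) ≠ 0 := by
    by_contra hcon
    push Not at hcon
    exact hne i (hspan _ hcon)
  have h4 : ∃ k, k ≤ n ∧ inner ℝ (a i) (q k) ≠ 0 := by
    by_contra hcon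
    push Not at hcon
    have e1 := hcon j (by omega)
    have e2 := hcon (j + 1) (by omega)
    rw [hqs, inner_add_right, e1, real_inner_smul_right, zero_add] at e2
    have e3 : bb j = b j := by simp [bb]
    rw [e3] at e2
    rcases mul_eq_zero.1 e2 with h | h
    · exact (hδ _ _).ne' h
    · exact hj h
  obtain ⟨k, hk, hk'⟩ := h4
  have := h1 i k n hk hk'
  intro h0
  rw [h0, mul_zero] at this
  exact lt_irrefl _ this

/-- a linear order of the hyperplanes -/
lemma exists_order (r : ι → V) (v : V) (hv : ∀ i, 0 < inner ℝ (r i) v)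
    (hpar : ∀ i j, i ≠ j → ∀ c d : ℝ, 0 < c → 0 < d → c • r i ≠ d • r j) :
    ∃ σ : Fin (Fintype.card ι) ≃ ι, ∀ m : Fin (Fintype.card ι), ∃ x : V,
      (∀ p, m < p → 0 < inner ℝ (r (σ p)) x) ∧ inner ℝ (r (σ m)) x < 0 := by
  classical
  -- generic vector
  obtain ⟨w, hw⟩ := Module.Dual.exists_forall_ne_zero_of_forall_exists
    (ι := {p : ι × ι // p.1 ≠ p.2})
    (fun p => (innerₛₗ ℝ (inner ℝ (r p.1.2) v • r p.1.1 - inner ℝ (r p.1.1) v • r p.1.2) :
      V →ₗ[ℝ] ℝ)) (by
      rintro ⟨⟨i, j⟩, hij⟩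
      refine ⟨inner ℝ (r j) v • r i - inner ℝ (r i) v • r j, ?_⟩
      show inner ℝ (inner ℝ (r j) v • r i - inner ℝ (r i) v • r j)
        (inner ℝ (r j) v • r i - inner ℝ (r i) v • r j) ≠ 0
      rw [Ne, inner_self_eq_zero, sub_eq_zero]
      exact hpar i j hij _ _ (hv j) (hv i))
  let τ : ι → ℝ := fun i => inner ℝ (r i) w / inner ℝ (r i) v
  have hτ : Function.Injective τ := by
    intro i j hij
    by_contra hne
    have h1 := hw ⟨(i, j), hne⟩
    apply h1
    show inner ℝ (inner ℝ (r j) v • r i - inner ℝ (r i) v • r j) w = 0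
    rw [inner_sub_left, real_inner_smul_left, real_inner_smul_left]
    simp only [τ] at hij
    rw [div_eq_div_iff (hv i).ne' (hv j).ne'] at hij
    linarith
  letI : LinearOrder ι := LinearOrder.lift' τ hτ
  let σ := Fintype.orderIsoFinOfCardEq ι rfl
  have hσ : ∀ p p', p < p' → τ (σ p) < τ (σ p') := fun p p' h => by
    have : σ p < σ p' := σ.strictMono h
    exact this
  refine ⟨σ.toEquiv, fun m => ?_⟩
  have hex : ∃ t : ℝ, τ (σ m) < t ∧ ∀ p, m < p → t < τ (σ p) := by
    have h1 : ∀ p, ∀ᶠ t in nhdsWithin (τ (σ m)) (Set.Ioi (τ (σ m))), m < p → t < τ (σ p) := by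
      intro p
      by_cases hp : m < p
      · have := gt_mem_nhds (hσ m p hp)
        have h2 := Filter.Eventually.filter_mono
          (nhdsWithin_le_nhds (s := Set.Ioi (τ (σ m)))) this
        exact h2.mono fun t ht _ => ht
      · exact Filter.Eventually.of_forall fun t h => absurd h hp
    obtain ⟨t, h2, h3⟩ := ((Filter.eventually_all.2 h1).and self_mem_nhdsWithin).exists
    exact ⟨t, h3, h2⟩
  obtain ⟨t, ht1, ht2⟩ := hex
  have hval : ∀ i, inner ℝ (r i) (w - t • v) = inner ℝ (r i) v * (τ i - t) := by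
    intro i
    rw [inner_sub_right, real_inner_smul_right]
    simp only [τ]
    have := (hv i).ne'
    field_simp
  refine ⟨w - t • v, fun p hp => ?_, ?_⟩
  · show 0 < inner ℝ (r (σ p)) (w - t • v)
    rw [hval]
    exact mul_pos (hv _) (by have := ht2 p hp; linarith)
  · show inner ℝ (r (σ m)) (w - t • v) < 0
    rw [hval]
    exact mul_neg_of_pos_of_neg (hv _) (by linarith)

lemma cut_ssubset {A B : Set V} (h : B ⊆ A) {x : V} (hx : ∀ v ∈ B, 0 ≤ inner ℝ v x)
    {u : V} (hu : u ∈ A) (hux : inner ℝ u x < 0) : cut A ⊂ cut B := by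
  have hx0 : x ≠ 0 := by
    rintro rfl
    rw [inner_zero_right] at hux
    exact lt_irrefl _ hux
  refine ⟨cut_anti h, fun hsub => ?_⟩
  have h1 := hsub ((normalize_mem hx0).2 hx)
  have h2 := (normalize_mem hx0).1 h1 u hu
  linarith

/-- the lower bound: a long chain -/
lemma exists_chain [Nontrivial V] {R : Set V} (hR : R = rts a) (hne : ∀ i, a i ≠ 0)
    (hess : ∀ x, (∀ i, inner ℝ (a i) x = 0) → x = 0)
    (hpar : ∀ i j, i ≠ j → ∀ c : ℝ, a i ≠ c • a j) :
    ∃ l : LTSeries (ConvexSub R), l.length + 1 = Fintype.card ι + Module.finrank ℝ V := by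
  have hn : 0 < Module.finrank ℝ V := Module.finrank_pos
  obtain ⟨n, hndef⟩ : ∃ n, Module.finrank ℝ V = n := ⟨_, rfl⟩
  rw [hndef] at hn ⊢
  obtain ⟨idx, q, h1, h2, h3, h4⟩ := exists_flag hndef hne hess
  set N := Fintype.card ι with hNdef
  let r : ι → V := fun i => inner ℝ (a i) (q n) • a i
  have hrq : ∀ i x, inner ℝ (r i) x = inner ℝ (a i) (q n) * inner ℝ (a i) x := fun i x => by
    simp only [r]
    rw [real_inner_smul_left]
  have hrv : ∀ i, 0 < inner ℝ (r i) (q n) := fun i => by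
    rw [hrq]
    exact mul_self_pos.2 (h4 i)
  obtain ⟨σ, hσ⟩ := exists_order r (q n) hrv (by
    intro i j hij c d hc hd h
    simp only [r] at h
    apply hpar i j hij ((d * inner ℝ (a j) (q n)) / (c * inner ℝ (a i) (q n)))
    have hci : c * inner ℝ (a i) (q n) ≠ 0 := mul_ne_zero hc.ne' (h4 i)
    rw [smul_smul, smul_smul] at h
    rw [div_eq_inv_mul, ← smul_smul, ← h, smul_smul, inv_mul_cancel₀ hci, one_smul])
  -- the sets of inequalities
  let Bs : ℕ → Set V := fun k => {u | (∃ i, u = r i) ∨ ∃ l : Fin n, k ≤ l ∧ u = -a (idx l)}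
  let As : ℕ → Set V := fun m => {u | ∃ p : Fin N, m ≤ p ∧ u = r (σ p)}
  have hBs_sub : ∀ k, Bs k ⊆ R := by
    intro k u hu
    rw [hR]
    rcases hu with ⟨i, rfl⟩ | ⟨l, _, rfl⟩
    · exact ⟨i, _, h4 i, rfl⟩
    · exact ⟨idx l, -1, by norm_num, by simp⟩
  have hAs_sub : ∀ m, As m ⊆ R := by
    rintro m u ⟨p, _, rfl⟩
    rw [hR]
    exact ⟨σ p, _, h4 _, rfl⟩
  have hqmem : ∀ k, 1 ≤ k → k ≤ n → ∀ u ∈ Bs k, 0 ≤ inner ℝ u (q k) := by
    intro k hk hkn u hu
    rcases hu with ⟨i, rfl⟩ | ⟨l, hl, rfl⟩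
    · rw [hrq]
      by_cases h0 : inner ℝ (a i) (q k) = 0
      · rw [h0, mul_zero]
      · have := h1 i k n hkn h0
        linarith
    · rw [inner_neg_left, h2 l k hl, neg_zero]
  have hqne : ∀ k, 1 ≤ k → q k ≠ 0 := by
    intro k hk h0
    have := h3 ⟨0, hn⟩ k (by simp only; omega)
    rw [h0, inner_zero_right] at this
    exact lt_irrefl _ this
  have hB_ne : ∀ k, 1 ≤ k → k ≤ n → (cut (Bs k)).Nonempty := fun k hk hkn =>
    ⟨_, (normalize_mem (hqne k hk)).2 (hqmem k hk hkn)⟩
  have hAB : ∀ m, As m ⊆ Bs n := by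
    rintro m u ⟨p, _, rfl⟩
    exact Or.inl ⟨_, rfl⟩
  have hA_ne : ∀ m, (cut (As m)).Nonempty := fun m =>
    (hB_ne n hn le_rfl).mono (cut_anti (hAB m))
  have hBA : Bs n = As 0 := by
    refine Set.Subset.antisymm ?_ (hAB 0)
    rintro u (⟨i, rfl⟩ | ⟨l, hl, rfl⟩)
    · exact ⟨σ.symm i, by simp, by simp⟩
    · exact absurd l.2 (by omega)
  have hB_lt : ∀ k, 1 ≤ k → k < n → cut (Bs k) ⊂ cut (Bs (k + 1)) := by
    intro k hk hkn
    refine cut_ssubset (x := q (k + 1)) (u := -a (idx ⟨k, hkn⟩)) ?_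
      (hqmem (k + 1) (by omega) (by omega)) ?_ ?_
    · rintro u (hu | ⟨l, hl, rfl⟩)
      · exact Or.inl hu
      · exact Or.inr ⟨l, by omega, rfl⟩
    · exact Or.inr ⟨⟨k, hkn⟩, le_rfl, rfl⟩
    · rw [inner_neg_left]
      have := h3 ⟨k, hkn⟩ (k + 1) (by simp)
      linarith
  have hA_lt : ∀ m, m < N → cut (As m) ⊂ cut (As (m + 1)) := by
    intro m hm
    obtain ⟨x, hx1, hx2⟩ := hσ ⟨m, hm⟩
    refine cut_ssubset (x := x) (u := r (σ ⟨m, hm⟩)) ?_ ?_ ⟨⟨m, hm⟩, le_rfl, rfl⟩ hx2
    · rintro u ⟨p, hp, rfl⟩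
      exact ⟨p, by omega, rfl⟩
    · rintro u ⟨p, hp, rfl⟩
      exact (hx1 p (by rw [Fin.lt_def]; simp only; omega)).le
  let F : ℕ → Set V := fun k => if k < n then Bs (k + 1) else As (k - n + 1)
  have hF_sub : ∀ k, F k ⊆ R := by
    intro k
    simp only [F]
    split_ifs
    · exact hBs_sub _
    · exact hAs_sub _
  have hF_ne : ∀ k, (cut (F k)).Nonempty := by
    intro k
    simp only [F]
    split_ifs with h
    · exact hB_ne _ (by omega) (by omega)
    · exact hA_ne _
  have hF_lt : ∀ k, k + 1 < N + n → cut (F k) ⊂ cut (F (k + 1)) := by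
    intro k hk
    simp only [F]
    by_cases hk1 : k + 1 < n
    · rw [if_pos (by omega), if_pos hk1]
      exact hB_lt _ (by omega) hk1
    · by_cases hk2 : k + 1 = n
      · rw [if_pos (by omega), if_neg (by omega), hk2, Nat.sub_self, hBA]
        exact hA_lt 0 (by omega)
      · rw [if_neg (by omega), if_neg (by omega)]
        have : k + 1 - n + 1 = (k - n + 1) + 1 := by omega
        rw [this]
        exact hA_lt _ (by omega)
  refine ⟨⟨N + n - 1, fun k => ⟨cut (F k), hF_ne k, F k, hF_sub k, rfl⟩, ?_⟩, ?_⟩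
  · intro k
    have := hF_lt k (by have := k.2; omega)
    exact this
  · simp only
    omega

end lower

section main

variable [FiniteDimensional ℝ V] {ι : Type*} [Fintype ι] {a : ι → V}

theorem krullDim_eq [Nontrivial V] {R : Set V} (hR : R = rts a) (hne : ∀ i, a i ≠ 0)
    (hess : ∀ x, (∀ i, inner ℝ (a i) x = 0) → x = 0)
    (hpar : ∀ i j, i ≠ j → ∀ c : ℝ, a i ≠ c • a j) :
    Order.krullDim (ConvexSub R) = ((Module.finrank ℝ V - 1 + Fintype.card ι : ℕ) : WithBot ℕ∞) := by
  have hn : 0 < Module.finrank ℝ V := Module.finrank_pos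
  apply le_antisymm
  · refine iSup_le fun l => ?_
    have := length_le hR l
    have h2 : l.length ≤ Module.finrank ℝ V - 1 + Fintype.card ι := by omega
    exact_mod_cast h2
  · rw [Order.le_krullDim_iff]
    obtain ⟨l, hl⟩ := exists_chain hR hne hess hpar
    exact ⟨l, by omega⟩

end main

end Pool.Agent.X159.CoxY
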