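import Pool.Agent.X159.LefHom

/-! A prism operator in degree one, and the winding cocycle of the punctured plane. -/

set_option autoImplicit false

namespace Pool.Agent.X159.Lef

open Pool.Agent.Helper381 Pool.Agent.TH592.Nag

noncomputable section

variable {X Y : Type} [TopologicalSpace X] [TopologicalSpace Y]

abbrev Δ (n : ℕ) := stdSimplex ℝ (Fin (n + 1))

/-- the map of simplices given by a map of vertices -/
def mp {m n : ℕ} (f : Fin (m + 1) → Fin (n + 1)) : C(Δ m, Δ n) :=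
  ⟨stdSimplex.map f, stdSimplex.continuous_map _⟩

lemma mp_mp {l m n : ℕ} (f : Fin (l + 1) → Fin (m + 1)) (g : Fin (m + 1) → Fin (n + 1))
    (x : Δ l) : mp g (mp f x) = mp (g ∘ f) x :=
  stdSimplex.map_comp_apply f g x

lemma mp_id {n : ℕ} {f : Fin (n + 1) → Fin (n + 1)} (hf : f = id) (x : Δ n) : mp f x = x := by
  subst hf
  exact stdSimplex.map_id_apply x

lemma sface_apply (n : ℕ) (i : Fin (n + 2)) (σ : Sing X (n + 1)) (x : Δ n) :
    sface n i σ x = σ (mp i.succAbove x) := rfl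

/-- the time coordinate of the 1-simplex -/
def tm : C(Δ 1, unitInterval) :=
  ⟨fun x => ⟨x 1, x.2.1 1, by
    have h1 : x.1 0 + x.1 1 = 1 := by
      have := x.2.2
      simpa [Fin.sum_univ_two] using this
    have h0 := x.2.1 0
    have e : (x : Fin 2 → ℝ) 1 = x.1 1 := rfl
    rw [e]
    linarith⟩, by
    refine Continuous.subtype_mk ?_ _
    exact (continuous_apply (1 : Fin 2)).comp continuous_subtype_val⟩

lemma tm_vertex_zero : tm (stdSimplex.vertex 0) = 0 := by
  apply Subtype.ext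
  show (stdSimplex.vertex (S := ℝ) (0 : Fin 2)) 1 = 0
  simp

lemma tm_vertex_one : tm (stdSimplex.vertex 1) = 1 := by
  apply Subtype.ext
  show (stdSimplex.vertex (S := ℝ) (1 : Fin 2)) 1 = 1
  simp

/-- a constant vertex map gives a constant map -/
lemma mp_const {m n : ℕ} {f : Fin (m + 1) → Fin (n + 1)} {j : Fin (n + 1)} (hf : ∀ i, f i = j)
    (x : Δ m) : mp f x = stdSimplex.vertex j := by
  apply Subtype.ext
  funext k
  show (stdSimplex.map f x) k = _
  rw [stdSimplex.map_coe, FunOnFinite.linearMap_apply_apply]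
  by_cases hk : k = j
  · subst hk
    rw [Finset.filter_true_of_mem (fun i _ => hf i)]
    have h := x.2.2
    show ∑ i, x.1 i = (Pi.single k (1 : ℝ) : Fin (n + 1) → ℝ) k
    rw [h, Pi.single_eq_same]
  · rw [Finset.filter_false_of_mem (fun i _ h => hk (by rw [← h, hf i])), Finset.sum_empty]
    show 0 = (Pi.single j (1 : ℝ) : Fin (n + 1) → ℝ) k
    rw [Pi.single_eq_of_ne hk]

/-- a generalised prism simplex -/
def pr (h : C(X × unitInterval, Y)) {m n : ℕ} (φ : Fin (m + 1) → Fin (n + 1))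
    (ψ : Fin (m + 1) → Fin 2) (σ : Sing X n) : Sing Y m :=
  h.comp ((σ.comp (mp φ)).prodMk (tm.comp (mp ψ)))

lemma pr_apply (h : C(X × unitInterval, Y)) {m n : ℕ} (φ : Fin (m + 1) → Fin (n + 1))
    (ψ : Fin (m + 1) → Fin 2) (σ : Sing X n) (x : Δ m) :
    pr h φ ψ σ x = h (σ (mp φ x), tm (mp ψ x)) := rfl

lemma sface_pr (h : C(X × unitInterval, Y)) {m n : ℕ} (φ : Fin (m + 2) → Fin (n + 1))
    (ψ : Fin (m + 2) → Fin 2) (σ : Sing X n) (i : Fin (m + 2)) :
    sface m i (pr h φ ψ σ) = pr h (φ ∘ i.succAbove) (ψ ∘ i.succAbove) σ := by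
  refine ContinuousMap.ext fun x => ?_
  rw [sface_apply, pr_apply, pr_apply, mp_mp, mp_mp]

/-- slices of a homotopy -/
def slice (h : C(X × unitInterval, Y)) (s : unitInterval) : C(X, Y) :=
  h.comp ((ContinuousMap.id X).prodMk (ContinuousMap.const X s))

lemma slice_apply (h : C(X × unitInterval, Y)) (s : unitInterval) (x : X) :
    slice h s x = h (x, s) := rfl

lemma pr_zero (h : C(X × unitInterval, Y)) {n : ℕ} {φ : Fin (n + 1) → Fin (n + 1)}
    (hφ : φ = id) {ψ : Fin (n + 1) → Fin 2} (hψ : ∀ i, ψ i = 0) (σ : Sing X n) :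
    pr h φ ψ σ = (slice h 0).comp σ := by
  refine ContinuousMap.ext fun x => ?_
  rw [pr_apply, mp_id hφ, mp_const hψ, tm_vertex_zero]
  rfl

lemma pr_one (h : C(X × unitInterval, Y)) {n : ℕ} {φ : Fin (n + 1) → Fin (n + 1)}
    (hφ : φ = id) {ψ : Fin (n + 1) → Fin 2} (hψ : ∀ i, ψ i = 1) (σ : Sing X n) :
    pr h φ ψ σ = (slice h 1).comp σ := by
  refine ContinuousMap.ext fun x => ?_
  rw [pr_apply, mp_id hφ, mp_const hψ, tm_vertex_one]
  rfl

/-- vertical simplices -/
def vert (h : C(X × unitInterval, Y)) (ρ : Sing X 0) : Sing Y 1 := pr h ![0, 0] ![0, 1] ρ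

lemma vert_face (h : C(X × unitInterval, Y)) (i : Fin 2) (σ : Sing X 1) :
    vert h (sface 0 i σ) = pr h (fun _ => i.succAbove 0) ![0, 1] σ := by
  refine ContinuousMap.ext fun x => ?_
  rw [vert, pr_apply, pr_apply, sface_apply, mp_mp]
  have : (i.succAbove ∘ ![0, 0] : Fin 2 → Fin 2) = fun _ => i.succAbove 0 := by
    funext j
    fin_cases j <;> rfl
  rw [this]

/-- vertical operator -/
def vop (h : C(X × unitInterval, Y)) : (Sing X 0 →₀ ℤ) →ₗ[ℤ] (Sing Y 1 →₀ ℤ) :=
  Finsupp.linearCombination ℤ fun ρ => Finsupp.single (vert h ρ) (1 : ℤ)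

/-- prism operator in degree one -/
def pop (h : C(X × unitInterval, Y)) : (Sing X 1 →₀ ℤ) →ₗ[ℤ] (Sing Y 2 →₀ ℤ) :=
  Finsupp.linearCombination ℤ fun σ =>
    Finsupp.single (pr h ![0, 0, 1] ![0, 1, 1] σ) (1 : ℤ) -
      Finsupp.single (pr h ![0, 1, 1] ![0, 0, 1] σ) (1 : ℤ)

lemma bd_one (σ : Sing X 1) : bd ℤ X 0 (Finsupp.single σ 1) =
    Finsupp.single (sface 0 0 σ) 1 - Finsupp.single (sface 0 1 σ) 1 := by
  rw [bd_single, one_smul, Fin.sum_univ_two]
  simp only [Fin.val_zero, pow_zero, one_smul, Fin.val_one, pow_one, neg_smul]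
  rw [sub_eq_add_neg]

lemma bd_two (σ : Sing X 2) : bd ℤ X 1 (Finsupp.single σ 1) =
    Finsupp.single (sface 1 0 σ) 1 - Finsupp.single (sface 1 1 σ) 1 +
      Finsupp.single (sface 1 2 σ) 1 := by
  rw [bd_single, one_smul, Fin.sum_univ_three]
  simp only [Fin.val_zero, pow_zero, one_smul, Fin.val_one, pow_one, neg_smul, Fin.val_two,
    even_two, Even.neg_pow, one_pow]
  rw [sub_eq_add_neg]

lemma bd_pop (h : C(X × unitInterval, Y)) (c : Sing X 1 →₀ ℤ) :
    bd ℤ Y 1 (pop h c) = push ℤ (slice h 1) 1 c - push ℤ (slice h 0) 1 c - vop h (bd ℤ X 0 c) := by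
  have key : bd ℤ Y 1 ∘ₗ pop h = push ℤ (slice h 1) 1 - push ℤ (slice h 0) 1 - vop h ∘ₗ bd ℤ X 0 := by
    refine Finsupp.lhom_ext' fun σ => LinearMap.ext_ring ?_
    simp only [LinearMap.comp_apply, Finsupp.lsingle_apply, LinearMap.sub_apply]
    rw [pop, Finsupp.linearCombination_single, one_smul, map_sub, bd_two, bd_two, push_single,
      push_single, bd_one, map_sub, vop, Finsupp.linearCombination_single,
      Finsupp.linearCombination_single, one_smul, one_smul, vert_face, vert_face]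
    simp only [sface_pr]
    -- faces of the two triangles
    have t20 : pr h ((![0, 0, 1] : Fin 3 → Fin 2) ∘ (0 : Fin 3).succAbove)
        ((![0, 1, 1] : Fin 3 → Fin 2) ∘ (0 : Fin 3).succAbove) σ = (slice h 1).comp σ :=
      pr_one h (by decide) (by decide) σ
    have t12 : pr h ((![0, 1, 1] : Fin 3 → Fin 2) ∘ (2 : Fin 3).succAbove)
        ((![0, 0, 1] : Fin 3 → Fin 2) ∘ (2 : Fin 3).succAbove) σ = (slice h 0).comp σ :=
      pr_zero h (by decide) (by decide) σ
    have t21 : pr h ((![0, 0, 1] : Fin 3 → Fin 2) ∘ (1 : Fin 3).succAbove)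
        ((![0, 1, 1] : Fin 3 → Fin 2) ∘ (1 : Fin 3).succAbove) σ =
        pr h ((![0, 1, 1] : Fin 3 → Fin 2) ∘ (1 : Fin 3).succAbove)
        ((![0, 0, 1] : Fin 3 → Fin 2) ∘ (1 : Fin 3).succAbove) σ := by
      congr 1 <;> decide
    have t22 : pr h ((![0, 0, 1] : Fin 3 → Fin 2) ∘ (2 : Fin 3).succAbove)
        ((![0, 1, 1] : Fin 3 → Fin 2) ∘ (2 : Fin 3).succAbove) σ =
        pr h (fun _ => (1 : Fin 2).succAbove 0) ![0, 1] σ := by
      congr 1 <;> decide
    have t10 : pr h ((![0, 1, 1] : Fin 3 → Fin 2) ∘ (0 : Fin 3).succAbove)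
        ((![0, 0, 1] : Fin 3 → Fin 2) ∘ (0 : Fin 3).succAbove) σ =
        pr h (fun _ => (0 : Fin 2).succAbove 0) ![0, 1] σ := by
      congr 1 <;> decide
    rw [t20, t12, t21, t22, t10]
    abel
  exact LinearMap.congr_fun key c

/-- homotopic maps agree on cycles up to boundaries -/
lemma push_boundary (h : C(X × unitInterval, Y)) (c : Sing X 1 →₀ ℤ) (hc : bd ℤ X 0 c = 0)
    (h0 : push ℤ (slice h 0) 1 c = 0) : ∃ b, bd ℤ Y 1 b = push ℤ (slice h 1) 1 c :=
  ⟨pop h c, by rw [bd_pop, hc, h0, map_zero, sub_zero, sub_zero]⟩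

/-! ### The winding cocycle -/

abbrev Cst : Type := {z : ℂ // z ≠ 0}

instance (n : ℕ) : LocallyPathConnectedSpace (Δ n) :=
  (convex_stdSimplex ℝ (Fin (n + 1))).locallyPathConnectedSpace

instance (n : ℕ) : ContractibleSpace (Δ n) :=
  (convex_stdSimplex ℝ (Fin (n + 1))).contractibleSpace ⟨_, (stdSimplex.vertex 0).2⟩

/-- `F` is a logarithm of `σ` -/
def IsLog {n : ℕ} (σ : Sing Cst n) (F : C(Δ n, ℂ)) : Prop := ∀ x, Complex.exp (F x) = (σ x).1

lemma exists_log {n : ℕ} (σ : Sing Cst n) : ∃ F, IsLog σ F := by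
  have hne := (σ (stdSimplex.vertex 0)).2
  obtain ⟨F, hF, -⟩ := Complex.isCoveringMap_exp.existsUnique_continuousMap_lifts σ
    (stdSimplex.vertex 0) (Complex.log (σ (stdSimplex.vertex 0)).1) (by
      apply Subtype.ext
      exact Complex.exp_log hne)
  refine ⟨F, fun x => ?_⟩
  exact congrArg Subtype.val (congrFun hF.2 x)

lemma log_diff {n : ℕ} {σ : Sing Cst n} {F F' : C(Δ n, ℂ)} (hF : IsLog σ F) (hF' : IsLog σ F')
    (x y : Δ n) : F x - F y = F' x - F' y := by
  let c : ℂ := F y - F' y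
  have hc : Complex.exp c = 1 := by
    simp only [c]
    rw [Complex.exp_sub, hF y, hF' y, div_self (σ y).2]
  let G : C(Δ n, ℂ) := ⟨fun z => F' z + c, by fun_prop⟩
  have hG : IsLog σ G := by
    intro z
    show Complex.exp (F' z + c) = _
    rw [Complex.exp_add, hc, mul_one, hF' z]
  have hex := Complex.isCoveringMap_exp.existsUnique_continuousMap_lifts σ y (F y) (by
    apply Subtype.ext
    exact hF y)
  have h1 := hex.unique (y₁ := F) ⟨rfl, by
    funext z
    apply Subtype.ext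
    exact hF z⟩ (y₂ := G) ⟨by show F' y + c = F y; simp only [c]; ring, by
    funext z
    apply Subtype.ext
    exact hG z⟩
  have h2 : F x = F' x + c := by
    conv_lhs => rw [h1]
    rfl
  rw [h2]
  simp only [c]
  ring

/-- the winding of a path -/
def wd (σ : Sing Cst 1) : ℂ :=
  (exists_log σ).choose (stdSimplex.vertex 1) - (exists_log σ).choose (stdSimplex.vertex 0)

lemma wd_eq {σ : Sing Cst 1} {F : C(Δ 1, ℂ)} (hF : IsLog σ F) :
    wd σ = F (stdSimplex.vertex 1) - F (stdSimplex.vertex 0) :=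
  log_diff (exists_log σ).choose_spec hF _ _

/-- the winding cocycle -/
def wop : (Sing Cst 1 →₀ ℤ) →ₗ[ℤ] ℂ := Finsupp.linearCombination ℤ wd

lemma wop_single (σ : Sing Cst 1) : wop (Finsupp.single σ 1) = wd σ := by
  rw [wop, Finsupp.linearCombination_single, one_smul]

lemma wd_face {τ : Sing Cst 2} {F : C(Δ 2, ℂ)} (hF : IsLog τ F) (i : Fin 3) :
    wd (sface 1 i τ) = F (stdSimplex.vertex (i.succAbove 1)) -
      F (stdSimplex.vertex (i.succAbove 0)) := by
  have h : IsLog (sface 1 i τ) (F.comp (mp i.succAbove)) := fun x => hF (mp i.succAbove x)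
  rw [wd_eq h]
  have h1 : ∀ j : Fin 2, mp i.succAbove (stdSimplex.vertex j) = stdSimplex.vertex (i.succAbove j) :=
    fun j => stdSimplex.map_vertex _ _
  rw [ContinuousMap.comp_apply, ContinuousMap.comp_apply, h1, h1]

lemma wop_bd (c : Sing Cst 2 →₀ ℤ) : wop (bd ℤ Cst 1 c) = 0 := by
  have key : wop ∘ₗ bd ℤ Cst 1 = 0 := by
    refine Finsupp.lhom_ext' fun τ => LinearMap.ext_ring ?_
    simp only [LinearMap.comp_apply, Finsupp.lsingle_apply, LinearMap.zero_apply]
    obtain ⟨F, hF⟩ := exists_log τ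
    rw [bd_two, map_add, map_sub, wop_single, wop_single, wop_single, wd_face hF, wd_face hF,
      wd_face hF]
    have e1 : (0 : Fin 3).succAbove (1 : Fin 2) = 2 := rfl
    have e2 : (0 : Fin 3).succAbove (0 : Fin 2) = 1 := rfl
    have e3 : (1 : Fin 3).succAbove (1 : Fin 2) = 2 := rfl
    have e4 : (1 : Fin 3).succAbove (0 : Fin 2) = 0 := rfl
    have e5 : (2 : Fin 3).succAbove (1 : Fin 2) = 1 := rfl
    have e6 : (2 : Fin 3).succAbove (0 : Fin 2) = 0 := rfl
    rw [e1, e2, e3, e4, e5, e6]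
    ring
  exact LinearMap.congr_fun key c

end

end Pool.Agent.X159.Lef
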