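import Mathlib

/-! `2`-convexity of the complement of two planes and a quarter plane in `ℝ⁴`. -/

set_option autoImplicit false

namespace Pool.Agent.X159.Lef

/-- An open set `Ω` of Euclidean `m`-space is `k`-convex: for every `(k+1)`-simplex with vertices
`p 0, …, p (k+1)` and every choice of `k + 1` of its `k + 2` facets (all but the one opposite to
`p j`), if these facets lie in `Ω` then the simplex lies in `Ω`. -/
def KConvex {m : ℕ} (k : ℕ) (Ω : Set (EuclideanSpace ℝ (Fin m))) : Prop :=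
  ∀ p : Fin (k + 2) → EuclideanSpace ℝ (Fin m), AffineIndependent ℝ p →
    ∀ j : Fin (k + 2), (∀ i, i ≠ j → convexHull ℝ (p '' {i}ᶜ) ⊆ Ω) →
      convexHull ℝ (Set.range p) ⊆ Ω

/-- the closed set: two planes and a quarter plane -/
def Cset : Set (EuclideanSpace ℝ (Fin 4)) :=
  {q | (q 2 = 0 ∧ q 3 = 0) ∨ (q 0 = 0 ∧ q 1 = 0) ∨ (q 1 = 0 ∧ q 3 = 0 ∧ 0 ≤ q 0 ∧ 0 ≤ q 2)}

/-- the open set -/
def Om : Set (EuclideanSpace ℝ (Fin 4)) := Csetᶜ

lemma isOpen_Om : IsOpen Om := by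
  rw [Om, isOpen_compl_iff]
  have h : ∀ i : Fin 4, Continuous (fun x : EuclideanSpace ℝ (Fin 4) => x i) := fun i => by fun_prop
  have hz : ∀ i : Fin 4, IsClosed {q : EuclideanSpace ℝ (Fin 4) | q i = 0} := fun i =>
    isClosed_eq (h i) continuous_const
  have hp : ∀ i : Fin 4, IsClosed {q : EuclideanSpace ℝ (Fin 4) | 0 ≤ q i} := fun i =>
    isClosed_le continuous_const (h i)
  exact ((hz 2).inter (hz 3)).union (((hz 0).inter (hz 1)).union
    ((hz 1).inter ((hz 3).inter ((hp 0).inter (hp 2)))))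

section exit

variable {n : ℕ}

lemma exit_aux (lam mu : Fin n → ℝ) (hl : ∀ i, 0 ≤ lam i) (hmu : ∃ i, mu i < 0) :
    ∃ t : ℝ, 0 ≤ t ∧ ∃ i, mu i < 0 ∧ lam i + t * mu i = 0 ∧ ∀ l, 0 ≤ lam l + t * mu l := by
  classical
  obtain ⟨i, hi, hmin⟩ := (Finset.univ.filter (fun i => mu i < 0)).exists_min_image
    (fun i => lam i / (-mu i)) (by
      obtain ⟨i, hi⟩ := hmu
      exact ⟨i, by simpa using hi⟩)
  simp only [Finset.mem_filter, Finset.mem_univ, true_and] at hi hmin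
  have hi' : 0 < -mu i := by linarith
  refine ⟨lam i / (-mu i), div_nonneg (hl i) hi'.le, i, hi, ?_, fun l => ?_⟩
  · have : mu i ≠ 0 := hi.ne
    field_simp
    ring
  · rcases lt_or_ge (mu l) 0 with h | h
    · have h1 := hmin l h
      have h2 : 0 < -mu l := by linarith
      rw [div_le_div_iff₀ hi' h2] at h1
      have h3 : 0 ≤ (-mu i) * (lam l + lam i / (-mu i) * mu l) := by
        have e : (-mu i) * (lam l + lam i / (-mu i) * mu l) = (-mu i) * lam l + lam i * mu l := by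
          have : mu i ≠ 0 := hi.ne
          field_simp
          ring
        rw [e]
        nlinarith
      exact nonneg_of_mul_nonneg_right h3 hi'
    · have h1 := hl l
      have h2 : 0 ≤ lam i / (-mu i) := div_nonneg (hl i) hi'.le
      positivity

lemma exit_facet (lam mu : Fin n → ℝ) (hl : ∀ i, 0 ≤ lam i) (hmu : mu ≠ 0)
    (hsum : ∑ i, mu i = 0) (j : Fin n) :
    ∃ t : ℝ, ∃ i, i ≠ j ∧ lam i + t * mu i = 0 ∧ ∀ l, 0 ≤ lam l + t * mu l := by
  have hneg : ∃ i, mu i < 0 := by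
    by_contra hcon
    push Not at hcon
    apply hmu
    funext i
    exact (Finset.sum_eq_zero_iff_of_nonneg (fun i _ => hcon i)).1 hsum i (Finset.mem_univ i)
  have hpos : ∃ i, -mu i < 0 := by
    by_contra hcon
    push Not at hcon
    apply hmu
    funext i
    have h1 : ∑ i, -mu i = 0 := by rw [Finset.sum_neg_distrib, hsum, neg_zero]
    have := (Finset.sum_eq_zero_iff_of_nonneg (fun i _ => hcon i)).1 h1 i (Finset.mem_univ i)
    show mu i = 0
    linarith
  obtain ⟨t, _, i, hi, h1, h2⟩ := exit_aux lam mu hl hneg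
  obtain ⟨t', _, i', hi', h1', h2'⟩ := exit_aux lam (fun i => -mu i) hl hpos
  by_cases hij : i = j
  · refine ⟨-t', i', ?_, by linarith, fun l => by have := h2' l; linarith⟩
    rintro rfl
    rw [hij] at hi
    linarith
  · exact ⟨t, i, hij, h1, h2⟩

end exit

/-- three linear equations in four unknowns -/
lemma exists_mu (a b : Fin 4 → ℝ) : ∃ mu : Fin 4 → ℝ, mu ≠ 0 ∧ ∑ i, mu i = 0 ∧
    ∑ i, mu i * a i = 0 ∧ ∑ i, mu i * b i = 0 := by
  let L : (Fin 4 → ℝ) →ₗ[ℝ] (Fin 3 → ℝ) := Matrix.mulVecLin !![1, 1, 1, 1;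
    a 0, a 1, a 2, a 3; b 0, b 1, b 2, b 3]
  have h : ¬ Function.Injective L := by
    intro hinj
    have := LinearMap.finrank_le_finrank_of_injective hinj
    simp at this
  rw [← LinearMap.ker_eq_bot, Submodule.eq_bot_iff] at h
  push Not at h
  obtain ⟨mu, hmu, hne⟩ := h
  have hL : L mu = 0 := hmu
  have h0 := congrFun hL 0
  have h1 := congrFun hL 1
  have h2 := congrFun hL 2
  simp [L, Matrix.mulVec, dotProduct, Fin.sum_univ_four] at h0 h1 h2
  refine ⟨mu, hne, ?_, ?_, ?_⟩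
  · rw [Fin.sum_univ_four]; linarith
  · rw [Fin.sum_univ_four]; linarith
  · rw [Fin.sum_univ_four]; linarith

lemma facet_mem {m : ℕ} {n : ℕ} (p : Fin n → EuclideanSpace ℝ (Fin m)) (lam : Fin n → ℝ)
    (hl : ∀ i, 0 ≤ lam i) (hs : ∑ i, lam i = 1) (i : Fin n) (hi : lam i = 0) :
    ∑ l, lam l • p l ∈ convexHull ℝ (p '' {i}ᶜ) := by
  have h1 : ∑ l ∈ Finset.univ.erase i, lam l • p l = ∑ l, lam l • p l := by
    rw [← Finset.add_sum_erase Finset.univ _ (Finset.mem_univ i), hi, zero_smul, zero_add]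
  have h2 : ∑ l ∈ Finset.univ.erase i, lam l = 1 := by
    rw [← hs, ← Finset.add_sum_erase Finset.univ _ (Finset.mem_univ i), hi, zero_add]
  rw [← h1]
  refine (convex_convexHull ℝ _).sum_mem (fun l _ => hl l) h2 fun l hl' => ?_
  refine subset_convexHull ℝ _ ⟨l, ?_, rfl⟩
  rw [Finset.mem_erase] at hl'
  exact hl'.1

lemma kconvex_Om : KConvex 2 Om := by
  intro p _ j hfac c hc hcC
  -- barycentric coordinates
  have hbar : ∀ c ∈ convexHull ℝ (Set.range p), ∃ lam : Fin 4 → ℝ, (∀ i, 0 ≤ lam i) ∧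
      ∑ i, lam i = 1 ∧ ∑ i, lam i • p i = c := by
    intro c hc
    let L : (Fin 4 → ℝ) →ₗ[ℝ] EuclideanSpace ℝ (Fin 4) :=
      ∑ i, (LinearMap.proj i : (Fin 4 → ℝ) →ₗ[ℝ] ℝ).smulRight (p i)
    have hL : ∀ lam : Fin 4 → ℝ, L lam = ∑ i, lam i • p i := fun lam => by
      simp [L]
    have hsub : Set.range p ⊆ L '' (stdSimplex ℝ (Fin 4)) := by
      rintro _ ⟨i, rfl⟩
      refine ⟨Pi.single i 1, single_mem_stdSimplex ℝ i, ?_⟩
      rw [hL]
      simp [Pi.single_apply]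
    obtain ⟨lam, hlam, rfl⟩ := convexHull_min hsub ((convex_stdSimplex ℝ (Fin 4)).linear_image L) hc
    exact ⟨lam, hlam.1, hlam.2, (hL lam).symm⟩
  have hco : ∀ (lam : Fin 4 → ℝ) (k : Fin 4), (∑ i, lam i • p i) k = ∑ i, lam i * p i k := by
    intro lam k
    simp
  -- the plane lemma
  have hplane : ∀ k k' : Fin 4, (∀ q : EuclideanSpace ℝ (Fin 4), q k = 0 → q k' = 0 → q ∈ Cset) →
      ∀ lam : Fin 4 → ℝ, (∀ i, 0 ≤ lam i) → ∑ i, lam i = 1 → (∑ i, lam i • p i) k = 0 →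
      (∑ i, lam i • p i) k' = 0 → False := by
    intro k k' hC lam hl hs hk hk'
    obtain ⟨mu, hne, h0, h1, h2⟩ := exists_mu (fun i => p i k) (fun i => p i k')
    obtain ⟨t, i, hij, hi, hpos⟩ := exit_facet lam mu hl hne h0 j
    have hs' : ∑ l, (lam l + t * mu l) = 1 := by
      rw [Finset.sum_add_distrib, ← Finset.mul_sum, h0, hs]; ring
    have hmem := facet_mem p (fun l => lam l + t * mu l) hpos hs' i hi
    have hk2 : ∀ k'' : Fin 4, (∑ i, lam i • p i) k'' = 0 → ∑ i, mu i * p i k'' = 0 →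
        (∑ l, (lam l + t * mu l) • p l) k'' = 0 := by
      intro k'' e1 e2
      rw [hco] at e1 ⊢
      have : ∑ l, (lam l + t * mu l) * p l k'' = ∑ l, lam l * p l k'' + t * ∑ l, mu l * p l k'' := by
        rw [Finset.mul_sum, ← Finset.sum_add_distrib]
        exact Finset.sum_congr rfl fun l _ => by ring
      rw [this, e1, e2]; ring
    exact hfac i hij hmem (hC _ (hk2 k hk h1) (hk2 k' hk' h2))
  obtain ⟨lam, hl, hs, rfl⟩ := hbar c hc
  rcases hcC with ⟨h2, h3⟩ | ⟨h0, h1⟩ | ⟨h1, h3, h0, h2⟩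
  · exact hplane 2 3 (fun q e e' => Or.inl ⟨e, e'⟩) lam hl hs h2 h3
  · exact hplane 0 1 (fun q e e' => Or.inr (Or.inl ⟨e, e'⟩)) lam hl hs h0 h1
  · -- the quarter plane
    obtain ⟨mu, hne, m0, m1, m3⟩ := exists_mu (fun i => p i 1) (fun i => p i 3)
    obtain ⟨t, i, hij, hi, hpos⟩ := exit_facet lam mu hl hne m0 j
    have hs' : ∀ s, ∑ l, (lam l + s * mu l) = 1 := by
      intro s
      rw [Finset.sum_add_distrib, ← Finset.mul_sum, m0, hs]; ring
    have hcoord : ∀ (s : ℝ) (k : Fin 4), (∑ l, (lam l + s * mu l) • p l) k =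
        (∑ i, lam i • p i) k + s * ∑ l, mu l * p l k := by
      intro s k
      rw [hco, hco, Finset.mul_sum, ← Finset.sum_add_distrib]
      exact Finset.sum_congr rfl fun l _ => by ring
    have hmem := facet_mem p (fun l => lam l + t * mu l) hpos (hs' t) i hi
    -- intermediate points
    have hmid : ∀ k : Fin 4, 0 ≤ (∑ i, lam i • p i) k → (∑ l, (lam l + t * mu l) • p l) k < 0 →
        ∃ s : ℝ, (∀ l, 0 ≤ lam l + s * mu l) ∧ (∑ l, (lam l + s * mu l) • p l) k = 0 := by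
      intro k e1 e2
      set x0 := (∑ i, lam i • p i) k with hx0
      set x1 := (∑ l, (lam l + t * mu l) • p l) k with hx1
      have e3 : x1 = x0 + t * ∑ l, mu l * p l k := hcoord t k
      have hd : 0 < x0 - x1 := by linarith
      refine ⟨t * (x0 / (x0 - x1)), fun l => ?_, ?_⟩
      · have hr0 : 0 ≤ x0 / (x0 - x1) := div_nonneg e1 hd.le
        have hr1 : x0 / (x0 - x1) ≤ 1 := by rw [div_le_one hd]; linarith
        have h4 := hpos l
        have h5 := hl l
        have e : lam l + t * (x0 / (x0 - x1)) * mu l =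
          (1 - x0 / (x0 - x1)) * lam l + (x0 / (x0 - x1)) * (lam l + t * mu l) := by ring
        rw [e]
        have : 0 ≤ 1 - x0 / (x0 - x1) := by linarith
        positivity
      · rw [hcoord, ← hx0]
        have e4 : t * ∑ l, mu l * p l k = -(x0 - x1) := by linarith
        have e5 : t * (x0 / (x0 - x1)) * ∑ l, mu l * p l k =
          (x0 / (x0 - x1)) * (t * ∑ l, mu l * p l k) := by ring
        rw [e5, e4]
        field_simp
        ring
    have c1 : ∀ s : ℝ, (∑ l, (lam l + s * mu l) • p l) 1 = 0 := fun s => by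
      rw [hcoord, h1, m1]; ring
    have c3 : ∀ s : ℝ, (∑ l, (lam l + s * mu l) • p l) 3 = 0 := fun s => by
      rw [hcoord, h3, m3]; ring
    by_cases g0 : 0 ≤ (∑ l, (lam l + t * mu l) • p l) 0
    · by_cases g2 : 0 ≤ (∑ l, (lam l + t * mu l) • p l) 2
      · exact hfac i hij hmem (Or.inr (Or.inr ⟨c1 t, c3 t, g0, g2⟩))
      · obtain ⟨s, hsp, hs0⟩ := hmid 2 h2 (not_le.1 g2)
        exact hplane 2 3 (fun q e e' => Or.inl ⟨e, e'⟩) _ hsp (hs' s) hs0 (c3 s)
    · obtain ⟨s, hsp, hs0⟩ := hmid 0 h0 (not_le.1 g0)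
      exact hplane 0 1 (fun q e e' => Or.inr (Or.inl ⟨e, e'⟩)) _ hsp (hs' s) hs0 (c1 s)

end Pool.Agent.X159.Lef
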