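import Pool.Agent.TH592.Nag.Bridge

/-! Injectivity in Mathlib's singular homology in terms of explicit chains. -/

set_option autoImplicit false

namespace Pool.Agent.X159.Lef

open CategoryTheory AlgebraicTopology Simplicial Opposite Limits
open Pool.Agent.Helper381 Pool.Agent.TH592.Nag

noncomputable section

variable {R : Type} [CommRing R] {A X : Type} [TopologicalSpace A] [TopologicalSpace X]

variable (R) in
/-- push forward of singular chains -/
def push (f : C(A, X)) (n : ℕ) : (Sing A n →₀ R) →ₗ[R] (Sing X n →₀ R) :=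
  Finsupp.lmapDomain R R (fun σ : Sing A n => f.comp σ)

theorem push_single (f : C(A, X)) (n : ℕ) (σ : Sing A n) (c : R) :
    push R f n (Finsupp.single σ c) = Finsupp.single (f.comp σ) c := by
  rw [push, Finsupp.lmapDomain_apply, Finsupp.mapDomain_single]

theorem bd_single (n : ℕ) (σ : Sing A (n + 1)) (c : R) : bd R A n (Finsupp.single σ c) =
    c • ∑ i : Fin (n + 2), ((-1 : ℤ) ^ (i : ℕ)) • Finsupp.single (sface n i σ) (1 : R) := by
  rw [bd, Finsupp.linearCombination_single]

theorem push_bd (f : C(A, X)) (n : ℕ) (c : Sing A (n + 1) →₀ R) :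
    push R f n (bd R A n c) = bd R X n (push R f (n + 1) c) := by
  have h : push R f n ∘ₗ bd R A n = bd R X n ∘ₗ push R f (n + 1) := by
    refine Finsupp.lhom_ext' fun σ => LinearMap.ext_ring ?_
    simp only [LinearMap.comp_apply, Finsupp.lsingle_apply]
    rw [push_single, bd_single, bd_single, one_smul, one_smul, map_sum]
    refine Finset.sum_congr rfl fun i _ => ?_
    rw [map_zsmul, push_single]
    rfl
  exact LinearMap.congr_fun h c

variable (R) in
/-- the chain map of a continuous map -/
abbrev kmap (f : C(A, X)) : KK R A ⟶ KK R X :=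
  SSet.chainComplexMap (TopCat.toSSet.map (TopCat.ofHom f)) (RR R)

theorem kmap_toC (f : C(A, X)) (n : ℕ) (c : Sing A n →₀ R) :
    ((kmap R f).f n).hom (toC R A n c) = toC R X n (push R f n c) := by
  have h : ((kmap R f).f n).hom ∘ₗ toC R A n = toC R X n ∘ₗ push R f n := by
    refine Finsupp.lhom_ext' fun σ => LinearMap.ext_ring ?_
    simp only [LinearMap.comp_apply, Finsupp.lsingle_apply]
    rw [push_single, toC, toC, Finsupp.linearCombination_single,
      Finsupp.linearCombination_single, one_smul, one_smul, bas,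
      bas, ← ModuleCat.comp_apply, SSet.ι_chainComplexMap_f]
    rfl
  exact LinearMap.congr_fun h c

/-- the morphism given by an element -/
def elt {M : ModuleCat.{0} R} (x : M) : RR R ⟶ M :=
  ModuleCat.ofHom (LinearMap.toSpanSingleton R M x)

theorem elt_one {M : ModuleCat.{0} R} (x : M) : (elt x).hom (1 : R) = x :=
  one_smul _ x

theorem elt_comp {M M' : ModuleCat.{0} R} (x : M) (g : M ⟶ M') :
    elt x ≫ g = elt (g.hom x) := by
  apply ModuleCat.hom_ext
  refine LinearMap.ext_ring ?_
  show g.hom ((elt x).hom (1 : R)) = (elt (g.hom x)).hom (1 : R)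
  rw [elt_one, elt_one]

/-- injectivity in homology, in terms of explicit chains -/
theorem mono_bridge (f : C(A, X)) (n : ℕ)
    (h : Mono (((singularHomologyFunctor (ModuleCat.{0} R) n).obj
      (ModuleCat.of R R)).map (TopCat.ofHom f)))
    (u : Sing A n →₀ R) (hu : u ∈ cyc R A n) (hb : ∃ b, bd R X n b = push R f n u) :
    ∃ b, bd R A n b = u := by
  have h1 : Mono (HomologicalComplex.homologyMap (kmap R f) n) := h
  rw [HomologicalComplex.mono_homologyMap_iff_up_to_refinements (kmap R f) (n + 1) n
    ((ComplexShape.down ℕ).next n) (by simp) rfl] at h1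
  obtain ⟨b, hb⟩ := hb
  have e1 : elt (toC R A n u) ≫ (KK R A).d n ((ComplexShape.down ℕ).next n) = 0 := by
    rw [elt_comp, (cyc_iff u).1 hu]
    apply ModuleCat.hom_ext
    refine LinearMap.ext_ring ?_
    rw [elt_one]
    rfl
  have e2 : elt (toC R A n u) ≫ (kmap R f).f n =
      elt (toC R X (n + 1) b) ≫ (KK R X).d (n + 1) n := by
    rw [elt_comp, elt_comp, kmap_toC, d_toC, hb]
  obtain ⟨A', π, hπ, x₁, hx⟩ := h1 (elt (toC R A n u)) e1 (elt (toC R X (n + 1) b)) e2
  have hs : Function.Surjective π := (ModuleCat.epi_iff_surjective π).1 hπ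
  obtain ⟨a, ha⟩ := hs (1 : R)
  refine ⟨(ofC R A (n + 1)).hom (x₁.hom a), ?_⟩
  apply toC_injective
  rw [← d_toC, toC_ofC]
  have h2 : (π ≫ elt (toC R A n u)).hom a = (x₁ ≫ (KK R A).d (n + 1) n).hom a := by rw [hx]
  have h6 : (π ≫ elt (toC R A n u)).hom a = toC R A n u := by
    show (elt (toC R A n u)).hom (π.hom a) = toC R A n u
    have ha' : π.hom a = (1 : R) := ha
    rw [ha', elt_one]
  rw [← h6, h2]
  rfl

end

end Pool.Agent.X159.Lef
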