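import Pool.Agent.X159.LefChain
import Pool.Agent.X159.LefGeo

set_option autoImplicit false

namespace Pool.Agent.X159.Lef

open Pool.Agent.Helper381 Pool.Agent.TH592.Nag CategoryTheory AlgebraicTopology Real

noncomputable section

abbrev E4 := EuclideanSpace ℝ (Fin 4)

/-- the punctured square -/
abbrev Sq : Type := {p : ℝ × ℝ // |p.1| ≤ π ∧ |p.2| ≤ π ∧ p ≠ 0}

lemma cs_aux {α s : ℝ} (hα : |α| ≤ π) (hs0 : 0 ≤ s) (hs1 : s ≤ 1)
    (h : (1 - s) * sin α + s * α = 0) : (s = 0 ∧ sin α = 0) ∨ α = 0 := by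
  have h1 : 0 ≤ α * sin α := by
    obtain ⟨ha, hb⟩ := abs_le.1 hα
    rcases le_total 0 α with h | h
    · exact mul_nonneg h (sin_nonneg_of_nonneg_of_le_pi h hb)
    · exact mul_nonneg_of_nonpos_of_nonpos h (sin_nonpos_of_nonpos_of_neg_pi_le h ha)
  have h2 : (1 - s) * (α * sin α) + s * α ^ 2 = 0 := by
    have : (1 - s) * (α * sin α) + s * α ^ 2 = α * ((1 - s) * sin α + s * α) := by ring
    rw [this, h, mul_zero]
  have h3 : 0 ≤ (1 - s) * (α * sin α) := mul_nonneg (by linarith) h1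
  have h4 : 0 ≤ s * α ^ 2 := by positivity
  have h5 : s * α ^ 2 = 0 := by linarith
  rcases mul_eq_zero.1 h5 with h6 | h6
  · left
    refine ⟨h6, ?_⟩
    rw [h6] at h
    linarith
  · right
    exact pow_eq_zero_iff (two_ne_zero) |>.1 h6

lemma cs_ne {α s : ℝ} (hα : |α| ≤ π) (hs0 : 0 ≤ s) (hs1 : s ≤ 1) :
    ¬ ((1 - s) * cos α + s = 0 ∧ (1 - s) * sin α + s * α = 0) := by
  rintro ⟨h1, h2⟩
  rcases cs_aux hα hs0 hs1 h2 with ⟨rfl, h3⟩ | rfl
  · have h4 := sin_sq_add_cos_sq α
    have h5 : cos α = 0 := by linarith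
    rw [h3, h5] at h4
    norm_num at h4
  · rw [cos_zero] at h1
    linarith

lemma cs_zero {α s : ℝ} (hα : |α| ≤ π) (hs0 : 0 ≤ s) (hs1 : s ≤ 1)
    (h1 : 0 ≤ (1 - s) * cos α + s) (h2 : (1 - s) * sin α + s * α = 0) : α = 0 := by
  rcases cs_aux hα hs0 hs1 h2 with ⟨rfl, h3⟩ | h
  · obtain ⟨ha, hb⟩ := abs_le.1 hα
    have hc : 0 ≤ cos α := by linarith
    have h4 := sin_sq_add_cos_sq α
    have h5 : cos α = 1 := by
      rw [h3] at h4
      nlinarith
    have hπ := pi_pos
    exact (cos_eq_one_iff_of_lt_of_lt (by linarith) (by linarith)).1 h5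
  · exact h

/-- the homotopy -/
def hfun (p : ℝ × ℝ) (s : ℝ) : E4 :=
  !₂[(1 - s) * cos p.1 + s, (1 - s) * sin p.1 + s * p.1,
    (1 - s) * cos p.2 + s, (1 - s) * sin p.2 + s * p.2]

lemma hfun_mem (p : Sq) (s : unitInterval) : hfun p.1 s.1 ∈ Om := by
  obtain ⟨p, hp1, hp2, hp⟩ := p
  obtain ⟨s, hs0, hs1⟩ := s
  rintro (⟨h2, h3⟩ | ⟨h0, h1⟩ | ⟨h1, h3, h0, h2⟩)
  · exact cs_ne hp2 hs0 hs1 ⟨h2, h3⟩
  · exact cs_ne hp1 hs0 hs1 ⟨h0, h1⟩
  · exact hp (Prod.ext (cs_zero hp1 hs0 hs1 h0 h1) (cs_zero hp2 hs0 hs1 h2 h3))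

lemma hfun_cont : Continuous (fun q : (ℝ × ℝ) × ℝ => hfun q.1 q.2) := by
  refine (PiLp.continuous_toLp 2 _).comp (continuous_pi fun i => ?_)
  fin_cases i <;> simp <;> fun_prop

/-- the homotopy in `Ω` -/
def hmap : C(Sq × unitInterval, Om) :=
  ⟨fun q => ⟨hfun q.1.1 q.2.1, hfun_mem q.1 q.2⟩, by
    refine Continuous.subtype_mk ?_ _
    exact hfun_cont.comp ((continuous_subtype_val.comp continuous_fst).prodMk
      (continuous_subtype_val.comp continuous_snd))⟩

/-- the plane `x = z = 1` -/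
def pl : AffineSubspace ℝ E4 :=
  AffineSubspace.mk' !₂[1, 0, 1, 0]
    (LinearMap.ker (((EuclideanSpace.proj 0 : E4 →L[ℝ] ℝ) : E4 →ₗ[ℝ] ℝ).prod
      ((EuclideanSpace.proj 2 : E4 →L[ℝ] ℝ) : E4 →ₗ[ℝ] ℝ)))

lemma mem_pl (q : E4) : q ∈ pl ↔ q 0 = 1 ∧ q 2 = 1 := by
  rw [pl, AffineSubspace.mem_mk', vsub_eq_sub, LinearMap.mem_ker]
  simp [sub_eq_zero]

lemma finrank_pl : Module.finrank ℝ pl.direction = 2 := by
  rw [pl, AffineSubspace.direction_mk']
  set L := ((EuclideanSpace.proj 0 : E4 →L[ℝ] ℝ) : E4 →ₗ[ℝ] ℝ).prod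
      ((EuclideanSpace.proj 2 : E4 →L[ℝ] ℝ) : E4 →ₗ[ℝ] ℝ) with hL
  have h1 := LinearMap.finrank_range_add_finrank_ker L
  have h2 : LinearMap.range L = ⊤ := by
    rw [LinearMap.range_eq_top]
    rintro ⟨a, b⟩
    refine ⟨!₂[a, 0, b, 0], ?_⟩
    rw [hL]
    simp
  rw [h2, finrank_top, finrank_euclideanSpace_fin, Module.finrank_prod, Module.finrank_self] at h1
  have h3 : Module.finrank ℝ (LinearMap.ker L) = 2 := by omega
  exact h3

/-- the section -/
abbrev Sec : Type := ↥(Om ∩ (pl : Set E4))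

/-- the inclusion -/
def inc : C(Sec, Om) := ⟨Set.inclusion Set.inter_subset_left, continuous_inclusion _⟩

/-- the loop space map into the section -/
def gmap : C(Sq, Sec) :=
  ⟨fun p => ⟨!₂[1, p.1.1, 1, p.1.2], by
    constructor
    · have := hfun_mem p 1
      have e : hfun p.1 (1 : unitInterval).1 = !₂[1, p.1.1, 1, p.1.2] := by
        simp [hfun]
      rw [e] at this
      exact this
    · show _ ∈ pl
      rw [mem_pl]
      simp⟩, by
    refine Continuous.subtype_mk ?_ _
    refine (PiLp.continuous_toLp 2 _).comp (continuous_pi fun i => ?_)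
    fin_cases i <;> simp <;> fun_prop⟩

lemma slice_one : slice hmap 1 = inc.comp gmap := by
  refine ContinuousMap.ext fun p => Subtype.ext ?_
  show hfun p.1 (1 : unitInterval).1 = !₂[1, p.1.1, 1, p.1.2]
  simp [hfun]

/-- the map to the punctured complex plane -/
def phi : C(Sec, Cst) :=
  ⟨fun q => ⟨(q.1 1 : ℂ) + (q.1 3 : ℂ) * Complex.I, by
    intro h
    have h1 := congrArg Complex.re h
    have h3 := congrArg Complex.im h
    simp at h1 h3
    obtain ⟨h0, h2⟩ := (mem_pl q.1).1 q.2.2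
    exact q.2.1 (Or.inr (Or.inr ⟨h1, h3, by rw [h0]; norm_num, by rw [h2]; norm_num⟩))⟩, by
    refine Continuous.subtype_mk ?_ _
    have h : ∀ i : Fin 4, Continuous (fun q : Sec => (q.1 i : ℝ)) := fun i => by fun_prop
    have h' : ∀ i : Fin 4, Continuous (fun q : Sec => ((q.1 i : ℝ) : ℂ)) := fun i =>
      Complex.continuous_ofReal.comp (h i)
    exact (h' 1).add ((h' 3).mul continuous_const)⟩

/-- parameter on the edges -/
def par (s : unitInterval) : ℝ := -π + 2 * π * s.1

lemma par_cont : Continuous par := by unfold par; fun_prop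

lemma par_zero : par 0 = -π := by simp [par]
lemma par_one : par 1 = π := by simp [par]; ring

lemma abs_par (s : unitInterval) : |par s| ≤ π := by
  have hπ := pi_pos
  have h0 := s.2.1
  have h1 := s.2.2
  unfold par
  rw [abs_le]
  constructor <;> nlinarith

lemma abs_pi' : |π| ≤ π := by rw [abs_of_pos pi_pos]
lemma abs_neg_pi : |-π| ≤ π := by rw [abs_neg, abs_of_pos pi_pos]

/-- the four edges -/
def eB : C(unitInterval, Sq) := ⟨fun s => ⟨(par s, -π), abs_par s, abs_neg_pi, fun h => by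
  have := congrArg Prod.snd h; simp at this⟩,
  Continuous.subtype_mk (par_cont.prodMk continuous_const) _⟩
def eT : C(unitInterval, Sq) := ⟨fun s => ⟨(par s, π), abs_par s, abs_pi', fun h => by
  have := congrArg Prod.snd h; simp at this⟩,
  Continuous.subtype_mk (par_cont.prodMk continuous_const) _⟩
def eL : C(unitInterval, Sq) := ⟨fun s => ⟨(-π, par s), abs_neg_pi, abs_par s, fun h => by
  have := congrArg Prod.fst h; simp at this⟩,
  Continuous.subtype_mk (continuous_const.prodMk par_cont) _⟩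
def eR : C(unitInterval, Sq) := ⟨fun s => ⟨(π, par s), abs_pi', abs_par s, fun h => by
  have := congrArg Prod.fst h; simp at this⟩,
  Continuous.subtype_mk (continuous_const.prodMk par_cont) _⟩

/-- the cycle -/
def zz : Sing Sq 1 →₀ ℤ :=
  Finsupp.single (eB.comp tm) 1 + Finsupp.single (eR.comp tm) 1 -
    Finsupp.single (eT.comp tm) 1 - Finsupp.single (eL.comp tm) 1

lemma face_zero {X : Type} [TopologicalSpace X] (e : C(unitInterval, X)) :
    sface 0 0 (e.comp tm) = ContinuousMap.const _ (e 1) := by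
  refine ContinuousMap.ext fun x => ?_
  rw [sface_apply, ContinuousMap.comp_apply, mp_const (j := 1) (fun i => by fin_cases i; rfl),
    tm_vertex_one]
  rfl

lemma face_one {X : Type} [TopologicalSpace X] (e : C(unitInterval, X)) :
    sface 0 1 (e.comp tm) = ContinuousMap.const _ (e 0) := by
  refine ContinuousMap.ext fun x => ?_
  rw [sface_apply, ContinuousMap.comp_apply, mp_const (j := 0) (fun i => by fin_cases i; rfl),
    tm_vertex_zero]
  rfl

lemma bd_zz : bd ℤ Sq 0 zz = 0 := by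
  rw [zz, map_sub, map_sub, map_add, bd_one, bd_one, bd_one, bd_one]
  simp only [face_zero, face_one]
  have h1 : eB 1 = eR 0 := Subtype.ext (Prod.ext par_one par_zero.symm)
  have h2 : eR 1 = eT 1 := Subtype.ext (Prod.ext par_one.symm par_one)
  have h3 : eT 0 = eL 1 := Subtype.ext (Prod.ext par_zero par_one.symm)
  have h4 : eB 0 = eL 0 := Subtype.ext (Prod.ext par_zero par_zero.symm)
  rw [h1, h2, h3, h4]
  abel

lemma push_zero_zz : push ℤ (slice hmap 0) 1 zz = 0 := by
  rw [zz, map_sub, map_sub, map_add, push_single, push_single, push_single, push_single]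
  have h1 : (slice hmap 0).comp (eB.comp tm) = (slice hmap 0).comp (eT.comp tm) := by
    refine ContinuousMap.ext fun x => Subtype.ext ?_
    show hfun (par (tm x), -π) (0 : unitInterval).1 = hfun (par (tm x), π) (0 : unitInterval).1
    simp [hfun]
  have h2 : (slice hmap 0).comp (eR.comp tm) = (slice hmap 0).comp (eL.comp tm) := by
    refine ContinuousMap.ext fun x => Subtype.ext ?_
    show hfun (π, par (tm x)) (0 : unitInterval).1 = hfun (-π, par (tm x)) (0 : unitInterval).1
    simp [hfun]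
  rw [h1, h2]
  abel

/-- the difference of the two values of the logarithm -/
def DD : ℂ := Complex.log (π + π * Complex.I) - Complex.log (π - π * Complex.I)

lemma re_pos_slit {z : ℂ} (h : 0 < z.re) : z ∈ Complex.slitPlane := Or.inl h

lemma wd_log (σ : Sing Cst 1) (k : ℂ) (c : ℝ) (hc : c = 1 ∨ c = -1)
    (h : ∀ x, (σ x).1 = Complex.exp k * (π + c * par (tm x) * Complex.I)) :
    wd σ = c * DD := by
  have hre : ∀ x : Δ 1, 0 < ((π : ℂ) + c * par (tm x) * Complex.I).re := fun x => by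
    simp
    exact pi_pos
  have hcont : Continuous (fun x : Δ 1 => Complex.log (π + c * par (tm x) * Complex.I) + k) := by
    refine Continuous.add (Continuous.clog ?_ fun x => re_pos_slit (hre x)) continuous_const
    have : Continuous (fun x : Δ 1 => ((par (tm x) : ℝ) : ℂ)) :=
      Complex.continuous_ofReal.comp (par_cont.comp tm.continuous)
    fun_prop
  have hlog : IsLog σ ⟨_, hcont⟩ := by
    intro x
    show Complex.exp (Complex.log (π + c * par (tm x) * Complex.I) + k) = _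
    rw [Complex.exp_add, Complex.exp_log, h x, mul_comm]
    intro h0
    have := hre x
    rw [h0] at this
    simp at this
  rw [wd_eq hlog]
  show (Complex.log (π + c * par (tm (stdSimplex.vertex 1)) * Complex.I) + k) -
    (Complex.log (π + c * par (tm (stdSimplex.vertex 0)) * Complex.I) + k) = c * DD
  rw [tm_vertex_one, tm_vertex_zero, par_one, par_zero, DD]
  rcases hc with rfl | rfl
  · push_cast
    have e1 : (π : ℂ) + 1 * π * Complex.I = π + π * Complex.I := by ring
    have e2 : (π : ℂ) + 1 * -π * Complex.I = π - π * Complex.I := by ring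
    rw [e1, e2]
    ring
  · push_cast
    have e1 : (π : ℂ) + -1 * π * Complex.I = π - π * Complex.I := by ring
    have e2 : (π : ℂ) + -1 * -π * Complex.I = π + π * Complex.I := by ring
    rw [e1, e2]
    ring

lemma DD_ne : DD ≠ 0 := by
  intro h
  have h1 : Complex.log (π + π * Complex.I) = Complex.log (π - π * Complex.I) := sub_eq_zero.1 h
  have h2 := congrArg Complex.exp h1
  have hne1 : (π : ℂ) + π * Complex.I ≠ 0 := by
    intro h0
    have := congrArg Complex.re h0
    simp at this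
  have hne2 : (π : ℂ) - π * Complex.I ≠ 0 := by
    intro h0
    have := congrArg Complex.re h0
    simp at this
  rw [Complex.exp_log hne1, Complex.exp_log hne2] at h2
  have := congrArg Complex.im h2
  simp at this
  have := pi_pos
  linarith

lemma exp_half : Complex.exp ((π / 2 : ℝ) * Complex.I) = Complex.I := by
  rw [Complex.exp_mul_I, ← Complex.ofReal_cos, ← Complex.ofReal_sin, cos_pi_div_two,
    sin_pi_div_two]
  simp

lemma wop_zz : wop (push ℤ (phi.comp gmap) 1 zz) = 4 * DD := by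
  simp only [zz, map_sub, map_add, push_single, wop_single]
  have hR : wd ((phi.comp gmap).comp (eR.comp tm)) = (1 : ℝ) * DD := by
    refine wd_log _ 0 1 (Or.inl rfl) fun x => ?_
    show ((π : ℝ) : ℂ) + ((par (tm x) : ℝ) : ℂ) * Complex.I = _
    rw [Complex.exp_zero]
    push_cast
    ring
  have hB : wd ((phi.comp gmap).comp (eB.comp tm)) = (1 : ℝ) * DD := by
    refine wd_log _ (-((π / 2 : ℝ) * Complex.I)) 1 (Or.inl rfl) fun x => ?_
    show ((par (tm x) : ℝ) : ℂ) + ((-π : ℝ) : ℂ) * Complex.I = _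
    rw [Complex.exp_neg, exp_half, Complex.inv_I]
    push_cast
    linear_combination ((par (tm x) : ℝ) : ℂ) * Complex.I_sq
  have hT : wd ((phi.comp gmap).comp (eT.comp tm)) = ((-1 : ℝ) : ℂ) * DD := by
    refine wd_log _ ((π / 2 : ℝ) * Complex.I) (-1) (Or.inr rfl) fun x => ?_
    show ((par (tm x) : ℝ) : ℂ) + ((π : ℝ) : ℂ) * Complex.I = _
    rw [exp_half]
    push_cast
    linear_combination ((par (tm x) : ℝ) : ℂ) * Complex.I_sq
  have hL : wd ((phi.comp gmap).comp (eL.comp tm)) = ((-1 : ℝ) : ℂ) * DD := by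
    refine wd_log _ (π * Complex.I) (-1) (Or.inr rfl) fun x => ?_
    show ((-π : ℝ) : ℂ) + ((par (tm x) : ℝ) : ℂ) * Complex.I = _
    rw [Complex.exp_pi_mul_I]
    push_cast
    ring
  rw [hR, hB, hT, hL]
  push_cast
  ring

lemma push_comp {X Y Z : Type} [TopologicalSpace X] [TopologicalSpace Y] [TopologicalSpace Z]
    (f : C(X, Y)) (g : C(Y, Z)) (n : ℕ) (c : Sing X n →₀ ℤ) :
    push ℤ g n (push ℤ f n c) = push ℤ (g.comp f) n c := by
  have h : push ℤ g n ∘ₗ push ℤ f n = push ℤ (g.comp f) n := by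
    refine Finsupp.lhom_ext' fun σ => LinearMap.ext_ring ?_
    simp only [LinearMap.comp_apply, Finsupp.lsingle_apply]
    rw [push_single, push_single, push_single]
    rfl
  exact LinearMap.congr_fun h c

theorem not_mono : ¬ Mono (((singularHomologyFunctor (ModuleCat.{0} ℤ) 1).obj
      (ModuleCat.of ℤ ℤ)).map (TopCat.ofHom inc)) := by
  intro h
  have hcyc : push ℤ gmap 1 zz ∈ cyc ℤ Sec 1 := by
    show bd ℤ Sec 0 (push ℤ gmap 1 zz) = 0
    rw [← push_bd, bd_zz, map_zero]
  obtain ⟨b, hb⟩ := push_boundary hmap zz bd_zz push_zero_zz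
  rw [slice_one, ← push_comp] at hb
  obtain ⟨b', hb'⟩ := mono_bridge inc 1 h _ hcyc ⟨b, hb⟩
  have h1 : wop (push ℤ phi 1 (push ℤ gmap 1 zz)) = 0 := by
    rw [← hb', push_bd, wop_bd]
  rw [push_comp, wop_zz] at h1
  have := DD_ne
  rcases mul_eq_zero.1 h1 with h2 | h2
  · norm_num at h2
  · exact this h2

end

end Pool.Agent.X159.Lef
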