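import Mathlib

/-! Construction of an upper density whose lower dual is not homogeneous. -/

set_option autoImplicit false

namespace Pool.Agent.X159.LowDens

/-- The rapidly growing sequence. -/
def yseq (n : ℕ) : ℤ := ((n.factorial : ℕ) : ℤ) + ((Nat.unpair n).1 : ℤ)

/-- The sparse set. -/
def Y : Set ℤ := Set.range yseq

lemma yseq_le (n : ℕ) : yseq n ≤ (n.factorial : ℤ) + n := by
  have := Nat.unpair_left_le n
  unfold yseq
  omega

lemma fact_le_yseq (n : ℕ) : (n.factorial : ℤ) ≤ yseq n := by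
  unfold yseq
  omega

lemma self_le_fact (n : ℕ) : (n : ℤ) ≤ (n.factorial : ℤ) := by
  exact_mod_cast Nat.self_le_factorial n

lemma yseq_pos (n : ℕ) : 1 ≤ yseq n := by
  have h1 : 1 ≤ n.factorial := Nat.succ_le_of_lt n.factorial_pos
  have := fact_le_yseq n
  have : (1 : ℤ) ≤ (n.factorial : ℤ) := by exact_mod_cast h1
  omega

lemma yseq_mono : Monotone yseq := by
  refine monotone_nat_of_le_succ fun n => ?_
  refine (yseq_le n).trans (le_trans ?_ (fact_le_yseq (n + 1)))
  rw [Nat.factorial_succ]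
  push_cast
  have h1 : (1 : ℤ) ≤ (n.factorial : ℤ) := by exact_mod_cast n.factorial_pos
  nlinarith [Int.natCast_nonneg n]

lemma n_le_yseq (n : ℕ) : (n : ℤ) ≤ yseq n := (self_le_fact n).trans (fact_le_yseq n)

/-- `Y` meets `m Y + h` in a finite set. -/
lemma finite_inter (m : ℕ) (hm : 2 ≤ m) (h : ℤ) : (Y ∩ {n | ∃ y ∈ Y, n = m * y + h}).Finite := by
  refine ((Set.finite_Iio (2 * m + h.natAbs + 1)).image (fun q => (m : ℤ) * yseq q + h)).subset ?_
  rintro _ ⟨⟨p, rfl⟩, _, ⟨q, rfl⟩, hpq⟩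
  refine ⟨q, ?_, hpq.symm⟩
  by_contra hq
  simp only [Set.mem_Iio, not_lt] at hq
  have hqh : (h.natAbs : ℤ) + 1 + 2 * m ≤ q := by
    omega
  have hyq := n_le_yseq q
  have hm' : (2 : ℤ) ≤ m := by exact_mod_cast hm
  have habs1 : -(h.natAbs : ℤ) ≤ h := by omega
  have habs2 : h ≤ (h.natAbs : ℤ) := by omega
  rcases le_or_gt p q with hle | hlt
  · have h1 := yseq_mono hle
    rw [hpq] at h1
    nlinarith
  · have h1 := yseq_mono (Nat.succ_le_of_lt hlt)
    have h2 := fact_le_yseq (q + 1)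
    have h3 := yseq_le q
    have h4 := self_le_fact q
    rw [Nat.factorial_succ] at h2
    push_cast at h2
    simp only [Nat.succ_eq_add_one] at h1
    have h5 : (m : ℤ) * yseq q ≤ m * (2 * (q.factorial : ℤ)) :=
      mul_le_mul_of_nonneg_left (by linarith) (by linarith)
    have h6 : (1 : ℤ) ≤ (q.factorial : ℤ) := by exact_mod_cast q.factorial_pos
    have h7 : (h.natAbs : ℤ) ≤ (h.natAbs : ℤ) * (q.factorial : ℤ) :=
      le_mul_of_one_le_right (by positivity) h6
    have h8 : ((2 : ℤ) * m + h.natAbs + 1) * (q.factorial : ℤ) ≤ (q : ℤ) * (q.factorial : ℤ) :=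
      mul_le_mul_of_nonneg_right (by linarith) (by linarith)
    nlinarith

/-- `Y` meets every residue class in an infinite set. -/
lemma infinite_inter (L : ℕ) (hL : 0 < L) (r : ℤ) : (Y ∩ {n | (L : ℤ) ∣ n - r}).Infinite := by
  -- natural representative of the residue
  obtain ⟨a, ha⟩ : ∃ a : ℕ, (L : ℤ) ∣ (a : ℤ) - r := by
    refine ⟨(r % L).toNat, ?_⟩
    rw [Int.toNat_of_nonneg (Int.emod_nonneg _ (by exact_mod_cast hL.ne'))]
    have := Int.emod_add_mul_ediv r L
    refine ⟨-(r / L), by linarith⟩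
  have hinj : ∀ N : ℕ, ∃ y ∈ Y ∩ {n | (L : ℤ) ∣ n - r}, (N : ℤ) ≤ y := by
    intro N
    set n := Nat.pair a (N + L) with hn
    have hnN : N + L ≤ n := Nat.right_le_pair _ _
    refine ⟨yseq n, ⟨⟨n, rfl⟩, ?_⟩, ?_⟩
    · have h1 : (L : ℤ) ∣ (n.factorial : ℤ) := by
        exact_mod_cast Nat.dvd_factorial hL (by omega)
      have h2 : yseq n - r = (n.factorial : ℤ) + ((a : ℤ) - r) := by
        unfold yseq
        rw [hn, Nat.unpair_pair]
        ring
      show (L : ℤ) ∣ yseq n - r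
      rw [h2]
      exact dvd_add h1 ha
    · have := n_le_yseq n
      have : (N : ℤ) ≤ n := by exact_mod_cast (by omega : N ≤ n)
      linarith
  intro hfin
  obtain ⟨b, hb⟩ := hfin.bddAbove
  obtain ⟨y, hy, hNy⟩ := hinj (b + 1).toNat
  have := hb hy
  have := Int.self_le_toNat (b + 1)
  omega

/-- The set `B`: the odd integers and `2 Y`. -/
def B : Set ℤ := {n | ¬ (2 : ℤ) ∣ n} ∪ {n | ∃ y ∈ Y, n = 2 * y}

/-- The covering sets: residue classes `g mod l` and sets `k B + h`. -/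
def piece (p : Bool × ℕ × ℤ) : Set ℤ :=
  match p with
  | (false, l, g) => {n | (l : ℤ) ∣ n - g}
  | (true, k, h) => {n | ∃ b ∈ B, n = k * b + h}

/-- The modulus of a covering set. -/
def modu (p : Bool × ℕ × ℤ) : ℕ :=
  match p with
  | (false, l, _) => l
  | (true, k, _) => 2 * k

/-- The weight of a covering set. -/
noncomputable def wt (p : Bool × ℕ × ℤ) : ℝ := 1 / (modu p : ℝ)

/-- `c` is a cover of `S`. -/
def IsCover (c : List (Bool × ℕ × ℤ)) (S : Set ℤ) : Prop :=
  (∀ p ∈ c, 0 < p.2.1) ∧ ∀ x ∈ S, ∃ p ∈ c, x ∈ piece p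

/-- The total weight. -/
noncomputable def tot (c : List (Bool × ℕ × ℤ)) : ℝ := (c.map wt).sum

/-- The weights of covers of `S`. -/
def Wts (S : Set ℤ) : Set ℝ := {W | ∃ c, IsCover c S ∧ tot c = W}

/-- The upper density. -/
noncomputable def mu (S : Set ℤ) : ℝ := sInf (Wts S)

lemma wt_nonneg (p : Bool × ℕ × ℤ) : 0 ≤ wt p := by unfold wt; positivity

lemma tot_nonneg (c : List (Bool × ℕ × ℤ)) : 0 ≤ tot c := by
  refine List.sum_nonneg fun x hx => ?_
  obtain ⟨p, _, rfl⟩ := List.mem_map.1 hx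
  exact wt_nonneg p

lemma Wts_bdd (S : Set ℤ) : BddBelow (Wts S) := ⟨0, by rintro _ ⟨c, _, rfl⟩; exact tot_nonneg c⟩

lemma one_mem (S : Set ℤ) : (1 : ℝ) ∈ Wts S := by
  refine ⟨[(false, 1, 0)], ⟨by simp, fun x _ => ⟨(false, 1, 0), by simp, by simp [piece]⟩⟩, ?_⟩
  simp [tot, wt, modu]

lemma mu_le_one (S : Set ℤ) : mu S ≤ 1 := csInf_le (Wts_bdd S) (one_mem S)

lemma mu_le {S : Set ℤ} {c : List (Bool × ℕ × ℤ)} (hc : IsCover c S) : mu S ≤ tot c :=
  csInf_le (Wts_bdd S) ⟨c, hc, rfl⟩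

lemma le_mu {S : Set ℤ} {a : ℝ} (h : ∀ c, IsCover c S → a ≤ tot c) : a ≤ mu S :=
  le_csInf ⟨1, one_mem S⟩ (by rintro _ ⟨c, hc, rfl⟩; exact h c hc)

lemma mu_mono {S T : Set ℤ} (h : S ⊆ T) : mu S ≤ mu T :=
  le_mu fun c hc => mu_le ⟨hc.1, fun x hx => hc.2 x (h hx)⟩

lemma tot_append (c d : List (Bool × ℕ × ℤ)) : tot (c ++ d) = tot c + tot d := by
  simp [tot]

lemma mu_union (S T : Set ℤ) : mu (S ∪ T) ≤ mu S + mu T := by
  have h1 : ∀ c, IsCover c S → mu (S ∪ T) - tot c ≤ mu T := by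
    intro c hc
    refine le_mu fun d hd => ?_
    have : IsCover (c ++ d) (S ∪ T) := by
      refine ⟨fun p hp => ?_, fun x hx => ?_⟩
      · rcases List.mem_append.1 hp with h | h
        · exact hc.1 p h
        · exact hd.1 p h
      · rcases hx with hx | hx
        · obtain ⟨p, hp, hxp⟩ := hc.2 x hx
          exact ⟨p, List.mem_append_left _ hp, hxp⟩
        · obtain ⟨p, hp, hxp⟩ := hd.2 x hx
          exact ⟨p, List.mem_append_right _ hp, hxp⟩
    have := mu_le this
    rw [tot_append] at this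
    linarith
  have h2 : mu (S ∪ T) - mu T ≤ mu S := le_mu fun c hc => by
    have := h1 c hc
    linarith
  linarith

/-- image of a piece -/
def push (k : ℕ) (h : ℤ) (p : Bool × ℕ × ℤ) : Bool × ℕ × ℤ := (p.1, k * p.2.1, k * p.2.2 + h)

lemma push_mem {k : ℕ} {h : ℤ} {p : Bool × ℕ × ℤ} {x : ℤ} (hx : x ∈ piece p) :
    k * x + h ∈ piece (push k h p) := by
  obtain ⟨b, l, g⟩ := p
  cases b with
  | false =>
    obtain ⟨t, ht⟩ : (l : ℤ) ∣ x - g := hx
    show ((k * l : ℕ) : ℤ) ∣ k * x + h - (k * g + h)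
    refine ⟨t, ?_⟩
    push_cast
    have : x = g + l * t := by linarith
    rw [this]; ring
  | true =>
    obtain ⟨b, hb, rfl⟩ := hx
    refine ⟨b, hb, ?_⟩
    push_cast
    ring

lemma wt_push {k : ℕ} (hk : 0 < k) (h : ℤ) (p : Bool × ℕ × ℤ) :
    wt (push k h p) = (1 / k) * wt p := by
  obtain ⟨b, l, g⟩ := p
  have : (k : ℝ) ≠ 0 := by exact_mod_cast hk.ne'
  cases b <;> simp [wt, push, modu] <;> ring

lemma mu_push_le {k : ℕ} (hk : 0 < k) (h : ℤ) (S : Set ℤ) :
    mu ((fun x => (k : ℤ) * x + h) '' S) ≤ (1 / k) * mu S := by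
  have hk' : (0 : ℝ) < k := by exact_mod_cast hk
  have : (k : ℝ) * mu ((fun x => (k : ℤ) * x + h) '' S) ≤ mu S := by
    refine le_mu fun c hc => ?_
    have h1 : IsCover (c.map (push k h)) ((fun x => (k : ℤ) * x + h) '' S) := by
      refine ⟨fun p hp => ?_, ?_⟩
      · obtain ⟨q, hq, rfl⟩ := List.mem_map.1 hp
        exact Nat.mul_pos hk (hc.1 q hq)
      · rintro _ ⟨x, hx, rfl⟩
        obtain ⟨p, hp, hxp⟩ := hc.2 x hx
        exact ⟨push k h p, List.mem_map_of_mem hp, push_mem hxp⟩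
    have h2 := mu_le h1
    have h3 : tot (c.map (push k h)) = (1 / k) * tot c := by
      unfold tot
      rw [List.map_map, ← List.sum_map_mul_left]
      congr 1
      refine List.map_congr_left fun p _ => ?_
      exact wt_push hk h p
    rw [h3] at h2
    calc (k : ℝ) * mu ((fun x => (k : ℤ) * x + h) '' S) ≤ k * ((1 / k) * tot c) :=
          mul_le_mul_of_nonneg_left h2 hk'.le
      _ = tot c := by field_simp
  rw [← mul_le_mul_iff_right₀ hk']
  calc (k : ℝ) * mu ((fun x => (k : ℤ) * x + h) '' S) ≤ mu S := this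
    _ = k * ((1 / k) * mu S) := by field_simp

/-- preimage of a piece -/
lemma pull {k : ℕ} (hk : 0 < k) (h : ℤ) (p : Bool × ℕ × ℤ) (hp : 0 < p.2.1) :
    ∃ c : List (Bool × ℕ × ℤ), IsCover c {x | (k : ℤ) * x + h ∈ piece p} ∧ tot c ≤ k * wt p := by
  by_cases hne : ∃ x0 : ℤ, (k : ℤ) * x0 + h ∈ piece p
  swap
  · refine ⟨[], ⟨by simp, fun x hx => absurd ⟨x, hx⟩ hne⟩, ?_⟩
    have := wt_nonneg p
    simp only [tot, List.map_nil, List.sum_nil]
    positivity
  obtain ⟨x0, hx0⟩ := hne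
  -- general: everything is in one class mod `q` if `q' ∣ k (x - x0)`
  have hclass : ∀ (l : ℕ), 0 < l → (∀ x : ℤ, (k : ℤ) * x + h ∈ piece p → (l : ℤ) ∣ k * (x - x0)) →
      IsCover [(false, l / Nat.gcd k l, x0)] {x | (k : ℤ) * x + h ∈ piece p} := by
    intro l hl hall
    refine ⟨?_, fun x hx => ⟨_, List.mem_singleton_self _, ?_⟩⟩
    · intro p hp
      rw [List.mem_singleton] at hp
      rw [hp]
      exact Nat.div_pos (Nat.le_of_dvd hl (Nat.gcd_dvd_right k l)) (Nat.gcd_pos_of_pos_left _ hk)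
    · have h1 := hall x hx
      show ((l / Nat.gcd k l : ℕ) : ℤ) ∣ x - x0
      have hg : 0 < Nat.gcd k l := Nat.gcd_pos_of_pos_left _ hk
      have h2 : l ∣ k * (x - x0).natAbs := by
        have := Int.natAbs_dvd_natAbs.2 h1
        simpa [Int.natAbs_mul] using this
      have h3 : l / Nat.gcd k l ∣ (x - x0).natAbs := by
        have hc : Nat.Coprime (l / Nat.gcd k l) (k / Nat.gcd k l) :=
          (Nat.coprime_div_gcd_div_gcd hg).symm
        refine hc.dvd_of_dvd_mul_left ?_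
        have h4 : (k / Nat.gcd k l) * (x - x0).natAbs * Nat.gcd k l =
            k * (x - x0).natAbs := by
          rw [mul_right_comm, Nat.div_mul_cancel (Nat.gcd_dvd_left k l)]
        rw [← h4] at h2
        have h5 : l / Nat.gcd k l * Nat.gcd k l = l := Nat.div_mul_cancel (Nat.gcd_dvd_right k l)
        exact Nat.dvd_of_mul_dvd_mul_right hg (by rw [h5]; exact h2)
      exact Int.natCast_dvd.2 h3
  obtain ⟨b, l, g⟩ := p
  have hl : 0 < l := hp
  have hl' : (0 : ℝ) < l := by exact_mod_cast hl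
  have hk' : (0 : ℝ) < k := by exact_mod_cast hk
  have hg : 0 < Nat.gcd k l := Nat.gcd_pos_of_pos_left _ hk
  have hg' : (0 : ℝ) < Nat.gcd k l := by exact_mod_cast hg
  have hcast : ((l / Nat.gcd k l : ℕ) : ℝ) = (l : ℝ) / (Nat.gcd k l : ℝ) :=
    Nat.cast_div (Nat.gcd_dvd_right k l) hg'.ne'
  cases b with
  | false =>
    refine ⟨_, hclass l hl fun x hx => ?_, ?_⟩
    · have h1 : (l : ℤ) ∣ k * x + h - g := hx
      have h2 : (l : ℤ) ∣ k * x0 + h - g := hx0
      have := dvd_sub h1 h2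
      have e : (k : ℤ) * x + h - g - (k * x0 + h - g) = k * (x - x0) := by ring
      rwa [e] at this
    · simp only [tot, List.map_cons, List.map_nil, List.sum_cons, List.sum_nil, add_zero, wt, modu]
      rw [hcast, one_div_div, mul_one_div]
      apply div_le_div_of_nonneg_right _ hl'.le
      exact_mod_cast Nat.gcd_le_left l hk
  | true =>
    by_cases hkl : k ∣ l
    · -- `k ∣ l`: the preimage is a set of the same kind
      obtain ⟨q, rfl⟩ := hkl
      have hq : 0 < q := Nat.pos_of_mul_pos_left hl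
      have hq' : (0 : ℝ) < q := by exact_mod_cast hq
      obtain ⟨b0, hb0, e0⟩ := hx0
      refine ⟨[(true, q, x0 - q * b0)], ⟨by simpa using hq, fun x hx =>
        ⟨_, List.mem_singleton_self _, ?_⟩⟩, ?_⟩
      · obtain ⟨b, hb, e⟩ := hx
        refine ⟨b, hb, ?_⟩
        have hkz : (k : ℤ) ≠ 0 := by exact_mod_cast hk.ne'
        apply mul_left_cancel₀ hkz
        push_cast at e e0
        linear_combination e - e0
      · simp only [tot, List.map_cons, List.map_nil, List.sum_cons, List.sum_nil, add_zero, wt,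
          modu]
        push_cast
        apply le_of_eq
        field_simp
    · refine ⟨_, hclass l hl fun x hx => ?_, ?_⟩
      · obtain ⟨b0, hb0, e0⟩ := hx0
        obtain ⟨b, hb, e⟩ := hx
        refine ⟨b - b0, ?_⟩
        linear_combination e - e0
      · simp only [tot, List.map_cons, List.map_nil, List.sum_cons, List.sum_nil, add_zero, wt,
          modu]
        rw [hcast, one_div_div, mul_one_div]
        push_cast
        rw [div_le_div_iff₀ hl' (by positivity)]
        have h2g : 2 * Nat.gcd k l ≤ k := by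
          obtain ⟨t, ht⟩ := Nat.gcd_dvd_left k l
          have ht2 : 2 ≤ t := by
            by_contra hcon
            push Not at hcon
            interval_cases t
            · omega
            · rw [mul_one] at ht
              exact hkl (ht ▸ Nat.gcd_dvd_right k l)
          calc 2 * Nat.gcd k l = Nat.gcd k l * 2 := by ring
            _ ≤ Nat.gcd k l * t := Nat.mul_le_mul_left _ ht2
            _ = k := ht.symm
        have h2g' : (2 : ℝ) * Nat.gcd k l ≤ k := by exact_mod_cast h2g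
        nlinarith

lemma mu_le_push {k : ℕ} (hk : 0 < k) (h : ℤ) (S : Set ℤ) :
    (1 / k) * mu S ≤ mu ((fun x => (k : ℤ) * x + h) '' S) := by
  have hk' : (0 : ℝ) < k := by exact_mod_cast hk
  refine le_mu fun c hc => ?_
  choose! f hf1 hf2 using fun p (hp : 0 < p.2.1) => pull hk h p hp
  have h1 : IsCover (c.flatMap f) S := by
    refine ⟨fun q hq => ?_, fun x hx => ?_⟩
    · obtain ⟨p, hp, hq'⟩ := List.mem_flatMap.1 hq
      exact (hf1 p (hc.1 p hp)).1 q hq'
    · obtain ⟨p, hp, hxp⟩ := hc.2 _ ⟨x, hx, rfl⟩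
      obtain ⟨q, hq, hxq⟩ := (hf1 p (hc.1 p hp)).2 x hxp
      exact ⟨q, List.mem_flatMap.2 ⟨p, hp, hq⟩, hxq⟩
  have h2 : tot (c.flatMap f) ≤ k * tot c := by
    have hpos := hc.1
    clear h1 hc
    induction c with
    | nil => simp [tot]
    | cons a c ih =>
      have ha : 0 < a.2.1 := hpos a (by simp)
      rw [List.flatMap_cons, tot_append]
      have h3 : tot (a :: c) = wt a + tot c := by simp [tot]
      rw [h3, mul_add]
      exact add_le_add (hf2 a ha) (ih fun p hp => hpos p (by simp [hp]))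
  have h3 := mu_le h1
  calc (1 / k) * mu S ≤ (1 / k) * (k * tot c) :=
        mul_le_mul_of_nonneg_left (h3.trans h2) (by positivity)
    _ = tot c := by field_simp

/-- solid part of a piece: one residue class -/
def cls (p : Bool × ℕ × ℤ) : ℤ :=
  match p with
  | (false, _, g) => g
  | (true, k, h) => k + h

lemma solid_or {p : Bool × ℕ × ℤ} {x : ℤ} (hx : x ∈ piece p) :
    (modu p : ℤ) ∣ x - cls p ∨ (p.1 = true ∧ ∃ y ∈ Y, x = ((2 * p.2.1 : ℕ) : ℤ) * y + p.2.2) := by
  obtain ⟨b, l, g⟩ := p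
  cases b with
  | false => exact Or.inl hx
  | true =>
    obtain ⟨b, hb, rfl⟩ := hx
    rcases hb with hb | ⟨y, hy, rfl⟩
    · left
      show ((2 * l : ℕ) : ℤ) ∣ l * b + g - (l + g)
      have hb' : ¬ (2 : ℤ) ∣ b := hb
      have : b % 2 = 1 := by omega
      obtain ⟨t, ht⟩ : ∃ t, b = 2 * t + 1 := ⟨b / 2, by omega⟩
      refine ⟨t, ?_⟩
      rw [ht]
      push_cast
      ring
    · right
      refine ⟨rfl, y, hy, ?_⟩
      push_cast
      ring

/-- the weight of `B` is at most one half -/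
lemma mu_B : mu B ≤ 1 / 2 := by
  have h : IsCover [(true, 1, 0)] B :=
    ⟨by simp, fun x hx => ⟨_, List.mem_singleton_self _, x, hx, by simp⟩⟩
  have := mu_le h
  simpa [tot, wt, modu] using this

lemma modu_pos {p : Bool × ℕ × ℤ} (hp : 0 < p.2.1) : 0 < modu p := by
  obtain ⟨b, l, g⟩ := p
  have : 0 < l := hp
  cases b <;> simp [modu] <;> omega

lemma sum_toFinset_le (c : List (Bool × ℕ × ℤ)) : ∑ p ∈ c.toFinset, wt p ≤ tot c := by
  induction c with
  | nil => simp [tot]
  | cons a c ih =>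
    have h3 : tot (a :: c) = wt a + tot c := by simp [tot]
    rw [h3, List.toFinset_cons]
    by_cases ha : a ∈ c.toFinset
    · rw [Finset.insert_eq_of_mem ha]
      have := wt_nonneg a
      linarith
    · rw [Finset.sum_insert ha]
      linarith

/-- every cover of `Y` has weight at least one -/
lemma one_le_mu_Y : 1 ≤ mu Y := by
  refine le_mu fun c hc => ?_
  set L : ℕ := (c.map modu).prod with hL
  have hLpos : 0 < L := by
    rw [hL]
    refine Nat.pos_of_ne_zero ?_
    rw [Ne, List.prod_eq_zero_iff]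
    intro h0
    obtain ⟨p, hp, h1⟩ := List.mem_map.1 h0
    exact (modu_pos (hc.1 p hp)).ne' h1
  have hdvd : ∀ p ∈ c, modu p ∣ L := fun p hp => List.dvd_prod (List.mem_map_of_mem hp)
  -- the non-solid parts meet `Y` in a finite set
  have hfin : (⋃ p ∈ {p | p ∈ c}, (Y ∩ {x | p.1 = true ∧ ∃ y ∈ Y, x = ((2 * p.2.1 : ℕ) : ℤ) * y + p.2.2})).Finite := by
    refine Set.Finite.biUnion (List.finite_toSet c) fun p hp => ?_
    refine (finite_inter (2 * p.2.1) (by have := hc.1 p hp; omega) p.2.2).subset ?_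
    rintro x ⟨hx, _, y, hy, e⟩
    exact ⟨hx, y, hy, e⟩
  have hcov : ∀ r ∈ Finset.Ico (0 : ℤ) L, ∃ p ∈ c, (modu p : ℤ) ∣ r - cls p := by
    intro r _
    obtain ⟨y, hy, hny⟩ := (infinite_inter L hLpos r).exists_notMem_finset hfin.toFinset
    rw [Set.Finite.mem_toFinset] at hny
    obtain ⟨p, hp, hyp⟩ := hc.2 y hy.1
    refine ⟨p, hp, ?_⟩
    rcases solid_or hyp with h | h
    · have h1 : (modu p : ℤ) ∣ y - r := dvd_trans (by exact_mod_cast hdvd p hp) hy.2
      have := dvd_sub h h1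
      have e : y - cls p - (y - r) = r - cls p := by ring
      rwa [e] at this
    · exact (hny (Set.mem_iUnion₂.2 ⟨p, hp, hy.1, h⟩)).elim
  -- counting
  have hcount : ∀ p ∈ c, (((Finset.Ico (0 : ℤ) L).filter (fun r => (modu p : ℤ) ∣ r - cls p)).card : ℝ)
      = L * wt p := by
    intro p hp
    have hm : 0 < modu p := modu_pos (hc.1 p hp)
    have hm' : (0 : ℤ) < modu p := by exact_mod_cast hm
    obtain ⟨t, ht⟩ := hdvd p hp
    have h1 := Int.Ico_filter_modEq_card 0 L hm' (cls p)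
    have h2 : (Finset.Ico (0 : ℤ) L).filter (fun r => (modu p : ℤ) ∣ r - cls p) =
        (Finset.Ico (0 : ℤ) L).filter (fun r => r ≡ cls p [ZMOD (modu p)]) := by
      refine Finset.filter_congr fun r _ => ?_
      rw [Int.modEq_iff_dvd, ← dvd_neg, neg_sub]
    rw [h2]
    have hmq : ((modu p : ℤ) : ℚ) ≠ 0 := by exact_mod_cast hm.ne'
    have h3 : (((L : ℤ) : ℚ) - ((cls p : ℤ) : ℚ)) / ((modu p : ℤ) : ℚ) =
        (((0 : ℤ) : ℚ) - ((cls p : ℤ) : ℚ)) / ((modu p : ℤ) : ℚ) + ((t : ℤ) : ℚ) := by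
      rw [ht]
      push_cast
      push_cast at hmq
      field_simp
      ring
    rw [h3, Int.ceil_add_intCast] at h1
    have h4 : (((Finset.Ico (0 : ℤ) L).filter (fun r => r ≡ cls p [ZMOD (modu p)])).card : ℤ)
        = t := by
      rw [h1, add_sub_cancel_left]
      exact max_eq_left (by positivity)
    have h5 : ((Finset.Ico (0 : ℤ) L).filter (fun r => r ≡ cls p [ZMOD (modu p)])).card = t := by
      exact_mod_cast h4
    rw [h5, ht]
    unfold wt
    have : (modu p : ℝ) ≠ 0 := by exact_mod_cast hm.ne'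
    push_cast
    field_simp
  have hsub : Finset.Ico (0 : ℤ) L ⊆ c.toFinset.biUnion
      (fun p => (Finset.Ico (0 : ℤ) L).filter (fun r => (modu p : ℤ) ∣ r - cls p)) := by
    intro r hr
    obtain ⟨p, hp, hd⟩ := hcov r hr
    exact Finset.mem_biUnion.2 ⟨p, List.mem_toFinset.2 hp, Finset.mem_filter.2 ⟨hr, hd⟩⟩
  have h1 := (Finset.card_le_card hsub).trans Finset.card_biUnion_le
  have h2 : ((Finset.Ico (0 : ℤ) L).card : ℝ) ≤ ∑ p ∈ c.toFinset, (L : ℝ) * wt p := by
    calc ((Finset.Ico (0 : ℤ) L).card : ℝ) ≤ ((∑ p ∈ c.toFinset,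
          ((Finset.Ico (0 : ℤ) L).filter (fun r => (modu p : ℤ) ∣ r - cls p)).card : ℕ) : ℝ) := by
          exact_mod_cast h1
      _ = ∑ p ∈ c.toFinset, (L : ℝ) * wt p := by
          push_cast
          exact Finset.sum_congr rfl fun p hp => hcount p (List.mem_toFinset.1 hp)
  have h3 : ∑ p ∈ c.toFinset, wt p ≤ tot c := by
    exact sum_toFinset_le c
  rw [← Finset.mul_sum] at h2
  have hL' : (0 : ℝ) < L := by exact_mod_cast hLpos
  simp only [Int.card_Ico, sub_zero, Int.toNat_natCast] at h2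
  have h4 : (1 : ℝ) ≤ ∑ p ∈ c.toFinset, wt p := by
    by_contra hcon
    push Not at hcon
    nlinarith
  linarith

end Pool.Agent.X159.LowDens
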