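import Mathlib

/-! NF-complexes and complexes invariant under a product of symmetric groups. -/

set_option autoImplicit false
set_option linter.unusedSimpArgs false
set_option linter.unreachableTactic false
set_option linter.unusedTactic false

namespace Pool.Agent.X159.NF

variable {V : Type*}

/-- `G` is a facet (inclusion-maximal face) of `D`. -/
def IsFacet (D : Set (Finset V)) (G : Finset V) : Prop := G ∈ D ∧ ∀ G' ∈ D, G ⊆ G' → G' = G

/-- The NF-complex: the sets of vertices containing no facet of `D`. -/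
def delta (D : Set (Finset V)) : Set (Finset V) := {F | ∀ G, IsFacet D G → ¬ G ⊆ F}

section generic

variable [Fintype V] [DecidableEq V] {ι : Type*} [DecidableEq ι] (cls : V → ι)

/-- the type of a set of vertices -/
def ty (F : Finset V) (c : ι) : ℕ := (F.filter (fun v => cls v = c)).card

/-- the class sizes -/
def sz (c : ι) : ℕ := ty cls (Finset.univ : Finset V) c

/-- the complex of a predicate on types -/
def cx (P : (ι → ℕ) → Prop) : Set (Finset V) := {F | P (ty cls F)}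

lemma ty_le (F : Finset V) (c : ι) : ty cls F c ≤ sz cls c :=
  Finset.card_le_card (Finset.filter_subset_filter _ (Finset.subset_univ _))

lemma ty_mono {F G : Finset V} (h : F ⊆ G) (c : ι) : ty cls F c ≤ ty cls G c :=
  Finset.card_le_card (Finset.filter_subset_filter _ h)

lemma ty_insert {F : Finset V} {v : V} (hv : v ∉ F) :
    ty cls (insert v F) = Function.update (ty cls F) (cls v) (ty cls F (cls v) + 1) := by
  funext c
  unfold ty
  rw [Finset.filter_insert]
  by_cases h : cls v = c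
  · subst h
    rw [if_pos rfl, Function.update_self, Finset.card_insert_of_notMem]
    intro hm
    exact hv (Finset.mem_filter.1 hm).1
  · rw [if_neg h, Function.update_of_ne (Ne.symm h)]

lemma ty_erase {F : Finset V} {v : V} (hv : v ∈ F) :
    ty cls (F.erase v) = Function.update (ty cls F) (cls v) (ty cls F (cls v) - 1) := by
  have h1 := ty_insert cls (F := F.erase v) (v := v) (Finset.notMem_erase v F)
  rw [Finset.insert_erase hv] at h1
  funext c
  by_cases h : c = cls v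
  · subst h
    rw [Function.update_self, h1, Function.update_self]
    omega
  · rw [Function.update_of_ne h, h1, Function.update_of_ne h]

lemma exists_of_lt {F : Finset V} {c : ι} (h : ty cls F c < sz cls c) : ∃ v, v ∉ F ∧ cls v = c := by
  by_contra hcon
  push Not at hcon
  have : (Finset.univ : Finset V).filter (fun v => cls v = c) ⊆ F.filter (fun v => cls v = c) := by
    intro v hv
    rw [Finset.mem_filter] at hv ⊢
    refine ⟨?_, hv.2⟩
    by_contra hvF
    exact hcon v hvF hv.2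
  have := Finset.card_le_card this
  unfold sz at h
  unfold ty at h
  omega

lemma exists_of_pos {F : Finset V} {c : ι} (h : 0 < ty cls F c) : ∃ v ∈ F, cls v = c := by
  obtain ⟨v, hv⟩ := Finset.card_pos.1 h
  rw [Finset.mem_filter] at hv
  exact ⟨v, hv.1, hv.2⟩

theorem delta_cx {P P' : (ι → ℕ) → Prop}
    (hP : ∀ t t', t ≤ t' → t' ≤ sz cls → P t' → P t)
    (hP' : ∀ t t', t ≤ t' → t' ≤ sz cls → P' t' → P' t)
    (M1 : ∀ t, t ≤ sz cls → ¬ P' t → (∀ c, 0 < t c → P' (Function.update t c (t c - 1))) →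
      P t ∧ ∀ c, t c < sz cls c → ¬ P (Function.update t c (t c + 1)))
    (M2 : ∀ t, t ≤ sz cls → P t → (∀ c, t c < sz cls c → ¬ P (Function.update t c (t c + 1))) →
      ¬ P' t) :
    delta (cx cls P) = cx cls P' := by
  ext F
  constructor
  · intro hF
    by_contra hcon
    -- a minimal subset whose type is not in `P'`
    classical
    obtain ⟨G, hG, hmin⟩ := (F.powerset.filter (fun G => ¬ P' (ty cls G))).exists_min_image
      Finset.card ⟨F, by
        rw [Finset.mem_filter, Finset.mem_powerset]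
        exact ⟨Finset.Subset.refl _, hcon⟩⟩
    rw [Finset.mem_filter, Finset.mem_powerset] at hG
    have hlow : ∀ c, 0 < ty cls G c → P' (Function.update (ty cls G) c (ty cls G c - 1)) := by
      intro c hc
      obtain ⟨v, hv, rfl⟩ := exists_of_pos cls hc
      by_contra hn
      rw [← ty_erase cls hv] at hn
      have h1 := hmin (G.erase v) (by
        rw [Finset.mem_filter, Finset.mem_powerset]
        exact ⟨(Finset.erase_subset _ _).trans hG.1, hn⟩)
      have h2 := Finset.card_erase_lt_of_mem hv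
      omega
    obtain ⟨h1, h2⟩ := M1 (ty cls G) (fun c => ty_le cls G c) hG.2 hlow
    refine hF G ⟨h1, fun G' hG' hsub => ?_⟩ hG.1
    by_contra hne'
    have hss : G ⊂ G' := lt_of_le_of_ne hsub (Ne.symm hne')
    obtain ⟨v, hv', hv⟩ := Finset.exists_of_ssubset hss
    refine h2 (cls v) ?_ ?_
    · have h3 : ty cls (insert v G) (cls v) = ty cls G (cls v) + 1 := by
        rw [ty_insert cls hv, Function.update_self]
      have h4 := ty_le cls (insert v G) (cls v)
      omega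
    · rw [← ty_insert cls hv]
      exact hP _ _ (fun c => ty_mono cls (Finset.insert_subset hv' hsub) c)
        (fun c => ty_le cls G' c) hG'
  · intro hF G hG hGF
    have h1 : P (ty cls G) := hG.1
    refine M2 (ty cls G) (fun c => ty_le cls G c) h1 ?_
      (hP' _ _ (fun c => ty_mono cls hGF c) (fun c => ty_le cls F c) hF)
    intro c hc hPc
    obtain ⟨v, hv, rfl⟩ := exists_of_lt cls hc
    rw [← ty_insert cls hv] at hPc
    have := hG.2 _ hPc (Finset.subset_insert _ _)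
    exact hv (this ▸ Finset.mem_insert_self v G)

end generic

/-! ### The dumbbell graph -/

section dumbbell

/-- classes of vertices -/
def cl4 {N M : ℕ} : Fin (N + 1) ⊕ Fin (M + 1) → Fin 4
  | Sum.inl i => if i = 0 then 2 else 0
  | Sum.inr j => if j = 0 then 3 else 1

variable (N M : ℕ)

lemma sz_eq : sz (cl4 (N := N) (M := M)) = ![N, M, 1, 1] := by
  funext c
  unfold sz ty
  have h : ∀ c : Fin 4, (Finset.univ.filter (fun v : Fin (N + 1) ⊕ Fin (M + 1) => cl4 v = c)) =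
      ((Finset.univ.filter (fun i : Fin (N + 1) => cl4 (M := M) (Sum.inl i) = c)).map
        Function.Embedding.inl) ∪ ((Finset.univ.filter (fun j : Fin (M + 1) =>
          cl4 (N := N) (Sum.inr j) = c)).map Function.Embedding.inr) := by
    intro c
    ext v
    rcases v with i | j <;> simp
  rw [h, Finset.card_union_of_disjoint, Finset.card_map, Finset.card_map]
  · fin_cases c
    · have e1 : (Finset.univ.filter (fun i : Fin (N + 1) => cl4 (M := M) (Sum.inl i) = 0)) =
          Finset.univ.erase 0 := by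
        ext i
        by_cases hi : i = 0 <;> simp [cl4, hi]
      have e2 : (Finset.univ.filter (fun i : Fin (M + 1) => cl4 (N := N) (Sum.inr i) = 0)) = ∅ := by
        rw [Finset.filter_eq_empty_iff]
        intro i _
        simp only [cl4]
        split_ifs <;> decide
      simp only [Fin.zero_eta, Fin.isValue]
      rw [e1, e2, Finset.card_erase_of_mem (Finset.mem_univ _), Finset.card_univ, Fintype.card_fin]
      simp
    · have e1 : (Finset.univ.filter (fun i : Fin (N + 1) => cl4 (M := M) (Sum.inl i) = 1)) = ∅ := by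
        rw [Finset.filter_eq_empty_iff]
        intro i _
        simp only [cl4]
        split_ifs <;> decide
      have e2 : (Finset.univ.filter (fun i : Fin (M + 1) => cl4 (N := N) (Sum.inr i) = 1)) =
          Finset.univ.erase 0 := by
        ext i
        by_cases hi : i = 0 <;> simp [cl4, hi]
      simp only [Fin.mk_one, Fin.isValue]
      rw [e1, e2, Finset.card_erase_of_mem (Finset.mem_univ _), Finset.card_univ, Fintype.card_fin]
      simp
    · have e1 : (Finset.univ.filter (fun i : Fin (N + 1) => cl4 (M := M) (Sum.inl i) = 2)) =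
          {0} := by
        ext i
        by_cases hi : i = 0 <;> simp [cl4, hi]
      have e2 : (Finset.univ.filter (fun i : Fin (M + 1) => cl4 (N := N) (Sum.inr i) = 2)) = ∅ := by
        rw [Finset.filter_eq_empty_iff]
        intro i _
        simp only [cl4]
        split_ifs <;> decide
      simp only [Fin.reduceFinMk, Fin.isValue]
      rw [e1, e2]
      simp
    · have e1 : (Finset.univ.filter (fun i : Fin (N + 1) => cl4 (M := M) (Sum.inl i) = 3)) = ∅ := by
        rw [Finset.filter_eq_empty_iff]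
        intro i _
        simp only [cl4]
        split_ifs <;> decide
      have e2 : (Finset.univ.filter (fun i : Fin (M + 1) => cl4 (N := N) (Sum.inr i) = 3)) =
          {0} := by
        ext i
        by_cases hi : i = 0 <;> simp [cl4, hi]
      simp only [Fin.reduceFinMk, Fin.isValue]
      rw [e1, e2]
      simp
  · rw [Finset.disjoint_left]
    rintro v hv hv'
    rw [Finset.mem_map] at hv hv'
    obtain ⟨i, _, rfl⟩ := hv
    obtain ⟨j, _, hj⟩ := hv'
    simp at hj

/-- the predicates of the orbit -/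
def Q0 (a b e f : ℕ) : Prop :=
  (b = 0 ∧ f = 0 ∧ a + e ≤ 2) ∨ (a = 0 ∧ e = 0 ∧ b + f ≤ 2) ∨ (a = 0 ∧ b = 0 ∧ e ≤ 1 ∧ f ≤ 1)
def Q1 (a b e f : ℕ) : Prop := a + e ≤ 1 ∧ b + f ≤ 1 ∧ ¬ (1 ≤ e ∧ 1 ≤ f)
def Q2 (a b e f : ℕ) : Prop := (b = 0 ∧ f = 0) ∨ (a = 0 ∧ e = 0) ∨ (a = 0 ∧ b = 0)
def Q3 (a b e f : ℕ) : Prop := (e = 0 ∧ f = 0) ∨ (f = 0 ∧ a + 1 ≤ N) ∨ (e = 0 ∧ b + 1 ≤ M)
def Q4 (a b e f : ℕ) : Prop :=
  (a + 1 < N ∨ b < M ∨ e = 0) ∧ (a < N ∨ b + 1 < M ∨ f = 0) ∧ (a < N ∨ b < M)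
def QI (s a b e f : ℕ) : Prop :=
  (e = 0 ∧ f = 0 ∧ (a + b ≤ s + 1 ∨ (a = s + 2 ∧ b = 0) ∨ (a = 0 ∧ b = s + 2))) ∨
  (e = 1 ∧ f = 0 ∧ ((a + b ≤ s ∧ ¬ (a = N ∧ b + N = s)) ∨ (a = s + 1 ∧ b = 0))) ∨
  (e = 0 ∧ f = 1 ∧ ((a + b ≤ s ∧ ¬ (b = M ∧ a + M = s)) ∨ (a = 0 ∧ b = s + 1))) ∨
  (e = 1 ∧ f = 1 ∧ a + b + 2 ≤ s)

/-- a predicate on `ℕ⁴` as a predicate on types -/
def up (Q : ℕ → ℕ → ℕ → ℕ → Prop) (t : Fin 4 → ℕ) : Prop := Q (t 0) (t 1) (t 2) (t 3)

/-- a version of `delta_cx` for explicit predicates -/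
theorem delta_up {Q Q' : ℕ → ℕ → ℕ → ℕ → Prop}
    (hQ : ∀ a b e f a' b' e' f', a ≤ a' → b ≤ b' → e ≤ e' → f ≤ f' → a' ≤ N → b' ≤ M → e' ≤ 1 →
      f' ≤ 1 → Q a' b' e' f' → Q a b e f)
    (hQ' : ∀ a b e f a' b' e' f', a ≤ a' → b ≤ b' → e ≤ e' → f ≤ f' → a' ≤ N → b' ≤ M → e' ≤ 1 →
      f' ≤ 1 → Q' a' b' e' f' → Q' a b e f)
    (M1 : ∀ a b e f, a ≤ N → b ≤ M → e ≤ 1 → f ≤ 1 → ¬ Q' a b e f →
      (a = 0 ∨ Q' (a - 1) b e f) → (b = 0 ∨ Q' a (b - 1) e f) → (e = 0 ∨ Q' a b (e - 1) f) →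
      (f = 0 ∨ Q' a b e (f - 1)) →
      Q a b e f ∧ (a = N ∨ ¬ Q (a + 1) b e f) ∧ (b = M ∨ ¬ Q a (b + 1) e f) ∧
        (e = 1 ∨ ¬ Q a b (e + 1) f) ∧ (f = 1 ∨ ¬ Q a b e (f + 1)))
    (M2 : ∀ a b e f, a ≤ N → b ≤ M → e ≤ 1 → f ≤ 1 → Q a b e f →
      (a = N ∨ ¬ Q (a + 1) b e f) → (b = M ∨ ¬ Q a (b + 1) e f) →
      (e = 1 ∨ ¬ Q a b (e + 1) f) → (f = 1 ∨ ¬ Q a b e (f + 1)) → ¬ Q' a b e f) :
    delta (cx (cl4 (N := N) (M := M)) (up Q)) = cx (cl4 (N := N) (M := M)) (up Q') := by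
  have hsz := sz_eq N M
  have hle : ∀ t : Fin 4 → ℕ, t ≤ sz (cl4 (N := N) (M := M)) →
      t 0 ≤ N ∧ t 1 ≤ M ∧ t 2 ≤ 1 ∧ t 3 ≤ 1 := by
    intro t ht
    rw [hsz] at ht
    exact ⟨ht 0, ht 1, ht 2, ht 3⟩
  apply delta_cx
  · intro t t' htt' ht' h
    obtain ⟨h0, h1, h2, h3⟩ := hle t' ht'
    exact hQ _ _ _ _ _ _ _ _ (htt' 0) (htt' 1) (htt' 2) (htt' 3) h0 h1 h2 h3 h
  · intro t t' htt' ht' h
    obtain ⟨h0, h1, h2, h3⟩ := hle t' ht'
    exact hQ' _ _ _ _ _ _ _ _ (htt' 0) (htt' 1) (htt' 2) (htt' 3) h0 h1 h2 h3 h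
  · intro t ht hn hlow
    obtain ⟨h0, h1, h2, h3⟩ := hle t ht
    have l0 := hlow 0
    have l1 := hlow 1
    have l2 := hlow 2
    have l3 := hlow 3
    simp [up] at l0 l1 l2 l3
    obtain ⟨g, g0, g1, g2, g3⟩ := M1 (t 0) (t 1) (t 2) (t 3) h0 h1 h2 h3 hn
      ((Nat.eq_zero_or_pos _).imp_right l0) ((Nat.eq_zero_or_pos _).imp_right l1)
      ((Nat.eq_zero_or_pos _).imp_right l2) ((Nat.eq_zero_or_pos _).imp_right l3)
    refine ⟨g, fun c hc => ?_⟩
    rw [hsz] at hc
    fin_cases c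
    · simpa [up] using g0.resolve_left (by simp at hc; omega)
    · simpa [up] using g1.resolve_left (by simp at hc; omega)
    · simpa [up] using g2.resolve_left (by simp at hc; omega)
    · simpa [up] using g3.resolve_left (by simp at hc; omega)
  · intro t ht hn hup
    obtain ⟨h0, h1, h2, h3⟩ := hle t ht
    have l0 := hup 0
    have l1 := hup 1
    have l2 := hup 2
    have l3 := hup 3
    rw [hsz] at l0 l1 l2 l3
    simp [up] at l0 l1 l2 l3
    refine M2 (t 0) (t 1) (t 2) (t 3) h0 h1 h2 h3 hn ?_ ?_ ?_ ?_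
    · rcases Nat.lt_or_ge (t 0) N with h | h
      · exact Or.inr (l0 h)
      · left; omega
    · rcases Nat.lt_or_ge (t 1) M with h | h
      · exact Or.inr (l1 h)
      · left; omega
    · rcases Nat.lt_or_ge (t 2) 1 with h | h
      · exact Or.inr (l2 (by omega))
      · left; omega
    · rcases Nat.lt_or_ge (t 3) 1 with h | h
      · exact Or.inr (l3 (by omega))
      · left; omega

abbrev CC (Q : ℕ → ℕ → ℕ → ℕ → Prop) : Set (Finset (Fin (N + 1) ⊕ Fin (M + 1))) :=
  cx (cl4 (N := N) (M := M)) (up Q)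

variable {N M}

theorem step0 (hN : 1 ≤ N) (hM : 1 ≤ M) : delta (CC N M Q0) = CC N M Q1 := by
  apply delta_up <;> simp only [Q0, Q1] <;> intros <;> omega

theorem step1 (hN : 1 ≤ N) (hM : 1 ≤ M) : delta (CC N M Q1) = CC N M Q2 := by
  apply delta_up <;> simp only [Q1, Q2] <;> intros <;> omega

/-- `Q3` is downward closed -/
lemma Q3_down (a b e f a' b' e' f' : ℕ) (ha : a ≤ a') (hb : b ≤ b') (he : e ≤ e') (hf : f ≤ f')
    (h : Q3 N M a' b' e' f') : Q3 N M a b e f := by
  unfold Q3 at *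
  omega

lemma Q4_down (a b e f a' b' e' f' : ℕ) (ha : a ≤ a') (hb : b ≤ b') (he : e ≤ e') (hf : f ≤ f')
    (h : Q4 N M a' b' e' f') : Q4 N M a b e f := by
  unfold Q4 at *
  omega

/-- reduction to the four cases of `(e, f)` -/
lemma four {R : ℕ → ℕ → Prop} (h00 : R 0 0) (h10 : R 1 0) (h01 : R 0 1) (h11 : R 1 1) :
    ∀ e f, e ≤ 1 → f ≤ 1 → R e f := by
  intro e f he hf
  obtain rfl | rfl : e = 0 ∨ e = 1 := by omega
  · obtain rfl | rfl : f = 0 ∨ f = 1 := by omega
    · exact h00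
    · exact h01
  · obtain rfl | rfl : f = 0 ∨ f = 1 := by omega
    · exact h10
    · exact h11

lemma QI00 (s a b : ℕ) : QI N M s a b 0 0 ↔
    (a + b ≤ s + 1 ∨ (a = s + 2 ∧ b = 0) ∨ (a = 0 ∧ b = s + 2)) := by simp [QI]
lemma QI10 (s a b : ℕ) : QI N M s a b 1 0 ↔
    ((a + b ≤ s ∧ ¬ (a = N ∧ b + N = s)) ∨ (a = s + 1 ∧ b = 0)) := by simp [QI]
lemma QI01 (s a b : ℕ) : QI N M s a b 0 1 ↔
    ((a + b ≤ s ∧ ¬ (b = M ∧ a + M = s)) ∨ (a = 0 ∧ b = s + 1)) := by simp [QI]
lemma QI11 (s a b : ℕ) : QI N M s a b 1 1 ↔ a + b + 2 ≤ s := by simp [QI]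

lemma QI_down (hN : 1 ≤ N) (hM : 1 ≤ M) (s : ℕ) (hs : 1 ≤ s) (a b e f a' b' e' f' : ℕ)
    (ha : a ≤ a') (hb : b ≤ b') (he : e ≤ e') (hf : f ≤ f')
    (ha' : a' ≤ N) (hb' : b' ≤ M) (he' : e' ≤ 1) (hf' : f' ≤ 1)
    (h : QI N M s a' b' e' f') : QI N M s a b e f := by
  obtain rfl | rfl : e' = 0 ∨ e' = 1 := by omega
  · obtain rfl : e = 0 := by omega
    obtain rfl | rfl : f' = 0 ∨ f' = 1 := by omega
    · obtain rfl : f = 0 := by omega
      rw [QI00] at *
      omega
    · rw [QI01] at h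
      obtain rfl | rfl : f = 0 ∨ f = 1 := by omega
      · rw [QI00]
        omega
      · rw [QI01]
        omega
  · obtain rfl | rfl : f' = 0 ∨ f' = 1 := by omega
    · obtain rfl : f = 0 := by omega
      rw [QI10] at h
      obtain rfl | rfl : e = 0 ∨ e = 1 := by omega
      · rw [QI00]
        omega
      · rw [QI10]
        omega
    · rw [QI11] at h
      obtain rfl | rfl : f = 0 ∨ f = 1 := by omega
      · obtain rfl | rfl : e = 0 ∨ e = 1 := by omega
        · rw [QI00]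
          omega
        · rw [QI10]
          omega
      · obtain rfl | rfl : e = 0 ∨ e = 1 := by omega
        · rw [QI01]
          omega
        · rw [QI11]
          omega

lemma Q2s00 (a b : ℕ) : Q2 a b 0 0 ↔ (b = 0 ∨ a = 0) := by unfold Q2; omega
lemma Q2s10 (a b : ℕ) : Q2 a b 1 0 ↔ b = 0 := by unfold Q2; omega
lemma Q2s01 (a b : ℕ) : Q2 a b 0 1 ↔ a = 0 := by unfold Q2; omega
lemma Q2s11 (a b : ℕ) : Q2 a b 1 1 ↔ (a = 0 ∧ b = 0) := by unfold Q2; omega
lemma Q3s00 (a b : ℕ) : Q3 N M a b 0 0 ↔ a ≤ a := by unfold Q3; omega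
lemma Q3s10 (a b : ℕ) : Q3 N M a b 1 0 ↔ a < N := by unfold Q3; omega
lemma Q3s01 (a b : ℕ) : Q3 N M a b 0 1 ↔ b < M := by unfold Q3; omega
lemma Q3s11 (a b : ℕ) : Q3 N M a b 1 1 ↔ a < a := by unfold Q3; omega
lemma Q4s00 (a b : ℕ) : Q4 N M a b 0 0 ↔ (a < N ∨ b < M) := by unfold Q4; omega
lemma Q4s10 (a b : ℕ) : Q4 N M a b 1 0 ↔ (a + 1 < N ∨ b < M) := by unfold Q4; omega
lemma Q4s01 (a b : ℕ) : Q4 N M a b 0 1 ↔ (a < N ∨ b + 1 < M) := by unfold Q4; omega
lemma Q4s11 (a b : ℕ) : Q4 N M a b 1 1 ↔ (a + 1 < N ∨ b < M) ∧ (a < N ∨ b + 1 < M) := by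
  unfold Q4; omega

lemma Q2_down (a b e f a' b' e' f' : ℕ) (ha : a ≤ a') (hb : b ≤ b') (he : e ≤ e') (hf : f ≤ f')
    (h : Q2 a' b' e' f') : Q2 a b e f := by
  unfold Q2 at *
  omega

lemma Q0_down (a b e f a' b' e' f' : ℕ) (ha : a ≤ a') (hb : b ≤ b') (he : e ≤ e') (hf : f ≤ f')
    (h : Q0 a' b' e' f') : Q0 a b e f := by
  unfold Q0 at *
  omega

theorem stepI (hN : 1 ≤ N) (hM : 1 ≤ M) (s : ℕ) (hs : 1 ≤ s) (hs' : s + 1 ≤ N + M - 1) :
    delta (CC N M (QI N M (s + 1))) = CC N M (QI N M s) := by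
  apply delta_up
  · exact QI_down hN hM (s + 1) (by omega)
  · exact QI_down hN hM s hs
  · intro a b e f ha hb he hf
    obtain rfl | rfl : e = 0 ∨ e = 1 := by omega
    · obtain rfl | rfl : f = 0 ∨ f = 1 := by omega
      · simp only [zero_add, Nat.sub_self, true_or, false_or, zero_ne_one, one_ne_zero, QI00, QI10, QI01, QI11]
        intro h1 h2 h3 h4 h5
        refine ⟨?_, ?_, ?_, ?_, ?_⟩ <;> first | omega | trivial | exact Or.inl rfl
      · simp only [zero_add, Nat.sub_self, true_or, false_or, zero_ne_one, one_ne_zero, QI00, QI10, QI01, QI11]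
        intro h1 h2 h3 h4 h5
        refine ⟨?_, ?_, ?_, ?_, ?_⟩ <;> first | omega | trivial | exact Or.inl rfl
    · obtain rfl | rfl : f = 0 ∨ f = 1 := by omega
      · simp only [zero_add, Nat.sub_self, true_or, false_or, zero_ne_one, one_ne_zero, QI00, QI10, QI01, QI11]
        intro h1 h2 h3 h4 h5
        refine ⟨?_, ?_, ?_, ?_, ?_⟩ <;> first | omega | trivial | exact Or.inl rfl
      · simp only [zero_add, Nat.sub_self, true_or, false_or, zero_ne_one, one_ne_zero, QI00, QI10, QI01, QI11]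
        intro h1 h2 h3 h4 h5
        refine ⟨?_, ?_, ?_, ?_, ?_⟩ <;> first | omega | trivial | exact Or.inl rfl
  · intro a b e f ha hb he hf
    obtain rfl | rfl : e = 0 ∨ e = 1 := by omega
    · obtain rfl | rfl : f = 0 ∨ f = 1 := by omega
      · simp only [zero_add, Nat.sub_self, true_or, false_or, zero_ne_one, one_ne_zero, QI00, QI10, QI01, QI11]
        intro h1 h2 h3 h4 h5
        omega
      · simp only [zero_add, Nat.sub_self, true_or, false_or, zero_ne_one, one_ne_zero, QI00, QI10, QI01, QI11]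
        intro h1 h2 h3 h4 h5
        omega
    · obtain rfl | rfl : f = 0 ∨ f = 1 := by omega
      · simp only [zero_add, Nat.sub_self, true_or, false_or, zero_ne_one, one_ne_zero, QI00, QI10, QI01, QI11]
        intro h1 h2 h3 h4 h5
        omega
      · simp only [zero_add, Nat.sub_self, true_or, false_or, zero_ne_one, one_ne_zero, QI00, QI10, QI01, QI11]
        intro h1 h2 h3 h4 h5
        omega

theorem step2 (hN : 1 ≤ N) (hM : 1 ≤ M) : delta (CC N M Q2) = CC N M (Q3 N M) := by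
  apply delta_up
  · intro a b e f a' b' e' f' ha hb he hf _ _ _ _ h
    exact Q2_down a b e f a' b' e' f' ha hb he hf h
  · intro a b e f a' b' e' f' ha hb he hf _ _ _ _ h
    exact Q3_down a b e f a' b' e' f' ha hb he hf h
  · intro a b e f ha hb he hf
    obtain rfl | rfl : e = 0 ∨ e = 1 := by omega
    · obtain rfl | rfl : f = 0 ∨ f = 1 := by omega
      · simp only [zero_add, Nat.sub_self, true_or, false_or, zero_ne_one, one_ne_zero, Q2s00, Q2s10, Q2s01, Q2s11, Q3s00, Q3s10, Q3s01, Q3s11]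
        intro h1 h2 h3 h4 h5
        refine ⟨?_, ?_, ?_, ?_, ?_⟩ <;> first | omega | trivial | exact Or.inl rfl
      · simp only [zero_add, Nat.sub_self, true_or, false_or, zero_ne_one, one_ne_zero, Q2s00, Q2s10, Q2s01, Q2s11, Q3s00, Q3s10, Q3s01, Q3s11]
        intro h1 h2 h3 h4 h5
        refine ⟨?_, ?_, ?_, ?_, ?_⟩ <;> first | omega | trivial | exact Or.inl rfl
    · obtain rfl | rfl : f = 0 ∨ f = 1 := by omega
      · simp only [zero_add, Nat.sub_self, true_or, false_or, zero_ne_one, one_ne_zero, Q2s00, Q2s10, Q2s01, Q2s11, Q3s00, Q3s10, Q3s01, Q3s11]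
        intro h1 h2 h3 h4 h5
        refine ⟨?_, ?_, ?_, ?_, ?_⟩ <;> first | omega | trivial | exact Or.inl rfl
      · simp only [zero_add, Nat.sub_self, true_or, false_or, zero_ne_one, one_ne_zero, Q2s00, Q2s10, Q2s01, Q2s11, Q3s00, Q3s10, Q3s01, Q3s11]
        intro h1 h2 h3 h4 h5
        refine ⟨?_, ?_, ?_, ?_, ?_⟩ <;> first | omega | trivial | exact Or.inl rfl
  · intro a b e f ha hb he hf
    obtain rfl | rfl : e = 0 ∨ e = 1 := by omega
    · obtain rfl | rfl : f = 0 ∨ f = 1 := by omega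
      · simp only [zero_add, Nat.sub_self, true_or, false_or, zero_ne_one, one_ne_zero, Q2s00, Q2s10, Q2s01, Q2s11, Q3s00, Q3s10, Q3s01, Q3s11]
        intro h1 h2 h3 h4 h5
        omega
      · simp only [zero_add, Nat.sub_self, true_or, false_or, zero_ne_one, one_ne_zero, Q2s00, Q2s10, Q2s01, Q2s11, Q3s00, Q3s10, Q3s01, Q3s11]
        intro h1 h2 h3 h4 h5
        omega
    · obtain rfl | rfl : f = 0 ∨ f = 1 := by omega
      · simp only [zero_add, Nat.sub_self, true_or, false_or, zero_ne_one, one_ne_zero, Q2s00, Q2s10, Q2s01, Q2s11, Q3s00, Q3s10, Q3s01, Q3s11]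
        intro h1 h2 h3 h4 h5
        omega
      · simp only [zero_add, Nat.sub_self, true_or, false_or, zero_ne_one, one_ne_zero, Q2s00, Q2s10, Q2s01, Q2s11, Q3s00, Q3s10, Q3s01, Q3s11]
        intro h1 h2 h3 h4 h5
        omega

theorem step3 (hN : 1 ≤ N) (hM : 1 ≤ M) : delta (CC N M (Q3 N M)) = CC N M (Q4 N M) := by
  apply delta_up
  · intro a b e f a' b' e' f' ha hb he hf _ _ _ _ h
    exact Q3_down a b e f a' b' e' f' ha hb he hf h
  · intro a b e f a' b' e' f' ha hb he hf _ _ _ _ h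
    exact Q4_down a b e f a' b' e' f' ha hb he hf h
  · intro a b e f ha hb he hf
    obtain rfl | rfl : e = 0 ∨ e = 1 := by omega
    · obtain rfl | rfl : f = 0 ∨ f = 1 := by omega
      · simp only [zero_add, Nat.sub_self, true_or, false_or, zero_ne_one, one_ne_zero, Q3s00, Q3s10, Q3s01, Q3s11, Q4s00, Q4s10, Q4s01, Q4s11]
        intro h1 h2 h3 h4 h5
        refine ⟨?_, ?_, ?_, ?_, ?_⟩ <;> first | omega | trivial | exact Or.inl rfl
      · simp only [zero_add, Nat.sub_self, true_or, false_or, zero_ne_one, one_ne_zero, Q3s00, Q3s10, Q3s01, Q3s11, Q4s00, Q4s10, Q4s01, Q4s11]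
        intro h1 h2 h3 h4 h5
        refine ⟨?_, ?_, ?_, ?_, ?_⟩ <;> first | omega | trivial | exact Or.inl rfl
    · obtain rfl | rfl : f = 0 ∨ f = 1 := by omega
      · simp only [zero_add, Nat.sub_self, true_or, false_or, zero_ne_one, one_ne_zero, Q3s00, Q3s10, Q3s01, Q3s11, Q4s00, Q4s10, Q4s01, Q4s11]
        intro h1 h2 h3 h4 h5
        refine ⟨?_, ?_, ?_, ?_, ?_⟩ <;> first | omega | trivial | exact Or.inl rfl
      · simp only [zero_add, Nat.sub_self, true_or, false_or, zero_ne_one, one_ne_zero, Q3s00, Q3s10, Q3s01, Q3s11, Q4s00, Q4s10, Q4s01, Q4s11]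
        intro h1 h2 h3 h4 h5
        refine ⟨?_, ?_, ?_, ?_, ?_⟩ <;> first | omega | trivial | exact Or.inl rfl
  · intro a b e f ha hb he hf
    obtain rfl | rfl : e = 0 ∨ e = 1 := by omega
    · obtain rfl | rfl : f = 0 ∨ f = 1 := by omega
      · simp only [zero_add, Nat.sub_self, true_or, false_or, zero_ne_one, one_ne_zero, Q3s00, Q3s10, Q3s01, Q3s11, Q4s00, Q4s10, Q4s01, Q4s11]
        intro h1 h2 h3 h4 h5
        omega
      · simp only [zero_add, Nat.sub_self, true_or, false_or, zero_ne_one, one_ne_zero, Q3s00, Q3s10, Q3s01, Q3s11, Q4s00, Q4s10, Q4s01, Q4s11]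
        intro h1 h2 h3 h4 h5
        omega
    · obtain rfl | rfl : f = 0 ∨ f = 1 := by omega
      · simp only [zero_add, Nat.sub_self, true_or, false_or, zero_ne_one, one_ne_zero, Q3s00, Q3s10, Q3s01, Q3s11, Q4s00, Q4s10, Q4s01, Q4s11]
        intro h1 h2 h3 h4 h5
        omega
      · simp only [zero_add, Nat.sub_self, true_or, false_or, zero_ne_one, one_ne_zero, Q3s00, Q3s10, Q3s01, Q3s11, Q4s00, Q4s10, Q4s01, Q4s11]
        intro h1 h2 h3 h4 h5
        omega

theorem step4 (hN : 1 ≤ N) (hM : 1 ≤ M) (hNM : 3 ≤ N + M) :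
    delta (CC N M (Q4 N M)) = CC N M (QI N M (N + M - 1)) := by
  apply delta_up
  · intro a b e f a' b' e' f' ha hb he hf _ _ _ _ h
    exact Q4_down a b e f a' b' e' f' ha hb he hf h
  · exact QI_down hN hM (N + M - 1) (by omega)
  · intro a b e f ha hb he hf
    obtain rfl | rfl : e = 0 ∨ e = 1 := by omega
    · obtain rfl | rfl : f = 0 ∨ f = 1 := by omega
      · simp only [zero_add, Nat.sub_self, true_or, false_or, zero_ne_one, one_ne_zero, Q4s00, Q4s10, Q4s01, Q4s11, QI00, QI10, QI01, QI11]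
        intro h1 h2 h3 h4 h5
        refine ⟨?_, ?_, ?_, ?_, ?_⟩ <;> first | omega | trivial | exact Or.inl rfl
      · simp only [zero_add, Nat.sub_self, true_or, false_or, zero_ne_one, one_ne_zero, Q4s00, Q4s10, Q4s01, Q4s11, QI00, QI10, QI01, QI11]
        intro h1 h2 h3 h4 h5
        refine ⟨?_, ?_, ?_, ?_, ?_⟩ <;> first | omega | trivial | exact Or.inl rfl
    · obtain rfl | rfl : f = 0 ∨ f = 1 := by omega
      · simp only [zero_add, Nat.sub_self, true_or, false_or, zero_ne_one, one_ne_zero, Q4s00, Q4s10, Q4s01, Q4s11, QI00, QI10, QI01, QI11]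
        intro h1 h2 h3 h4 h5
        refine ⟨?_, ?_, ?_, ?_, ?_⟩ <;> first | omega | trivial | exact Or.inl rfl
      · simp only [zero_add, Nat.sub_self, true_or, false_or, zero_ne_one, one_ne_zero, Q4s00, Q4s10, Q4s01, Q4s11, QI00, QI10, QI01, QI11]
        intro h1 h2 h3 h4 h5
        refine ⟨?_, ?_, ?_, ?_, ?_⟩ <;> first | omega | trivial | exact Or.inl rfl
  · intro a b e f ha hb he hf
    obtain rfl | rfl : e = 0 ∨ e = 1 := by omega
    · obtain rfl | rfl : f = 0 ∨ f = 1 := by omega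
      · simp only [zero_add, Nat.sub_self, true_or, false_or, zero_ne_one, one_ne_zero, Q4s00, Q4s10, Q4s01, Q4s11, QI00, QI10, QI01, QI11]
        intro h1 h2 h3 h4 h5
        omega
      · simp only [zero_add, Nat.sub_self, true_or, false_or, zero_ne_one, one_ne_zero, Q4s00, Q4s10, Q4s01, Q4s11, QI00, QI10, QI01, QI11]
        intro h1 h2 h3 h4 h5
        omega
    · obtain rfl | rfl : f = 0 ∨ f = 1 := by omega
      · simp only [zero_add, Nat.sub_self, true_or, false_or, zero_ne_one, one_ne_zero, Q4s00, Q4s10, Q4s01, Q4s11, QI00, QI10, QI01, QI11]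
        intro h1 h2 h3 h4 h5
        omega
      · simp only [zero_add, Nat.sub_self, true_or, false_or, zero_ne_one, one_ne_zero, Q4s00, Q4s10, Q4s01, Q4s11, QI00, QI10, QI01, QI11]
        intro h1 h2 h3 h4 h5
        omega

lemma Q0s00 (a b : ℕ) : Q0 a b 0 0 ↔ ((b = 0 ∧ a ≤ 2) ∨ (a = 0 ∧ b ≤ 2)) := by unfold Q0; omega
lemma Q0s10 (a b : ℕ) : Q0 a b 1 0 ↔ (b = 0 ∧ a ≤ 1) := by unfold Q0; omega
lemma Q0s01 (a b : ℕ) : Q0 a b 0 1 ↔ (a = 0 ∧ b ≤ 1) := by unfold Q0; omega
lemma Q0s11 (a b : ℕ) : Q0 a b 1 1 ↔ (a = 0 ∧ b = 0) := by unfold Q0; omega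

theorem stepLast (hN : 1 ≤ N) (hM : 1 ≤ M) (hNM : 3 ≤ N + M) :
    delta (CC N M (QI N M 1)) = CC N M Q0 := by
  apply delta_up
  · exact QI_down hN hM 1 (by omega)
  · intro a b e f a' b' e' f' ha hb he hf _ _ _ _ h
    exact Q0_down a b e f a' b' e' f' ha hb he hf h
  · intro a b e f ha hb he hf
    obtain rfl | rfl : e = 0 ∨ e = 1 := by omega
    · obtain rfl | rfl : f = 0 ∨ f = 1 := by omega
      · simp only [zero_add, Nat.sub_self, true_or, false_or, zero_ne_one, one_ne_zero, Q0s00, Q0s10, Q0s01, Q0s11, QI00, QI10, QI01, QI11]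
        intro h1 h2 h3 h4 h5
        refine ⟨?_, ?_, ?_, ?_, ?_⟩ <;> first | omega | trivial | exact Or.inl rfl
      · simp only [zero_add, Nat.sub_self, true_or, false_or, zero_ne_one, one_ne_zero, Q0s00, Q0s10, Q0s01, Q0s11, QI00, QI10, QI01, QI11]
        intro h1 h2 h3 h4 h5
        refine ⟨?_, ?_, ?_, ?_, ?_⟩ <;> first | omega | trivial | exact Or.inl rfl
    · obtain rfl | rfl : f = 0 ∨ f = 1 := by omega
      · simp only [zero_add, Nat.sub_self, true_or, false_or, zero_ne_one, one_ne_zero, Q0s00, Q0s10, Q0s01, Q0s11, QI00, QI10, QI01, QI11]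
        intro h1 h2 h3 h4 h5
        refine ⟨?_, ?_, ?_, ?_, ?_⟩ <;> first | omega | trivial | exact Or.inl rfl
      · simp only [zero_add, Nat.sub_self, true_or, false_or, zero_ne_one, one_ne_zero, Q0s00, Q0s10, Q0s01, Q0s11, QI00, QI10, QI01, QI11]
        intro h1 h2 h3 h4 h5
        refine ⟨?_, ?_, ?_, ?_, ?_⟩ <;> first | omega | trivial | exact Or.inl rfl
  · intro a b e f ha hb he hf
    obtain rfl | rfl : e = 0 ∨ e = 1 := by omega
    · obtain rfl | rfl : f = 0 ∨ f = 1 := by omega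
      · simp only [zero_add, Nat.sub_self, true_or, false_or, zero_ne_one, one_ne_zero, Q0s00, Q0s10, Q0s01, Q0s11, QI00, QI10, QI01, QI11]
        intro h1 h2 h3 h4 h5
        omega
      · simp only [zero_add, Nat.sub_self, true_or, false_or, zero_ne_one, one_ne_zero, Q0s00, Q0s10, Q0s01, Q0s11, QI00, QI10, QI01, QI11]
        intro h1 h2 h3 h4 h5
        omega
    · obtain rfl | rfl : f = 0 ∨ f = 1 := by omega
      · simp only [zero_add, Nat.sub_self, true_or, false_or, zero_ne_one, one_ne_zero, Q0s00, Q0s10, Q0s01, Q0s11, QI00, QI10, QI01, QI11]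
        intro h1 h2 h3 h4 h5
        omega
      · simp only [zero_add, Nat.sub_self, true_or, false_or, zero_ne_one, one_ne_zero, Q0s00, Q0s10, Q0s01, Q0s11, QI00, QI10, QI01, QI11]
        intro h1 h2 h3 h4 h5
        omega

/-! ### existence of sets of a given type -/

end dumbbell

lemma exists_ty {V ι : Type*} [Fintype V] [DecidableEq V] [DecidableEq ι] (cls : V → ι)
    (t : ι → ℕ) (ht : t ≤ sz cls) : ∃ F : Finset V, ty cls F = t := by
  have h : ∀ c, ∃ S : Finset V, S ⊆ Finset.univ.filter (fun v => cls v = c) ∧ S.card = t c :=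
    fun c => Finset.exists_subset_card_eq (ht c)
  choose S hS hc using h
  refine ⟨Finset.univ.filter (fun v => v ∈ S (cls v)), ?_⟩
  funext c
  rw [← hc c]
  unfold ty
  congr 1
  ext v
  simp only [Finset.mem_filter, Finset.mem_univ, true_and]
  constructor
  · rintro ⟨h1, rfl⟩
    exact h1
  · intro h1
    have := (Finset.mem_filter.1 (hS c h1)).2
    subst this
    exact ⟨h1, rfl⟩

section dumbbell2

variable {N M : ℕ}

lemma card_eq_ty (F : Finset (Fin (N + 1) ⊕ Fin (M + 1))) :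
    F.card = ty cl4 F 0 + ty cl4 F 1 + ty cl4 F 2 + ty cl4 F 3 := by
  rw [Finset.card_eq_sum_card_fiberwise (f := cl4) (t := Finset.univ)
    (fun _ _ => Finset.mem_coe.2 (Finset.mem_univ _)), Fin.sum_univ_four]
  rfl

lemma exists_face (Q : ℕ → ℕ → ℕ → ℕ → Prop) (a b e f : ℕ) (ha : a ≤ N) (hb : b ≤ M) (he : e ≤ 1)
    (hf : f ≤ 1) (h : Q a b e f) : ∃ F ∈ CC N M Q, F.card = a + b + e + f := by
  obtain ⟨F, hF⟩ := exists_ty (cl4 (N := N) (M := M)) ![a, b, e, f] (by
    rw [sz_eq]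
    intro c
    fin_cases c
    · exact ha
    · exact hb
    · exact he
    · exact hf)
  refine ⟨F, ?_, ?_⟩
  · change up Q (ty cl4 F)
    rw [hF]
    exact h
  · rw [card_eq_ty, hF]
    rfl

/-- `D` and `D'` are isomorphic complexes. -/
def Iso {V : Type*} (D D' : Set (Finset V)) : Prop :=
  ∃ π : V ≃ V, ∀ F : Finset V, F ∈ D ↔ F.map π.toEmbedding ∈ D'

/-- the complex whose facets are the edges of a graph: the subsets of its edges -/
def ofGraph {V : Type*} (G : SimpleGraph V) : Set (Finset V) :=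
  {F | ∃ u v, G.Adj u v ∧ ∀ w ∈ F, w = u ∨ w = v}

/-- the dumbbell graph -/
def dumbbell (n m : ℕ) : SimpleGraph (Fin n ⊕ Fin m) where
  Adj
    | Sum.inl i, Sum.inl j => i ≠ j
    | Sum.inr i, Sum.inr j => i ≠ j
    | Sum.inl i, Sum.inr j => (i : ℕ) = 0 ∧ (j : ℕ) = 0
    | Sum.inr i, Sum.inl j => (i : ℕ) = 0 ∧ (j : ℕ) = 0
  symm := by
    refine ⟨?_⟩
    rintro (i | i) (j | j) h
    · exact h.symm
    · exact ⟨h.2, h.1⟩
    · exact ⟨h.2, h.1⟩
    · exact h.symm
  loopless := by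
    refine ⟨?_⟩
    rintro (i | i) h
    · exact h rfl
    · exact h rfl

end dumbbell2

end Pool.Agent.X159.NF
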