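import Pool.Agent.X159.NF

set_option autoImplicit false

namespace Pool.Agent.X159.NF

variable {N M : ℕ}

lemma ty_pair {V ι : Type*} [DecidableEq V] [DecidableEq ι] (cls : V → ι) {u v : V} (h : u ≠ v)
    (c : ι) : ty cls {u, v} c = (if cls u = c then 1 else 0) + (if cls v = c then 1 else 0) := by
  unfold ty
  rw [Finset.card_filter, Finset.sum_pair h]

lemma ty_zero {V ι : Type*} [DecidableEq V] [DecidableEq ι] (cls : V → ι) (F : Finset V) (c : ι) :
    ty cls F c = 0 ↔ ∀ v ∈ F, cls v ≠ c := by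
  unfold ty
  rw [Finset.card_eq_zero, Finset.filter_eq_empty_iff]

lemma cl4_inl (i : Fin (N + 1)) :
    cl4 (M := M) (Sum.inl i) = if i = 0 then 2 else 0 := rfl
lemma cl4_inr (i : Fin (M + 1)) :
    cl4 (N := N) (Sum.inr i) = if i = 0 then 3 else 1 := rfl

theorem ofGraph_dumbbell (hN : 1 ≤ N) (hM : 1 ≤ M) :
    ofGraph (dumbbell (N + 1) (M + 1)) = CC N M Q0 := by
  ext F
  constructor
  · rintro ⟨u, v, huv, hF⟩
    have hsub : F ⊆ {u, v} := by
      intro w hw
      rw [Finset.mem_insert, Finset.mem_singleton]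
      exact hF w hw
    have hne : u ≠ v := huv.ne
    change Q0 _ _ _ _
    refine Q0_down _ _ _ _ _ _ _ _ (ty_mono cl4 hsub 0) (ty_mono cl4 hsub 1) (ty_mono cl4 hsub 2)
      (ty_mono cl4 hsub 3) ?_
    rw [ty_pair _ hne, ty_pair _ hne, ty_pair _ hne, ty_pair _ hne]
    rcases u with i | i <;> rcases v with j | j
    · have hij : i ≠ j := huv
      by_cases hi : i = 0 <;> by_cases hj : j = 0
      · exact absurd (hi.trans hj.symm) hij
      all_goals simp [cl4_inl, hi, hj, Q0]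
    · have hij : (i : ℕ) = 0 ∧ (j : ℕ) = 0 := huv
      have hi : i = 0 := Fin.ext hij.1
      have hj : j = 0 := Fin.ext hij.2
      simp [cl4_inl, cl4_inr, hi, hj, Q0]
    · have hij : (i : ℕ) = 0 ∧ (j : ℕ) = 0 := huv
      have hi : i = 0 := Fin.ext hij.1
      have hj : j = 0 := Fin.ext hij.2
      simp [cl4_inl, cl4_inr, hi, hj, Q0]
    · have hij : i ≠ j := huv
      by_cases hi : i = 0 <;> by_cases hj : j = 0
      · exact absurd (hi.trans hj.symm) hij
      all_goals simp [cl4_inr, hi, hj, Q0]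
  · intro hF
    have hF' : Q0 (ty cl4 F 0) (ty cl4 F 1) (ty cl4 F 2) (ty cl4 F 3) := hF
    have hcard := card_eq_ty F
    rcases hF' with ⟨hb, hf, hae⟩ | ⟨ha, he, hbf⟩ | ⟨ha, hb, -, -⟩
    · have hsub : F ⊆ (Finset.univ : Finset (Fin (N + 1))).map Function.Embedding.inl := by
        intro v hv
        rcases v with i | i
        · simp
        · exfalso
          rw [ty_zero] at hb hf
          have h1 := hb _ hv
          have h2 := hf _ hv
          rw [cl4_inr] at h1 h2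
          by_cases hi : i = 0 <;> simp [hi] at h1 h2
      obtain ⟨F', h1, h2, h3⟩ := Finset.exists_subsuperset_card_eq hsub (n := 2) (by omega) (by
        rw [Finset.card_map, Finset.card_univ, Fintype.card_fin]
        omega)
      obtain ⟨u, v, huv, rfl⟩ := Finset.card_eq_two.1 h3
      refine ⟨u, v, ?_, fun w hw => ?_⟩
      · have hu := h2 (Finset.mem_insert_self u {v})
        have hv := h2 (Finset.mem_insert_of_mem (Finset.mem_singleton_self v))
        rw [Finset.mem_map] at hu hv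
        obtain ⟨i, -, rfl⟩ := hu
        obtain ⟨j, -, rfl⟩ := hv
        exact fun h => huv (by rw [h])
      · have := h1 hw
        rwa [Finset.mem_insert, Finset.mem_singleton] at this
    · have hsub : F ⊆ (Finset.univ : Finset (Fin (M + 1))).map Function.Embedding.inr := by
        intro v hv
        rcases v with i | i
        · exfalso
          rw [ty_zero] at ha he
          have h1 := ha _ hv
          have h2 := he _ hv
          rw [cl4_inl] at h1 h2
          by_cases hi : i = 0 <;> simp [hi] at h1 h2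
        · simp
      obtain ⟨F', h1, h2, h3⟩ := Finset.exists_subsuperset_card_eq hsub (n := 2) (by omega) (by
        rw [Finset.card_map, Finset.card_univ, Fintype.card_fin]
        omega)
      obtain ⟨u, v, huv, rfl⟩ := Finset.card_eq_two.1 h3
      refine ⟨u, v, ?_, fun w hw => ?_⟩
      · have hu := h2 (Finset.mem_insert_self u {v})
        have hv := h2 (Finset.mem_insert_of_mem (Finset.mem_singleton_self v))
        rw [Finset.mem_map] at hu hv
        obtain ⟨i, -, rfl⟩ := hu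
        obtain ⟨j, -, rfl⟩ := hv
        exact fun h => huv (by rw [h])
      · have := h1 hw
        rwa [Finset.mem_insert, Finset.mem_singleton] at this
    · refine ⟨Sum.inl 0, Sum.inr 0, ⟨rfl, rfl⟩, fun w hw => ?_⟩
      rw [ty_zero] at ha hb
      have h1 := ha _ hw
      have h2 := hb _ hw
      rcases w with i | i
      · rw [cl4_inl] at h1 h2
        by_cases hi : i = 0
        · rw [hi]; exact Or.inl rfl
        · simp [hi] at h1
      · rw [cl4_inr] at h1 h2
        by_cases hi : i = 0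
        · rw [hi]; exact Or.inr rfl
        · simp [hi] at h2

/-! ### the orbit -/

lemma it0 : delta^[0] (CC N M Q0) = CC N M Q0 := rfl
lemma it1 (hN : 1 ≤ N) (hM : 1 ≤ M) : delta^[1] (CC N M Q0) = CC N M Q1 := by
  rw [Function.iterate_succ_apply', it0, step0 hN hM]
lemma it2 (hN : 1 ≤ N) (hM : 1 ≤ M) : delta^[2] (CC N M Q0) = CC N M Q2 := by
  rw [Function.iterate_succ_apply', it1 hN hM, step1 hN hM]
lemma it3 (hN : 1 ≤ N) (hM : 1 ≤ M) : delta^[3] (CC N M Q0) = CC N M (Q3 N M) := by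
  rw [Function.iterate_succ_apply', it2 hN hM, step2 hN hM]
lemma it4 (hN : 1 ≤ N) (hM : 1 ≤ M) : delta^[4] (CC N M Q0) = CC N M (Q4 N M) := by
  rw [Function.iterate_succ_apply', it3 hN hM, step3 hN hM]
lemma itI (hN : 1 ≤ N) (hM : 1 ≤ M) (hNM : 3 ≤ N + M) (j s : ℕ) (hs : 1 ≤ s)
    (hj : j + s = N + M - 1) : delta^[j + 5] (CC N M Q0) = CC N M (QI N M s) := by
  induction j generalizing s with
  | zero =>
    obtain rfl : s = N + M - 1 := by omega
    rw [Function.iterate_succ_apply', it4 hN hM, step4 hN hM hNM]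
  | succ j ih =>
    rw [show j + 1 + 5 = (j + 5) + 1 by ring, Function.iterate_succ_apply',
      ih (s + 1) (by omega) (by omega), stepI hN hM s hs (by omega)]
lemma itLast (hN : 1 ≤ N) (hM : 1 ≤ M) (hNM : 3 ≤ N + M) :
    delta^[N + M + 4] (CC N M Q0) = CC N M Q0 := by
  rw [show N + M + 4 = ((N + M - 2) + 5) + 1 by omega, Function.iterate_succ_apply',
    itI hN hM hNM (N + M - 2) 1 (by omega) (by omega), stepLast hN hM hNM]

lemma card_le_of_mem (F : Finset (Fin (N + 1) ⊕ Fin (M + 1))) (h : F ∈ CC N M Q0) :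
    F.card ≤ 2 := by
  have h' : Q0 (ty cl4 F 0) (ty cl4 F 1) (ty cl4 F 2) (ty cl4 F 3) := h
  rw [card_eq_ty]
  unfold Q0 at h'
  omega

/-- some iterate in the middle of the orbit has a face with three elements -/
lemma exists_three (hN : 1 ≤ N) (hM : 1 ≤ M) (hNM : 3 ≤ N + M) (q : ℕ) (h2 : 2 ≤ q)
    (hq : q < N + M + 4) : ∃ F ∈ delta^[q] (CC N M Q0), F.card = 3 := by
  have key : ∀ q : ℕ, ∀ Q : ℕ → ℕ → ℕ → ℕ → Prop, delta^[q] (CC N M Q0) = CC N M Q →
      (∃ a b e f, a ≤ N ∧ b ≤ M ∧ e ≤ 1 ∧ f ≤ 1 ∧ Q a b e f ∧ a + b + e + f = 3) →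
      ∃ F ∈ delta^[q] (CC N M Q0), F.card = 3 := by
    rintro q Q hQ ⟨a, b, e, f, ha, hb, he, hf, h, hsum⟩
    rw [hQ, ← hsum]
    exact exists_face Q a b e f ha hb he hf h
  rcases Nat.lt_or_ge q 5 with h5 | h5
  · obtain rfl | rfl | rfl : q = 2 ∨ q = 3 ∨ q = 4 := by omega
    · refine key 2 _ (it2 hN hM) ?_
      rcases Nat.lt_or_ge N 2 with h | h
      · exact ⟨0, 2, 0, 1, by omega, by omega, by omega, by omega, by unfold Q2; omega, rfl⟩
      · exact ⟨2, 0, 1, 0, by omega, by omega, by omega, by omega, by unfold Q2; omega, rfl⟩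
    · refine key 3 _ (it3 hN hM) ?_
      rcases Nat.lt_or_ge N 2 with h | h
      · exact ⟨1, 2, 0, 0, by omega, by omega, by omega, by omega, by unfold Q3; omega, rfl⟩
      · exact ⟨2, 1, 0, 0, by omega, by omega, by omega, by omega, by unfold Q3; omega, rfl⟩
    · refine key 4 _ (it4 hN hM) ?_
      rcases Nat.lt_or_ge N 2 with h | h
      · exact ⟨0, 2, 0, 1, by omega, by omega, by omega, by omega, by unfold Q4; omega, rfl⟩
      · exact ⟨2, 0, 1, 0, by omega, by omega, by omega, by omega, by unfold Q4; omega, rfl⟩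
  · obtain ⟨j, rfl⟩ : ∃ j, q = j + 5 := ⟨q - 5, by omega⟩
    obtain ⟨s, hs1, hs⟩ : ∃ s, 1 ≤ s ∧ j + s = N + M - 1 := ⟨N + M - 1 - j, by omega, by omega⟩
    refine key _ _ (itI hN hM hNM j s hs1 hs) ?_
    rcases Nat.lt_or_ge N 2 with h | h
    · rcases Nat.lt_or_ge s 2 with h' | h'
      · refine ⟨0, 2, 0, 1, by omega, by omega, by omega, by omega, ?_, rfl⟩
        rw [QI01]; omega
      · refine ⟨1, 1, 0, 1, by omega, by omega, by omega, by omega, ?_, rfl⟩
        rw [QI01]; omega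
    · rcases Nat.lt_or_ge s 2 with h' | h'
      · refine ⟨2, 0, 1, 0, by omega, by omega, by omega, by omega, ?_, rfl⟩
        rw [QI10]; omega
      · refine ⟨1, 1, 1, 0, by omega, by omega, by omega, by omega, ?_, rfl⟩
        rw [QI10]; omega

/-- the first iterate has no triangle -/
lemma no_triangle (hN : 1 ≤ N) (hM : 1 ≤ M) (hNM : 3 ≤ N + M) :
    ¬ Iso (delta^[1] (CC N M Q0)) (CC N M Q0) := by
  rintro ⟨π, hπ⟩
  rw [it1 hN hM] at hπ
  obtain ⟨x, y, z, hxy, hyz, hxz, h1, h2, h3⟩ : ∃ x y z : Fin (N + 1) ⊕ Fin (M + 1), x ≠ y ∧ y ≠ z ∧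
      x ≠ z ∧ {x, y} ∈ CC N M Q0 ∧ {y, z} ∈ CC N M Q0 ∧ {x, z} ∈ CC N M Q0 := by
    have key : ∀ x y : Fin (N + 1) ⊕ Fin (M + 1), (dumbbell (N + 1) (M + 1)).Adj x y →
        {x, y} ∈ CC N M Q0 := by
      intro x y h
      rw [← ofGraph_dumbbell hN hM]
      refine ⟨x, y, h, fun w hw => ?_⟩
      rwa [Finset.mem_insert, Finset.mem_singleton] at hw
    rcases Nat.lt_or_ge N 2 with h | h
    · have a1 : (Sum.inr ⟨0, by omega⟩ : Fin (N + 1) ⊕ Fin (M + 1)) ≠ Sum.inr ⟨1, by omega⟩ := by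
        simp
      have a2 : (Sum.inr ⟨1, by omega⟩ : Fin (N + 1) ⊕ Fin (M + 1)) ≠ Sum.inr ⟨2, by omega⟩ := by
        simp
      have a3 : (Sum.inr ⟨0, by omega⟩ : Fin (N + 1) ⊕ Fin (M + 1)) ≠ Sum.inr ⟨2, by omega⟩ := by
        simp
      exact ⟨Sum.inr ⟨0, by omega⟩, Sum.inr ⟨1, by omega⟩, Sum.inr ⟨2, by omega⟩, a1, a2, a3,
        key _ _ (fun h => a1 (by rw [h])), key _ _ (fun h => a2 (by rw [h])),
        key _ _ (fun h => a3 (by rw [h]))⟩
    · have a1 : (Sum.inl ⟨0, by omega⟩ : Fin (N + 1) ⊕ Fin (M + 1)) ≠ Sum.inl ⟨1, by omega⟩ := by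
        simp
      have a2 : (Sum.inl ⟨1, by omega⟩ : Fin (N + 1) ⊕ Fin (M + 1)) ≠ Sum.inl ⟨2, by omega⟩ := by
        simp
      have a3 : (Sum.inl ⟨0, by omega⟩ : Fin (N + 1) ⊕ Fin (M + 1)) ≠ Sum.inl ⟨2, by omega⟩ := by
        simp
      exact ⟨Sum.inl ⟨0, by omega⟩, Sum.inl ⟨1, by omega⟩, Sum.inl ⟨2, by omega⟩, a1, a2, a3,
        key _ _ (fun h => a1 (by rw [h])), key _ _ (fun h => a2 (by rw [h])),
        key _ _ (fun h => a3 (by rw [h]))⟩
  have pull : ∀ x y : Fin (N + 1) ⊕ Fin (M + 1), x ≠ y → {x, y} ∈ CC N M Q0 →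
      (cl4 (π.symm x) = 0 ∨ cl4 (π.symm x) = 2) ≠ (cl4 (π.symm y) = 0 ∨ cl4 (π.symm y) = 2) := by
    intro x y hxy h
    have h' : ({π.symm x, π.symm y} : Finset (Fin (N + 1) ⊕ Fin (M + 1))) ∈ CC N M Q1 := by
      rw [hπ]
      simpa using h
    have h'' : Q1 _ _ _ _ := h'
    have hne : π.symm x ≠ π.symm y := fun h => hxy (π.symm.injective h)
    rw [ty_pair _ hne, ty_pair _ hne, ty_pair _ hne, ty_pair _ hne] at h''
    generalize hu : cl4 (π.symm x) = u at *
    generalize hv : cl4 (π.symm y) = v at *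
    fin_cases u <;> fin_cases v <;> simp [Q1] at h'' ⊢
  have p1 := pull x y hxy h1
  have p2 := pull y z hyz h2
  have p3 := pull x z hxz h3
  by_cases q1 : (cl4 (π.symm x) = 0 ∨ cl4 (π.symm x) = 2) <;>
    by_cases q2 : (cl4 (π.symm y) = 0 ∨ cl4 (π.symm y) = 2) <;>
    by_cases q3 : (cl4 (π.symm z) = 0 ∨ cl4 (π.symm z) = 2) <;> simp_all

theorem main (n m : ℕ) (hn : 2 ≤ n) (hm : 2 ≤ m) (hnm : (n, m) ≠ (2, 2)) :
    delta^[n + m + 2] (ofGraph (dumbbell n m)) = ofGraph (dumbbell n m) ∧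
    IsLeast {q : ℕ | 0 < q ∧ Iso (delta^[q] (ofGraph (dumbbell n m))) (ofGraph (dumbbell n m))}
      (n + m + 2) := by
  obtain ⟨N, rfl⟩ : ∃ N, n = N + 1 := ⟨n - 1, by omega⟩
  obtain ⟨M, rfl⟩ : ∃ M, m = M + 1 := ⟨m - 1, by omega⟩
  have hN : 1 ≤ N := by omega
  have hM : 1 ≤ M := by omega
  have hNM : 3 ≤ N + M := by
    by_contra h
    apply hnm
    obtain rfl : N = 1 := by omega
    obtain rfl : M = 1 := by omega
    rfl
  rw [ofGraph_dumbbell hN hM, show N + 1 + (M + 1) + 2 = N + M + 4 by ring]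
  refine ⟨itLast hN hM hNM, ⟨by omega, ?_⟩, ?_⟩
  · refine ⟨Equiv.refl _, fun F => ?_⟩
    rw [itLast hN hM hNM]
    simp
  · rintro q ⟨hq, hiso⟩
    by_contra hlt
    push Not at hlt
    rcases Nat.lt_or_ge q 2 with h | h
    · obtain rfl : q = 1 := by omega
      exact no_triangle hN hM hNM hiso
    · obtain ⟨F, hF, hc⟩ := exists_three hN hM hNM q h hlt
      obtain ⟨π, hπ⟩ := hiso
      have h1 := card_le_of_mem _ ((hπ F).1 hF)
      rw [Finset.card_map] at h1
      omega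

end Pool.Agent.X159.NF
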