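import Pool.Agent.X159.SicReal
import Pool.Agent.X159.SicEx

set_option autoImplicit false

/-! Distribution of the phases of triple products of maximal equiangular tight frames. -/

namespace Pool.Agent.X159.SicPhase

open scoped InnerProductSpace ComplexConjugate
open Pool.Agent.X159.SicReal

variable {d : ℕ} {x : Fin (d ^ 2) → EuclideanSpace ℂ (Fin d)}

/-- the form with the matrix `⟨x_j,x_i⟩^m` -/
noncomputable def B (x : Fin (d ^ 2) → EuclideanSpace ℂ (Fin d)) (m : ℕ)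
    (f g : Fin (d ^ 2) → ℂ) : ℂ := ∑ j, ∑ i, conj (f j) * g i * ⟪x j, x i⟫_ℂ ^ m

lemma B_step (m : ℕ) (f : Fin (d ^ 2) → ℂ) :
    B x (m + 1) f f = ∑ a, B x m (fun k => f k * x k a) (fun k => f k * x k a) := by
  unfold B
  have h1 : ∀ j i, conj (f j) * f i * ⟪x j, x i⟫_ℂ ^ (m + 1) =
      ∑ a, conj (f j * x j a) * (f i * x i a) * ⟪x j, x i⟫_ℂ ^ m := by
    intro j i
    have h2 : conj (f j) * f i * ⟪x j, x i⟫_ℂ ^ (m + 1) =
        (conj (f j) * f i * ⟪x j, x i⟫_ℂ ^ m) * ∑ a, conj (x j a) * x i a := by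
      rw [← SicEx.inner_eq_sum, pow_succ]
      ring
    rw [h2, Finset.mul_sum]
    refine Finset.sum_congr rfl fun a _ => ?_
    rw [map_mul]
    ring
  simp only [h1]
  have h3 : ∀ j : Fin (d ^ 2), (∑ i, ∑ a, conj (f j * x j a) * (f i * x i a) *
      ⟪x j, x i⟫_ℂ ^ m) = ∑ a, ∑ i, conj (f j * x j a) * (f i * x i a) * ⟪x j, x i⟫_ℂ ^ m :=
    fun j => Finset.sum_comm
  simp only [h3]
  rw [Finset.sum_comm]

lemma sum_norm_sq (hx : IsETF d x) (k : Fin (d ^ 2)) : ∑ a, ‖x k a‖ ^ 2 = 1 := by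
  have h := EuclideanSpace.norm_eq (x k)
  rw [hx.nrm, eq_comm, Real.sqrt_eq_one] at h
  exact h

/-- spectral bounds for all powers at least two -/
lemma B_bounds (hd : 0 < d) (hx : IsETF d x) (m : ℕ) (hm : 2 ≤ m) :
    ∀ f : Fin (d ^ 2) → ℂ, 0 ≤ (B x m f f).re ∧
      (B x m f f).re ≤ 2 * d / (d + 1) * ∑ i, ‖f i‖ ^ 2 := by
  induction m, hm using Nat.le_induction with
  | base =>
    intro f
    have h := bounds hd hx f
    rw [QQ_eq] at h
    exact h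
  | succ m hm ih =>
    intro f
    rw [B_step, Complex.re_sum]
    refine ⟨Finset.sum_nonneg fun a _ => (ih _).1, ?_⟩
    refine (Finset.sum_le_sum fun a _ => (ih _).2).trans (le_of_eq ?_)
    rw [← Finset.mul_sum, Finset.sum_comm]
    congr 1
    refine Finset.sum_congr rfl fun i _ => ?_
    have : ∀ a, ‖f i * x i a‖ ^ 2 = ‖f i‖ ^ 2 * ‖x i a‖ ^ 2 := fun a => by
      rw [norm_mul, mul_pow]
    rw [Finset.sum_congr rfl fun a _ => this a, ← Finset.mul_sum, sum_norm_sq hx, mul_one]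

/-- spectral bounds for the Gram matrix -/
lemma B_one (hd : 0 < d) (hx : IsETF d x) (f : Fin (d ^ 2) → ℂ) : 0 ≤ (B x 1 f f).re ∧
      (B x 1 f f).re ≤ d * ∑ i, ‖f i‖ ^ 2 := by
  set v : EuclideanSpace ℂ (Fin d) := ∑ i, f i • x i with hv
  have hB : ∀ j, ⟪x j, v⟫_ℂ = ∑ i, f i * ⟪x j, x i⟫_ℂ := by
    intro j
    rw [hv, inner_sum]
    refine Finset.sum_congr rfl fun i _ => ?_
    rw [inner_smul_right]
  have h1 : B x 1 f f = ∑ j, conj (f j) * ⟪x j, v⟫_ℂ := by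
    unfold B
    refine Finset.sum_congr rfl fun j _ => ?_
    rw [hB, Finset.mul_sum]
    refine Finset.sum_congr rfl fun i _ => ?_
    rw [pow_one]
    ring
  have h2 : ⟪v, v⟫_ℂ = ∑ j, conj (f j) * ⟪x j, v⟫_ℂ := by
    nth_rewrite 1 [hv]
    rw [sum_inner]
    refine Finset.sum_congr rfl fun i _ => ?_
    rw [inner_smul_left]
  have h3 : (B x 1 f f).re = ‖v‖ ^ 2 := by
    rw [h1, ← h2, inner_self_eq_norm_sq_to_K]
    norm_cast
  have h4 : ∑ k, ‖⟪x k, v⟫_ℂ‖ ^ 2 = d * ‖v‖ ^ 2 := by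
    have h5 := Pool.Agent.H103R3.FrameCrit.sic_frame hd (by simp) x hx.nrm hx.ang v v
    have h6 : ∀ k, ⟪v, x k⟫_ℂ * ⟪x k, v⟫_ℂ = ((‖⟪x k, v⟫_ℂ‖ ^ 2 : ℝ) : ℂ) := by
      intro k
      rw [← inner_conj_symm v (x k), RCLike.conj_mul]
      norm_cast
    rw [Finset.sum_congr rfl fun k _ => h6 k, inner_self_eq_norm_sq_to_K] at h5
    have h7 : ((∑ k, ‖⟪x k, v⟫_ℂ‖ ^ 2 : ℝ) : ℂ) = ((d * ‖v‖ ^ 2 : ℝ) : ℂ) := by
      push_cast
      push_cast at h5
      exact h5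
    exact Complex.ofReal_injective h7
  refine ⟨by rw [h3]; positivity, ?_⟩
  rw [h3]
  have h5 : ‖v‖ ^ 2 ≤ ∑ j, ‖f j‖ * ‖⟪x j, v⟫_ℂ‖ := by
    have h6 : ‖v‖ ^ 2 = ‖⟪v, v⟫_ℂ‖ := by
      rw [inner_self_eq_norm_sq_to_K]
      simp
    rw [h6, h2]
    refine (norm_sum_le _ _).trans (le_of_eq ?_)
    refine Finset.sum_congr rfl fun j _ => ?_
    rw [norm_mul, RCLike.norm_conj]
  have h6 : (∑ j, ‖f j‖ * ‖⟪x j, v⟫_ℂ‖) ^ 2 ≤
      (∑ i, ‖f i‖ ^ 2) * ∑ z, ‖⟪x z, v⟫_ℂ‖ ^ 2 := Finset.sum_mul_sq_le_sq_mul_sq _ _ _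
  rw [h4] at h6
  have h7 : (‖v‖ ^ 2) ^ 2 ≤ (∑ i, ‖f i‖ ^ 2) * (d * ‖v‖ ^ 2) :=
    (pow_le_pow_left₀ (by positivity) h5 2).trans h6
  rcases (sq_nonneg ‖v‖).eq_or_lt with h0 | h0
  · rw [← h0]
    exact mul_nonneg (Nat.cast_nonneg _) (Finset.sum_nonneg fun _ _ => sq_nonneg _)
  · have h8 : ‖v‖ ^ 2 * ‖v‖ ^ 2 ≤ (d * ∑ i, ‖f i‖ ^ 2) * ‖v‖ ^ 2 := by nlinarith
    exact le_of_mul_le_mul_right h8 h0

/-- the spectral bound of the `m`th power -/
noncomputable def lam (d m : ℕ) : ℝ := if m = 1 then d else 2 * d / (d + 1)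

lemma lam_nonneg (d m : ℕ) : 0 ≤ lam d m := by
  unfold lam
  split_ifs <;> positivity

lemma B_all (hd : 0 < d) (hx : IsETF d x) {m : ℕ} (hm : 1 ≤ m) (f : Fin (d ^ 2) → ℂ) :
    0 ≤ (B x m f f).re ∧ (B x m f f).re ≤ lam d m * ∑ i, ‖f i‖ ^ 2 := by
  unfold lam
  rcases Nat.lt_or_ge m 2 with h | h
  · have : m = 1 := by omega
    subst this
    rw [if_pos rfl]
    exact B_one hd hx f
  · rw [if_neg (by omega)]
    exact B_bounds hd hx m h f

lemma B_conj (m : ℕ) (f g : Fin (d ^ 2) → ℂ) : conj (B x m f g) = B x m g f := by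
  unfold B
  rw [map_sum, Finset.sum_comm]
  have h : ∀ j, conj (∑ i, conj (f j) * g i * ⟪x j, x i⟫_ℂ ^ m) =
      ∑ i, conj (g i) * f j * ⟪x i, x j⟫_ℂ ^ m := by
    intro j
    rw [map_sum]
    refine Finset.sum_congr rfl fun i _ => ?_
    rw [map_mul, map_mul, map_pow, inner_conj_symm, Complex.conj_conj]
    ring
  rw [Finset.sum_congr rfl fun j _ => h j, Finset.sum_comm]

lemma B_add (m : ℕ) (f g : Fin (d ^ 2) → ℂ) : B x m (f + g) (f + g) =
    B x m f f + B x m g g + B x m f g + B x m g f := by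
  unfold B
  simp only [← Finset.sum_add_distrib, Pi.add_apply, map_add]
  refine Finset.sum_congr rfl fun j _ => Finset.sum_congr rfl fun i _ => ?_
  ring

lemma B_sub (m : ℕ) (f g : Fin (d ^ 2) → ℂ) : B x m (f - g) (f - g) =
    B x m f f + B x m g g - B x m f g - B x m g f := by
  unfold B
  simp only [← Finset.sum_add_distrib, ← Finset.sum_sub_distrib, Pi.sub_apply, map_sub]
  refine Finset.sum_congr rfl fun j _ => Finset.sum_congr rfl fun i _ => ?_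
  ring

lemma B_smul (m : ℕ) (a b : ℂ) (f g : Fin (d ^ 2) → ℂ) :
    B x m (fun k => a * f k) (fun k => b * g k) = conj a * b * B x m f g := by
  unfold B
  rw [Finset.mul_sum]
  refine Finset.sum_congr rfl fun j _ => ?_
  rw [Finset.mul_sum]
  refine Finset.sum_congr rfl fun i _ => ?_
  rw [map_mul]
  ring

/-- polarisation -/
lemma cross_re (hd : 0 < d) (hx : IsETF d x) {m : ℕ} (hm : 1 ≤ m) (f g : Fin (d ^ 2) → ℂ)
    (h : ∀ i, f i * g i = 0) :
    4 * (B x m f g).re ≤ lam d m * (∑ i, ‖f i‖ ^ 2 + ∑ i, ‖g i‖ ^ 2) := by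
  have h1 := (B_all hd hx hm (f + g)).2
  have h2 := (B_all hd hx hm (f - g)).1
  have h3 : (B x m g f).re = (B x m f g).re := by
    rw [← B_conj, Complex.conj_re]
  rw [B_add, Complex.add_re, Complex.add_re, Complex.add_re, h3] at h1
  rw [B_sub, Complex.sub_re, Complex.sub_re, Complex.add_re, h3] at h2
  have h4 : ∑ i, ‖(f + g) i‖ ^ 2 = ∑ i, ‖f i‖ ^ 2 + ∑ i, ‖g i‖ ^ 2 := by
    rw [← Finset.sum_add_distrib]
    refine Finset.sum_congr rfl fun i _ => ?_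
    rw [Pi.add_apply]
    rcases mul_eq_zero.1 (h i) with h5 | h5 <;> simp [h5]
  rw [h4] at h1
  linarith

/-- the bound for functions with disjoint supports -/
lemma cross (hd : 0 < d) (hx : IsETF d x) {m : ℕ} (hm : 1 ≤ m) (f g : Fin (d ^ 2) → ℂ)
    (h : ∀ i, f i * g i = 0) {a b : ℝ} (ha : 0 < a) (hb : 0 < b)
    (hf : ∑ i, ‖f i‖ ^ 2 = a ^ 2) (hg : ∑ i, ‖g i‖ ^ 2 = b ^ 2) :
    ‖B x m f g‖ ≤ lam d m / 2 * (a * b) := by
  obtain ⟨u, hu, hu'⟩ : ∃ u : ℂ, ‖u‖ = 1 ∧ u * B x m f g = (‖B x m f g‖ : ℝ) := by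
    rcases eq_or_ne (B x m f g) 0 with h0 | h0
    · exact ⟨1, by simp, by simp [h0]⟩
    · refine ⟨conj (B x m f g) / ‖B x m f g‖, ?_, ?_⟩
      · rw [norm_div, RCLike.norm_conj, Complex.norm_real, norm_norm, div_self]
        exact norm_ne_zero_iff.2 h0
      · rw [div_mul_eq_mul_div, RCLike.conj_mul, sq, mul_div_assoc]
        have : ((‖B x m f g‖ : ℝ) : ℂ) ≠ 0 := by exact_mod_cast norm_ne_zero_iff.2 h0
        field_simp
        norm_cast
  have h1 := cross_re hd hx hm (fun k => (b : ℂ) * f k) (fun k => (a * u) * g k) (by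
    intro i
    have : (b : ℂ) * f i * (a * u * g i) = b * (a * u) * (f i * g i) := by ring
    rw [this, h i, mul_zero])
  have e1 : ∑ i, ‖(b : ℂ) * f i‖ ^ 2 = b ^ 2 * a ^ 2 := by
    rw [← hf, Finset.mul_sum]
    refine Finset.sum_congr rfl fun i _ => ?_
    rw [norm_mul, mul_pow, Complex.norm_real, Real.norm_of_nonneg hb.le]
  have e2 : ∑ i, ‖(a * u) * g i‖ ^ 2 = b ^ 2 * a ^ 2 := by
    rw [← hg, Finset.sum_mul]
    refine Finset.sum_congr rfl fun i _ => ?_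
    rw [norm_mul, norm_mul, hu, mul_one, mul_pow, Complex.norm_real, Real.norm_of_nonneg ha.le]
    ring
  have e3 : (B x m (fun k => (b : ℂ) * f k) (fun k => (a * u) * g k)).re =
      (a * b) * ‖B x m f g‖ := by
    rw [B_smul, Complex.conj_ofReal]
    have : (b : ℂ) * (a * u) * B x m f g = ((a * b : ℝ) : ℂ) * (u * B x m f g) := by
      push_cast
      ring
    rw [this, hu', ← Complex.ofReal_mul, Complex.ofReal_re]
  rw [e1, e2, e3] at h1
  have hab : 0 < a * b := mul_pos ha hb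
  have h2 : (a * b) * ‖B x m f g‖ ≤ (a * b) * (lam d m / 2 * (a * b)) := by nlinarith
  exact le_of_mul_le_mul_left h2 hab

/-! ### phases -/

/-- the coefficient attached to the base line -/
noncomputable def co (x : Fin (d ^ 2) → EuclideanSpace ℂ (Fin d)) (m : ℕ) (o : Fin (d ^ 2))
    (S : Finset (Fin (d ^ 2))) (j : Fin (d ^ 2)) : ℂ :=
  if j ∈ S then (((Real.sqrt ((d : ℝ) + 1) : ℝ) : ℂ) * ⟪x j, x o⟫_ℂ) ^ m else 0

lemma co_norm (hx : IsETF d x) (m : ℕ) {o : Fin (d ^ 2)} {S : Finset (Fin (d ^ 2))}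
    (ho : o ∉ S) : ∑ j, ‖co x m o S j‖ ^ 2 = (Real.sqrt S.card) ^ 2 := by
  rw [Real.sq_sqrt (Nat.cast_nonneg _)]
  have h : ∀ j, ‖co x m o S j‖ ^ 2 = if j ∈ S then 1 else 0 := by
    intro j
    unfold co
    split_ifs with hj
    · have hne : j ≠ o := fun h => ho (h ▸ hj)
      rw [norm_pow, norm_mul, hx.ang j o hne, Complex.norm_real,
        Real.norm_of_nonneg (Real.sqrt_nonneg _), mul_one_div_cancel, one_pow, one_pow]
      exact (Real.sqrt_pos.2 (by positivity)).ne'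
    · simp
  rw [Finset.sum_congr rfl fun j _ => h j]
  simp

lemma sum_ph (m : ℕ) (o : Fin (d ^ 2)) (S T : Finset (Fin (d ^ 2))) :
    ∑ j ∈ S, ∑ k ∈ T, ph x o j k ^ m =
      ((Real.sqrt ((d : ℝ) + 1) : ℝ) : ℂ) ^ m * B x m (co x m o S) (co x m o T) := by
  classical
  unfold B
  have h0 : ∀ (U : Finset (Fin (d ^ 2))) (F : Fin (d ^ 2) → ℂ), (∀ j, j ∉ U → F j = 0) →
      ∑ j, F j = ∑ j ∈ U, F j := by
    intro U F hF
    exact (Finset.sum_subset (Finset.subset_univ U) fun j _ hj => hF j hj).symm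
  rw [h0 S _ (fun j hj => by
    refine Finset.sum_eq_zero fun i _ => ?_
    simp [co, hj]), Finset.mul_sum]
  refine Finset.sum_congr rfl fun j hj => ?_
  rw [h0 T _ (fun i hi => by simp [co, hi]), Finset.mul_sum]
  refine Finset.sum_congr rfl fun k hk => ?_
  unfold co ph tp
  rw [if_pos hj, if_pos hk, map_pow, map_mul, Complex.conj_ofReal, inner_conj_symm]
  simp only [← mul_pow]
  congr 1
  ring

/-- the bound of the harmonics -/
noncomputable def Cm (d m : ℕ) : ℝ := Real.sqrt ((d : ℝ) + 1) ^ m * (lam d m / 2)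

theorem harmonic (hd : 0 < d) (hx : IsETF d x) {m : ℕ} (hm : 1 ≤ m) {o : Fin (d ^ 2)}
    {S T : Finset (Fin (d ^ 2))} (hoS : o ∉ S) (hoT : o ∉ T) (hST : Disjoint S T) :
    ‖∑ j ∈ S, ∑ k ∈ T, ph x o j k ^ m‖ ≤ Cm d m * Real.sqrt (S.card * T.card) := by
  rcases S.eq_empty_or_nonempty with rfl | hS
  · simp
  rcases T.eq_empty_or_nonempty with rfl | hT
  · simp
  rw [sum_ph, norm_mul, norm_pow, Complex.norm_real, Real.norm_of_nonneg (Real.sqrt_nonneg _)]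
  have h1 := cross hd hx hm (co x m o S) (co x m o T) (by
    intro i
    unfold co
    by_cases hi : i ∈ S
    · have : i ∉ T := Finset.disjoint_left.1 hST hi
      simp [this]
    · simp [hi]) (a := Real.sqrt S.card) (b := Real.sqrt T.card)
    (Real.sqrt_pos.2 (by exact_mod_cast Finset.card_pos.2 hS))
    (Real.sqrt_pos.2 (by exact_mod_cast Finset.card_pos.2 hT)) (co_norm hx m hoS)
    (co_norm hx m hoT)
  unfold Cm
  rw [Real.sqrt_mul (Nat.cast_nonneg _), mul_assoc]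
  exact mul_le_mul_of_nonneg_left h1 (by positivity)

lemma Cm_one (d : ℕ) : Cm d 1 = d / 2 * Real.sqrt ((d : ℝ) + 1) := by
  unfold Cm lam
  rw [if_pos rfl, pow_one]
  ring

lemma Cm_two (d : ℕ) : Cm d 2 = d := by
  have h : (d : ℝ) + 1 ≠ 0 := by positivity
  unfold Cm lam
  rw [if_neg (by norm_num), Real.sq_sqrt (by positivity)]
  field_simp

lemma Cm_three (d : ℕ) : Cm d 3 = d * Real.sqrt ((d : ℝ) + 1) := by
  have h : (d : ℝ) + 1 ≠ 0 := by positivity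
  unfold Cm lam
  rw [if_neg (by norm_num), pow_succ, Real.sq_sqrt (by positivity)]
  field_simp

lemma norm_ph (hx : IsETF d x) {i j k : Fin (d ^ 2)} (hij : i ≠ j) (hjk : j ≠ k) (hik : i ≠ k) :
    ‖ph x i j k‖ = 1 := by
  unfold ph tp
  rw [norm_mul, norm_mul, norm_mul, hx.ang i j hij, hx.ang j k hjk, hx.ang k i hik.symm,
    norm_pow, Complex.norm_real, Real.norm_of_nonneg (Real.sqrt_nonneg _)]
  have : Real.sqrt ((d : ℝ) + 1) ≠ 0 := (Real.sqrt_pos.2 (by positivity)).ne'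
  field_simp

/-! ### the trigonometric polynomials -/

lemma re_two {z : ℂ} (hz : ‖z‖ = 1) : (z ^ 2).re = 2 * z.re ^ 2 - 1 := by
  have h : z.re * z.re + z.im * z.im = 1 := by
    rw [← Complex.normSq_apply, Complex.normSq_eq_norm_sq, hz, one_pow]
  rw [sq, Complex.mul_re]
  linarith

lemma re_three {z : ℂ} (hz : ‖z‖ = 1) : (z ^ 3).re = 4 * z.re ^ 3 - 3 * z.re := by
  have h : z.re * z.re + z.im * z.im = 1 := by
    rw [← Complex.normSq_apply, Complex.normSq_eq_norm_sq, hz, one_pow]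
  have h2 : (z ^ 3).re = (z.re * z.re - z.im * z.im) * z.re - 2 * z.re * z.im * z.im := by
    rw [pow_succ, sq, Complex.mul_re, Complex.mul_re, Complex.mul_im]
    ring
  rw [h2]
  linear_combination (-3 * z.re) * h

lemma abs_re_le {z : ℂ} (hz : ‖z‖ = 1) : z.re ≤ 1 ∧ -1 ≤ z.re := by
  have := Complex.abs_re_le_norm z
  rw [hz, abs_le] at this
  exact ⟨this.2, this.1⟩

/-- arcs longer than a quarter circle, in rectangles -/
theorem arcs (hd : 2 ≤ d) (hx : IsETF d x) {o : Fin (d ^ 2)} {S T : Finset (Fin (d ^ 2))}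
    (hoS : o ∉ S) (hoT : o ∉ T) (hST : Disjoint S T) (w : ℂ) (hw : ‖w‖ = 1) (c : ℝ)
    (hc : 0 ≤ c) (P : Finset (Fin (d ^ 2) × Fin (d ^ 2)))
    (hP : ∀ p ∈ S ×ˢ T, c ≤ (w * ph x o p.1 p.2).re → p ∈ P) :
    (1 / Real.sqrt 2 - c) * (S.card * T.card) -
      4 / 3 * d * Real.sqrt ((d : ℝ) + 1) * Real.sqrt (S.card * T.card) ≤ 3 * P.card := by
  classical
  set s := Real.sqrt ((d : ℝ) + 1) with hs
  set n := Real.sqrt ((S.card : ℝ) * T.card) with hn
  have hn0 : 0 ≤ n := Real.sqrt_nonneg _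
  have hs0 : 0 ≤ s := Real.sqrt_nonneg _
  have hd0 : (2 : ℝ) ≤ d := by exact_mod_cast hd
  obtain ⟨t, ht⟩ : ∃ t, t = Real.sqrt 2 := ⟨_, rfl⟩
  have ht2 : t ^ 2 = 2 := by rw [ht]; exact Real.sq_sqrt (by norm_num)
  have ht0 : 0 < t := by rw [ht]; positivity
  have ht1 : t < 1.415 := by nlinarith
  have ht1' : 1.414 < t := by nlinarith
  have hinv : 1 / Real.sqrt 2 = t / 2 := by
    rw [← ht, div_eq_div_iff ht0.ne' (by norm_num), ← sq, ht2, one_mul]
  rw [hinv]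
  by_cases hc2 : t / 2 ≤ c
  · have h1 : (t / 2 - c) * (S.card * T.card) ≤ 0 :=
      mul_nonpos_of_nonpos_of_nonneg (by linarith) (by positivity)
    have h2 : 0 ≤ 4 / 3 * d * s * n := by positivity
    have h3 : (0 : ℝ) ≤ 3 * P.card := by positivity
    linarith
  push Not at hc2
  have hdp : 0 < d := by omega
  have key : ∀ m : ℕ, 1 ≤ m →
      |∑ p ∈ S ×ˢ T, ((w * ph x o p.1 p.2) ^ m).re| ≤ Cm d m * n := by
    intro m hm
    have h1 : ∑ p ∈ S ×ˢ T, ((w * ph x o p.1 p.2) ^ m).re =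
        (w ^ m * ∑ j ∈ S, ∑ k ∈ T, ph x o j k ^ m).re := by
      rw [← Finset.sum_product', Finset.mul_sum, Complex.re_sum]
      refine Finset.sum_congr rfl fun p _ => ?_
      rw [mul_pow]
    rw [h1]
    refine (Complex.abs_re_le_norm _).trans ?_
    rw [norm_mul, norm_pow, hw, one_pow, one_mul]
    exact harmonic hdp hx hm hoS hoT hST
  have k1 := neg_le_of_abs_le (key 1 le_rfl)
  have k2 := neg_le_of_abs_le (key 2 (by norm_num))
  have k3 := neg_le_of_abs_le (key 3 (by norm_num))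
  rw [Cm_one] at k1
  rw [Cm_two] at k2
  rw [Cm_three] at k3
  rw [← hs] at k1 k3
  -- the pointwise inequality
  have hpt : ∀ p ∈ S ×ˢ T, 1 / 4 * ((w * ph x o p.1 p.2) ^ 3).re +
      (t - c) / 2 * ((w * ph x o p.1 p.2) ^ 2).re +
      (5 / 4 - t * c) * ((w * ph x o p.1 p.2) ^ 1).re + (t / 2 - c) ≤
      if p ∈ P then 3 else 0 := by
    intro p hp
    have hp' := Finset.mem_product.1 hp
    have h1 : ‖w * ph x o p.1 p.2‖ = 1 := by
      rw [norm_mul, hw, one_mul]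
      refine norm_ph hx (fun h => hoS (h ▸ hp'.1)) ?_ (fun h => hoT (h ▸ hp'.2))
      intro h
      exact Finset.disjoint_left.1 hST hp'.1 (h ▸ hp'.2)
    rw [re_two h1, re_three h1, pow_one]
    have hP' := hP p hp
    obtain ⟨r1, r2⟩ := abs_re_le h1
    set r := (w * ph x o p.1 p.2).re
    have e : 1 / 4 * (4 * r ^ 3 - 3 * r) + (t - c) / 2 * (2 * r ^ 2 - 1) + (5 / 4 - t * c) * r +
        (t / 2 - c) = (r - c) * (r + t / 2) ^ 2 := by
      linear_combination (-(r - c) / 4) * ht2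
    rw [e]
    by_cases hrc : c ≤ r
    · rw [if_pos (hP' hrc)]
      have h2 : 0 ≤ r := hc.trans hrc
      have h3 : (r - c) ≤ 1 := by linarith
      have h4 : (r + t / 2) ^ 2 ≤ 3 := by nlinarith
      have h5 : 0 ≤ r - c := by linarith
      nlinarith [sq_nonneg (r + t / 2)]
    · push Not at hrc
      have h2 : (r - c) * (r + t / 2) ^ 2 ≤ 0 :=
        mul_nonpos_of_nonpos_of_nonneg (by linarith) (sq_nonneg _)
      split_ifs <;> linarith
  have hsum := Finset.sum_le_sum hpt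
  simp only [Finset.sum_add_distrib, ← Finset.mul_sum] at hsum
  rw [Finset.sum_const, Finset.card_product, nsmul_eq_mul] at hsum
  have hind : ∑ p ∈ S ×ˢ T, (if p ∈ P then (3 : ℝ) else 0) ≤ 3 * P.card := by
    rw [← Finset.sum_filter, Finset.sum_const, nsmul_eq_mul, mul_comm]
    have h1 : ((S ×ˢ T).filter (fun p => p ∈ P)).card ≤ P.card :=
      Finset.card_le_card fun p hp => (Finset.mem_filter.1 hp).2
    have h2 : ((((S ×ˢ T).filter (fun p => p ∈ P)).card : ℕ) : ℝ) ≤ P.card := by exact_mod_cast h1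
    linarith
  have hsum2 := hsum.trans hind
  push_cast at hsum2
  -- numerical
  have hs3 : 1.73 ≤ s := by
    rw [hs]
    apply Real.le_sqrt_of_sq_le
    norm_num
    linarith
  have hc1 : 0 ≤ t - c := by linarith
  have hc3 : 0 ≤ 5 / 4 - t * c := by nlinarith
  have a1 : -(5 / 8 * (d * s * n)) ≤
      (5 / 4 - t * c) * ∑ p ∈ S ×ˢ T, ((w * ph x o p.1 p.2) ^ 1).re := by
    have h1 := mul_le_mul_of_nonneg_left k1 hc3
    have h2 : (5 / 4 - t * c) * (d / 2 * s * n) ≤ 5 / 4 * (d / 2 * s * n) :=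
      mul_le_mul_of_nonneg_right (by nlinarith) (by positivity)
    linarith
  have a2 : -(t / 2 * (d * n)) ≤ (t - c) / 2 * ∑ p ∈ S ×ˢ T, ((w * ph x o p.1 p.2) ^ 2).re := by
    have h1 := mul_le_mul_of_nonneg_left k2 (by linarith : 0 ≤ (t - c) / 2)
    have h2 : (t - c) / 2 * (d * n) ≤ t / 2 * (d * n) :=
      mul_le_mul_of_nonneg_right (by linarith) (by positivity)
    linarith
  have a3 : -(1 / 4 * (d * s * n)) ≤ 1 / 4 * ∑ p ∈ S ×ˢ T, ((w * ph x o p.1 p.2) ^ 3).re := by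
    linarith
  have a4 : t / 2 * (d * n) ≤ 11 / 24 * (d * s * n) := by
    have h1 : t / 2 ≤ 11 / 24 * s := by linarith
    have h2 : t / 2 * (d * n) ≤ 11 / 24 * s * (d * n) :=
      mul_le_mul_of_nonneg_right h1 (by positivity)
    linarith
  linarith

/-- sums over the lines different from two given ones -/
lemma sum_ph_pair (hd : 0 < d) (hx : IsETF d x) {i j : Fin (d ^ 2)} (hij : i ≠ j) :
    ∑ k ∈ (Finset.univ.erase i).erase j, ph x i j k =
      (((d : ℝ) - 2) * Real.sqrt ((d : ℝ) + 1) : ℝ) ∧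
    ∑ k ∈ (Finset.univ.erase i).erase j, ph x i j k ^ 2 = -2 := by
  have hs2 : ((Real.sqrt ((d : ℝ) + 1) : ℝ) : ℂ) ^ 2 = (d : ℂ) + 1 := by
    rw [← Complex.ofReal_pow, Real.sq_sqrt (by positivity)]
    push_cast
    rfl
  have hd1 : (d : ℂ) + 1 ≠ 0 := by exact_mod_cast Nat.succ_ne_zero d
  have hprod : ⟪x i, x j⟫_ℂ * ⟪x j, x i⟫_ℂ = 1 / ((d : ℂ) + 1) := by
    rw [← inner_conj_symm (x j) (x i), RCLike.mul_conj]
    have h := ang_sq hx hij
    have h' : ((‖⟪x i, x j⟫_ℂ‖ ^ 2 : ℝ) : ℂ) = ((1 / ((d : ℝ) + 1) : ℝ) : ℂ) := by rw [h]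
    push_cast at h'
    exact h'
  set s : ℂ := ((Real.sqrt ((d : ℝ) + 1) : ℝ) : ℂ) with hs
  have hti : tp x i j i = 1 / ((d : ℂ) + 1) := by
    unfold tp
    rw [hprod, self_one hx, mul_one]
  have htj : tp x i j j = 1 / ((d : ℂ) + 1) := by
    unfold tp
    rw [self_one hx, mul_one, hprod]
  constructor
  · have h1 := Pool.Agent.H103R3.FrameCrit.sic_frame hd (by simp) x hx.nrm hx.ang (x j) (x i)
    have h2 : ∑ k, tp x i j k = (d : ℂ) * (1 / ((d : ℂ) + 1)) := by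
      have e : ∀ k, tp x i j k = ⟪x i, x j⟫_ℂ * (⟪x j, x k⟫_ℂ * ⟪x k, x i⟫_ℂ) := fun k => by
        unfold tp; ring
      rw [Finset.sum_congr rfl fun k _ => e k, ← Finset.mul_sum, h1, ← hprod]
      ring
    rw [← Finset.add_sum_erase _ _ (Finset.mem_univ i), hti,
      ← Finset.add_sum_erase _ _ (Finset.mem_erase.2 ⟨hij.symm, Finset.mem_univ j⟩), htj] at h2
    have h3 : ∑ k ∈ (Finset.univ.erase i).erase j, tp x i j k =
        ((d : ℂ) - 2) * (1 / ((d : ℂ) + 1)) := by linear_combination h2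
    have h4 : ∑ k ∈ (Finset.univ.erase i).erase j, ph x i j k =
        s ^ 3 * ∑ k ∈ (Finset.univ.erase i).erase j, tp x i j k := by
      rw [Finset.mul_sum]
      rfl
    rw [h4, h3, pow_succ, hs2]
    push_cast
    field_simp
    rw [← hs]
    ring
  · have h1 := Pool.Agent.H103R3.FrameCrit.sic_design hd (by simp) x hx.nrm hx.ang
      (x j) (x i) (x j) (x i)
    have h2 : ∑ k, (tp x i j k) ^ 2 = 2 * d / ((d : ℂ) + 1) ^ 3 := by
      have e : ∀ k, (tp x i j k) ^ 2 = ⟪x i, x j⟫_ℂ ^ 2 *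
          ((⟪x j, x k⟫_ℂ * ⟪x k, x i⟫_ℂ) * (⟪x j, x k⟫_ℂ * ⟪x k, x i⟫_ℂ)) := by
        intro k
        unfold tp
        ring
      rw [Finset.sum_congr rfl fun k _ => e k, ← Finset.mul_sum, h1]
      have e2 : ⟪x i, x j⟫_ℂ ^ 2 * ((d : ℂ) / (d + 1) *
          (⟪x j, x i⟫_ℂ * ⟪x j, x i⟫_ℂ + ⟪x j, x i⟫_ℂ * ⟪x j, x i⟫_ℂ)) =
          2 * ((d : ℂ) / (d + 1)) * (⟪x i, x j⟫_ℂ * ⟪x j, x i⟫_ℂ) ^ 2 := by ring
      rw [e2, hprod]
      field_simp
    rw [← Finset.add_sum_erase _ _ (Finset.mem_univ i), hti,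
      ← Finset.add_sum_erase _ _ (Finset.mem_erase.2 ⟨hij.symm, Finset.mem_univ j⟩), htj] at h2
    have h3 : ∑ k ∈ (Finset.univ.erase i).erase j, tp x i j k ^ 2 =
        2 * d / ((d : ℂ) + 1) ^ 3 - 2 * (1 / ((d : ℂ) + 1)) ^ 2 := by linear_combination h2
    have h4 : ∑ k ∈ (Finset.univ.erase i).erase j, ph x i j k ^ 2 =
        (s ^ 2) ^ 3 * ∑ k ∈ (Finset.univ.erase i).erase j, tp x i j k ^ 2 := by
      rw [Finset.mul_sum]
      refine Finset.sum_congr rfl fun k _ => ?_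
      unfold ph
      rw [← hs]
      ring
    rw [h4, h3, hs2]
    field_simp
    ring

/-- arcs longer than a third of the circle, for every pair of lines -/
theorem pair_arcs (hd : 2 ≤ d) (hx : IsETF d x) {i j : Fin (d ^ 2)} (hij : i ≠ j) (w : ℂ)
    (hw : ‖w‖ = 1) (c : ℝ) (hc1 : c ≤ 1) (P : Finset (Fin (d ^ 2)))
    (hP : ∀ k, k ≠ i → k ≠ j → c ≤ (w * ph x i j k).re → k ∈ P) :
    (1 / 2 - c) * ((d : ℝ) ^ 2 - 2) - (1 - c) * (((d : ℝ) - 2) * Real.sqrt ((d : ℝ) + 1)) - 1 ≤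
      2 * (1 - c) * P.card := by
  classical
  have hdp : 0 < d := by omega
  have hd0 : (2 : ℝ) ≤ d := by exact_mod_cast hd
  obtain ⟨k1, k2⟩ := sum_ph_pair hdp hx hij
  set R := (Finset.univ.erase i).erase j with hR
  set s := Real.sqrt ((d : ℝ) + 1) with hs
  have hs0 : 0 ≤ s := Real.sqrt_nonneg _
  have h1 : -(((d : ℝ) - 2) * s) ≤ ∑ k ∈ R, (w * ph x i j k).re := by
    rw [← Complex.re_sum, ← Finset.mul_sum, k1]
    have h2 := Complex.abs_re_le_norm (w * ((((d : ℝ) - 2) * s : ℝ) : ℂ))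
    rw [norm_mul, hw, one_mul, Complex.norm_real, Real.norm_of_nonneg
      (mul_nonneg (by linarith) hs0)] at h2
    exact neg_le_of_abs_le h2
  have h2 : -2 ≤ ∑ k ∈ R, ((w * ph x i j k) ^ 2).re := by
    have e : ∀ k, (w * ph x i j k) ^ 2 = w ^ 2 * ph x i j k ^ 2 := fun k => mul_pow _ _ _
    rw [← Complex.re_sum, Finset.sum_congr rfl fun k _ => e k, ← Finset.mul_sum, k2]
    have h2 := Complex.abs_re_le_norm (w ^ 2 * (-2))
    rw [norm_mul, norm_pow, hw, one_pow, one_mul, norm_neg] at h2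
    have h3 : ‖(2 : ℂ)‖ = 2 := by simp
    rw [h3] at h2
    exact neg_le_of_abs_le h2
  have hpt : ∀ k ∈ R, 1 / 2 * ((w * ph x i j k) ^ 2).re + (1 - c) * (w * ph x i j k).re +
      (1 / 2 - c) ≤ if k ∈ P then 2 * (1 - c) else 0 := by
    intro k hk
    simp only [hR, Finset.mem_erase, Finset.mem_univ, and_true] at hk
    have h1 : ‖w * ph x i j k‖ = 1 := by
      rw [norm_mul, hw, one_mul]
      exact norm_ph hx hij (Ne.symm hk.1) (Ne.symm hk.2)
    rw [re_two h1]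
    have hP' := hP k hk.2 hk.1
    obtain ⟨r1, r2⟩ := abs_re_le h1
    set r := (w * ph x i j k).re
    have e : 1 / 2 * (2 * r ^ 2 - 1) + (1 - c) * r + (1 / 2 - c) = (r - c) * (1 + r) := by ring
    rw [e]
    by_cases hrc : c ≤ r
    · rw [if_pos (hP' hrc)]
      nlinarith
    · push Not at hrc
      have h2 : (r - c) * (1 + r) ≤ 0 :=
        mul_nonpos_of_nonpos_of_nonneg (by linarith) (by linarith)
      split_ifs <;> linarith
  have hsum := Finset.sum_le_sum hpt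
  simp only [Finset.sum_add_distrib, ← Finset.mul_sum] at hsum
  rw [Finset.sum_const, nsmul_eq_mul, hR, card_T hij, ← hR] at hsum
  have hind : ∑ k ∈ R, (if k ∈ P then 2 * (1 - c) else 0) ≤ 2 * (1 - c) * P.card := by
    rw [← Finset.sum_filter, Finset.sum_const, nsmul_eq_mul, mul_comm]
    have h1 : (R.filter (fun p => p ∈ P)).card ≤ P.card :=
      Finset.card_le_card fun p hp => (Finset.mem_filter.1 hp).2
    have h2 : (((R.filter (fun p => p ∈ P)).card : ℕ) : ℝ) ≤ P.card := by exact_mod_cast h1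
    exact mul_le_mul_of_nonneg_left h2 (by linarith)
  have h3 := mul_le_mul_of_nonneg_left h1 (by linarith : 0 ≤ 1 - c)
  linarith [hsum.trans hind]

/-- the diagonal version of the spectral bound -/
lemma diag_bound (hd : 0 < d) (hx : IsETF d x) {m : ℕ} (hm : 1 ≤ m) {o : Fin (d ^ 2)}
    {S : Finset (Fin (d ^ 2))} (ho : o ∉ S) :
    -(Real.sqrt ((d : ℝ) + 1) ^ m * S.card) ≤
      ∑ j ∈ S, ∑ k ∈ S.erase j, (ph x o j k ^ m).re := by
  classical
  have h1 := (B_all hd hx hm (co x m o S)).1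
  have h2 := congrArg Complex.re (sum_ph (x := x) m o S S)
  rw [← Complex.ofReal_pow, Complex.re_ofReal_mul, Complex.re_sum] at h2
  have h3 : 0 ≤ Real.sqrt ((d : ℝ) + 1) ^ m * (B x m (co x m o S) (co x m o S)).re :=
    mul_nonneg (by positivity) h1
  rw [← h2] at h3
  have h4 : ∀ j ∈ S, (∑ k ∈ S, ph x o j k ^ m).re =
      Real.sqrt ((d : ℝ) + 1) ^ m + ∑ k ∈ S.erase j, (ph x o j k ^ m).re := by
    intro j hj
    rw [Complex.re_sum, ← Finset.add_sum_erase S _ hj]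
    congr 1
    have hne : j ≠ o := fun h => ho (h ▸ hj)
    have h5 : ph x o j j = ((Real.sqrt ((d : ℝ) + 1) : ℝ) : ℂ) := by
      unfold ph tp
      rw [self_one hx, mul_one, ← inner_conj_symm (x j) (x o), RCLike.mul_conj]
      have h6 := ang_sq hx hne.symm
      have h7 : ((‖⟪x o, x j⟫_ℂ‖ ^ 2 : ℝ) : ℂ) = ((1 / ((d : ℝ) + 1) : ℝ) : ℂ) := by rw [h6]
      push_cast at h7
      have h8 : ((Real.sqrt ((d : ℝ) + 1) : ℝ) : ℂ) ^ 2 = (d : ℂ) + 1 := by
        rw [← Complex.ofReal_pow, Real.sq_sqrt (by positivity)]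
        push_cast
        rfl
      have hd1 : (d : ℂ) + 1 ≠ 0 := by exact_mod_cast Nat.succ_ne_zero d
      have h9 : ((‖⟪x o, x j⟫_ℂ‖ : ℝ) : ℂ) ^ 2 = 1 / ((d : ℂ) + 1) := h7
      calc ((Real.sqrt ((d : ℝ) + 1) : ℝ) : ℂ) ^ 3 * ((‖⟪x o, x j⟫_ℂ‖ : ℝ) : ℂ) ^ 2
          = ((Real.sqrt ((d : ℝ) + 1) : ℝ) : ℂ) ^ 2 * (1 / ((d : ℂ) + 1)) *
            ((Real.sqrt ((d : ℝ) + 1) : ℝ) : ℂ) := by rw [h9]; ring
        _ = ((Real.sqrt ((d : ℝ) + 1) : ℝ) : ℂ) := by rw [h8]; field_simp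
    rw [h5, ← Complex.ofReal_pow, Complex.ofReal_re]
  rw [Finset.sum_congr rfl h4, Finset.sum_add_distrib, Finset.sum_const, nsmul_eq_mul] at h3
  linarith

/-- sets of lines whose phases avoid an arc around one -/
theorem base_arcs (hd : 0 < d) (hx : IsETF d x) {o : Fin (d ^ 2)} {S : Finset (Fin (d ^ 2))}
    (ho : o ∉ S) (hS : S.Nonempty) (c : ℝ) (hc1 : c ≤ 1)
    (h : ∀ j ∈ S, ∀ k ∈ S, j ≠ k → (ph x o j k).re ≤ c) :
    (1 / 2 - c) * ((S.card : ℝ) - 1) ≤ (1 - c) * Real.sqrt ((d : ℝ) + 1) + ((d : ℝ) + 1) / 2 := by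
  classical
  have k1 := diag_bound hd hx le_rfl ho
  have k2 := diag_bound hd hx (m := 2) (by norm_num) ho
  rw [Real.sq_sqrt (by positivity)] at k2
  have hpt : ∀ j ∈ S, ∀ k ∈ S.erase j, 1 / 2 * (ph x o j k ^ 2).re +
      (1 - c) * (ph x o j k ^ 1).re + (1 / 2 - c) ≤ 0 := by
    intro j hj k hk
    obtain ⟨hkj, hk⟩ := Finset.mem_erase.1 hk
    have h1 : ‖ph x o j k‖ = 1 :=
      norm_ph hx (fun h => ho (h ▸ hj)) (Ne.symm hkj) (fun h => ho (h ▸ hk))
    rw [re_two h1, pow_one]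
    have h2 := h j hj k hk (Ne.symm hkj)
    obtain ⟨r1, r2⟩ := abs_re_le h1
    nlinarith
  have hsum : ∑ j ∈ S, ∑ k ∈ S.erase j, (1 / 2 * (ph x o j k ^ 2).re +
      (1 - c) * (ph x o j k ^ 1).re + (1 / 2 - c)) ≤ 0 :=
    Finset.sum_nonpos fun j hj => Finset.sum_nonpos fun k hk => hpt j hj k hk
  simp only [Finset.sum_add_distrib, ← Finset.mul_sum] at hsum
  have h3 : ∑ j ∈ S, ∑ _k ∈ S.erase j, (1 / 2 - c) =
      (1 / 2 - c) * ((S.card : ℝ) * ((S.card : ℝ) - 1)) := by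
    have h4 : ∀ j ∈ S, ∑ _k ∈ S.erase j, (1 / 2 - c) = ((S.card : ℝ) - 1) * (1 / 2 - c) := by
      intro j hj
      rw [Finset.sum_const, Finset.card_erase_of_mem hj, nsmul_eq_mul,
        Nat.cast_sub (Finset.card_pos.2 ⟨j, hj⟩)]
      push_cast
      ring
    rw [Finset.sum_congr rfl h4, Finset.sum_const, nsmul_eq_mul]
    ring
  rw [h3] at hsum
  have hc0 : (0 : ℝ) < S.card := by exact_mod_cast Finset.card_pos.2 hS
  have h4 := mul_le_mul_of_nonneg_left k1 (by linarith : 0 ≤ 1 - c)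
  rw [pow_one] at h4
  have h5 : (S.card : ℝ) * ((1 / 2 - c) * ((S.card : ℝ) - 1)) ≤
      S.card * ((1 - c) * Real.sqrt ((d : ℝ) + 1) + ((d : ℝ) + 1) / 2) := by nlinarith
  exact le_of_mul_le_mul_left h5 hc0

end Pool.Agent.X159.SicPhase
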