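import Pool.Agent.H103R3.FrameCrit

set_option autoImplicit false

/-! Real and imaginary triple products of maximal equiangular tight frames. -/

namespace Pool.Agent.X159.SicReal

open scoped InnerProductSpace ComplexConjugate

variable {d : ℕ}

/-- maximal equiangular tight frame -/
structure IsETF (d : ℕ) (x : Fin (d ^ 2) → EuclideanSpace ℂ (Fin d)) : Prop where
  nrm : ∀ i, ‖x i‖ = 1
  ang : ∀ i j, i ≠ j → ‖⟪x i, x j⟫_ℂ‖ = 1 / Real.sqrt ((d : ℝ) + 1)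

/-- triple product -/
noncomputable def tp (x : Fin (d ^ 2) → EuclideanSpace ℂ (Fin d)) (i j k : Fin (d ^ 2)) : ℂ :=
  ⟪x i, x j⟫_ℂ * ⟪x j, x k⟫_ℂ * ⟪x k, x i⟫_ℂ

variable {x : Fin (d ^ 2) → EuclideanSpace ℂ (Fin d)}

/-- the function `z ↦ ⟨z ⊗ z, ∑ c_i x_i ⊗ x_i⟩` -/
noncomputable def FF (x : Fin (d ^ 2) → EuclideanSpace ℂ (Fin d)) (c : Fin (d ^ 2) → ℂ)
    (z : Fin (d ^ 2)) : ℂ := ∑ i, c i * ⟪x z, x i⟫_ℂ ^ 2

/-- the squared norm of `∑ c_i x_i ⊗ x_i` -/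
noncomputable def QQ (x : Fin (d ^ 2) → EuclideanSpace ℂ (Fin d)) (c : Fin (d ^ 2) → ℂ) : ℂ :=
  ∑ j, conj (c j) * FF x c j

lemma QQ_eq (x : Fin (d ^ 2) → EuclideanSpace ℂ (Fin d)) (c : Fin (d ^ 2) → ℂ) :
    QQ x c = ∑ j, ∑ i, conj (c j) * c i * ⟪x j, x i⟫_ℂ ^ 2 := by
  unfold QQ FF
  refine Finset.sum_congr rfl fun j _ => ?_
  rw [Finset.mul_sum]
  refine Finset.sum_congr rfl fun i _ => ?_
  ring

/-- the tight frame identity in the symmetric square -/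
lemma sum_sq (hd : 0 < d) (hx : IsETF d x) (c : Fin (d ^ 2) → ℂ) :
    ((∑ z, ‖FF x c z‖ ^ 2 : ℝ) : ℂ) = (2 * d / (d + 1) : ℂ) * QQ x c := by
  have h1 := Pool.Agent.H103R3.FrameCrit.sic_design hd (by simp) x hx.nrm hx.ang
  have h2 : ∀ z, ((‖FF x c z‖ ^ 2 : ℝ) : ℂ) = ∑ j, ∑ i, conj (c j) * c i *
      ((⟪x j, x z⟫_ℂ * ⟪x z, x i⟫_ℂ) * (⟪x j, x z⟫_ℂ * ⟪x z, x i⟫_ℂ)) := by
    intro z
    have h3 : ((‖FF x c z‖ ^ 2 : ℝ) : ℂ) = conj (FF x c z) * FF x c z := by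
      rw [RCLike.conj_mul]
      push_cast
      rfl
    rw [h3]
    unfold FF
    rw [map_sum, Finset.sum_mul_sum]
    refine Finset.sum_congr rfl fun j _ => Finset.sum_congr rfl fun i _ => ?_
    rw [map_mul, map_pow, inner_conj_symm]
    ring
  push_cast at h2 ⊢
  rw [Finset.sum_congr rfl fun z _ => h2 z, Finset.sum_comm, QQ_eq, Finset.mul_sum]
  refine Finset.sum_congr rfl fun j _ => ?_
  rw [Finset.sum_comm, Finset.mul_sum]
  refine Finset.sum_congr rfl fun i _ => ?_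
  rw [← Finset.mul_sum, h1]
  ring

lemma QQ_real (hd : 0 < d) (hx : IsETF d x) (c : Fin (d ^ 2) → ℂ) :
    ∃ q : ℝ, 0 ≤ q ∧ QQ x c = q ∧ (∑ z, ‖FF x c z‖ ^ 2) = 2 * d / (d + 1) * q := by
  have hd' : (0 : ℝ) < d := by exact_mod_cast hd
  have hd0 : (d : ℂ) ≠ 0 := by exact_mod_cast hd.ne'
  have hd1 : (d : ℂ) + 1 ≠ 0 := by exact_mod_cast Nat.succ_ne_zero d
  refine ⟨(∑ z, ‖FF x c z‖ ^ 2) * ((d + 1) / (2 * d)), ?_, ?_, ?_⟩
  · exact mul_nonneg (Finset.sum_nonneg fun _ _ => sq_nonneg _) (by positivity)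
  · push_cast
    have := sum_sq hd hx c
    push_cast at this
    rw [this]
    field_simp
  · field_simp

/-- the spectral bounds in the symmetric square -/
lemma bounds (hd : 0 < d) (hx : IsETF d x) (c : Fin (d ^ 2) → ℂ) :
    0 ≤ (QQ x c).re ∧ (QQ x c).re ≤ 2 * d / (d + 1) * ∑ i, ‖c i‖ ^ 2 := by
  obtain ⟨q, hq0, hq, hsum⟩ := QQ_real hd hx c
  rw [hq, Complex.ofReal_re]
  refine ⟨hq0, ?_⟩
  have h1 : q ^ 2 ≤ (∑ i, ‖c i‖ ^ 2) * ∑ z, ‖FF x c z‖ ^ 2 := by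
    have h2 : q = ‖QQ x c‖ := by
      rw [hq, Complex.norm_real, Real.norm_of_nonneg hq0]
    have h3 : ‖QQ x c‖ ≤ ∑ j, ‖c j‖ * ‖FF x c j‖ := by
      unfold QQ
      refine (norm_sum_le _ _).trans (le_of_eq ?_)
      refine Finset.sum_congr rfl fun j _ => ?_
      rw [norm_mul, RCLike.norm_conj]
    have h4 : (∑ j, ‖c j‖ * ‖FF x c j‖) ^ 2 ≤ (∑ i, ‖c i‖ ^ 2) * ∑ z, ‖FF x c z‖ ^ 2 :=
      Finset.sum_mul_sq_le_sq_mul_sq _ _ _
    refine le_trans ?_ h4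
    rw [h2]
    exact pow_le_pow_left₀ (norm_nonneg _) h3 2
  rw [hsum] at h1
  rcases hq0.eq_or_lt with h0 | h0
  · rw [← h0]
    exact mul_nonneg (by positivity) (Finset.sum_nonneg fun _ _ => sq_nonneg _)
  · have h2 : q * q ≤ (2 * d / (d + 1) * ∑ i, ‖c i‖ ^ 2) * q := by nlinarith
    exact le_of_mul_le_mul_right h2 h0

/-! ### the coefficients attached to a base line -/

lemma ang_sq (hx : IsETF d x) {i j : Fin (d ^ 2)} (h : i ≠ j) :
    ‖⟪x i, x j⟫_ℂ‖ ^ 2 = 1 / ((d : ℝ) + 1) := by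
  rw [hx.ang i j h, div_pow, Real.sq_sqrt (by positivity), one_pow]

lemma inner_ne (hx : IsETF d x) (i j : Fin (d ^ 2)) : ⟪x i, x j⟫_ℂ ≠ 0 := by
  by_cases h : i = j
  · subst h
    rw [inner_self_eq_norm_sq_to_K, hx.nrm]
    simp
  · intro h0
    have := ang_sq hx h
    rw [h0, norm_zero] at this
    have h2 : (0 : ℝ) < 1 / ((d : ℝ) + 1) := by positivity
    rw [← this] at h2
    norm_num at h2

lemma self_one (hx : IsETF d x) (i : Fin (d ^ 2)) : ⟪x i, x i⟫_ℂ = 1 := by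
  rw [inner_self_eq_norm_sq_to_K, hx.nrm]
  simp

/-- the coefficients -/
noncomputable def cf (x : Fin (d ^ 2) → EuclideanSpace ℂ (Fin d)) (S : Finset (Fin (d ^ 2)))
    (o : Fin (d ^ 2)) (σ : Fin (d ^ 2) → ℝ) (i : Fin (d ^ 2)) : ℂ :=
  if i ∈ S then (σ i : ℂ) * (conj ⟪x o, x i⟫_ℂ ^ 2 / (‖⟪x o, x i⟫_ℂ‖ ^ 2 : ℝ)) else 0

/-- the terms -/
noncomputable def RR (x : Fin (d ^ 2) → EuclideanSpace ℂ (Fin d)) (o : Fin (d ^ 2))
    (σ : Fin (d ^ 2) → ℝ) (j i : Fin (d ^ 2)) : ℝ :=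
  σ j * σ i * ((tp x o j i) ^ 2).re / (‖⟪x o, x j⟫_ℂ‖ ^ 2 * ‖⟪x o, x i⟫_ℂ‖ ^ 2)

lemma QQ_cf (S : Finset (Fin (d ^ 2))) (o : Fin (d ^ 2)) (σ : Fin (d ^ 2) → ℝ) :
    (QQ x (cf x S o σ)).re = ∑ j ∈ S, ∑ i ∈ S, RR x o σ j i := by
  rw [QQ_eq, Complex.re_sum, ← Finset.sum_filter_add_sum_filter_not Finset.univ (fun j => j ∈ S)]
  have h0 : ∑ j ∈ Finset.univ.filter (fun j => ¬ j ∈ S),
      (∑ i, conj (cf x S o σ j) * cf x S o σ i * ⟪x j, x i⟫_ℂ ^ 2).re = 0 := by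
    refine Finset.sum_eq_zero fun j hj => ?_
    have : cf x S o σ j = 0 := if_neg (Finset.mem_filter.1 hj).2
    simp [this]
  rw [h0, add_zero]
  have e1 : Finset.univ.filter (fun j => j ∈ S) = S := by ext; simp
  rw [e1]
  refine Finset.sum_congr rfl fun j hj => ?_
  rw [Complex.re_sum, ← Finset.sum_filter_add_sum_filter_not Finset.univ (fun j => j ∈ S)]
  have h0 : ∑ i ∈ Finset.univ.filter (fun j => ¬ j ∈ S),
      (conj (cf x S o σ j) * cf x S o σ i * ⟪x j, x i⟫_ℂ ^ 2).re = 0 := by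
    refine Finset.sum_eq_zero fun i hi => ?_
    have : cf x S o σ i = 0 := if_neg (Finset.mem_filter.1 hi).2
    simp [this]
  rw [h0, add_zero, e1]
  refine Finset.sum_congr rfl fun i hi => ?_
  have e2 : conj (cf x S o σ j) * cf x S o σ i * ⟪x j, x i⟫_ℂ ^ 2 =
      ((σ j * σ i / (‖⟪x o, x j⟫_ℂ‖ ^ 2 * ‖⟪x o, x i⟫_ℂ‖ ^ 2) : ℝ) : ℂ) * (tp x o j i) ^ 2 := by
    unfold cf tp
    rw [if_pos hi, if_pos hj]
    simp only [map_mul, map_div₀, map_pow, Complex.conj_ofReal, Complex.conj_conj,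
      ← inner_conj_symm (x i) (x o)]
    push_cast
    ring
  rw [e2, Complex.re_ofReal_mul]
  unfold RR
  ring

lemma sum_cf (hx : IsETF d x) (S : Finset (Fin (d ^ 2))) (o : Fin (d ^ 2)) (σ : Fin (d ^ 2) → ℝ)
    (hσ : ∀ i, |σ i| = 1) : ∑ i, ‖cf x S o σ i‖ ^ 2 = S.card := by
  have h : ∀ i, ‖cf x S o σ i‖ ^ 2 = if i ∈ S then 1 else 0 := by
    intro i
    unfold cf
    split_ifs
    · rw [norm_mul, Complex.norm_real, Real.norm_eq_abs, hσ, one_mul, norm_div, norm_pow,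
        RCLike.norm_conj, Complex.norm_real, Real.norm_of_nonneg (sq_nonneg _), div_self, one_pow]
      exact pow_ne_zero _ (norm_ne_zero_iff.2 (inner_ne hx o i))
    · simp
  rw [Finset.sum_congr rfl fun i _ => h i]
  simp

lemma RR_bounds (hd : 0 < d) (hx : IsETF d x) (S : Finset (Fin (d ^ 2))) (o : Fin (d ^ 2))
    (σ : Fin (d ^ 2) → ℝ) (hσ : ∀ i, |σ i| = 1) :
    0 ≤ ∑ j ∈ S, ∑ i ∈ S, RR x o σ j i ∧
      ∑ j ∈ S, ∑ i ∈ S, RR x o σ j i ≤ 2 * d / (d + 1) * S.card := by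
  have h := bounds hd hx (cf x S o σ)
  rw [QQ_cf, sum_cf hx S o σ hσ] at h
  exact h

lemma norm_tp (x : Fin (d ^ 2) → EuclideanSpace ℂ (Fin d)) (o j i : Fin (d ^ 2)) :
    ‖tp x o j i‖ ^ 2 = ‖⟪x o, x j⟫_ℂ‖ ^ 2 * ‖⟪x j, x i⟫_ℂ‖ ^ 2 * ‖⟪x o, x i⟫_ℂ‖ ^ 2 := by
  unfold tp
  rw [norm_mul, norm_mul, mul_pow, mul_pow, norm_inner_symm (x i) (x o)]

lemma RR_diag (hx : IsETF d x) (o : Fin (d ^ 2)) (σ : Fin (d ^ 2) → ℝ) (hσ : ∀ i, |σ i| = 1)
    (i : Fin (d ^ 2)) : RR x o σ i i = 1 := by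
  unfold RR tp
  have h1 : ⟪x o, x i⟫_ℂ * ⟪x i, x i⟫_ℂ * ⟪x i, x o⟫_ℂ = ((‖⟪x o, x i⟫_ℂ‖ ^ 2 : ℝ) : ℂ) := by
    rw [self_one hx, mul_one, ← inner_conj_symm (x i) (x o), RCLike.mul_conj]
    push_cast
    rfl
  have h2 : σ i * σ i = 1 := by rw [← abs_mul_abs_self, hσ]; norm_num
  rw [h1, h2, ← Complex.ofReal_pow, Complex.ofReal_re, one_mul, ← sq]
  exact div_self (pow_ne_zero _ (pow_ne_zero _ (norm_ne_zero_iff.2 (inner_ne hx o i))))

lemma RR_real (hx : IsETF d x) (o : Fin (d ^ 2)) {j i : Fin (d ^ 2)} (hij : j ≠ i)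
    (h : (tp x o j i).im = 0) : RR x o (fun _ => 1) j i = 1 / ((d : ℝ) + 1) := by
  unfold RR
  have h1 : ((tp x o j i) ^ 2).re = ‖tp x o j i‖ ^ 2 := by
    rw [Complex.sq_norm, Complex.normSq_apply, sq, Complex.mul_re, h]
    ring
  have ho : ‖⟪x o, x j⟫_ℂ‖ ≠ 0 := norm_ne_zero_iff.2 (inner_ne hx o j)
  have ho' : ‖⟪x o, x i⟫_ℂ‖ ≠ 0 := norm_ne_zero_iff.2 (inner_ne hx o i)
  rw [h1, norm_tp, ang_sq hx hij]
  field_simp

lemma RR_imag (hx : IsETF d x) (o : Fin (d ^ 2)) {j i : Fin (d ^ 2)} (hij : j ≠ i)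
    (σ : Fin (d ^ 2) → ℝ) (hj : σ j = 1) (hi : σ i = 1)
    (h : (tp x o j i).re = 0) : RR x o σ j i = -(1 / ((d : ℝ) + 1)) := by
  unfold RR
  have h1 : ((tp x o j i) ^ 2).re = -‖tp x o j i‖ ^ 2 := by
    rw [Complex.sq_norm, Complex.normSq_apply, sq, Complex.mul_re, h]
    ring
  have ho : ‖⟪x o, x j⟫_ℂ‖ ≠ 0 := norm_ne_zero_iff.2 (inner_ne hx o j)
  have ho' : ‖⟪x o, x i⟫_ℂ‖ ≠ 0 := norm_ne_zero_iff.2 (inner_ne hx o i)
  rw [h1, norm_tp, ang_sq hx hij, hi, hj]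
  field_simp

lemma RR_base (hx : IsETF d x) (o : Fin (d ^ 2)) {i : Fin (d ^ 2)} (hi : o ≠ i)
    (σ : Fin (d ^ 2) → ℝ) : RR x o σ o i = σ o * σ i * (1 / ((d : ℝ) + 1)) ∧
      RR x o σ i o = σ o * σ i * (1 / ((d : ℝ) + 1)) := by
  have ho' : ‖⟪x o, x i⟫_ℂ‖ ≠ 0 := norm_ne_zero_iff.2 (inner_ne hx o i)
  have h1 : ⟪x o, x i⟫_ℂ * ⟪x i, x o⟫_ℂ = ((‖⟪x o, x i⟫_ℂ‖ ^ 2 : ℝ) : ℂ) := by
    rw [← inner_conj_symm (x i) (x o), RCLike.mul_conj]
    push_cast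
    rfl
  constructor
  · unfold RR tp
    rw [self_one hx, one_mul, h1, norm_one, ← Complex.ofReal_pow, Complex.ofReal_re,
      ← ang_sq hx hi]
    field_simp
  · unfold RR tp
    rw [self_one hx, mul_one, h1, norm_one, ← Complex.ofReal_pow, Complex.ofReal_re,
      ← ang_sq hx hi]
    field_simp

lemma sum_pairs {ι : Type*} [DecidableEq ι] (S : Finset ι) (f : ι → ι → ℝ) (t : ℝ)
    (h1 : ∀ i ∈ S, f i i = 1) (h2 : ∀ j ∈ S, ∀ i ∈ S, j ≠ i → t ≤ f j i) :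
    S.card + S.card * ((S.card : ℝ) - 1) * t ≤ ∑ j ∈ S, ∑ i ∈ S, f j i := by
  have h3 : ∀ j ∈ S, 1 + ((S.card : ℝ) - 1) * t ≤ ∑ i ∈ S, f j i := by
    intro j hj
    rw [← Finset.add_sum_erase S _ hj, h1 j hj]
    have h4 : ∑ i ∈ S.erase j, t ≤ ∑ i ∈ S.erase j, f j i :=
      Finset.sum_le_sum fun i hi => h2 j hj i (Finset.mem_of_mem_erase hi)
        (Finset.ne_of_mem_erase hi).symm
    rw [Finset.sum_const, Finset.card_erase_of_mem hj, nsmul_eq_mul,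
      Nat.cast_sub (Finset.card_pos.2 ⟨j, hj⟩)] at h4
    push_cast at h4
    linarith
  have h4 := Finset.sum_le_sum h3
  rw [Finset.sum_const, nsmul_eq_mul] at h4
  refine le_trans (le_of_eq ?_) h4
  ring

lemma sum_pairs' {ι : Type*} [DecidableEq ι] (S : Finset ι) (f : ι → ι → ℝ) (t : ℝ)
    (h1 : ∀ i ∈ S, f i i = 1) (h2 : ∀ j ∈ S, ∀ i ∈ S, j ≠ i → f j i ≤ t) :
    ∑ j ∈ S, ∑ i ∈ S, f j i ≤ S.card + S.card * ((S.card : ℝ) - 1) * t := by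
  have h3 : ∀ j ∈ S, ∑ i ∈ S, f j i ≤ 1 + ((S.card : ℝ) - 1) * t := by
    intro j hj
    rw [← Finset.add_sum_erase S _ hj, h1 j hj]
    have h4 : ∑ i ∈ S.erase j, f j i ≤ ∑ i ∈ S.erase j, t :=
      Finset.sum_le_sum fun i hi => h2 j hj i (Finset.mem_of_mem_erase hi)
        (Finset.ne_of_mem_erase hi).symm
    rw [Finset.sum_const, Finset.card_erase_of_mem hj, nsmul_eq_mul,
      Nat.cast_sub (Finset.card_pos.2 ⟨j, hj⟩)] at h4
    push_cast at h4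
    linarith
  have h4 := Finset.sum_le_sum h3
  rw [Finset.sum_const, nsmul_eq_mul] at h4
  refine h4.trans (le_of_eq ?_)
  ring

/-- at most `d` lines with real triple products -/
theorem real_bound (hd : 0 < d) (hx : IsETF d x) (S : Finset (Fin (d ^ 2)))
    (h : ∀ i ∈ S, ∀ j ∈ S, ∀ k ∈ S, (tp x i j k).im = 0) : S.card ≤ d := by
  classical
  rcases S.eq_empty_or_nonempty with rfl | ⟨o, ho⟩
  · simp
  obtain ⟨-, h1⟩ := RR_bounds hd hx S o (fun _ => 1) (fun _ => by norm_num)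
  have h2 := sum_pairs S (RR x o fun _ => 1) (1 / ((d : ℝ) + 1))
    (fun i _ => RR_diag hx o _ (fun _ => by norm_num) i)
    (fun j hj i hi hij => (RR_real hx o hij (h o ho j hj i hi)).ge)
  have h3 := h2.trans h1
  have hc : (0 : ℝ) < S.card := by exact_mod_cast Finset.card_pos.2 ⟨o, ho⟩
  have hd1 : (0 : ℝ) < (d : ℝ) + 1 := by positivity
  have h4 : (S.card : ℝ) * ((d : ℝ) + S.card) ≤ S.card * (2 * d) := by
    have e1 : (S.card : ℝ) + S.card * ((S.card : ℝ) - 1) * (1 / ((d : ℝ) + 1)) =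
        S.card * ((d : ℝ) + S.card) / (d + 1) := by
      field_simp
      ring
    have e2 : 2 * (d : ℝ) / (d + 1) * S.card = S.card * (2 * d) / (d + 1) := by ring
    rw [e1, e2] at h3
    exact (div_le_div_iff_of_pos_right hd1).1 h3
  have h5 := le_of_mul_le_mul_left h4 hc
  have h6 : (S.card : ℝ) ≤ d := by linarith
  exact_mod_cast h6

/-- at most `d + 2` lines with imaginary triple products -/
theorem imag_bound (hd : 0 < d) (hx : IsETF d x) (S : Finset (Fin (d ^ 2)))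
    (h : ∀ i ∈ S, ∀ j ∈ S, ∀ k ∈ S, i ≠ j → j ≠ k → k ≠ i → (tp x i j k).re = 0) :
    S.card ≤ d + 2 := by
  classical
  rcases S.eq_empty_or_nonempty with rfl | ⟨o, ho⟩
  · simp
  let σ : Fin (d ^ 2) → ℝ := fun i => if i = o then -1 else 1
  have hσ : ∀ i, |σ i| = 1 := by
    intro i
    simp only [σ]
    split_ifs <;> norm_num
  obtain ⟨h1, -⟩ := RR_bounds hd hx S o σ hσ
  have h2 := sum_pairs' S (RR x o σ) (-(1 / ((d : ℝ) + 1)))
    (fun i _ => RR_diag hx o _ hσ i) (by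
      intro j hj i hi hij
      by_cases hjo : j = o
      · subst hjo
        rw [(RR_base hx j hij σ).1]
        simp only [σ, if_neg hij.symm, if_true]
        linarith
      · by_cases hio : i = o
        · subst hio
          rw [(RR_base hx i (Ne.symm hij) σ).2]
          simp only [σ, if_neg hij, if_true]
          linarith
        · exact (RR_imag hx o hij σ (if_neg hjo) (if_neg hio)
            (h o ho j hj i hi (Ne.symm hjo) hij hio)).le)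
  have h3 := h1.trans h2
  have hc : (0 : ℝ) < S.card := by exact_mod_cast Finset.card_pos.2 ⟨o, ho⟩
  have hd1 : (0 : ℝ) < (d : ℝ) + 1 := by positivity
  have e1 : (S.card : ℝ) + S.card * ((S.card : ℝ) - 1) * (-(1 / ((d : ℝ) + 1))) =
      S.card * ((d : ℝ) + 2 - S.card) / (d + 1) := by
    field_simp
    ring
  rw [e1] at h3
  have h4 : 0 ≤ (S.card : ℝ) * ((d : ℝ) + 2 - S.card) := by
    by_contra hcon
    push Not at hcon
    have := div_neg_of_neg_of_pos hcon hd1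
    linarith
  have h5 : 0 ≤ (d : ℝ) + 2 - S.card := by
    by_contra hcon
    push Not at hcon
    have := mul_neg_of_pos_of_neg hc hcon
    linarith
  have h6 : (S.card : ℝ) ≤ ((d + 2 : ℕ) : ℝ) := by push_cast; linarith
  exact_mod_cast h6

/-- normalised triple product -/
noncomputable def ph (x : Fin (d ^ 2) → EuclideanSpace ℂ (Fin d)) (i j k : Fin (d ^ 2)) : ℂ :=
  ((Real.sqrt ((d : ℝ) + 1) : ℝ) : ℂ) ^ 3 * tp x i j k

lemma ph_sq (x : Fin (d ^ 2) → EuclideanSpace ℂ (Fin d)) (i j k : Fin (d ^ 2)) :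
    (ph x i j k ^ 2).re = ((d : ℝ) + 1) ^ 3 * ((tp x i j k) ^ 2).re := by
  have h : ph x i j k ^ 2 = ((((d : ℝ) + 1) ^ 3 : ℝ) : ℂ) * (tp x i j k) ^ 2 := by
    unfold ph
    rw [mul_pow, ← pow_mul, ← Complex.ofReal_pow, show 3 * 2 = 2 * 3 by norm_num, pow_mul,
      Real.sq_sqrt (by positivity)]
  rw [h, Complex.re_ofReal_mul]

lemma RR_off (hx : IsETF d x) {o i j : Fin (d ^ 2)} (hi : o ≠ i) (hj : o ≠ j) :
    RR x o (fun _ => 1) j i = (ph x o j i ^ 2).re / ((d : ℝ) + 1) := by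
  unfold RR
  rw [ph_sq, ang_sq hx hi, ang_sq hx hj]
  field_simp

/-- the robust version -/
theorem arc_real (hd : 0 < d) (hx : IsETF d x) (o : Fin (d ^ 2)) (S : Finset (Fin (d ^ 2)))
    (ho : o ∉ S) (hS : S.Nonempty) (δ : ℝ)
    (h : ∀ i ∈ S, ∀ j ∈ S, i ≠ j → δ ≤ (ph x o i j ^ 2).re) :
    ((S.card : ℝ) - 1) * δ ≤ d - 1 := by
  classical
  have hd1 : (0 : ℝ) < (d : ℝ) + 1 := by positivity
  have hne : ∀ i ∈ S, o ≠ i := fun i hi h => ho (h ▸ hi)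
  obtain ⟨-, h1⟩ := RR_bounds hd hx S o (fun _ => 1) (fun _ => by norm_num)
  have h2 := sum_pairs S (RR x o fun _ => 1) (δ / ((d : ℝ) + 1))
    (fun i _ => RR_diag hx o _ (fun _ => by norm_num) i)
    (fun j hj i hi hij => by
      rw [RR_off hx (hne i hi) (hne j hj)]
      exact (div_le_div_iff_of_pos_right hd1).2 (h j hj i hi hij))
  have h3 := h2.trans h1
  have hc : (0 : ℝ) < S.card := by exact_mod_cast Finset.card_pos.2 hS
  have e1 : (S.card : ℝ) + S.card * ((S.card : ℝ) - 1) * (δ / ((d : ℝ) + 1)) =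
      S.card * ((d : ℝ) + 1 + ((S.card : ℝ) - 1) * δ) / (d + 1) := by
    field_simp
  have e2 : 2 * (d : ℝ) / (d + 1) * S.card = S.card * (2 * d) / (d + 1) := by ring
  rw [e1, e2] at h3
  have h4 := le_of_mul_le_mul_left ((div_le_div_iff_of_pos_right hd1).1 h3) hc
  linarith

theorem arc_imag (hd : 0 < d) (hx : IsETF d x) (o : Fin (d ^ 2)) (S : Finset (Fin (d ^ 2)))
    (ho : o ∉ S) (hS : S.Nonempty) (δ : ℝ)
    (h : ∀ i ∈ S, ∀ j ∈ S, i ≠ j → (ph x o i j ^ 2).re ≤ -δ) :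
    ((S.card : ℝ) - 1) * δ ≤ d + 1 := by
  classical
  have hd1 : (0 : ℝ) < (d : ℝ) + 1 := by positivity
  have hne : ∀ i ∈ S, o ≠ i := fun i hi h => ho (h ▸ hi)
  obtain ⟨h1, -⟩ := RR_bounds hd hx S o (fun _ => 1) (fun _ => by norm_num)
  have h2 := sum_pairs' S (RR x o fun _ => 1) (-δ / ((d : ℝ) + 1))
    (fun i _ => RR_diag hx o _ (fun _ => by norm_num) i)
    (fun j hj i hi hij => by
      rw [RR_off hx (hne i hi) (hne j hj)]
      exact (div_le_div_iff_of_pos_right hd1).2 (h j hj i hi hij))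
  have h3 := h1.trans h2
  have hc : (0 : ℝ) < S.card := by exact_mod_cast Finset.card_pos.2 hS
  have e1 : (S.card : ℝ) + S.card * ((S.card : ℝ) - 1) * (-δ / ((d : ℝ) + 1)) =
      S.card * ((d : ℝ) + 1 - ((S.card : ℝ) - 1) * δ) / (d + 1) := by
    field_simp
    ring
  rw [e1] at h3
  have h4 : 0 ≤ (S.card : ℝ) * ((d : ℝ) + 1 - ((S.card : ℝ) - 1) * δ) := by
    by_contra hcon
    push Not at hcon
    have := div_neg_of_neg_of_pos hcon hd1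
    linarith
  have h5 : 0 ≤ (d : ℝ) + 1 - ((S.card : ℝ) - 1) * δ := by
    by_contra hcon
    push Not at hcon
    have := mul_neg_of_pos_of_neg hc hcon
    linarith
  linarith

/-! ### counting for a pair of lines -/

lemma sum_tp_sq (hd : 0 < d) (hx : IsETF d x) {i j : Fin (d ^ 2)} (hij : i ≠ j) :
    ∑ k ∈ (Finset.univ.erase i).erase j, ((tp x i j k) ^ 2).re = -2 / ((d : ℝ) + 1) ^ 3 := by
  have hd1 : ((d : ℝ) + 1) ≠ 0 := by positivity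
  have h1 := Pool.Agent.H103R3.FrameCrit.sic_design hd (by simp) x hx.nrm hx.ang
    (x j) (x i) (x j) (x i)
  have hprod : ⟪x i, x j⟫_ℂ * ⟪x j, x i⟫_ℂ = ((1 / ((d : ℝ) + 1) : ℝ) : ℂ) := by
    rw [← inner_conj_symm (x j) (x i), RCLike.mul_conj, ← ang_sq hx hij]
    push_cast
    rfl
  have h2 : ∑ k, (tp x i j k) ^ 2 = ((2 * d / ((d : ℝ) + 1) ^ 3 : ℝ) : ℂ) := by
    have e : ∀ k, (tp x i j k) ^ 2 = ⟪x i, x j⟫_ℂ ^ 2 *
        ((⟪x j, x k⟫_ℂ * ⟪x k, x i⟫_ℂ) * (⟪x j, x k⟫_ℂ * ⟪x k, x i⟫_ℂ)) := by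
      intro k
      unfold tp
      ring
    rw [Finset.sum_congr rfl fun k _ => e k, ← Finset.mul_sum, h1]
    have e2 : ⟪x i, x j⟫_ℂ ^ 2 * ((d : ℂ) / (d + 1) *
        (⟪x j, x i⟫_ℂ * ⟪x j, x i⟫_ℂ + ⟪x j, x i⟫_ℂ * ⟪x j, x i⟫_ℂ)) =
        2 * ((d : ℂ) / (d + 1)) * (⟪x i, x j⟫_ℂ * ⟪x j, x i⟫_ℂ) ^ 2 := by ring
    rw [e2, hprod]
    push_cast
    have : (d : ℂ) + 1 ≠ 0 := by exact_mod_cast Nat.succ_ne_zero d
    field_simp
  have hi : ((tp x i j i) ^ 2).re = 1 / ((d : ℝ) + 1) ^ 2 := by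
    have : tp x i j i = ((1 / ((d : ℝ) + 1) : ℝ) : ℂ) := by
      unfold tp
      rw [hprod, self_one hx, mul_one]
    rw [this, ← Complex.ofReal_pow, Complex.ofReal_re, div_pow, one_pow]
  have hj : ((tp x i j j) ^ 2).re = 1 / ((d : ℝ) + 1) ^ 2 := by
    have : tp x i j j = ((1 / ((d : ℝ) + 1) : ℝ) : ℂ) := by
      unfold tp
      rw [self_one hx, mul_one, hprod]
    rw [this, ← Complex.ofReal_pow, Complex.ofReal_re, div_pow, one_pow]
  have h3 := congrArg Complex.re h2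
  rw [Complex.re_sum, Complex.ofReal_re, ← Finset.add_sum_erase _ _ (Finset.mem_univ i), hi,
    ← Finset.add_sum_erase _ _ (Finset.mem_erase.2 ⟨hij.symm, Finset.mem_univ j⟩), hj] at h3
  have h4 : ∑ k ∈ (Finset.univ.erase i).erase j, ((tp x i j k) ^ 2).re =
      2 * d / ((d : ℝ) + 1) ^ 3 - 2 * (1 / ((d : ℝ) + 1) ^ 2) := by linarith
  rw [h4]
  field_simp
  ring

lemma norm_tp_sq (hx : IsETF d x) {i j k : Fin (d ^ 2)} (hij : i ≠ j) (hjk : j ≠ k)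
    (hik : i ≠ k) : ‖tp x i j k‖ ^ 2 = 1 / ((d : ℝ) + 1) ^ 3 := by
  rw [norm_tp, ang_sq hx hij, ang_sq hx hjk, ang_sq hx hik]
  field_simp

lemma card_T {i j : Fin (d ^ 2)} (hij : i ≠ j) :
    ((((Finset.univ : Finset (Fin (d ^ 2))).erase i).erase j).card : ℝ) = (d : ℝ) ^ 2 - 2 := by
  have h1 := Finset.card_erase_add_one (Finset.mem_univ i)
  have h2 := Finset.card_erase_add_one (Finset.mem_erase.2 ⟨hij.symm, Finset.mem_univ j⟩)
  rw [Finset.card_univ, Fintype.card_fin] at h1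
  have h3 : (((Finset.univ : Finset (Fin (d ^ 2))).erase i).erase j).card + 2 = d ^ 2 := by omega
  have h4 : ((((Finset.univ : Finset (Fin (d ^ 2))).erase i).erase j).card : ℝ) + 2 = d ^ 2 := by
    exact_mod_cast h3
  linarith

lemma re_sq_ge (z : ℂ) : -‖z‖ ^ 2 ≤ (z ^ 2).re := by
  rw [Complex.sq_norm, Complex.normSq_apply, sq, Complex.mul_re]
  nlinarith [mul_self_nonneg z.re]

lemma re_sq_le (z : ℂ) : (z ^ 2).re ≤ ‖z‖ ^ 2 := by
  rw [Complex.sq_norm, Complex.normSq_apply, sq, Complex.mul_re]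
  nlinarith [mul_self_nonneg z.im]

theorem real_count (hd : 0 < d) (hx : IsETF d x) {i j : Fin (d ^ 2)} (hij : i ≠ j)
    (R : Finset (Fin (d ^ 2))) (hR : ∀ k ∈ R, k ≠ i ∧ k ≠ j ∧ (tp x i j k).im = 0) :
    2 * R.card + 4 ≤ d ^ 2 := by
  classical
  have hsub : R ⊆ (Finset.univ.erase i).erase j := by
    intro k hk
    obtain ⟨h1, h2, -⟩ := hR k hk
    simp [h1, h2]
  have hd1 : (0 : ℝ) < ((d : ℝ) + 1) ^ 3 := by positivity
  have h1 := sum_tp_sq hd hx hij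
  rw [← Finset.sum_sdiff hsub] at h1
  have h2 : ∑ k ∈ R, ((tp x i j k) ^ 2).re = R.card * (1 / ((d : ℝ) + 1) ^ 3) := by
    rw [← nsmul_eq_mul]
    refine Finset.sum_eq_card_nsmul fun k hk => ?_
    obtain ⟨h1, h2, h3⟩ := hR k hk
    rw [← norm_tp_sq hx hij h2.symm h1.symm, Complex.sq_norm, Complex.normSq_apply, sq,
      Complex.mul_re, h3]
    ring
  have h3 : -(((d : ℝ) ^ 2 - 2 - R.card) * (1 / ((d : ℝ) + 1) ^ 3)) ≤
      ∑ k ∈ ((Finset.univ.erase i).erase j) \ R, ((tp x i j k) ^ 2).re := by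
    have h4 : ∑ k ∈ ((Finset.univ.erase i).erase j) \ R, -(1 / ((d : ℝ) + 1) ^ 3) ≤
        ∑ k ∈ ((Finset.univ.erase i).erase j) \ R, ((tp x i j k) ^ 2).re := by
      refine Finset.sum_le_sum fun k hk => ?_
      simp only [Finset.mem_sdiff, Finset.mem_erase, Finset.mem_univ, and_true] at hk
      rw [← norm_tp_sq hx hij (Ne.symm hk.1.1) (Ne.symm hk.1.2)]
      exact re_sq_ge _
    rw [Finset.sum_const, Finset.card_sdiff_of_subset hsub, nsmul_eq_mul,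
      Nat.cast_sub (Finset.card_le_card hsub), card_T hij] at h4
    linarith
  rw [h2] at h1
  have h5 : -(((d : ℝ) ^ 2 - 2 - R.card) * (1 / ((d : ℝ) + 1) ^ 3)) +
      R.card * (1 / ((d : ℝ) + 1) ^ 3) ≤ -2 / ((d : ℝ) + 1) ^ 3 := by linarith
  have h6 : (2 * (R.card : ℝ) - d ^ 2 + 2) / ((d : ℝ) + 1) ^ 3 ≤ -2 / ((d : ℝ) + 1) ^ 3 := by
    refine le_trans (le_of_eq ?_) h5
    ring
  have h7 := (div_le_div_iff_of_pos_right hd1).1 h6
  have h8 : ((2 * R.card + 4 : ℕ) : ℝ) ≤ ((d ^ 2 : ℕ) : ℝ) := by push_cast; linarith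
  exact_mod_cast h8

theorem imag_count (hd : 0 < d) (hx : IsETF d x) {i j : Fin (d ^ 2)} (hij : i ≠ j)
    (R : Finset (Fin (d ^ 2))) (hR : ∀ k ∈ R, k ≠ i ∧ k ≠ j ∧ (tp x i j k).re = 0) :
    2 * R.card ≤ d ^ 2 := by
  classical
  have hsub : R ⊆ (Finset.univ.erase i).erase j := by
    intro k hk
    obtain ⟨h1, h2, -⟩ := hR k hk
    simp [h1, h2]
  have hd1 : (0 : ℝ) < ((d : ℝ) + 1) ^ 3 := by positivity
  have h1 := sum_tp_sq hd hx hij
  rw [← Finset.sum_sdiff hsub] at h1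
  have h2 : ∑ k ∈ R, ((tp x i j k) ^ 2).re = R.card * (-(1 / ((d : ℝ) + 1) ^ 3)) := by
    rw [← nsmul_eq_mul]
    refine Finset.sum_eq_card_nsmul fun k hk => ?_
    obtain ⟨h1, h2, h3⟩ := hR k hk
    rw [← norm_tp_sq hx hij h2.symm h1.symm, Complex.sq_norm, Complex.normSq_apply, sq,
      Complex.mul_re, h3]
    ring
  have h3 : ∑ k ∈ ((Finset.univ.erase i).erase j) \ R, ((tp x i j k) ^ 2).re ≤
      ((d : ℝ) ^ 2 - 2 - R.card) * (1 / ((d : ℝ) + 1) ^ 3) := by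
    have h4 : ∑ k ∈ ((Finset.univ.erase i).erase j) \ R, ((tp x i j k) ^ 2).re ≤
        ∑ k ∈ ((Finset.univ.erase i).erase j) \ R, (1 / ((d : ℝ) + 1) ^ 3) := by
      refine Finset.sum_le_sum fun k hk => ?_
      simp only [Finset.mem_sdiff, Finset.mem_erase, Finset.mem_univ, and_true] at hk
      rw [← norm_tp_sq hx hij (Ne.symm hk.1.1) (Ne.symm hk.1.2)]
      exact re_sq_le _
    rw [Finset.sum_const, Finset.card_sdiff_of_subset hsub, nsmul_eq_mul,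
      Nat.cast_sub (Finset.card_le_card hsub), card_T hij] at h4
    linarith
  rw [h2] at h1
  have h5 : -2 / ((d : ℝ) + 1) ^ 3 ≤ ((d : ℝ) ^ 2 - 2 - R.card) * (1 / ((d : ℝ) + 1) ^ 3) +
      R.card * (-(1 / ((d : ℝ) + 1) ^ 3)) := by linarith
  have h6 : -2 / ((d : ℝ) + 1) ^ 3 ≤ ((d : ℝ) ^ 2 - 2 - 2 * R.card) / ((d : ℝ) + 1) ^ 3 := by
    refine h5.trans (le_of_eq ?_)
    ring
  have h7 := (div_le_div_iff_of_pos_right hd1).1 h6
  have h8 : ((2 * R.card : ℕ) : ℝ) ≤ ((d ^ 2 : ℕ) : ℝ) := by push_cast; linarith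
  exact_mod_cast h8

/-- lines fixed by an antiunitary map -/
theorem anti_bound (hd : 0 < d) (hx : IsETF d x)
    (A : EuclideanSpace ℂ (Fin d) → EuclideanSpace ℂ (Fin d))
    (hA : ∀ u v, ⟪A u, A v⟫_ℂ = ⟪v, u⟫_ℂ) (S : Finset (Fin (d ^ 2)))
    (hS : ∀ i ∈ S, ∃ c : ℂ, A (x i) = c • x i) : S.card ≤ d := by
  apply real_bound hd hx S
  have key : ∀ i ∈ S, ∀ c : ℂ, A (x i) = c • x i → conj c * c = 1 := by
    intro i _ c hc
    have h1 := hA (x i) (x i)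
    rw [hc, inner_smul_left, inner_smul_right, self_one hx] at h1
    linear_combination h1
  intro i hi j hj k hk
  obtain ⟨a, ha⟩ := hS i hi
  obtain ⟨b, hb⟩ := hS j hj
  obtain ⟨c, hc⟩ := hS k hk
  have h1 : ⟪x j, x i⟫_ℂ = conj a * b * ⟪x i, x j⟫_ℂ := by
    rw [← hA (x i) (x j), ha, hb, inner_smul_left, inner_smul_right]
    ring
  have h2 : ⟪x k, x j⟫_ℂ = conj b * c * ⟪x j, x k⟫_ℂ := by
    rw [← hA (x j) (x k), hb, hc, inner_smul_left, inner_smul_right]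
    ring
  have h3 : ⟪x i, x k⟫_ℂ = conj c * a * ⟪x k, x i⟫_ℂ := by
    rw [← hA (x k) (x i), hc, ha, inner_smul_left, inner_smul_right]
    ring
  have h4 : conj (tp x i j k) = tp x i j k := by
    unfold tp
    rw [map_mul, map_mul, inner_conj_symm, inner_conj_symm, inner_conj_symm, h1, h2, h3]
    linear_combination (⟪x i, x j⟫_ℂ * ⟪x j, x k⟫_ℂ * ⟪x k, x i⟫_ℂ) * (conj b * b) *
        (conj c * c) * (key i hi a ha) + (⟪x i, x j⟫_ℂ * ⟪x j, x k⟫_ℂ * ⟪x k, x i⟫_ℂ) * (conj c * c) *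
        (key j hj b hb) + (⟪x i, x j⟫_ℂ * ⟪x j, x k⟫_ℂ * ⟪x k, x i⟫_ℂ) * (key k hk c hc)
  exact Complex.conj_eq_iff_im.1 h4

/-- in `ℂ²` all triple products of distinct indices are purely imaginary -/
theorem two_imag {x : Fin (2 ^ 2) → EuclideanSpace ℂ (Fin 2)} (hx : IsETF 2 x)
    {i j k : Fin (2 ^ 2)} (hij : i ≠ j) (hjk : j ≠ k) (hki : k ≠ i) : (tp x i j k).re = 0 := by
  have h1 := sum_tp_sq (by norm_num) hx hij
  have hk : k ∈ (Finset.univ.erase i).erase j := by simp [hjk.symm, hki]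
  rw [← Finset.add_sum_erase _ _ hk] at h1
  have h2 : ∑ l ∈ ((Finset.univ.erase i).erase j).erase k, -(1 / (((2 : ℕ) : ℝ) + 1) ^ 3) ≤
      ∑ l ∈ ((Finset.univ.erase i).erase j).erase k, ((tp x i j l) ^ 2).re := by
    refine Finset.sum_le_sum fun l hl => ?_
    simp only [Finset.mem_erase, Finset.mem_univ, and_true] at hl
    rw [← norm_tp_sq hx hij (Ne.symm hl.2.1) (Ne.symm hl.2.2)]
    exact re_sq_ge _
  have h3 : ((((Finset.univ : Finset (Fin (2 ^ 2))).erase i).erase j).erase k).card = 1 := by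
    rw [Finset.card_erase_of_mem hk, Finset.card_erase_of_mem (by simp [hij.symm]),
      Finset.card_erase_of_mem (Finset.mem_univ _)]
    simp
  rw [Finset.sum_const, h3, one_smul] at h2
  have h4 := norm_tp_sq hx hij hjk hki.symm
  rw [Complex.sq_norm, Complex.normSq_apply] at h4
  have h5 : ((tp x i j k) ^ 2).re = (tp x i j k).re * (tp x i j k).re -
      (tp x i j k).im * (tp x i j k).im := by rw [sq, Complex.mul_re]
  rw [h5] at h1
  have h6 : (tp x i j k).re * (tp x i j k).re ≤ 0 := by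
    push_cast at h1 h2 h4
    norm_num at h1 h2 h4
    linarith
  exact mul_self_eq_zero.1 (le_antisymm h6 (mul_self_nonneg _))

end Pool.Agent.X159.SicReal
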