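import Pool.Agent.X159.SicSupp
import Pool.Agent.H103R3.FrameCrit

set_option autoImplicit false

/-! Combinations of few projections of a maximal equiangular tight frame: application. -/

namespace Pool.Agent.X159.SicSupp

open Matrix
open scoped InnerProductSpace ComplexConjugate

variable {d : ℕ}

/-- `∑ b_i x_i x_i^*` -/
noncomputable def combo {N : ℕ} (x : Fin N → EuclideanSpace ℂ (Fin d)) (b : Fin N → ℂ) :
    Matrix (Fin d) (Fin d) ℂ :=
  ∑ i, b i • Matrix.vecMulVec (x i) (star (x i).ofLp)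

/-- the number of nonzero coefficients -/
noncomputable def nnz {N : ℕ} (b : Fin N → ℂ) : ℕ := by
  classical
  exact (Finset.univ.filter fun i => b i ≠ 0).card

/-- the matrix of the vectors with nonzero coefficients -/
noncomputable def AA {N : ℕ} (x : Fin N → EuclideanSpace ℂ (Fin d)) (b : Fin N → ℂ) :
    Matrix (Fin d) {i // b i ≠ 0} ℂ := fun a i => x i a

lemma combo_eq {N : ℕ} (x : Fin N → EuclideanSpace ℂ (Fin d)) (b : Fin N → ℂ)
    [Fintype {i // b i ≠ 0}] [DecidableEq {i // b i ≠ 0}] :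
    combo x b = AA x b * diagonal (fun i : {i // b i ≠ 0} => b i) * (AA x b)ᴴ := by
  classical
  ext a a'
  rw [combo, Matrix.sum_apply, Matrix.mul_apply]
  simp only [Matrix.smul_apply, Matrix.vecMulVec_apply, Matrix.mul_diagonal,
    Matrix.conjTranspose_apply, AA, smul_eq_mul, Pi.star_apply]
  have h1 : ∀ f : Fin N → ℂ, (∀ i, b i = 0 → f i = 0) →
      ∑ i, f i = ∑ i : {i // b i ≠ 0}, f i := by
    intro f hf
    rw [← Finset.sum_subtype (Finset.univ.filter fun i => b i ≠ 0) (by simp), Finset.sum_filter]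
    refine Finset.sum_congr rfl fun i _ => ?_
    split_ifs with h
    · rfl
    · exact hf i (not_not.1 h)
  rw [h1 _ (fun i hi => by rw [hi, zero_mul])]
  refine Finset.sum_congr rfl fun i _ => ?_
  ring

lemma gram_AA {N : ℕ} (x : Fin N → EuclideanSpace ℂ (Fin d)) (b : Fin N → ℂ)
    (i j : {i // b i ≠ 0}) : ((AA x b)ᴴ * AA x b) i j = ⟪x i, x j⟫_ℂ := by
  rw [Matrix.mul_apply, Pool.Agent.H103R3.inner_eq_sum]
  rfl

lemma sicGram {N : ℕ} (x : Fin N → EuclideanSpace ℂ (Fin d)) (b : Fin N → ℂ)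
    (h1 : ∀ i, ‖x i‖ = 1)
    (h2 : ∀ i j, i ≠ j → ‖⟪x i, x j⟫_ℂ‖ = 1 / Real.sqrt ((d : ℝ) + 1)) :
    SicGram d ((AA x b)ᴴ * AA x b) := by
  refine ⟨fun i => ?_, fun i j hij => ?_⟩
  · rw [gram_AA, inner_self_eq_norm_sq_to_K, h1]
    simp
  · rw [gram_AA, gram_AA, Pool.Agent.H103R3.inner_mul_inner_of (h2 i j fun h => hij (Subtype.ext h))]
    push_cast
    rfl

/-- the minimal number of changed lines -/
def gap (d : ℕ) : ℕ := if d = 3 then 3 else if Even d then d + 1 else d + 2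

/-- The rank inequality. -/
theorem rank_le {N : ℕ} (x : Fin N → EuclideanSpace ℂ (Fin d)) (b : Fin N → ℂ)
    (h1 : ∀ i, ‖x i‖ = 1)
    (h2 : ∀ i j, i ≠ j → ‖⟪x i, x j⟫_ℂ‖ = 1 / Real.sqrt ((d : ℝ) + 1)) :
    ∃ k, nnz b * (d + 1) ≤ k * (d + nnz b) ∧ 2 * k ≤ (combo x b).rank + nnz b := by
  classical
  have hn : nnz b = Fintype.card {i // b i ≠ 0} := by
    rw [Fintype.card_subtype]
    unfold nnz
    congr
  refine ⟨((AA x b)ᴴ * AA x b).rank, ?_, ?_⟩
  · rw [hn]
    exact relative (Matrix.isHermitian_conjTranspose_mul_self _) (sicGram x b h1 h2)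
  · rw [hn, combo_eq]
    exact rank_ineq (AA x b) _ (fun i => i.2)

theorem rank_bound {N : ℕ} (x : Fin N → EuclideanSpace ℂ (Fin d)) (b : Fin N → ℂ)
    (h1 : ∀ i, ‖x i‖ = 1)
    (h2 : ∀ i j, i ≠ j → ‖⟪x i, x j⟫_ℂ‖ = 1 / Real.sqrt ((d : ℝ) + 1)) :
    nnz b * (d + 2) ≤ nnz b * nnz b + (combo x b).rank * (nnz b + d) := by
  obtain ⟨k, hk1, hk2⟩ := rank_le x b h1 h2
  have h3 := Nat.mul_le_mul_right (d + nnz b) hk2
  nlinarith

theorem rank_one {N : ℕ} (hd : 2 ≤ d) (x : Fin N → EuclideanSpace ℂ (Fin d)) (b : Fin N → ℂ)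
    (h1 : ∀ i, ‖x i‖ = 1)
    (h2 : ∀ i j, i ≠ j → ‖⟪x i, x j⟫_ℂ‖ = 1 / Real.sqrt ((d : ℝ) + 1))
    (hr : (combo x b).rank = 1) : nnz b = 1 ∨ gap d ≤ nnz b := by
  classical
  obtain ⟨k, hk1, hk2⟩ := rank_le x b h1 h2
  rw [hr] at hk2
  have hs0 : nnz b ≠ 0 := by
    intro h0
    have h3 : ∀ i, b i = 0 := by
      intro i
      by_contra hi
      unfold nnz at h0
      rw [Finset.card_eq_zero, Finset.filter_eq_empty_iff] at h0
      exact h0 (Finset.mem_univ i) hi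
    have h4 : combo x b = 0 := by
      unfold combo
      exact Finset.sum_eq_zero fun i _ => by rw [h3 i, zero_smul]
    rw [h4, Matrix.rank_zero] at hr
    exact zero_ne_one hr
  rcases Nat.lt_or_ge (nnz b) 2 with hlt | hge
  · left; omega
  right
  have hsd : d ≤ nnz b := by
    by_contra hlt
    push Not at hlt
    nlinarith
  have h3 : nnz b = d → d = 3 := by
    intro hsd
    refine equality_case (AA x b) (fun i => b i) hd (sicGram x b h1 h2) (fun i => i.2) ?_ ?_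
    · rw [← combo_eq]
      exact hr
    · rw [Fintype.card_subtype, ← hsd]
      unfold nnz
      congr
  have h4 : nnz b = d + 1 → Even d := by
    intro hsd
    by_contra hodd
    rw [Nat.not_even_iff_odd] at hodd
    obtain ⟨e, he⟩ := hodd
    rw [hsd, he] at hk1 hk2
    have : k ≤ e + 1 := by omega
    nlinarith
  unfold gap
  split_ifs with h5 h6
  · omega
  · by_contra hlt
    exact h5 (h3 (by omega))
  · by_contra hlt
    rcases Nat.lt_or_ge (nnz b) (d + 1) with h7 | h7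
    · exact h5 (h3 (by omega))
    · exact h6 (h4 (by omega))

/-- the coefficients of `u v^*` -/
noncomputable def coef {N : ℕ} (x : Fin N → EuclideanSpace ℂ (Fin d))
    (u v : EuclideanSpace ℂ (Fin d)) (i : Fin N) : ℂ :=
  (((d : ℂ) + 1) * (⟪x i, u⟫_ℂ * ⟪v, x i⟫_ℂ) - ⟪v, u⟫_ℂ) / d

theorem combo_coef (hd : 0 < d) (x : Fin (d ^ 2) → EuclideanSpace ℂ (Fin d))
    (h1 : ∀ i, ‖x i‖ = 1)
    (h2 : ∀ i j, i ≠ j → ‖⟪x i, x j⟫_ℂ‖ = 1 / Real.sqrt ((d : ℝ) + 1))
    (u v : EuclideanSpace ℂ (Fin d)) :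
    combo x (coef x u v) = Matrix.vecMulVec u (star v.ofLp) := by
  have hd0 : (d : ℂ) ≠ 0 := by exact_mod_cast hd.ne'
  have hd1 : (d : ℂ) + 1 ≠ 0 := by exact_mod_cast Nat.succ_ne_zero d
  ext a a'
  have hA := Pool.Agent.H103R3.FrameCrit.sic_design hd (by simp) x h1 h2
    (EuclideanSpace.single a 1) (EuclideanSpace.single a' 1) v u
  have hB := Pool.Agent.H103R3.FrameCrit.sic_frame hd (by simp) x h1 h2
    (EuclideanSpace.single a 1) (EuclideanSpace.single a' 1)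
  have e1 : ∀ w : EuclideanSpace ℂ (Fin d), ⟪EuclideanSpace.single a (1 : ℂ), w⟫_ℂ = w a := by
    intro w
    simp [EuclideanSpace.inner_single_left]
  have e2 : ∀ w : EuclideanSpace ℂ (Fin d),
      ⟪w, EuclideanSpace.single a' (1 : ℂ)⟫_ℂ = conj (w a') := by
    intro w
    simp [EuclideanSpace.inner_single_right]
  simp only [e1, e2] at hA hB
  rw [combo, Matrix.sum_apply, Matrix.vecMulVec_apply]
  simp only [Matrix.smul_apply, Matrix.vecMulVec_apply, smul_eq_mul, Pi.star_apply, coef]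
  have e3 : ∀ i, (((d : ℂ) + 1) * (⟪x i, u⟫_ℂ * ⟪v, x i⟫_ℂ) - ⟪v, u⟫_ℂ) / d *
      (x i a * star (x i a')) =
      ((d : ℂ) + 1) / d * ((x i a * conj (x i a')) * (⟪v, x i⟫_ℂ * ⟪x i, u⟫_ℂ)) -
        ⟪v, u⟫_ℂ / d * (x i a * conj (x i a')) := by
    intro i
    change _ * (x i a * conj (x i a')) = _
    ring
  rw [Finset.sum_congr rfl fun i _ => e3 i, Finset.sum_sub_distrib, ← Finset.mul_sum,
    ← Finset.mul_sum, hA, hB]
  change _ = u a * conj (v a')
  field_simp
  ring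

theorem rank_one_of {u v : EuclideanSpace ℂ (Fin d)} (hu : u ≠ 0) (hv : v ≠ 0) :
    (Matrix.vecMulVec u (star v.ofLp) : Matrix (Fin d) (Fin d) ℂ).rank = 1 := by
  apply le_antisymm (Matrix.rank_vecMulVec_le _ _)
  rw [Nat.one_le_iff_ne_zero]
  intro h0
  have h1 : (Matrix.vecMulVec u (star v.ofLp) : Matrix (Fin d) (Fin d) ℂ) = 0 := by
    by_contra hne
    rw [Matrix.rank, Module.finrank_eq_zero_iff_of_free] at h0
    apply hne
    ext i j
    have h2 : (Matrix.vecMulVec u (star v.ofLp) : Matrix (Fin d) (Fin d) ℂ).mulVecLin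
        (Pi.single j 1) ∈ LinearMap.range
          (Matrix.vecMulVec u (star v.ofLp) : Matrix (Fin d) (Fin d) ℂ).mulVecLin := ⟨_, rfl⟩
    have h3 := congrArg Subtype.val (Subsingleton.elim
      (⟨_, h2⟩ : LinearMap.range
          (Matrix.vecMulVec u (star v.ofLp) : Matrix (Fin d) (Fin d) ℂ).mulVecLin) 0)
    have h4 := congrFun h3 i
    simpa using h4
  have hu' : ∃ a, u a ≠ 0 := by
    by_contra hcon
    push Not at hcon
    exact hu (by ext a; exact hcon a)
  have hv' : ∃ a, v a ≠ 0 := by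
    by_contra hcon
    push Not at hcon
    exact hv (by ext a; exact hcon a)
  obtain ⟨a, ha⟩ := hu'
  obtain ⟨a', ha'⟩ := hv'
  have h2 := congrFun (congrFun h1 a) a'
  rw [Matrix.vecMulVec_apply] at h2
  rcases mul_eq_zero.1 h2 with h | h
  · exact ha h
  · exact ha' (star_eq_zero.1 h)

/-- `u v^*` is not a combination of few projections -/
theorem dichotomy_uv (hd : 2 ≤ d) (x : Fin (d ^ 2) → EuclideanSpace ℂ (Fin d))
    (h1 : ∀ i, ‖x i‖ = 1)
    (h2 : ∀ i j, i ≠ j → ‖⟪x i, x j⟫_ℂ‖ = 1 / Real.sqrt ((d : ℝ) + 1))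
    (u v : EuclideanSpace ℂ (Fin d)) (hu : u ≠ 0) (hv : v ≠ 0) :
    nnz (coef x u v) = 1 ∨ gap d ≤ nnz (coef x u v) := by
  apply rank_one hd x _ h1 h2
  rw [combo_coef (by omega) x h1 h2]
  exact rank_one_of hu hv

theorem of_nnz_one (hd : 0 < d) (x : Fin (d ^ 2) → EuclideanSpace ℂ (Fin d))
    (h1 : ∀ i, ‖x i‖ = 1)
    (h2 : ∀ i j, i ≠ j → ‖⟪x i, x j⟫_ℂ‖ = 1 / Real.sqrt ((d : ℝ) + 1))
    (y : EuclideanSpace ℂ (Fin d)) (hy : ‖y‖ = 1) (h : nnz (coef x y y) = 1) :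
    ∃ i, ∃ c : ℂ, y = c • x i := by
  classical
  unfold nnz at h
  obtain ⟨i, hi⟩ := Finset.card_eq_one.1 h
  have h3 := combo_coef hd x h1 h2 y y
  have h4 : combo x (coef x y y) = coef x y y i • Matrix.vecMulVec (x i) (star (x i).ofLp) := by
    unfold combo
    rw [Finset.sum_eq_single i]
    · intro j _ hj
      have : coef x y y j = 0 := by
        by_contra hne
        have : j ∈ Finset.univ.filter (fun i => coef x y y i ≠ 0) := by simp [hne]
        rw [hi, Finset.mem_singleton] at this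
        exact hj this
      rw [this, zero_smul]
    · intro hh
      exact absurd (Finset.mem_univ _) hh
  rw [h3] at h4
  have hy' : ∃ a, y a ≠ 0 := by
    by_contra hcon
    push Not at hcon
    have : y = 0 := by ext a; exact hcon a
    rw [this, norm_zero] at hy
    exact zero_ne_one hy
  obtain ⟨a, ha⟩ := hy'
  refine ⟨i, coef x y y i * star (x i a) / star (y a), ?_⟩
  ext a'
  have h5 := congrFun (congrFun h4 a') a
  rw [Matrix.smul_apply, Matrix.vecMulVec_apply, Matrix.vecMulVec_apply] at h5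
  simp only [Pi.star_apply, smul_eq_mul] at h5
  have ha' : star (y a) ≠ 0 := star_ne_zero.2 ha
  simp only [PiLp.smul_apply, smul_eq_mul]
  field_simp
  rw [h5]
  ring

/-- the number of vectors of `x` at the angle of a maximal ETF with `y` -/
noncomputable def atAngle {N : ℕ} (x : Fin N → EuclideanSpace ℂ (Fin d))
    (y : EuclideanSpace ℂ (Fin d)) : ℕ := by
  classical
  exact (Finset.univ.filter fun i => ‖⟪x i, y⟫_ℂ‖ = 1 / Real.sqrt ((d : ℝ) + 1)).card

lemma coef_eq_zero_iff (hd : 0 < d) {N : ℕ} (x : Fin N → EuclideanSpace ℂ (Fin d))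
    (y : EuclideanSpace ℂ (Fin d)) (hy : ‖y‖ = 1) (i : Fin N) :
    coef x y y i = 0 ↔ ‖⟪x i, y⟫_ℂ‖ = 1 / Real.sqrt ((d : ℝ) + 1) := by
  have hd0 : (d : ℂ) ≠ 0 := by exact_mod_cast hd.ne'
  have hd1 : (0 : ℝ) < (d : ℝ) + 1 := by positivity
  unfold coef
  rw [div_eq_zero_iff, or_iff_left hd0, ← inner_conj_symm y (x i), RCLike.mul_conj,
    inner_self_eq_norm_sq_to_K, hy, sub_eq_zero]
  constructor
  · intro h
    have h' : ((d : ℝ) + 1) * ‖⟪x i, y⟫_ℂ‖ ^ 2 = 1 := by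
      have h3 : ((((d : ℝ) + 1) * ‖⟪x i, y⟫_ℂ‖ ^ 2 : ℝ) : ℂ) = ((1 : ℝ) : ℂ) := by
        push_cast
        simpa using h
      exact Complex.ofReal_injective h3
    have h4 : ‖⟪x i, y⟫_ℂ‖ ^ 2 = (1 / Real.sqrt ((d : ℝ) + 1)) ^ 2 := by
      rw [div_pow, Real.sq_sqrt hd1.le, one_pow]
      field_simp
      linarith
    exact (pow_left_inj₀ (norm_nonneg _) (by positivity) two_ne_zero).1 h4
  · intro h
    rw [h]
    have h3 : ((d : ℝ) + 1) * (1 / Real.sqrt ((d : ℝ) + 1)) ^ 2 = 1 := by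
      rw [div_pow, Real.sq_sqrt hd1.le, one_pow]
      field_simp
    have h4 : ((((d : ℝ) + 1) * (1 / Real.sqrt ((d : ℝ) + 1)) ^ 2 : ℝ) : ℂ) = ((1 : ℝ) : ℂ) := by
      rw [h3]
    push_cast at h4
    simpa using h4

theorem atAngle_bound (hd : 2 ≤ d) (x : Fin (d ^ 2) → EuclideanSpace ℂ (Fin d))
    (h1 : ∀ i, ‖x i‖ = 1)
    (h2 : ∀ i j, i ≠ j → ‖⟪x i, x j⟫_ℂ‖ = 1 / Real.sqrt ((d : ℝ) + 1))
    (y : EuclideanSpace ℂ (Fin d)) (hy : ‖y‖ = 1) :
    (∃ i, ∃ c : ℂ, y = c • x i) ∨ atAngle x y + gap d ≤ d ^ 2 := by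
  classical
  have hy0 : y ≠ 0 := by
    intro h
    rw [h, norm_zero] at hy
    exact zero_ne_one hy
  rcases dichotomy_uv hd x h1 h2 y y hy0 hy0 with h | h
  · left
    exact of_nnz_one (by omega) x h1 h2 y hy h
  · right
    have h3 : nnz (coef x y y) + atAngle x y = d ^ 2 := by
      unfold nnz atAngle
      have h4 := Finset.card_filter_add_card_filter_not (s := (Finset.univ : Finset (Fin (d ^ 2))))
        (fun i => ‖⟪x i, y⟫_ℂ‖ = 1 / Real.sqrt ((d : ℝ) + 1))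
      rw [Finset.card_univ, Fintype.card_fin] at h4
      have h5 : (Finset.univ.filter fun i => coef x y y i ≠ 0) =
          Finset.univ.filter (fun i => ¬ ‖⟪x i, y⟫_ℂ‖ = 1 / Real.sqrt ((d : ℝ) + 1)) := by
        apply Finset.filter_congr
        intro i _
        rw [Ne, coef_eq_zero_iff (by omega) x y hy]
      have h6 := congrArg Finset.card h5
      omega
    omega

/-- the number of lines of `y` which are lines of `x` -/
noncomputable def shared {N : ℕ} (x y : Fin N → EuclideanSpace ℂ (Fin d)) : ℕ := by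
  classical
  exact (Finset.univ.filter fun j => ∃ i, ∃ c : ℂ, y j = c • x i).card

theorem shared_bound (hd : 2 ≤ d) (x y : Fin (d ^ 2) → EuclideanSpace ℂ (Fin d))
    (h1 : ∀ i, ‖x i‖ = 1)
    (h2 : ∀ i j, i ≠ j → ‖⟪x i, x j⟫_ℂ‖ = 1 / Real.sqrt ((d : ℝ) + 1))
    (h1' : ∀ i, ‖y i‖ = 1)
    (h2' : ∀ i j, i ≠ j → ‖⟪y i, y j⟫_ℂ‖ = 1 / Real.sqrt ((d : ℝ) + 1)) :
    shared x y = d ^ 2 ∨ shared x y + gap d ≤ d ^ 2 := by
  classical
  by_cases hall : ∀ j, ∃ i, ∃ c : ℂ, y j = c • x i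
  · left
    unfold shared
    rw [Finset.filter_true_of_mem fun j _ => hall j, Finset.card_univ, Fintype.card_fin]
  right
  push Not at hall
  obtain ⟨j₀, hj₀⟩ := hall
  rcases atAngle_bound hd x h1 h2 (y j₀) (h1' j₀) with ⟨i, c, h⟩ | h
  · exact absurd h (hj₀ i c)
  have hle : shared x y ≤ atAngle x (y j₀) := by
    unfold shared atAngle
    have hch : ∀ j : Fin (d ^ 2), ∃ i : Fin (d ^ 2), (∃ i, ∃ c : ℂ, y j = c • x i) →
        ∃ c : ℂ, y j = c • x i := by
      intro j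
      by_cases hj : ∃ i, ∃ c : ℂ, y j = c • x i
      · obtain ⟨i, c, hc⟩ := hj
        exact ⟨i, fun _ => ⟨c, hc⟩⟩
      · exact ⟨j, fun h => absurd h hj⟩
    choose φ hφ using hch
    have hnorm : ∀ (c : ℂ) i j, y j = c • x i → ‖c‖ = 1 := by
      intro c i j hc
      have := h1' j
      rw [hc, norm_smul, h1, mul_one] at this
      exact this
    refine Finset.card_le_card_of_injOn φ ?_ ?_
    · intro j hj
      simp only [Finset.coe_filter, Finset.mem_univ, true_and, Set.mem_setOf_eq] at hj ⊢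
      obtain ⟨c, hc⟩ := hφ j hj
      have hne : j ≠ j₀ := by
        rintro rfl
        obtain ⟨i, c, hc⟩ := hj
        exact hj₀ i c hc
      have h3 := h2' j j₀ hne
      rw [hc, inner_smul_left, norm_mul, RCLike.norm_conj, hnorm c _ _ hc, one_mul] at h3
      exact h3
    · intro j hj j' hj' hjj
      simp only [Finset.coe_filter, Finset.mem_univ, true_and, Set.mem_setOf_eq] at hj hj'
      obtain ⟨c, hc⟩ := hφ j hj
      obtain ⟨c', hc'⟩ := hφ j' hj'
      by_contra hne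
      have h3 := h2' j j' hne
      rw [hc, hc', ← hjj, inner_smul_left, inner_smul_right, norm_mul, norm_mul,
        RCLike.norm_conj, hnorm c _ _ hc, hnorm c' _ _ hc', inner_self_eq_norm_sq_to_K, h1] at h3
      have h4 : (1 : ℝ) < Real.sqrt ((d : ℝ) + 1) := by
        rw [Real.lt_sqrt (by norm_num)]
        have : (2 : ℝ) ≤ d := by exact_mod_cast hd
        linarith
      have h5 : 1 / Real.sqrt ((d : ℝ) + 1) < 1 := by
        rw [div_lt_one (by linarith)]
        exact h4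
      rw [← h3] at h5
      simp at h5
  omega

end Pool.Agent.X159.SicSupp
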