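import Mathlib

set_option autoImplicit false

/-! Combinations of few projections of a maximal equiangular tight frame: linear algebra. -/

namespace Pool.Agent.X159.SicSupp

open Matrix
open scoped ComplexOrder

section basic

variable {m n p : Type*} [Fintype m] [Fintype n] [Fintype p]

/-- Sylvester's rank inequality -/
lemma sylvester (M : Matrix m n ℂ) (N : Matrix n p ℂ) :
    M.rank + N.rank ≤ (M * N).rank + Fintype.card n := by
  classical
  have h1 := LinearMap.finrank_range_add_finrank_ker
    (M.mulVecLin.domRestrict (LinearMap.range N.mulVecLin))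
  have h2 : LinearMap.range (M.mulVecLin.domRestrict (LinearMap.range N.mulVecLin)) =
      LinearMap.range (M * N).mulVecLin := by
    rw [Matrix.mulVecLin_mul, LinearMap.range_comp, LinearMap.range_domRestrict]
  have h3 : Module.finrank ℂ
      (LinearMap.ker (M.mulVecLin.domRestrict (LinearMap.range N.mulVecLin))) ≤
      Module.finrank ℂ (LinearMap.ker M.mulVecLin) := by
    rw [← Submodule.finrank_map_subtype_eq]
    apply Submodule.finrank_mono
    rintro _ ⟨v, hv, rfl⟩
    simpa using hv
  have h4 := LinearMap.finrank_range_add_finrank_ker M.mulVecLin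
  rw [h2] at h1
  have h5 : Module.finrank ℂ (n → ℂ) = Fintype.card n := Module.finrank_fintype_fun_eq_card ℂ
  have h6 : M.rank = Module.finrank ℂ (LinearMap.range M.mulVecLin) := rfl
  have h7 : N.rank = Module.finrank ℂ (LinearMap.range N.mulVecLin) := rfl
  have h8 : (M * N).rank = Module.finrank ℂ (LinearMap.range (M * N).mulVecLin) := rfl
  omega

variable [DecidableEq n]

lemma trace_mul_self_eq {G : Matrix n n ℂ} (hG : G.IsHermitian) :
    (G * G).trace = ∑ i, ((hG.eigenvalues i : ℂ)) ^ 2 := by
  conv_lhs => rw [hG.spectral_theorem]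
  rw [← map_mul, Unitary.conjStarAlgAut_apply, Matrix.trace_mul_cycle, diagonal_mul_diagonal]
  simp [Matrix.trace, pow_two]

/-- the sum of the squares of the deviations of the nonzero eigenvalues from `t` -/
lemma dev_eq {G : Matrix n n ℂ} (hG : G.IsHermitian) (t : ℝ) :
    ∑ i ∈ Finset.univ.filter (fun i => hG.eigenvalues i ≠ 0), (hG.eigenvalues i - t) ^ 2 =
      (G * G).trace.re - 2 * t * G.trace.re + t ^ 2 * G.rank := by
  have h1 : G.trace.re = ∑ i ∈ Finset.univ.filter (fun i => hG.eigenvalues i ≠ 0),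
      hG.eigenvalues i := by
    rw [hG.trace_eq_sum_eigenvalues, Finset.sum_filter_ne_zero]
    simp
  have h2 : (G * G).trace.re = ∑ i ∈ Finset.univ.filter (fun i => hG.eigenvalues i ≠ 0),
      hG.eigenvalues i ^ 2 := by
    rw [trace_mul_self_eq hG, Finset.sum_filter_of_ne]
    · rw [Complex.re_sum]
      refine Finset.sum_congr rfl fun i _ => ?_
      rw [← Complex.ofReal_pow, Complex.ofReal_re]
    · intro i _ h h0
      rw [h0] at h
      simp at h
  have h3 : (G.rank : ℝ) = ∑ i ∈ Finset.univ.filter (fun i => hG.eigenvalues i ≠ 0), (1 : ℝ) := by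
    rw [hG.rank_eq_card_non_zero_eigs, Fintype.card_subtype]
    simp
  rw [h1, h2, h3, Finset.mul_sum, Finset.mul_sum, ← Finset.sum_sub_distrib,
    ← Finset.sum_add_distrib]
  refine Finset.sum_congr rfl fun i _ => ?_
  ring

lemma tight_of_dev {G : Matrix n n ℂ} (hG : G.IsHermitian) (t : ℝ)
    (h : (G * G).trace.re - 2 * t * G.trace.re + t ^ 2 * G.rank = 0) :
    G * G = (t : ℂ) • G := by
  rw [← dev_eq hG, Finset.sum_eq_zero_iff_of_nonneg (fun i _ => sq_nonneg _)] at h
  have h1 : ∀ i, hG.eigenvalues i * hG.eigenvalues i = t * hG.eigenvalues i := by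
    intro i
    by_cases h0 : hG.eigenvalues i = 0
    · rw [h0]; ring
    · have := h i (Finset.mem_filter.2 ⟨Finset.mem_univ _, h0⟩)
      have h2 : hG.eigenvalues i = t := by
        have := pow_eq_zero_iff (two_ne_zero) |>.1 this
        linarith
      rw [h2]
  have h3 : diagonal (RCLike.ofReal ∘ hG.eigenvalues : n → ℂ) *
      diagonal (RCLike.ofReal ∘ hG.eigenvalues : n → ℂ) =
      (t : ℂ) • diagonal (RCLike.ofReal ∘ hG.eigenvalues : n → ℂ) := by
    rw [diagonal_mul_diagonal, ← diagonal_smul]
    congr 1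
    funext i
    simp only [Function.comp_apply, Pi.smul_apply, smul_eq_mul]
    rw [← RCLike.ofReal_mul, h1 i, RCLike.ofReal_mul]
    rfl
  conv_lhs => rw [hG.spectral_theorem]
  rw [← map_mul, h3, map_smul, ← hG.spectral_theorem]

end basic

section core

variable {m n : Type*} [Fintype m] [Fintype n] [DecidableEq n]

/-- the Gram matrix of vectors at the angle of a maximal equiangular tight frame -/
def SicGram (d : ℕ) (G : Matrix n n ℂ) : Prop :=
  (∀ i, G i i = 1) ∧ ∀ i j, i ≠ j → G i j * G j i = 1 / ((d : ℂ) + 1)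

lemma SicGram.trace {d : ℕ} {G : Matrix n n ℂ} (h : SicGram d G) :
    G.trace.re = Fintype.card n := by
  simp [Matrix.trace, h.1]

lemma SicGram.trace_sq {d : ℕ} {G : Matrix n n ℂ} (h : SicGram d G) :
    (G * G).trace.re = Fintype.card n * ((Fintype.card n : ℝ) + d) / (d + 1) := by
  have h1 : (G * G).trace = ((Fintype.card n * ((Fintype.card n : ℝ) + d) / (d + 1) : ℝ) : ℂ) := by
    have hd : (d : ℂ) + 1 ≠ 0 := by exact_mod_cast Nat.succ_ne_zero d
    have h2 : ∀ i j, G i j * G j i = 1 / ((d : ℂ) + 1) + if i = j then (d : ℂ) / (d + 1) else 0 := by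
      intro i j
      split_ifs with hij
      · subst hij
        rw [h.1]
        field_simp
        ring
      · rw [h.2 i j hij, add_zero]
    simp only [Matrix.trace, Matrix.diag_apply, Matrix.mul_apply, h2, Finset.sum_add_distrib,
      Finset.sum_const, Finset.card_univ, Finset.sum_ite_eq, Finset.mem_univ, if_true,
      nsmul_eq_mul]
    push_cast
    field_simp
  rw [h1, Complex.ofReal_re]

/-- the relative bound -/
lemma relative {d : ℕ} {G : Matrix n n ℂ} (hG : G.IsHermitian) (h : SicGram d G) :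
    Fintype.card n * (d + 1) ≤ G.rank * (d + Fintype.card n) := by
  rcases Nat.eq_zero_or_pos (Fintype.card n) with h0 | h0
  · rw [h0, zero_mul]
    exact Nat.zero_le _
  have h1 := dev_eq hG ((d + Fintype.card n) / (d + 1))
  have h2 : 0 ≤ ∑ i ∈ Finset.univ.filter (fun i => hG.eigenvalues i ≠ 0),
      (hG.eigenvalues i - (d + Fintype.card n) / (d + 1)) ^ 2 :=
    Finset.sum_nonneg fun i _ => sq_nonneg _
  rw [h1, h.trace, h.trace_sq] at h2
  have hd : (0 : ℝ) < d + 1 := by positivity
  have hs : (0 : ℝ) < d + Fintype.card n := by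
    have : (0 : ℝ) < Fintype.card n := by exact_mod_cast h0
    positivity
  have h3 : (Fintype.card n : ℝ) * ((Fintype.card n : ℝ) + d) / (d + 1) -
      2 * ((d + Fintype.card n) / (d + 1)) * Fintype.card n +
      ((d + Fintype.card n) / (d + 1)) ^ 2 * G.rank =
      ((d + Fintype.card n) / (d + 1) ^ 2) *
        (G.rank * (d + Fintype.card n) - Fintype.card n * (d + 1)) := by
    field_simp
    ring
  rw [h3] at h2
  have h4 : 0 ≤ (G.rank : ℝ) * (d + Fintype.card n) - Fintype.card n * (d + 1) := by
    by_contra hcon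
    push Not at hcon
    have : ((d + Fintype.card n) / ((d : ℝ) + 1) ^ 2) *
        (G.rank * (d + Fintype.card n) - Fintype.card n * (d + 1)) < 0 :=
      mul_neg_of_pos_of_neg (by positivity) hcon
    linarith
  have h5 : (Fintype.card n : ℝ) * (d + 1) ≤ (G.rank : ℝ) * (d + Fintype.card n) := by linarith
  exact_mod_cast h5

variable {d : ℕ} (A : Matrix m n ℂ) (c : n → ℂ)

lemma rank_ineq (hc : ∀ i, c i ≠ 0) :
    2 * (Aᴴ * A).rank ≤ (A * diagonal c * Aᴴ).rank + Fintype.card n := by
  have h1 := sylvester A (diagonal c * Aᴴ)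
  have h2 : (diagonal c * Aᴴ).rank = Aᴴ.rank := by
    apply Matrix.rank_mul_eq_right_of_isUnit_det
    rw [Matrix.det_diagonal]
    exact (Finset.prod_ne_zero_iff.2 fun i _ => hc i).isUnit
  rw [h2, Matrix.rank_conjTranspose, ← Matrix.mul_assoc] at h1
  rw [Matrix.rank_conjTranspose_mul_self]
  omega

lemma equality_case (hd : 2 ≤ d) (hA : SicGram d (Aᴴ * A)) (hc : ∀ i, c i ≠ 0)
    (hr : (A * diagonal c * Aᴴ).rank = 1) (hs : Fintype.card n = d) : d = 3 := by
  set G := Aᴴ * A with hGdef
  have hG : G.IsHermitian := Matrix.isHermitian_conjTranspose_mul_self A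
  have h1 := relative hG hA
  have h2 := rank_ineq A c hc
  rw [hr, hs, ← hGdef] at h2
  rw [hs] at h1
  have h2k : 2 * G.rank = d + 1 := by
    have : d + 1 ≤ 2 * G.rank := by
      have h3 : d * (d + 1) ≤ d * (2 * G.rank) := by
        calc d * (d + 1) ≤ G.rank * (d + d) := h1
          _ = d * (2 * G.rank) := by ring
      exact Nat.le_of_mul_le_mul_left h3 (by omega)
    omega
  have hdR : (0 : ℝ) < d := by
    have : 0 < d := by omega
    exact_mod_cast this
  have hkR : (G.rank : ℝ) = (d + 1) / 2 := by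
    have : (2 : ℝ) * G.rank = d + 1 := by exact_mod_cast h2k
    linarith
  have htight : G * G = (((2 * d / (d + 1) : ℝ)) : ℂ) • G := by
    apply tight_of_dev hG
    rw [hA.trace, hA.trace_sq, hs, hkR]
    field_simp
    ring
  set t : ℂ := ((2 * d / (d + 1) : ℝ) : ℂ) with ht
  have hdC : (d : ℂ) ≠ 0 := by exact_mod_cast (by omega : d ≠ 0)
  have hd1C : (d : ℂ) + 1 ≠ 0 := by exact_mod_cast Nat.succ_ne_zero d
  have ht' : t = 2 * d / (d + 1) := by rw [ht]; push_cast; ring
  have ht0 : t ≠ 0 := by rw [ht']; exact div_ne_zero (mul_ne_zero two_ne_zero hdC) hd1C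
  -- the projection onto the kernel
  set P : Matrix n n ℂ := 1 - t⁻¹ • G with hP
  have hPG : P * G = 0 := by
    rw [hP, Matrix.sub_mul, Matrix.one_mul, Matrix.smul_mul, htight, smul_smul,
      inv_mul_cancel₀ ht0, one_smul, sub_self]
  have hGP : G * P = 0 := by
    rw [hP, Matrix.mul_sub, Matrix.mul_one, Matrix.mul_smul, htight, smul_smul,
      inv_mul_cancel₀ ht0, one_smul, sub_self]
  set D := diagonal c with hD
  set W : Matrix n n ℂ := diagonal (fun i => (c i)⁻¹) with hW
  have hWD : W * D = 1 := by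
    rw [hW, hD, diagonal_mul_diagonal, ← diagonal_one]
    congr 1
    funext i
    exact inv_mul_cancel₀ (hc i)
  -- the key inclusion
  have key : ∀ v : n → ℂ, G.mulVec v = 0 → ∃ u, G.mulVec u = W.mulVec v := by
    let R := LinearMap.range G.mulVecLin
    let f := (A * D).mulVecLin.domRestrict R
    have f1 := LinearMap.finrank_range_add_finrank_ker f
    have f2 : LinearMap.range f = LinearMap.range (A * D * G).mulVecLin := by
      rw [Matrix.mulVecLin_mul, LinearMap.range_comp, LinearMap.range_domRestrict]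
    have f3 : Module.finrank ℂ (LinearMap.range f) ≤ 1 := by
      rw [f2]
      change (A * D * G).rank ≤ 1
      rw [hGdef, ← Matrix.mul_assoc, ← hr]
      exact Matrix.rank_mul_le_left _ _
    have f4 : Module.finrank ℂ R = G.rank := rfl
    let L := (LinearMap.ker f).map R.subtype
    have f5 : Module.finrank ℂ L = Module.finrank ℂ (LinearMap.ker f) :=
      Submodule.finrank_map_subtype_eq R _
    have f6 : L.map D.mulVecLin ≤ LinearMap.ker G.mulVecLin := by
      rintro _ ⟨_, ⟨⟨u, hu⟩, hu', rfl⟩, rfl⟩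
      have h3 : (A * D).mulVec u = 0 := by simpa [f] using hu'
      rw [LinearMap.mem_ker]
      simp only [Submodule.subtype_apply, Matrix.mulVecLin_apply]
      rw [hGdef, Matrix.mulVec_mulVec, Matrix.mul_assoc, ← Matrix.mulVec_mulVec, h3,
        Matrix.mulVec_zero]
    have hDinj : Function.Injective D.mulVecLin := by
      intro u v huv
      have h3 := congrArg (fun z => W.mulVec z) huv
      simpa [Matrix.mulVec_mulVec, hWD] using h3
    have f7 : Module.finrank ℂ (L.map D.mulVecLin) = Module.finrank ℂ L :=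
      LinearEquiv.finrank_eq (Submodule.equivMapOfInjective _ hDinj L).symm
    have f8 := LinearMap.finrank_range_add_finrank_ker G.mulVecLin
    have f9 : Module.finrank ℂ (n → ℂ) = d := by
      rw [Module.finrank_fintype_fun_eq_card, hs]
    have f10 : L.map D.mulVecLin = LinearMap.ker G.mulVecLin := by
      apply Submodule.eq_of_le_of_finrank_le f6
      change Module.finrank ℂ R + _ = _ at f8
      omega
    intro v hv
    have hv' : v ∈ L.map D.mulVecLin := by
      rw [f10, LinearMap.mem_ker]
      exact hv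
    obtain ⟨_, ⟨⟨u, hu⟩, hu', rfl⟩, rfl⟩ := hv'
    obtain ⟨z, hz⟩ := hu
    refine ⟨z, ?_⟩
    simp only [Submodule.subtype_apply, Matrix.mulVecLin_apply, Matrix.mulVec_mulVec, hWD,
      Matrix.one_mulVec]
    exact hz
  have hPWP : P * W * P = 0 := by
    have h3 : ∀ v : n → ℂ, (P * W * P).mulVec v = 0 := by
      intro v
      obtain ⟨z, hz⟩ := key (P.mulVec v) (by rw [Matrix.mulVec_mulVec, hGP, Matrix.zero_mulVec])
      rw [← Matrix.mulVec_mulVec, ← Matrix.mulVec_mulVec, ← hz, Matrix.mulVec_mulVec, hPG,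
        Matrix.zero_mulVec]
    ext i j
    have h4 := congrFun (h3 (Pi.single j 1)) i
    simpa using h4
  -- the entries
  have hPii : ∀ i, P i i = (d - 1) / (2 * d) := by
    intro i
    rw [hP, Matrix.sub_apply, Matrix.one_apply_eq, Matrix.smul_apply, hA.1, ht']
    simp only [smul_eq_mul]
    field_simp
    ring
  have hPij : ∀ i j, i ≠ j → P i j * P j i = (d + 1) / (4 * d ^ 2) := by
    intro i j hij
    have h3 := hA.2 i j hij
    rw [hP, Matrix.sub_apply, Matrix.sub_apply, Matrix.one_apply_ne hij,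
      Matrix.one_apply_ne hij.symm, Matrix.smul_apply, Matrix.smul_apply]
    simp only [smul_eq_mul, zero_sub]
    have h4 : -(t⁻¹ * G i j) * -(t⁻¹ * G j i) = t⁻¹ ^ 2 * (G i j * G j i) := by ring
    rw [h4, h3, ht']
    field_simp
    ring
  set σ := ∑ j, (c j)⁻¹ with hσ
  have hrow : ∀ i, ((d : ℂ) - 3) / (4 * d) * (c i)⁻¹ + (d + 1) / (4 * d ^ 2) * σ = 0 := by
    intro i
    have h3 : (P * W * P) i i = 0 := by rw [hPWP]; rfl
    have h4 : (P * W * P) i i = ∑ j, (P i j * P j i) * (c j)⁻¹ := by
      rw [Matrix.mul_apply]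
      refine Finset.sum_congr rfl fun j _ => ?_
      rw [hW, Matrix.mul_diagonal]
      ring
    rw [h4] at h3
    have h5 : ∀ j, (P i j * P j i) * (c j)⁻¹ = (d + 1) / (4 * d ^ 2) * (c j)⁻¹ +
        (if j = i then ((d : ℂ) - 3) / (4 * d) * (c j)⁻¹ else 0) := by
      intro j
      split_ifs with hji
      · subst hji
        rw [hPii]
        field_simp
        ring
      · rw [hPij i j (Ne.symm hji), add_zero]
    rw [Finset.sum_congr rfl fun j _ => h5 j, Finset.sum_add_distrib, ← Finset.mul_sum,
      Finset.sum_ite_eq' Finset.univ i] at h3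
    simp only [Finset.mem_univ, if_true] at h3
    rw [hσ, ← h3]
    ring
  by_contra hd3
  have hd3C : (d : ℂ) - 3 ≠ 0 := by
    intro h
    apply hd3
    have : (d : ℂ) = 3 := by linear_combination h
    exact_mod_cast this
  have hne : Nonempty n := by
    rw [← Fintype.card_pos_iff]
    omega
  obtain ⟨i₀⟩ := hne
  have hconst : ∀ i, (c i)⁻¹ = (c i₀)⁻¹ := by
    intro i
    have h3 : ((d : ℂ) - 3) / (4 * d) * ((c i)⁻¹ - (c i₀)⁻¹) = 0 := by
      linear_combination hrow i - hrow i₀
    rcases mul_eq_zero.1 h3 with h4 | h4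
    · exact absurd h4 (div_ne_zero hd3C (mul_ne_zero (by norm_num) hdC))
    · exact sub_eq_zero.1 h4
  have hσ' : σ = d * (c i₀)⁻¹ := by
    rw [hσ, Finset.sum_congr rfl fun i _ => hconst i, Finset.sum_const, Finset.card_univ, hs,
      nsmul_eq_mul]
  have h6 := hrow i₀
  rw [hσ'] at h6
  have h7 : ((d : ℂ) - 1) / (2 * d) * (c i₀)⁻¹ = 0 := by
    rw [← h6]
    field_simp
    ring
  rcases mul_eq_zero.1 h7 with h8 | h8
  · have h9 : (d : ℂ) - 1 ≠ 0 := by
      intro h
      have : (d : ℂ) = 1 := by linear_combination h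
      have : d = 1 := by exact_mod_cast this
      omega
    exact absurd h8 (div_ne_zero h9 (mul_ne_zero (by norm_num) hdC))
  · exact absurd h8 (inv_ne_zero (hc i₀))

end core

end Pool.Agent.X159.SicSupp
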