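import Mathlib

/-! Vector variational inequalities: definitions used in the statements. -/

set_option autoImplicit false

namespace Pool.Agent.X159.VVI

/-- Euclidean space of dimension `n`. -/
abbrev E (n : ℕ) := EuclideanSpace ℝ (Fin n)

/-- The Pareto solution set: all `x ∈ K` such that for no `y ∈ K` the vector
`(⟨F_l(x), x - y⟩)_l` is nonzero with all coordinates nonnegative. -/
def Sol {n m : ℕ} (K : Set (E n)) (F : Fin m → E n → E n) : Set (E n) :=
  {x | x ∈ K ∧ ∀ y ∈ K, ¬ ((∀ l, 0 ≤ inner ℝ (F l x) (x - y)) ∧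
    ∃ l, inner ℝ (F l x) (x - y) ≠ 0)}

/-- The weak Pareto solution set: all `x ∈ K` such that for no `y ∈ K` the vector
`(⟨F_l(x), x - y⟩)_l` has all coordinates positive. -/
def SolW {n m : ℕ} (K : Set (E n)) (F : Fin m → E n → E n) : Set (E n) :=
  {x | x ∈ K ∧ ∀ y ∈ K, ¬ (∀ l, 0 < inner ℝ (F l x) (x - y))}

/-- The solution set of the (scalar) variational inequality of `G` on `K`. -/
def SolVI {n : ℕ} (K : Set (E n)) (G : E n → E n) : Set (E n) :=
  {x | x ∈ K ∧ ∀ y ∈ K, 0 ≤ inner ℝ (G x) (y - x)}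

/-- The proper Pareto solution set: the union of the solution sets of the variational inequalities
of `∑ l, ξ l • F l` over all `ξ` with positive entries and sum one. -/
def SolPr {n m : ℕ} (K : Set (E n)) (F : Fin m → E n → E n) : Set (E n) :=
  {x | ∃ ξ : Fin m → ℝ, (∀ l, 0 < ξ l) ∧ ∑ l, ξ l = 1 ∧
    x ∈ SolVI K (fun x => ∑ l, ξ l • F l x)}

/-- `G` is monotone on `K`. -/
def MonoOn {n : ℕ} (K : Set (E n)) (G : E n → E n) : Prop :=
  ∀ x ∈ K, ∀ y ∈ K, 0 ≤ inner ℝ (G y - G x) (y - x)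

end Pool.Agent.X159.VVI
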