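import Mathlib

/-! Discrete varieties: the definitions used in the statements.

A set `A` of vertices of a graph `G` stands for the subgraph of `G` induced on `A`. -/

set_option autoImplicit false

open scoped Classical

namespace Pool.Agent.X159.Variety

variable {V : Type*}

/-- The vertex set of the unit sphere of `x` in the subgraph of `G` induced on `A`:
the neighbours of `x` in `A`. -/
noncomputable def usph (G : SimpleGraph V) (A : Finset V) (x : V) : Finset V :=
  A.filter (fun y => G.Adj x y)

/-- The subgraph of `G` induced on `A` is collapsible: it is a single vertex, or there is a vertex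
`x` such that the subgraph without `x` and the unit sphere of `x` are both collapsible. -/
inductive Collapsible [DecidableEq V] (G : SimpleGraph V) : Finset V → Prop
  | point (x : V) : Collapsible G {x}
  | step (A : Finset V) (x : V) : x ∈ A → Collapsible G (A.erase x) →
      Collapsible G (usph G A x) → Collapsible G A

/-- `IsSphere G n A`: the subgraph of `G` induced on `A` is an `(n - 1)`-sphere. -/
def IsSphere [DecidableEq V] (G : SimpleGraph V) : ℕ → Finset V → Prop
  | 0, A => A = ∅
  | n + 1, A => (∀ x ∈ A, IsSphere G n (usph G A x)) ∧ ∃ x ∈ A, Collapsible G (A.erase x)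

/-- `IsDGraph G n A`: the subgraph of `G` induced on `A` is an `(n - 1)`-graph. -/
def IsDGraph [DecidableEq V] (G : SimpleGraph V) : ℕ → Finset V → Prop
  | 0, A => A = ∅
  | n + 1, A => ∀ x ∈ A, IsSphere G n (usph G A x)

/-- `IsVariety G n A`: the subgraph of `G` induced on `A` is an `(n - 1)`-variety. -/
def IsVariety [DecidableEq V] (G : SimpleGraph V) : ℕ → Finset V → Prop
  | 0, A => A = ∅
  | n + 1, A => ∃ S ⊆ A, (∀ x ∈ S, ∀ y ∈ S, ¬ G.Adj x y) ∧
      (∀ x ∈ A, x ∉ S → IsDGraph G n (usph G A x)) ∧
      (∀ x ∈ S, IsVariety G n (usph G A x))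

/-- The number `v_k` of complete subgraphs with `k + 1` vertices of the subgraph induced on `A`. -/
noncomputable def nu (G : SimpleGraph V) (A : Finset V) (k : ℕ) : ℕ :=
  ((A.powersetCard (k + 1)).filter (fun s : Finset V => G.IsClique (s : Set V))).card

/-- The Euler characteristic `∑ (-1)^k v_k` of the subgraph of `G` induced on `A`. -/
noncomputable def chi (G : SimpleGraph V) (A : Finset V) : ℤ :=
  ∑ k ∈ Finset.range A.card, (-1) ^ k * (nu G A k : ℤ)

/-- The vertices of the Barycentric refinement: the nonempty complete subgraphs of `G`. -/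
abbrev Simplex (G : SimpleGraph V) : Type _ :=
  {s : Finset V // s.Nonempty ∧ G.IsClique (s : Set V)}

/-- The Barycentric refinement `G_1`: two nonempty complete subgraphs are adjacent when one
strictly contains the other. -/
def bary (G : SimpleGraph V) : SimpleGraph (Simplex G) where
  Adj s t := s.1 ⊂ t.1 ∨ t.1 ⊂ s.1
  symm := ⟨fun _ _ h => h.symm⟩
  loopless := ⟨fun _ h => by rcases h with h | h <;> exact (ssubset_irrefl _ h).elim⟩

end Pool.Agent.X159.Variety
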