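import Pool.Agent.X159.VarDefs

set_option autoImplicit false

open scoped Classical

namespace Pool.Agent.X159.Variety

variable {V : Type*} [DecidableEq V]

/-- cliques inside `A`, including the empty one -/
noncomputable def cl (G : SimpleGraph V) (A : Finset V) : Finset (Finset V) :=
  A.powerset.filter (fun s => G.IsClique (s : Set V))

/-- the signed number of cliques -/
noncomputable def ee (G : SimpleGraph V) (A : Finset V) : ℤ := ∑ s ∈ cl G A, (-1) ^ s.card

lemma mem_cl {G : SimpleGraph V} {A s : Finset V} :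
    s ∈ cl G A ↔ s ⊆ A ∧ G.IsClique (s : Set V) := by
  simp [cl]

lemma mem_usph {G : SimpleGraph V} {A : Finset V} {x y : V} :
    y ∈ usph G A x ↔ y ∈ A ∧ G.Adj x y := by
  simp [usph]

/-- the common neighbours of `σ` in `A` -/
noncomputable def lk (G : SimpleGraph V) (A σ : Finset V) : Finset V :=
  A.filter (fun y => ∀ x ∈ σ, G.Adj x y)

lemma mem_lk {G : SimpleGraph V} {A σ : Finset V} {y : V} :
    y ∈ lk G A σ ↔ y ∈ A ∧ ∀ x ∈ σ, G.Adj x y := by
  simp [lk]

/-- the sum over the cliques containing `σ` -/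
lemma T_eq {G : SimpleGraph V} {A σ : Finset V} (hσ : σ ∈ cl G A) :
    ∑ τ ∈ (cl G A).filter (fun τ => σ ⊆ τ), (-1 : ℤ) ^ τ.card = (-1) ^ σ.card * ee G (lk G A σ) := by
  rw [ee, Finset.mul_sum]
  have hσ' := mem_cl.1 hσ
  refine Finset.sum_bij' (fun τ _ => τ \ σ) (fun ρ _ => σ ∪ ρ) ?_ ?_ ?_ ?_ ?_
  · intro τ hτ
    rw [Finset.mem_filter, mem_cl] at hτ
    rw [mem_cl]
    refine ⟨fun y hy => ?_, hτ.1.2.subset (by exact_mod_cast Finset.sdiff_subset)⟩
    rw [Finset.mem_sdiff] at hy
    rw [mem_lk]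
    refine ⟨hτ.1.1 hy.1, fun x hx => ?_⟩
    exact hτ.1.2 (by exact_mod_cast hτ.2 hx) (by exact_mod_cast hy.1)
      (fun h => hy.2 (h ▸ hx))
  · intro ρ hρ
    rw [mem_cl] at hρ
    rw [Finset.mem_filter, mem_cl]
    refine ⟨⟨Finset.union_subset hσ'.1 fun y hy => (mem_lk.1 (hρ.1 hy)).1, ?_⟩,
      Finset.subset_union_left⟩
    intro a ha b hb hab
    rw [Finset.mem_coe, Finset.mem_union] at ha hb
    rcases ha with ha | ha <;> rcases hb with hb | hb
    · exact hσ'.2 (by exact_mod_cast ha) (by exact_mod_cast hb) hab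
    · exact (mem_lk.1 (hρ.1 hb)).2 a ha
    · exact ((mem_lk.1 (hρ.1 ha)).2 b hb).symm
    · exact hρ.2 (by exact_mod_cast ha) (by exact_mod_cast hb) hab
  · intro τ hτ
    rw [Finset.mem_filter] at hτ
    exact Finset.union_sdiff_of_subset hτ.2
  · intro ρ hρ
    rw [mem_cl] at hρ
    rw [Finset.union_sdiff_left]
    refine Finset.sdiff_eq_self_of_disjoint (Finset.disjoint_left.2 fun a ha ha' => ?_)
    exact ((mem_lk.1 (hρ.1 ha)).2 a ha').ne rfl
  · intro τ hτ
    rw [Finset.mem_filter] at hτ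
    rw [← pow_add, add_comm, Finset.card_sdiff_add_card_eq_card hτ.2]

/-- deletion formula -/
lemma ee_erase {G : SimpleGraph V} {A : Finset V} {x : V} (hx : x ∈ A) :
    ee G A = ee G (A.erase x) - ee G (usph G A x) := by
  have hs : ({x} : Finset V) ∈ cl G A := by
    rw [mem_cl]
    exact ⟨by simpa using hx, by simp⟩
  have h1 := T_eq hs
  have h2 : lk G A {x} = usph G A x := by
    ext y
    simp [mem_lk, mem_usph]
  rw [h2, Finset.card_singleton, pow_one, neg_one_mul] at h1
  have h3 : (cl G A).filter (fun τ => ¬ ({x} : Finset V) ⊆ τ) = cl G (A.erase x) := by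
    ext τ
    simp only [Finset.mem_filter, mem_cl, Finset.singleton_subset_iff]
    rw [Finset.subset_erase]
    tauto
  unfold ee at h1 ⊢
  rw [← Finset.sum_filter_add_sum_filter_not (cl G A) (fun τ => ({x} : Finset V) ⊆ τ), h1, h3]
  ring

lemma ee_empty (G : SimpleGraph V) : ee G ∅ = 1 := by
  have : cl G ∅ = {∅} := by
    ext s
    rw [mem_cl, Finset.subset_empty, Finset.mem_singleton]
    constructor
    · exact fun h => h.1
    · rintro rfl
      exact ⟨rfl, by simp⟩
  rw [ee, this]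
  simp

lemma ee_collapsible {G : SimpleGraph V} {A : Finset V} (h : Collapsible G A) : ee G A = 0 := by
  induction h with
  | point x =>
    rw [ee_erase (Finset.mem_singleton_self x)]
    have h1 : ({x} : Finset V).erase x = ∅ := by simp
    have h2 : usph G {x} x = ∅ := by
      ext y
      rw [mem_usph]
      simp only [Finset.mem_singleton, Finset.notMem_empty, iff_false, not_and]
      rintro rfl
      exact G.loopless.irrefl _
    rw [h1, h2, sub_self]
  | step A x hx _ _ ih1 ih2 =>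
    rw [ee_erase hx, ih1, ih2, sub_self]

lemma ee_sphere {G : SimpleGraph V} {n : ℕ} {A : Finset V} (h : IsSphere G n A) :
    ee G A = (-1) ^ n := by
  induction n generalizing A with
  | zero =>
    have h' : A = ∅ := h
    rw [h', ee_empty, pow_zero]
  | succ n ih =>
    obtain ⟨h1, x, hx, hc⟩ := h
    rw [ee_erase hx, ee_collapsible hc, ih (h1 x hx), pow_succ]
    ring

lemma sphere_dgraph {G : SimpleGraph V} {n : ℕ} {A : Finset V} (h : IsSphere G n A) :
    IsDGraph G n A := by
  cases n with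
  | zero => exact h
  | succ n => exact h.1

lemma lk_usph {G : SimpleGraph V} {A σ : Finset V} {x : V} (hx : x ∈ σ) :
    lk G (usph G A x) (σ.erase x) = lk G A σ := by
  ext y
  simp only [mem_lk, mem_usph]
  constructor
  · rintro ⟨⟨h1, h2⟩, h3⟩
    refine ⟨h1, fun z hz => ?_⟩
    by_cases hzx : z = x
    · rw [hzx]; exact h2
    · exact h3 z (Finset.mem_erase.2 ⟨hzx, hz⟩)
  · rintro ⟨h1, h2⟩
    exact ⟨⟨h1, h2 x hx⟩, fun z hz => h2 z (Finset.mem_of_mem_erase hz)⟩

lemma erase_mem_cl {G : SimpleGraph V} {A σ : Finset V} {x : V} (hσ : σ ∈ cl G A) (hx : x ∈ σ) :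
    σ.erase x ∈ cl G (usph G A x) := by
  rw [mem_cl] at hσ ⊢
  refine ⟨fun y hy => ?_, hσ.2.subset (by exact_mod_cast Finset.erase_subset _ _)⟩
  rw [Finset.mem_erase] at hy
  rw [mem_usph]
  exact ⟨hσ.1 hy.2, hσ.2 (by exact_mod_cast hx) (by exact_mod_cast hy.2) (Ne.symm hy.1)⟩

lemma lk_sphere {G : SimpleGraph V} {n : ℕ} {A σ : Finset V} (h : IsDGraph G n A)
    (hσ : σ ∈ cl G A) (hne : σ.Nonempty) : ∃ m, n = m + σ.card ∧ IsSphere G m (lk G A σ) := by
  induction n generalizing A σ with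
  | zero =>
    have h' : A = ∅ := h
    have := (mem_cl.1 hσ).1
    rw [h', Finset.subset_empty] at this
    exact absurd this hne.ne_empty
  | succ n ih =>
    obtain ⟨x, hx⟩ := hne
    have hxA : x ∈ A := (mem_cl.1 hσ).1 hx
    have hs : IsSphere G n (usph G A x) := h x hxA
    have hcard : (σ.erase x).card + 1 = σ.card := Finset.card_erase_add_one hx
    by_cases he : (σ.erase x).Nonempty
    · obtain ⟨m, hm, hsm⟩ := ih (sphere_dgraph hs) (erase_mem_cl hσ hx) he
      rw [lk_usph hx] at hsm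
      exact ⟨m, by omega, hsm⟩
    · rw [Finset.not_nonempty_iff_eq_empty] at he
      refine ⟨n, by rw [he, Finset.card_empty] at hcard; omega, ?_⟩
      rw [← lk_usph hx, he]
      have : lk G (usph G A x) ∅ = usph G A x := by
        ext y; simp [mem_lk]
      rw [this]
      exact hs

lemma variety_lk {G : SimpleGraph V} {d : ℕ} {A σ : Finset V} (h : IsVariety G (d + 1) A)
    (hσ : σ ∈ cl G A) (hc : 2 ≤ σ.card) : ∃ m, d + 1 = m + σ.card ∧ IsSphere G m (lk G A σ) := by
  obtain ⟨S, hSA, hS, h1, _⟩ := h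
  obtain ⟨x, hx, y, hy, hxy⟩ := Finset.one_lt_card.1 hc
  have hadj : G.Adj x y := (mem_cl.1 hσ).2 (by exact_mod_cast hx) (by exact_mod_cast hy) hxy
  have key : ∀ z ∈ σ, z ∉ S → ∃ m, d + 1 = m + σ.card ∧ IsSphere G m (lk G A σ) := by
    intro z hz hzS
    have hg := h1 z ((mem_cl.1 hσ).1 hz) hzS
    have hcard : (σ.erase z).card + 1 = σ.card := Finset.card_erase_add_one hz
    obtain ⟨m, hm, hsm⟩ := lk_sphere hg (erase_mem_cl hσ hz)
      (Finset.card_pos.1 (by omega))
    rw [lk_usph hz] at hsm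
    exact ⟨m, by omega, hsm⟩
  by_cases hxS : x ∈ S
  · by_cases hyS : y ∈ S
    · exact absurd hadj (hS x hxS y hyS)
    · exact key y hy hyS
  · exact key x hx hxS

/-- in a variety every unit sphere is a graph -/
lemma variety_usph {G : SimpleGraph V} {d : ℕ} {A : Finset V} (h : IsVariety G (d + 1) A)
    {x : V} (hx : x ∈ A) : IsDGraph G d (usph G A x) := by
  by_cases hxS : x ∈ h.choose
  · have hv := h.choose_spec.2.2.2 x hxS
    cases d with
    | zero => exact hv
    | succ d =>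
      intro y hy
      have hy' := mem_usph.1 hy
      have hσ : ({x, y} : Finset V) ∈ cl G A := by
        rw [mem_cl]
        refine ⟨?_, ?_⟩
        · intro z hz
          rw [Finset.mem_insert, Finset.mem_singleton] at hz
          rcases hz with rfl | rfl
          · exact hx
          · exact hy'.1
        · rw [Finset.coe_insert, Finset.coe_singleton, SimpleGraph.isClique_pair]
          exact fun _ => hy'.2
      have hc : ({x, y} : Finset V).card = 2 := Finset.card_pair hy'.2.ne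
      obtain ⟨m, hm, hs⟩ := variety_lk h hσ hc.ge
      have hmd : m = d := by omega
      subst hmd
      have hl : lk G A {x, y} = usph G (usph G A x) y := by
        ext z
        simp only [mem_lk, mem_usph, Finset.mem_insert, Finset.mem_singleton, forall_eq_or_imp,
          forall_eq]
        tauto
      rw [← hl]
      exact hs
  · exact h.choose_spec.2.2.1 x hx hxS

/-- sum over nonempty subsets -/
lemma sum_nonempty_subsets {τ : Finset V} (hτ : τ.Nonempty) :
    ∑ σ ∈ τ.powerset.filter (fun σ => σ.Nonempty), (-1 : ℤ) ^ σ.card = -1 := by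
  have h := Finset.sum_powerset_neg_one_pow_card (x := τ)
  rw [if_neg hτ.ne_empty, ← Finset.sum_filter_add_sum_filter_not τ.powerset
    (fun σ => σ.Nonempty)] at h
  have h2 : τ.powerset.filter (fun σ => ¬ σ.Nonempty) = {∅} := by
    ext σ
    simp only [Finset.mem_filter, Finset.mem_powerset, Finset.not_nonempty_iff_eq_empty,
      Finset.mem_singleton]
    constructor
    · exact fun h => h.2
    · rintro rfl
      exact ⟨Finset.empty_subset _, rfl⟩
  rw [h2, Finset.sum_singleton, Finset.card_empty, pow_zero] at h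
  linarith

/-- double counting of pairs `σ ⊆ τ` -/
lemma double_count {G : SimpleGraph V} {A : Finset V} (P : Finset V → Prop) [DecidablePred P]
    (f : Finset V → ℤ) :
    ∑ σ ∈ (cl G A).filter P, f σ * ∑ τ ∈ (cl G A).filter (fun τ => σ ⊆ τ), (-1 : ℤ) ^ τ.card =
      ∑ τ ∈ cl G A, (-1 : ℤ) ^ τ.card * ∑ σ ∈ τ.powerset.filter P, f σ := by
  simp_rw [Finset.mul_sum]
  rw [Finset.sum_sigma', Finset.sum_sigma']
  refine Finset.sum_bij' (fun p _ => ⟨p.2, p.1⟩) (fun p _ => ⟨p.2, p.1⟩) ?_ ?_ ?_ ?_ ?_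
  · rintro ⟨σ, τ⟩ h
    simp only [Finset.mem_sigma, Finset.mem_filter, Finset.mem_powerset] at h ⊢
    exact ⟨h.2.1, h.2.2, h.1.2⟩
  · rintro ⟨τ, σ⟩ h
    simp only [Finset.mem_sigma, Finset.mem_filter, Finset.mem_powerset] at h ⊢
    refine ⟨⟨?_, h.2.2⟩, h.1, h.2.1⟩
    rw [mem_cl] at h ⊢
    exact ⟨h.2.1.trans h.1.1, h.1.2.subset (by exact_mod_cast h.2.1)⟩
  · rintro ⟨σ, τ⟩ _; rfl
  · rintro ⟨τ, σ⟩ _; rfl
  · rintro ⟨σ, τ⟩ _
    exact mul_comm _ _

lemma ee_dgraph_even {G : SimpleGraph V} {n : ℕ} (hn : Even n) {A : Finset V}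
    (h : IsDGraph G n A) : ee G A = 1 := by
  have h1 := double_count (G := G) (A := A) (fun σ => σ.Nonempty) (fun σ => (-1 : ℤ) ^ σ.card)
  have hsplit : ee G A = ∑ σ ∈ (cl G A).filter (fun σ => σ.Nonempty), (-1 : ℤ) ^ σ.card + 1 := by
    rw [ee, ← Finset.sum_filter_add_sum_filter_not (cl G A) (fun σ => σ.Nonempty)]
    congr 1
    have h2 : (cl G A).filter (fun σ => ¬ σ.Nonempty) = {∅} := by
      ext σ
      simp only [Finset.mem_filter, Finset.not_nonempty_iff_eq_empty, Finset.mem_singleton, mem_cl]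
      constructor
      · exact fun h => h.2
      · rintro rfl
        exact ⟨⟨Finset.empty_subset _, by simp⟩, rfl⟩
    rw [h2, Finset.sum_singleton, Finset.card_empty, pow_zero]
  have hl : ∑ σ ∈ (cl G A).filter (fun σ => σ.Nonempty), (-1 : ℤ) ^ σ.card *
      ∑ τ ∈ (cl G A).filter (fun τ => σ ⊆ τ), (-1 : ℤ) ^ τ.card =
      ∑ σ ∈ (cl G A).filter (fun σ => σ.Nonempty), (-1 : ℤ) ^ σ.card := by
    refine Finset.sum_congr rfl fun σ hσ => ?_
    rw [Finset.mem_filter] at hσ
    obtain ⟨m, hm, hs⟩ := lk_sphere h hσ.1 hσ.2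
    rw [T_eq hσ.1, ee_sphere hs]
    have : (-1 : ℤ) ^ σ.card * (-1) ^ m = 1 := by
      rw [← pow_add, add_comm, ← hm]
      exact hn.neg_one_pow
    rw [this, mul_one]
  have hr : ∑ τ ∈ cl G A, (-1 : ℤ) ^ τ.card *
      ∑ σ ∈ τ.powerset.filter (fun σ => σ.Nonempty), (-1 : ℤ) ^ σ.card =
      - ∑ σ ∈ (cl G A).filter (fun σ => σ.Nonempty), (-1 : ℤ) ^ σ.card := by
    rw [← Finset.sum_filter_add_sum_filter_not (cl G A) (fun σ => σ.Nonempty),
      ← Finset.sum_neg_distrib]
    have h0 : ∑ τ ∈ (cl G A).filter (fun τ => ¬ τ.Nonempty), (-1 : ℤ) ^ τ.card *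
        ∑ σ ∈ τ.powerset.filter (fun σ => σ.Nonempty), (-1 : ℤ) ^ σ.card = 0 := by
      refine Finset.sum_eq_zero fun τ hτ => ?_
      rw [Finset.mem_filter, Finset.not_nonempty_iff_eq_empty] at hτ
      rw [hτ.2, Finset.powerset_empty, Finset.filter_singleton, if_neg (by simp)]
      simp
    rw [h0, add_zero]
    refine Finset.sum_congr rfl fun τ hτ => ?_
    rw [Finset.mem_filter] at hτ
    rw [sum_nonempty_subsets hτ.2, mul_neg, mul_one]
  rw [hl, hr] at h1
  rw [hsplit]
  linarith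

/-- the Euler characteristic in terms of the signed number of cliques -/
lemma chi_eq (G : SimpleGraph V) (A : Finset V) : chi G A = 1 - ee G A := by
  have h : ee G A = ∑ s ∈ A.powerset, if G.IsClique (s : Set V) then (-1 : ℤ) ^ s.card else 0 := by
    rw [ee, cl, Finset.sum_filter]
  rw [h, Finset.sum_powerset]
  rw [Finset.sum_range_succ']
  have h0 : ∑ s ∈ Finset.powersetCard 0 A,
      (if G.IsClique (s : Set V) then (-1 : ℤ) ^ s.card else 0) = 1 := by
    rw [Finset.powersetCard_zero, Finset.sum_singleton]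
    simp
  rw [h0]
  have h1 : ∀ k, ∑ s ∈ Finset.powersetCard (k + 1) A,
      (if G.IsClique (s : Set V) then (-1 : ℤ) ^ s.card else 0) = - ((-1) ^ k * (nu G A k : ℤ)) := by
    intro k
    rw [← Finset.sum_filter]
    have : ∀ s ∈ (Finset.powersetCard (k + 1) A).filter
        (fun s : Finset V => G.IsClique (s : Set V)),
        (-1 : ℤ) ^ (Finset.card s) = (-1) ^ (k + 1) := by
      intro s hs
      rw [Finset.mem_filter, Finset.mem_powersetCard] at hs
      rw [hs.1.2]
    have hnu : (nu G A k : ℤ) = (((Finset.powersetCard (k + 1) A).filter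
        (fun s : Finset V => G.IsClique (s : Set V))).card : ℤ) := by
      unfold nu
      congr!
    rw [Finset.sum_congr rfl this, Finset.sum_const, hnu, pow_succ, nsmul_eq_mul]
    ring
  rw [Finset.sum_congr rfl fun k _ => h1 k, Finset.sum_neg_distrib, chi]
  ring

/-- the number of vertices times ... : Gauss-Bonnet -/
lemma sum_chi_usph (G : SimpleGraph V) (A : Finset V) :
    ∑ x ∈ A, chi G (usph G A x) =
      ∑ τ ∈ (cl G A).filter (fun τ => 2 ≤ τ.card), (-1 : ℤ) ^ τ.card * τ.card := by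
  have h1 : ∀ x ∈ A, chi G (usph G A x) =
      1 + ∑ τ ∈ (cl G A).filter (fun τ => ({x} : Finset V) ⊆ τ), (-1 : ℤ) ^ τ.card := by
    intro x hx
    have hs : ({x} : Finset V) ∈ cl G A := by
      rw [mem_cl]
      exact ⟨by simpa using hx, by simp⟩
    have h2 : lk G A {x} = usph G A x := by
      ext y
      simp [mem_lk, mem_usph]
    rw [T_eq hs, h2, chi_eq, Finset.card_singleton]
    ring
  rw [Finset.sum_congr rfl h1, Finset.sum_add_distrib]
  have h2 : ∑ x ∈ A, ∑ τ ∈ (cl G A).filter (fun τ => ({x} : Finset V) ⊆ τ), (-1 : ℤ) ^ τ.card =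
      ∑ τ ∈ cl G A, (-1 : ℤ) ^ τ.card * τ.card := by
    simp_rw [Finset.sum_filter]
    rw [Finset.sum_comm]
    refine Finset.sum_congr rfl fun τ hτ => ?_
    rw [← Finset.sum_filter, Finset.sum_const, nsmul_eq_mul, mul_comm]
    congr 3
    ext x
    rw [Finset.mem_filter, Finset.singleton_subset_iff]
    exact ⟨fun h => h.2, fun h => ⟨(mem_cl.1 hτ).1 h, h⟩⟩
  rw [h2, ← Finset.sum_filter_add_sum_filter_not (cl G A) (fun τ => 2 ≤ τ.card)
    (fun τ => (-1 : ℤ) ^ τ.card * τ.card)]
  have h3 : ∑ τ ∈ (cl G A).filter (fun τ => ¬ 2 ≤ τ.card), (-1 : ℤ) ^ τ.card * (τ.card : ℤ) =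
      - ∑ x ∈ A, (1 : ℤ) := by
    have h4 : ∑ τ ∈ (cl G A).filter (fun τ => ¬ 2 ≤ τ.card), (-1 : ℤ) ^ τ.card * (τ.card : ℤ) =
        ∑ τ ∈ A.image (fun x => ({x} : Finset V)), (-1 : ℤ) ^ τ.card * (τ.card : ℤ) := by
      symm
      refine Finset.sum_subset ?_ ?_
      · intro τ hτ
        obtain ⟨x, hx, rfl⟩ := Finset.mem_image.1 hτ
        rw [Finset.mem_filter, mem_cl]
        refine ⟨⟨by simpa using hx, by simp⟩, by simp⟩
      · intro τ hτ hnot
        rw [Finset.mem_filter, mem_cl] at hτ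
        have hc : τ.card = 0 ∨ τ.card = 1 := by omega
        rcases hc with hc | hc
        · rw [hc]; simp
        · obtain ⟨x, rfl⟩ := Finset.card_eq_one.1 hc
          exact absurd (Finset.mem_image.2 ⟨x, hτ.1.1 (Finset.mem_singleton_self x), rfl⟩) hnot
    rw [h4, Finset.sum_image (fun a _ b _ h => Finset.singleton_injective h),
      ← Finset.sum_neg_distrib]
    refine Finset.sum_congr rfl fun x _ => ?_
    simp
  rw [h3]
  ring

end Pool.Agent.X159.Variety
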