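import Pool.Agent.X159.Variety

set_option autoImplicit false

open scoped Classical

namespace Pool.Agent.X159.Variety

section order

variable {W : Type*} [DecidableEq W]

lemma ee_join (H : SimpleGraph W) (B C : Finset W) (h : ∀ b ∈ B, ∀ c ∈ C, H.Adj b c) :
    ee H (B ∪ C) = ee H B * ee H C := by
  induction hn : C.card using Nat.strong_induction_on generalizing C with
  | _ n ih =>
    subst hn
    rcases C.eq_empty_or_nonempty with rfl | ⟨x, hx⟩
    · rw [Finset.union_empty, ee_empty, mul_one]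
    · have hxB : x ∉ B := fun hb => (h x hb x hx).ne rfl
      rw [ee_erase (Finset.mem_union_right B hx), ee_erase hx]
      have h1 : (B ∪ C).erase x = B ∪ C.erase x := by
        rw [Finset.erase_union_distrib, Finset.erase_eq_of_notMem hxB]
      have h2 : usph H (B ∪ C) x = B ∪ usph H C x := by
        ext y
        simp only [mem_usph, Finset.mem_union]
        constructor
        · rintro ⟨hy | hy, hxy⟩
          · exact Or.inl hy
          · exact Or.inr ⟨hy, hxy⟩
        · rintro (hy | ⟨hy, hxy⟩)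
          · exact ⟨Or.inl hy, (h y hy x hx).symm⟩
          · exact ⟨Or.inr hy, hxy⟩
      have hc1 : (C.erase x).card < C.card := Finset.card_erase_lt_of_mem hx
      have hc2 : (usph H C x).card < C.card := by
        apply Finset.card_lt_card
        refine ⟨Finset.filter_subset _ _, fun hsub => ?_⟩
        exact ((mem_usph.1 (hsub hx)).2).ne rfl
      rw [h1, h2, ih _ hc1 _ (fun b hb c hc => h b hb c (Finset.mem_of_mem_erase hc)) rfl,
        ih _ hc2 _ (fun b hb c hc => h b hb c (mem_usph.1 hc).1) rfl, mul_sub]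

lemma ee_max [PartialOrder W] [DecidableLT W] (H : SimpleGraph W)
    (hH : ∀ s t, H.Adj s t ↔ s < t ∨ t < s)
    (A : Finset W) : ee H A = 1 - ∑ x ∈ A, ee H (A.filter (fun y => y < x)) := by
  induction hn : A.card using Nat.strong_induction_on generalizing A with
  | _ n ih =>
    subst hn
    rcases A.eq_empty_or_nonempty with rfl | hne
    · rw [ee_empty]; simp
    · obtain ⟨x, hx⟩ := A.exists_maximal hne
      have hxA := hx.prop
      have hmax : ∀ y ∈ A, ¬ x < y := fun y hy h => hx.not_gt hy h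
      rw [ee_erase hxA]
      have h1 : usph H A x = A.filter (fun y => y < x) := by
        ext y
        rw [mem_usph, Finset.mem_filter, hH]
        constructor
        · rintro ⟨h1, h2 | h2⟩
          · exact absurd h2 (hmax y h1)
          · exact ⟨h1, h2⟩
        · rintro ⟨h1, h2⟩
          exact ⟨h1, Or.inr h2⟩
      have hc1 : (A.erase x).card < A.card := Finset.card_erase_lt_of_mem hxA
      rw [h1, ih _ hc1 _ rfl, ← Finset.add_sum_erase A _ hxA]
      have h2 : ∑ y ∈ A.erase x, ee H ((A.erase x).filter (fun z => z < y)) =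
          ∑ y ∈ A.erase x, ee H (A.filter (fun z => z < y)) := by
        refine Finset.sum_congr rfl fun y hy => ?_
        congr 1
        ext z
        simp only [Finset.mem_filter, Finset.mem_erase]
        constructor
        · rintro ⟨⟨_, h⟩, h'⟩
          exact ⟨h, h'⟩
        · rintro ⟨h, h'⟩
          refine ⟨⟨?_, h⟩, h'⟩
          rintro rfl
          exact hmax y (Finset.mem_of_mem_erase hy) h'
      rw [h2]
      ring

end order

variable {V : Type*} [Fintype V] [DecidableEq V]

/-- alternating sum over a Boolean interval -/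
lemma sum_Icc {a x : Finset V} (h : a ⊂ x) : ∑ t ∈ Finset.Icc a x, (-1 : ℤ) ^ t.card = 0 := by
  rw [Finset.Icc_eq_image_powerset h.1, Finset.sum_image]
  · have h1 : ∀ z ∈ (x \ a).powerset, (-1 : ℤ) ^ (a ∪ z).card = (-1) ^ a.card * (-1) ^ z.card := by
      intro z hz
      rw [Finset.mem_powerset] at hz
      rw [Finset.card_union_of_disjoint, pow_add]
      exact Finset.disjoint_left.2 fun y hy hy' => (Finset.mem_sdiff.1 (hz hy')).2 hy
    rw [Finset.sum_congr rfl h1, ← Finset.mul_sum, Finset.sum_powerset_neg_one_pow_card, if_neg,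
      mul_zero]
    rw [Finset.sdiff_eq_empty_iff_subset]
    exact h.2
  · intro z hz w hw hzw
    rw [Finset.mem_coe, Finset.mem_powerset] at hz hw
    have hz' : Disjoint a z := Finset.disjoint_left.2 fun y hy hy' =>
      (Finset.mem_sdiff.1 (hz hy')).2 hy
    have hw' : Disjoint a w := Finset.disjoint_left.2 fun y hy hy' =>
      (Finset.mem_sdiff.1 (hw hy')).2 hy
    have := congrArg (fun s => s \ a) hzw
    simp only [Finset.union_sdiff_left] at this
    rwa [Finset.sdiff_eq_self_of_disjoint hz'.symm, Finset.sdiff_eq_self_of_disjoint hw'.symm]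
      at this

variable (G : SimpleGraph V)

/-- the open interval -/
noncomputable def Iv (a : Finset V) (x : Simplex G) : Finset (Simplex G) :=
  Finset.univ.filter (fun y => a ⊂ y.1 ∧ y.1 ⊂ x.1)

lemma mem_Iv {a : Finset V} {x y : Simplex G} : y ∈ Iv G a x ↔ a ⊂ y.1 ∧ y.1 ⊂ x.1 := by
  simp [Iv]

lemma bary_adj (s t : Simplex G) : (bary G).Adj s t ↔ s < t ∨ t < s := Iff.rfl

lemma sum_Ioo_eq (a : Finset V) (x : Simplex G) (f : Finset V → ℤ) :
    ∑ y ∈ Iv G a x, f y.1 = ∑ t ∈ Finset.Ioo a x.1, f t := by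
  refine Finset.sum_bij (fun y _ => y.1) ?_ ?_ ?_ ?_
  · intro y hy
    rw [mem_Iv] at hy
    rw [Finset.mem_Ioo]
    exact hy
  · intro y _ z _ h
    exact Subtype.ext h
  · intro t ht
    rw [Finset.mem_Ioo] at ht
    refine ⟨⟨t, ?_, x.2.2.subset (by exact_mod_cast ht.2.le)⟩, ?_, rfl⟩
    · rw [Finset.nonempty_iff_ne_empty]
      rintro rfl
      exact (Finset.not_ssubset_empty _ ht.1).elim
    · rw [mem_Iv]
      exact ht
  · intro y _
    rfl

lemma ee_Iv (a : Finset V) (x : Simplex G) (h : a ⊂ x.1) :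
    ee (bary G) (Iv G a x) = -(-1) ^ (x.1.card + a.card) := by
  induction hn : x.1.card using Nat.strong_induction_on generalizing x with
  | _ n ih =>
    subst hn
    rw [ee_max (bary G) (bary_adj G)]
    have h1 : ∀ y ∈ Iv G a x, ee (bary G) ((Iv G a x).filter (fun z => z < y)) =
        -(-1) ^ (y.1.card + a.card) := by
      intro y hy
      have hy' := (mem_Iv G).1 hy
      have h2 : (Iv G a x).filter (fun z => z < y) = Iv G a y := by
        ext z
        rw [Finset.mem_filter, mem_Iv, mem_Iv]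
        constructor
        · rintro ⟨⟨h1, _⟩, h3⟩
          exact ⟨h1, h3⟩
        · rintro ⟨h1, h3⟩
          exact ⟨⟨h1, h3.trans hy'.2⟩, h3⟩
      rw [h2]
      exact ih _ (Finset.card_lt_card hy'.2) y hy'.1 rfl
    rw [Finset.sum_congr rfl h1, sum_Ioo_eq G a x (fun t => -(-1) ^ (t.card + a.card))]
    have h3 := sum_Icc h
    rw [← Finset.Ico_insert_right h.le, Finset.sum_insert Finset.right_notMem_Ico,
      ← Finset.Ioo_insert_left h, Finset.sum_insert Finset.left_notMem_Ioo] at h3
    rw [Finset.sum_neg_distrib]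
    have h4 : ∑ t ∈ Finset.Ioo a x.1, (-1 : ℤ) ^ (t.card + a.card) =
        (-1) ^ a.card * ∑ t ∈ Finset.Ioo a x.1, (-1 : ℤ) ^ t.card := by
      rw [Finset.mul_sum]
      refine Finset.sum_congr rfl fun t _ => ?_
      rw [pow_add, mul_comm]
    rw [h4]
    have h5 : (-1 : ℤ) ^ a.card * (-1) ^ a.card = 1 := by
      rw [← pow_add]
      exact (Even.add_self _).neg_one_pow
    rw [pow_add]
    have h6 : ∑ t ∈ Finset.Ioo a x.1, (-1 : ℤ) ^ t.card = -(-1) ^ x.1.card - (-1) ^ a.card := by
      linarith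
    rw [h6]
    linear_combination (-1 : ℤ) * h5

/-- the elements above `σ` -/
noncomputable def Up (σ : Simplex G) : Finset (Simplex G) :=
  Finset.univ.filter (fun y => σ.1 ⊂ y.1)

lemma mem_Up {σ y : Simplex G} : y ∈ Up G σ ↔ σ.1 ⊂ y.1 := by simp [Up]

lemma sum_Up (σ : Simplex G) (f : Finset V → ℤ) :
    f σ.1 + ∑ y ∈ Up G σ, f y.1 =
      ∑ τ ∈ (cl G Finset.univ).filter (fun τ => σ.1 ⊆ τ), f τ := by
  have hmem : σ.1 ∈ (cl G Finset.univ).filter (fun τ => σ.1 ⊆ τ) := by
    rw [Finset.mem_filter, mem_cl]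
    exact ⟨⟨Finset.subset_univ _, σ.2.2⟩, Finset.Subset.refl _⟩
  rw [← Finset.add_sum_erase _ _ hmem]
  congr 1
  refine Finset.sum_bij (fun y _ => y.1) ?_ ?_ ?_ ?_
  · intro y hy
    rw [mem_Up] at hy
    rw [Finset.mem_erase, Finset.mem_filter, mem_cl]
    exact ⟨hy.ne', ⟨Finset.subset_univ _, y.2.2⟩, hy.1⟩
  · intro y _ z _ h
    exact Subtype.ext h
  · intro t ht
    rw [Finset.mem_erase, Finset.mem_filter, mem_cl] at ht
    refine ⟨⟨t, σ.2.1.mono ht.2.2, ht.2.1.2⟩, ?_, rfl⟩
    rw [mem_Up]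
    exact lt_of_le_of_ne ht.2.2 (Ne.symm ht.1)
  · intro y _
    rfl

lemma ee_Up (σ : Simplex G) : ee (bary G) (Up G σ) =
    (-1) ^ σ.1.card * ∑ τ ∈ (cl G Finset.univ).filter (fun τ => σ.1 ⊆ τ), (-1 : ℤ) ^ τ.card := by
  rw [ee_max (bary G) (bary_adj G)]
  have h1 : ∀ y ∈ Up G σ, ee (bary G) ((Up G σ).filter (fun z => z < y)) =
      -(-1) ^ (y.1.card + σ.1.card) := by
    intro y hy
    have hy' := (mem_Up G).1 hy
    have h2 : (Up G σ).filter (fun z => z < y) = Iv G σ.1 y := by
      ext z
      rw [Finset.mem_filter, mem_Iv, mem_Up]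
      exact Iff.rfl
    rw [h2]
    exact ee_Iv G σ.1 y hy'
  rw [Finset.sum_congr rfl h1, ← sum_Up G σ (fun t => (-1 : ℤ) ^ t.card), mul_add, ← pow_add,
    (Even.add_self σ.1.card).neg_one_pow, Finset.mul_sum, Finset.sum_neg_distrib, sub_neg_eq_add]
  congr 1
  refine Finset.sum_congr rfl fun y _ => ?_
  rw [pow_add, mul_comm]

/-- the Euler characteristic of a unit sphere in the Barycentric refinement -/
lemma chi_bary (σ : Simplex G) : chi (bary G) (usph (bary G) Finset.univ σ) =
    1 + ∑ τ ∈ (cl G Finset.univ).filter (fun τ => σ.1 ⊆ τ), (-1 : ℤ) ^ τ.card := by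
  have hσ : ∅ ⊂ σ.1 := Finset.empty_ssubset.2 σ.2.1
  have h1 : usph (bary G) Finset.univ σ = Iv G ∅ σ ∪ Up G σ := by
    ext y
    rw [mem_usph, Finset.mem_union, mem_Iv, mem_Up]
    constructor
    · rintro ⟨_, h | h⟩
      · exact Or.inr h
      · exact Or.inl ⟨Finset.empty_ssubset.2 y.2.1, h⟩
    · rintro (⟨_, h⟩ | h)
      · exact ⟨Finset.mem_univ _, Or.inr h⟩
      · exact ⟨Finset.mem_univ _, Or.inl h⟩
  rw [chi_eq, h1, ee_join, ee_Iv G ∅ σ hσ, ee_Up, Finset.card_empty, add_zero, ← mul_assoc]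
  · have h5 : (-1 : ℤ) ^ σ.1.card * (-1) ^ σ.1.card = 1 := by
      rw [← pow_add]
      exact (Even.add_self _).neg_one_pow
    rw [neg_mul, h5]
    ring
  · intro b hb c hc
    rw [mem_Iv] at hb
    rw [mem_Up] at hc
    exact Or.inl (hb.2.trans hc)

/-- sum over all simplices -/
lemma sum_simplex (f : Finset V → ℤ) : ∑ σ : Simplex G, f σ.1 =
    ∑ σ ∈ (cl G Finset.univ).filter (fun σ => 2 ≤ σ.card), f σ +
      ∑ σ ∈ (cl G Finset.univ).filter (fun σ => σ.card = 1), f σ := by
  rw [← Finset.sum_union]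
  · refine Finset.sum_bij (fun y _ => y.1) ?_ ?_ ?_ ?_
    · intro y _
      rw [Finset.mem_union, Finset.mem_filter, Finset.mem_filter, mem_cl]
      have h1 := Finset.card_pos.2 y.2.1
      have h2 : y.1 ⊆ Finset.univ ∧ G.IsClique (y.1 : Set V) := ⟨Finset.subset_univ _, y.2.2⟩
      by_cases h : 2 ≤ y.1.card
      · exact Or.inl ⟨h2, h⟩
      · exact Or.inr ⟨h2, by omega⟩
    · intro y _ z _ h
      exact Subtype.ext h
    · intro t ht
      rw [Finset.mem_union, Finset.mem_filter, Finset.mem_filter, mem_cl] at ht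
      have hc : 0 < t.card := by omega
      have h2 : G.IsClique (t : Set V) := by
        rcases ht with ht | ht <;> exact ht.1.2
      exact ⟨⟨t, Finset.card_pos.1 hc, h2⟩, Finset.mem_univ _, rfl⟩
    · intro y _
      rfl
  · rw [Finset.disjoint_left]
    intro t ht ht'
    rw [Finset.mem_filter] at ht ht'
    omega

/-- curvatures of a variety at simplices of positive dimension -/
lemma curv_pos {d : ℕ} (h : IsVariety G (d + 1) Finset.univ) {σ : Finset V}
    (hσ : σ ∈ cl G Finset.univ) (hc : 2 ≤ σ.card) :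
    ∑ τ ∈ (cl G Finset.univ).filter (fun τ => σ ⊆ τ), (-1 : ℤ) ^ τ.card = (-1) ^ (d + 1) := by
  obtain ⟨m, hm, hs⟩ := variety_lk h hσ hc
  rw [T_eq hσ, ee_sphere hs, ← pow_add, hm, add_comm]

/-- for even `d` all curvatures vanish -/
lemma curv_even {d : ℕ} (hd : Even d) (h : IsVariety G (d + 1) Finset.univ) (σ : Simplex G) :
    chi (bary G) (usph (bary G) Finset.univ σ) = 0 := by
  rw [chi_bary]
  have hσ : σ.1 ∈ cl G Finset.univ := mem_cl.2 ⟨Finset.subset_univ _, σ.2.2⟩
  by_cases hc : 2 ≤ σ.1.card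
  · rw [curv_pos G h hσ hc, (hd.add_one).neg_one_pow]
    ring
  · have h1 := Finset.card_pos.2 σ.2.1
    obtain ⟨x, hx⟩ := Finset.card_eq_one.1 (show σ.1.card = 1 by omega)
    rw [T_eq hσ, hx, Finset.card_singleton]
    have h2 : lk G Finset.univ {x} = usph G Finset.univ x := by
      ext y
      simp [mem_lk, mem_usph]
    rw [h2, ee_dgraph_even hd (variety_usph h (Finset.mem_univ x))]
    norm_num

/-- for odd `d` the sum of the curvatures is four times the number of odd-dimensional simplices -/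
lemma eta_odd {d : ℕ} (hd : Odd d) (h : IsVariety G (d + 1) Finset.univ) :
    ∑ σ : Simplex G, chi (bary G) (usph (bary G) Finset.univ σ) =
      4 * (((Finset.univ : Finset (Simplex G)).filter (fun σ => Even σ.1.card)).card : ℤ) := by
  set T : Finset V → ℤ := fun σ =>
    ∑ τ ∈ (cl G Finset.univ).filter (fun τ => σ ⊆ τ), (-1 : ℤ) ^ τ.card with hT
  have h0 : ∑ σ : Simplex G, chi (bary G) (usph (bary G) Finset.univ σ) =
      ∑ σ : Simplex G, (1 + T σ.1) := Finset.sum_congr rfl fun σ _ => chi_bary G σ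
  have hT1 : ∀ σ ∈ (cl G Finset.univ).filter (fun σ => 2 ≤ σ.card), T σ = 1 := by
    intro σ hσ
    rw [Finset.mem_filter] at hσ
    rw [hT]
    simp only
    rw [curv_pos G h hσ.1 hσ.2]
    exact (hd.add_one).neg_one_pow
  -- first double counting
  have hI := double_count (G := G) (A := Finset.univ) (fun σ => 2 ≤ σ.card)
    (fun σ => (-1 : ℤ) ^ σ.card)
  have hI' : ∑ σ ∈ (cl G Finset.univ).filter (fun σ => 2 ≤ σ.card), (-1 : ℤ) ^ σ.card *
      ∑ τ ∈ (cl G Finset.univ).filter (fun τ => σ ⊆ τ), (-1 : ℤ) ^ τ.card =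
      ∑ σ ∈ (cl G Finset.univ).filter (fun σ => 2 ≤ σ.card), (-1 : ℤ) ^ σ.card := by
    refine Finset.sum_congr rfl fun σ hσ => ?_
    have := hT1 σ hσ
    rw [hT] at this
    simp only at this
    rw [this, mul_one]
  have hII := double_count (G := G) (A := Finset.univ) (fun σ => σ.card = 1)
    (fun _ => (1 : ℤ))
  have hpc : ∀ τ : Finset V, ∑ σ ∈ τ.powerset.filter (fun σ => σ.card = 1), (1 : ℤ) = τ.card := by
    intro τ
    rw [Finset.sum_const, nsmul_eq_mul, mul_one, ← Finset.powersetCard_eq_filter,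
      Finset.card_powersetCard, Nat.choose_one_right]
  have hinner : ∀ τ : Finset V, ∑ σ ∈ τ.powerset.filter (fun σ => 2 ≤ σ.card), (-1 : ℤ) ^ σ.card =
      τ.card - (if τ.Nonempty then 1 else 0) := by
    intro τ
    have h1 := Finset.sum_powerset_neg_one_pow_card (x := τ)
    rw [← Finset.sum_filter_add_sum_filter_not τ.powerset (fun σ => 2 ≤ σ.card)] at h1
    have h2 : ∑ σ ∈ τ.powerset.filter (fun σ => ¬ 2 ≤ σ.card), (-1 : ℤ) ^ σ.card =
        1 - τ.card := by
      rw [← Finset.sum_filter_add_sum_filter_not (τ.powerset.filter (fun σ => ¬ 2 ≤ σ.card))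
        (fun σ => σ.card = 1), Finset.filter_filter, Finset.filter_filter]
      have e1 : τ.powerset.filter (fun σ => ¬ 2 ≤ σ.card ∧ σ.card = 1) =
          τ.powerset.filter (fun σ => σ.card = 1) := by
        refine Finset.filter_congr fun σ _ => ?_
        omega
      have e2 : τ.powerset.filter (fun σ => ¬ 2 ≤ σ.card ∧ ¬ σ.card = 1) = {∅} := by
        ext σ
        rw [Finset.mem_filter, Finset.mem_powerset, Finset.mem_singleton]
        constructor
        · rintro ⟨_, h⟩
          exact Finset.card_eq_zero.1 (by omega)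
        · rintro rfl
          simp
      rw [e1, e2, Finset.sum_singleton]
      have e3 : ∑ σ ∈ τ.powerset.filter (fun σ => σ.card = 1), (-1 : ℤ) ^ σ.card =
          - ∑ σ ∈ τ.powerset.filter (fun σ => σ.card = 1), (1 : ℤ) := by
        rw [← Finset.sum_neg_distrib]
        refine Finset.sum_congr rfl fun σ hσ => ?_
        rw [Finset.mem_filter] at hσ
        rw [hσ.2, pow_one]
      rw [e3, hpc]
      simp
      ring
    rw [h2] at h1
    by_cases hτ : τ.Nonempty
    · rw [if_pos hτ]
      rw [if_neg hτ.ne_empty] at h1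
      linarith
    · rw [if_neg hτ]
      rw [Finset.not_nonempty_iff_eq_empty] at hτ
      rw [if_pos hτ] at h1
      linarith
  rw [hI'] at hI
  simp_rw [hinner, hpc, one_mul] at hI hII
  -- split the total sum of signs
  have hsplit : ∑ τ ∈ cl G Finset.univ, (-1 : ℤ) ^ τ.card * (if τ.Nonempty then 1 else 0) =
      ∑ σ ∈ (cl G Finset.univ).filter (fun σ => 2 ≤ σ.card), (-1 : ℤ) ^ σ.card -
      ∑ σ ∈ (cl G Finset.univ).filter (fun σ => σ.card = 1), (1 : ℤ) := by
    rw [Finset.sum_filter, Finset.sum_filter, ← Finset.sum_sub_distrib]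
    refine Finset.sum_congr rfl fun τ _ => ?_
    by_cases h2 : 2 ≤ τ.card
    · have h1 : ¬ τ.card = 1 := by omega
      have h3 : τ.Nonempty := Finset.card_pos.1 (by omega)
      rw [if_pos h2, if_neg h1, if_pos h3]
      ring
    · by_cases h1 : τ.card = 1
      · have h3 : τ.Nonempty := Finset.card_pos.1 (by omega)
        rw [if_neg h2, if_pos h1, if_pos h3, h1]
        ring
      · have h0 : τ = ∅ := Finset.card_eq_zero.1 (by omega)
        have h3 : ¬ τ.Nonempty := by rw [h0]; simp
        rw [if_neg h2, if_neg h1, if_neg h3]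
        ring
  simp_rw [mul_sub] at hI
  rw [Finset.sum_sub_distrib, hsplit] at hI
  rw [h0, sum_simplex G (fun σ => 1 + T σ)]
  have hA : ∑ σ ∈ (cl G Finset.univ).filter (fun σ => 2 ≤ σ.card), (1 + T σ) =
      ∑ σ ∈ (cl G Finset.univ).filter (fun σ => 2 ≤ σ.card), (2 : ℤ) :=
    Finset.sum_congr rfl fun σ hσ => by rw [hT1 σ hσ]; norm_num
  have hB : ∑ σ ∈ (cl G Finset.univ).filter (fun σ => σ.card = 1), (1 + T σ) =
      ∑ σ ∈ (cl G Finset.univ).filter (fun σ => σ.card = 1), (1 : ℤ) +
      ∑ σ ∈ (cl G Finset.univ).filter (fun σ => σ.card = 1), T σ := Finset.sum_add_distrib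
  have hC : ∑ σ ∈ (cl G Finset.univ).filter (fun σ => σ.card = 1), T σ =
      ∑ τ ∈ cl G Finset.univ, (-1 : ℤ) ^ τ.card * τ.card := by
    rw [← hII]
  have hD : 4 * (((Finset.univ : Finset (Simplex G)).filter (fun σ => Even σ.1.card)).card : ℤ) =
      ∑ σ ∈ (cl G Finset.univ).filter (fun σ => 2 ≤ σ.card), (2 + 2 * (-1 : ℤ) ^ σ.card) := by
    have h1 : 4 * (((Finset.univ : Finset (Simplex G)).filter
        (fun σ => Even σ.1.card)).card : ℤ) =
        ∑ σ : Simplex G, (fun s : Finset V => if Even s.card then (4 : ℤ) else 0) σ.1 := by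
      rw [← Finset.sum_filter, Finset.sum_const, nsmul_eq_mul, mul_comm]
    rw [h1, sum_simplex G (fun s : Finset V => if Even s.card then (4 : ℤ) else 0)]
    have h2 : ∑ σ ∈ (cl G Finset.univ).filter (fun σ => σ.card = 1),
        (fun s : Finset V => if Even s.card then (4 : ℤ) else 0) σ = 0 := by
      refine Finset.sum_eq_zero fun σ hσ => ?_
      rw [Finset.mem_filter] at hσ
      rw [hσ.2, if_neg (by decide)]
    rw [h2, add_zero]
    refine Finset.sum_congr rfl fun σ _ => ?_
    by_cases he : Even σ.card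
    · rw [if_pos he, he.neg_one_pow]; norm_num
    · rw [if_neg he, (Nat.not_even_iff_odd.1 he).neg_one_pow]; norm_num
  rw [hD, hA, hB, hC, Finset.sum_add_distrib, ← Finset.mul_sum]
  linarith

/-- the functional in terms of the `f`-vector -/
lemma eta_fvec {W : Type*} [Fintype W] [DecidableEq W] (H : SimpleGraph W) :
    ∑ x : W, chi H (usph H Finset.univ x) =
      ∑ k ∈ Finset.Icc 1 (Fintype.card W), (-1) ^ (k + 1) * ((k : ℤ) + 1) * (nu H Finset.univ k : ℤ) := by
  rw [sum_chi_usph H Finset.univ, cl, Finset.filter_filter, Finset.sum_filter, Finset.sum_powerset,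
    Finset.sum_range_succ']
  have h0 : ∑ s ∈ Finset.powersetCard 0 (Finset.univ : Finset W),
      (if H.IsClique (s : Set W) ∧ 2 ≤ s.card then (-1 : ℤ) ^ s.card * s.card else 0) = 0 := by
    rw [Finset.powersetCard_zero, Finset.sum_singleton]
    simp
  rw [h0, add_zero]
  have h1 : ∀ k, ∑ s ∈ Finset.powersetCard (k + 1) (Finset.univ : Finset W),
      (if H.IsClique (s : Set W) ∧ 2 ≤ s.card then (-1 : ℤ) ^ s.card * s.card else 0) =
      if 1 ≤ k then (-1) ^ (k + 1) * ((k : ℤ) + 1) * (nu H Finset.univ k : ℤ) else 0 := by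
    intro k
    by_cases hk : 1 ≤ k
    · rw [if_pos hk]
      have : ∀ s ∈ Finset.powersetCard (k + 1) (Finset.univ : Finset W),
          (if H.IsClique (s : Set W) ∧ 2 ≤ s.card then (-1 : ℤ) ^ s.card * s.card else 0) =
          if H.IsClique (s : Set W) then (-1 : ℤ) ^ (k + 1) * ((k : ℤ) + 1) else 0 := by
        intro s hs
        rw [Finset.mem_powersetCard] at hs
        have h2 : 2 ≤ s.card := by omega
        simp only [h2, and_true]
        rw [hs.2]
        push_cast
        rfl
      have hnu : (nu H Finset.univ k : ℤ) = (((Finset.powersetCard (k + 1) Finset.univ).filter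
          (fun s : Finset W => H.IsClique (s : Set W))).card : ℤ) := by
        unfold nu
        congr!
      rw [Finset.sum_congr rfl this, ← Finset.sum_filter, Finset.sum_const, hnu, nsmul_eq_mul]
      ring
    · rw [if_neg hk]
      refine Finset.sum_eq_zero fun s hs => ?_
      rw [Finset.mem_powersetCard] at hs
      rw [if_neg]
      omega
  rw [Finset.sum_congr rfl fun k _ => h1 k, ← Finset.sum_filter, Finset.card_univ]
  refine Finset.sum_subset_zero_on_sdiff ?_ ?_ (fun _ _ => rfl)
  · intro k hk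
    rw [Finset.mem_filter, Finset.mem_range] at hk
    rw [Finset.mem_Icc]
    omega
  · intro k hk
    rw [Finset.mem_sdiff, Finset.mem_Icc, Finset.mem_filter, Finset.mem_range] at hk
    have hk' : k = Fintype.card W := by
      by_contra hne
      exact hk.2 ⟨by omega, hk.1.1⟩
    have : nu H Finset.univ k = 0 := by
      have he : (Finset.univ : Finset W).powersetCard (k + 1) = ∅ := by
        rw [Finset.powersetCard_eq_empty, Finset.card_univ]
        omega
      unfold nu
      rw [he]
      simp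
    rw [this]
    simp

end Pool.Agent.X159.Variety
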